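import Pool.Agent.LibH11.Berry.RDefs

/-!
Moments of the local waves over regions of the surface and in fixed directions.
-/

open MeasureTheory Filter Topology Set UpperHalfPlane

namespace Berry

noncomputable section

/-- the mixed moment of order `k` of the local waves at the points `x 0, …, x (k - 1)` tends to `v`
over every region of the surface (test functions `ζ` in the upper half plane, not random frames) and
in every fixed direction `θ` of the frame -/
def LocMoment (ρ : ℍ → ℝ) (φ : ℕ → ℍ → ℝ) (m : ℕ → ℝ) {k : ℕ} (x : Fin k → ℂ) (v : ℝ) : Prop :=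
  ∀ ζ : ℂ → ℝ, Continuous ζ → HasCompactSupport ζ → tsupport ζ ⊆ {w | 0 < w.im} → ∀ θ : ℝ,
    Tendsto (fun n => ∫ z : ℂ, ζ z * ∏ i, rWave ρ (φ n) (m n) (x i) (ofComplex z, θ)) atTop
      (𝓝 (v * ∫ z : ℂ, ζ z))

/-- **Gaussian moments up to order four in every region and every direction**: all mixed moments of
order at most four of the local waves, over every region of the surface and in every fixed direction,
converge to those of the Gaussian wave with covariance `K`. -/
def RLocalGauss (ρ : ℍ → ℝ) (φ : ℕ → ℍ → ℝ) (m : ℕ → ℝ) : Prop :=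
  (∀ x : Fin 1 → ℂ, LocMoment ρ φ m x 0) ∧
  (∀ x : Fin 2 → ℂ, LocMoment ρ φ m x (waveK (x 0 - x 1))) ∧
  (∀ x : Fin 3 → ℂ, LocMoment ρ φ m x 0) ∧
  (∀ x : Fin 4 → ℂ, LocMoment ρ φ m x (waveK (x 0 - x 1) * waveK (x 2 - x 3)
    + waveK (x 0 - x 2) * waveK (x 1 - x 3) + waveK (x 0 - x 3) * waveK (x 1 - x 2)))

end

end Berry
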