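import Pool.Agent.LibH11.QEV.Global2

/-!
Correlations of the local waves on closed surfaces from the local formulas.
-/

open MeasureTheory Filter Topology Set MatrixGroups UpperHalfPlane
open scoped ContDiff

namespace QE

noncomputable section

variable {Γ : Subgroup SL(2, ℝ)} {ρ : ℍ → ℝ} {D : Set ℍ}

/-- the weight of the metric -/
abbrev gw (ρ : ℍ → ℝ) : ℂ → ℝ := fun z => Real.exp (2 * ρ (ofComplex z)) / z.im ^ 2

lemma wt_gw {z : ℂ} (hz : 0 < z.im) :
    wt (gw ρ) z = (z.im : ℂ) * (Real.exp (-ρ (ofComplex z)) : ℂ) := by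
  unfold wt gw
  have h1 : Real.sqrt (Real.exp (2 * ρ (ofComplex z)) / z.im ^ 2)
      = Real.exp (ρ (ofComplex z)) / z.im := by
    rw [Real.sqrt_div (Real.exp_pos _).le, Real.sqrt_sq hz.le]
    congr 1
    rw [two_mul, Real.exp_add, Real.sqrt_mul_self (Real.exp_pos _).le]
  rw [h1, inv_div, Real.exp_neg]
  push_cast
  rw [div_eq_mul_inv]

lemma lip_of_smooth {f : ℂ → ℂ} {U K : Set ℂ} (hU : IsOpen U) (hf : ContDiffOn ℝ ∞ f U)
    (hK : IsCompact K) (hKU : K ⊆ U) : ∃ L : ℝ, ∀ z ∈ K, ∀ w ∈ K, ‖f z - f w‖ ≤ L * ‖z - w‖ := by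
  have h1 : LocallyLipschitzOn K f := by
    intro z hz
    have h2 : ContDiffAt ℝ 1 f z := (hf.contDiffAt (hU.mem_nhds (hKU hz))).of_le (by
      exact_mod_cast le_top)
    obtain ⟨C, t, ht, hC⟩ := h2.exists_lipschitzOnWith
    exact ⟨C, t, mem_nhdsWithin_of_mem_nhds ht, hC⟩
  obtain ⟨C, hC⟩ := h1.exists_lipschitzOnWith_of_compact hK
  refine ⟨C, fun z hz w hw => ?_⟩
  have := hC.dist_le_mul z hz w hw
  rwa [dist_eq_norm, dist_eq_norm] at this

lemma cont_ofComplex {f : ℍ → ℝ} (hf : Continuous f) :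
    ContinuousOn (fun z : ℂ => f (ofComplex z)) HH := fun z hz =>
  (hf.continuousAt.comp (contMDiffAt_ofComplex (n := 0) hz).continuousAt).continuousWithinAt

lemma sec_cont {E : Type*} [TopologicalSpace E] {H : ℝ × ℂ → E} {K : Set ℂ}
    (hH : ContinuousOn H (univ ×ˢ K)) (θ : ℝ) : ContinuousOn (fun z => H (θ, z)) K := by
  refine ContinuousOn.comp hH (Continuous.continuousOn ?_) fun z hz => ?_
  · exact Continuous.prodMk_right θ
  · exact ⟨mem_univ _, hz⟩

lemma disp_cont {H : ℝ × ℂ → ℂ} {K : Set ℂ} (hH : ContinuousOn H (univ ×ˢ K)) {a : ℂ → ℂ}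
    (ha : ContinuousOn a K) (c : ℂ) (θ : ℝ) : ContinuousOn (fun z => z + c * a z * H (θ, z)) K :=
  continuousOn_id.add ((continuousOn_const.mul ha).mul (sec_cont hH θ))

/-- the hypothesis of the reduction: the local formula -/
def LocLim (ρ : ℍ → ℝ) (h : ℕ → ℝ) (φ : ℕ → ℍ → ℝ) {k : ℕ} (x : Fin k → ℂ) (α β : ℝ) : Prop :=
  ∀ (K : Set ℂ) (δ : ℝ), IsCompact K → 0 < δ → Metric.cthickening (2 * δ) K ⊆ HH →
    ∀ ξ : Fin k → ℕ → ℝ → ℂ → ℂ, (∀ i, Disp h (wt (gw ρ)) K 2 (x i) (ξ i)) →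
    ∀ ψ : ℂ → ℝ, ContDiff ℝ ∞ ψ → HasCompactSupport ψ → tsupport ψ ⊆ K →
    Tendsto (fun n => (∫ θ, (∫ z, (ψ z : ℂ) * ∏ i, (φ n (ofComplex (z + h n * wt (gw ρ) z
        * ξ i n θ z)) : ℂ)) ∂ang)
      - ((α : ℂ) * (∫ z, (ψ z : ℂ)) + (β : ℂ) * ∫ z, (ψ z : ℂ) * (φ n (ofComplex z) : ℂ) ^ 4))
      atTop (𝓝 0)

/-- the setting -/
structure WS (Γ : Subgroup SL(2, ℝ)) (ρ : ℍ → ℝ) (D : Set ℍ) (φ : ℕ → ℍ → ℝ) (m h : ℕ → ℝ)
    (g' : ℂ → ℂ) : Prop where
  geo : Berry.Geo Γ ρ D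
  coc : ∃ K : Set ℍ, IsCompact K ∧ ∀ z, ∃ γ ∈ Γ, γ • z ∈ K
  rc : Continuous ρ
  pc : ∀ n, Continuous (φ n)
  pinv : ∀ n, ∀ γ ∈ Γ, ∀ z, φ n (γ • z) = φ n z
  mpos : ∀ n, 0 < m n
  mlim : Tendsto m atTop atTop
  hm : ∀ n, h n = 1 / m n
  set : Setup HH g' (wt (gw ρ)) h (fun n z => (φ n (ofComplex z) : ℂ))

/-- the weight of the frames -/
def em (ρ : ℍ → ℝ) : ℂ → ℝ := fun w => Real.exp (-ρ (ofComplex w))

variable {φ : ℕ → ℍ → ℝ} {m h : ℕ → ℝ} {g' : ℂ → ℂ}

namespace WS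

variable {k : ℕ}

/-- the points stay in the upper half plane -/
lemma pt (W : WS Γ ρ D φ m h g') (x : Fin k → ℂ) : ∀ᶠ n in atTop, ∀ i, ∀ z : ℍ,
    ‖x i / ((m n * Real.exp (ρ z) : ℝ) : ℂ)‖ < 1 := by
  obtain ⟨R, hR⟩ := W.geo.bdd
  rw [eventually_all]
  intro i
  filter_upwards [W.mlim.eventually_gt_atTop (‖x i‖ * Real.exp R)] with n hn z
  rw [norm_div, Complex.norm_real, Real.norm_of_nonneg (by have := (W.mpos n).le; positivity),
    div_lt_one (mul_pos (W.mpos n) (Real.exp_pos _))]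
  have h1 : Real.exp (-R) ≤ Real.exp (ρ z) := Real.exp_le_exp.2 (abs_le.1 (hR z)).1
  calc ‖x i‖ = ‖x i‖ * Real.exp R * Real.exp (-R) := by
        rw [mul_assoc, ← Real.exp_add, add_neg_cancel, Real.exp_zero, mul_one]
    _ < m n * Real.exp (-R) := by gcongr
    _ ≤ m n * Real.exp (ρ z) := by have := (W.mpos n).le; gcongr

lemma wc (W : WS Γ ρ D φ m h g') (x : Fin k → ℂ) :
    ∀ᶠ n in atTop, ∀ i, Continuous (Berry.rWave ρ (φ n) (m n) (x i)) := by
  filter_upwards [W.pt x] with n hn i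
  exact rWave_continuous (W.pc n) W.rc (hn i) (W.mpos n).ne'

lemma ac (W : WS Γ ρ D φ m h g') (x : Fin k → ℂ) :
    ∀ᶠ n in atTop, Continuous (angProd ρ (φ n) (m n) x) := by
  filter_upwards [W.pt x] with n hn
  exact angProd_continuous (W.pc n) W.rc hn (W.mpos n).ne'

/-- displacements on compact sets -/
lemma disp (W : WS Γ ρ D φ m h g') {K : Set ℂ} (hKc : IsCompact K) (hKU : K ⊆ HH) (y : ℂ) :
    Disp h (wt (gw ρ)) K 2 y (frXi h (em ρ) y) := by
  obtain ⟨L, hL⟩ := lip_of_smooth isOpen_HH W.set.ha hKc hKU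
  have hec : ContinuousOn (em ρ) K :=
    Real.continuous_exp.comp_continuousOn ((cont_ofComplex W.rc).mono hKU).neg
  obtain ⟨M, hM⟩ := hKc.exists_bound_of_continuousOn hec
  refine disp_frame W.set.hpos W.set.hlim hL (b := fun z => z.im) (fun z _ w _ => ?_)
    (fun z hz => wt_gw (hKU hz)) hec (fun z hz => hM z hz) y
  have := Complex.abs_im_le_norm (z - w)
  rwa [Complex.sub_im] at this

lemma val (W : WS Γ ρ D φ m h g') (x : Fin k → ℂ) {K : Set ℂ} (hKU : K ⊆ HH) :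
    ∀ᶠ n in atTop, ∀ i, ∀ θ, ∀ z ∈ K,
      Berry.rWave ρ (φ n) (m n) (x i) (ofComplex z, θ)
        = φ n (ofComplex (z + h n * wt (gw ρ) z * frXi h (em ρ) (x i) n θ z)) := by
  filter_upwards [W.pt x] with n hn i θ z hz
  exact rWave_eq_disp (W.mpos n) (x i) θ (hKU hz) (hn i _) (W.hm n) (wt_gw (hKU hz))

/-- joint continuity -/
lemma jc (W : WS Γ ρ D φ m h g') (x : Fin k → ℂ) {K : Set ℂ} (hKU : K ⊆ HH) :
    ∀ᶠ n in atTop, ∀ i, ContinuousOn
      (fun p : ℝ × ℂ => Berry.rWave ρ (φ n) (m n) (x i) (ofComplex p.2, p.1)) (univ ×ˢ K) := by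
  filter_upwards [W.wc x] with n hn i p hp
  have h1 : ContinuousAt (ofComplex : ℂ → ℍ) p.2 :=
    (contMDiffAt_ofComplex (n := 0) (hKU hp.2)).continuousAt
  have h2 : ContinuousAt (fun p : ℝ × ℂ => ((ofComplex p.2, p.1) : ℍ × ℝ)) p :=
    (h1.comp continuousAt_snd).prodMk continuousAt_fst
  exact ((hn i).continuousAt.comp h2).continuousWithinAt

lemma bdd4 (W : WS Γ ρ D φ m h g') {K : Set ℂ} (hKc : IsCompact K) (hKU : K ⊆ HH) :
    ∃ M : ℝ, ∀ᶠ n in atTop, ∫ z in K, φ n (ofComplex z) ^ 4 ≤ M := by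
  obtain ⟨M, hM⟩ := W.set.tame.bdd4 K hKc hKU
  refine ⟨M, hM.mono fun n hn => ?_⟩
  have hn4 : ∀ z : ℂ, ‖(φ n (ofComplex z) : ℂ)‖ ^ 4 = φ n (ofComplex z) ^ 4 := fun z => by
    rw [Complex.norm_real, Real.norm_eq_abs]
    exact Even.pow_abs ⟨2, rfl⟩ _
  simpa only [hn4] using hn

/-- fourth moments of the displaced values -/
lemma four (W : WS Γ ρ D φ m h g') (x : Fin k → ℂ) {K : Set ℂ} (hKc : IsCompact K) (hKU : K ⊆ HH) :
    ∃ M : ℝ, 0 ≤ M ∧ ∀ᶠ n in atTop, ∀ i, ∀ θ,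
      ∫ z in K, Berry.rWave ρ (φ n) (m n) (x i) (ofComplex z, θ) ^ 4 ≤ M := by
  obtain ⟨δ, hδ, hδU⟩ := hKc.exists_cthickening_subset_open isOpen_HH hKU
  set K₁ := Metric.cthickening (δ / 2) K with hK₁def
  have hK₁ : IsCompact K₁ := hKc.cthickening
  have hK₁U : K₁ ⊆ HH := (Metric.cthickening_mono (by linarith) K).trans hδU
  have hδU' : Metric.cthickening (2 * (δ / 2)) K ⊆ HH := by
    rw [mul_div_cancel₀ _ (two_ne_zero)]; exact hδU
  obtain ⟨M, hM⟩ := W.bdd4 hK₁ hK₁U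
  refine ⟨4 * |M|, by positivity, ?_⟩
  have hseg : ∀ᶠ n in atTop, ∀ i, ∀ θ, ∀ z ∈ K, ∀ t ∈ Icc (0 : ℝ) 1,
      z + t • ((h n : ℂ) * wt (gw ρ) z * frXi h (em ρ) (x i) n θ z) ∈ K₁ :=
    eventually_all.2 fun i => W.set.seg_mem hKc (half_pos hδ) hδU' (W.disp hKc hKU (x i))
  have hdc : ∀ᶠ n in atTop, ∀ i, ContinuousOn (fun p : ℝ × ℂ => frXi h (em ρ) (x i) n p.1 p.2)
      (univ ×ˢ K) := eventually_all.2 fun i => (W.disp hKc hKU (x i)).cont
  have hdl : ∀ᶠ n in atTop, ∀ i, ∀ θ, ∀ z ∈ K, ∀ w ∈ K,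
      ‖(h n : ℂ) * wt (gw ρ) z * frXi h (em ρ) (x i) n θ z - (h n : ℂ) * wt (gw ρ) w
        * frXi h (em ρ) (x i) n θ w‖ ≤ (1 / 2) * ‖z - w‖ :=
    eventually_all.2 fun i => (W.disp hKc hKU (x i)).lip
  filter_upwards [hM, W.val x hKU, hseg, hdc, hdl] with n n1 n3 n5 n6 n7 i θ
  have cφ : ContinuousOn (fun z : ℂ => φ n (ofComplex z)) HH := cont_ofComplex (W.pc n)
  have hexp := expand_of_lip (v := fun z => (h n : ℂ) * wt (gw ρ) z * frXi h (em ρ) (x i) n θ z)
    (n7 i θ) (t := 1) ⟨zero_le_one, le_rfl⟩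
  simp only [one_smul] at hexp
  have hcT : ContinuousOn (fun z => z + (h n : ℂ) * wt (gw ρ) z * frXi h (em ρ) (x i) n θ z) K :=
    disp_cont (n6 i) (W.set.ha.continuousOn.mono hKU) (h n : ℂ) θ
  have hmem : MapsTo (fun z => z + (h n : ℂ) * wt (gw ρ) z * frXi h (em ρ) (x i) n θ z) K K₁ := by
    intro z hz
    have := n5 i θ z hz 1 ⟨zero_le_one, le_rfl⟩
    rwa [one_smul] at this
  have h1 := integral_comp_le hKc hK₁ hexp hmem hcT
    (f := fun z => φ n (ofComplex z) ^ 4) ((cφ.mono hK₁U).pow 4) (fun z _ => by positivity)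
  calc ∫ z in K, Berry.rWave ρ (φ n) (m n) (x i) (ofComplex z, θ) ^ 4
      = ∫ z in K, φ n (ofComplex (z + (h n : ℂ) * wt (gw ρ) z * frXi h (em ρ) (x i) n θ z)) ^ 4 := by
        refine setIntegral_congr_fun hKc.measurableSet fun z hz => ?_
        beta_reduce
        rw [n3 i θ z hz]
    _ ≤ 4 * ∫ z in K₁, φ n (ofComplex z) ^ 4 := h1
    _ ≤ 4 * |M| := by
        have := n1.trans (le_abs_self M)
        linarith

lemma real_int_ang {K : Set ℂ} (hK : IsCompact K) {H : ℝ × ℂ → ℝ}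
    (hH : ContinuousOn H (univ ×ˢ K)) : Integrable H (ang.prod (volume.restrict K)) := by
  have := (int_ang hK (Complex.continuous_ofReal.comp_continuousOn hH)).re
  simpa using this

lemma int_ang_cont {f : ℝ → ℝ} (hf : Continuous f) : Integrable f ang := by
  have h2 : Integrable f (volume.restrict (Ioc (0 : ℝ) (2 * Real.pi))) :=
    (hf.continuousOn.integrableOn_compact isCompact_Icc).mono_set Ioc_subset_Icc_self
  have h3 : volume (Ioc (0 : ℝ) (2 * Real.pi)) ≠ 0 := by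
    rw [Real.volume_Ioc, Ne, ENNReal.ofReal_eq_zero, not_le, sub_zero]; positivity
  exact h2.smul_measure (ENNReal.inv_ne_top.2 h3)

/-- the bound for the products -/
lemma angProd_bdd (W : WS Γ ρ D φ m h g') (x : Fin k → ℂ)
    (hk : ∀ a : Fin k → ℝ, |∏ i, a i| ≤ 1 + ∑ i, a i ^ 4) {K : Set ℂ} (hKc : IsCompact K)
    (hKU : K ⊆ HH) : ∃ C : ℝ, ∀ᶠ n in atTop,
      ∫ z in K, |angProd ρ (φ n) (m n) x (ofComplex z)| ≤ C := by
  obtain ⟨M, hM0, hM⟩ := W.four x hKc hKU
  refine ⟨(volume K).toReal + ∑ _i : Fin k, M, ?_⟩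
  filter_upwards [hM, W.jc x hKU, W.wc x] with n n1 n4 n9
  have cH : ContinuousOn (fun p : ℝ × ℂ => 1 + ∑ i, Berry.rWave ρ (φ n) (m n) (x i)
      (ofComplex p.2, p.1) ^ 4) (univ ×ˢ K) :=
    continuousOn_const.add (continuousOn_finset_sum _ fun i _ => (n4 i).pow 4)
  have iH := real_int_ang hKc cH
  calc ∫ z in K, |angProd ρ (φ n) (m n) x (ofComplex z)|
      ≤ ∫ z in K, ∫ θ, (1 + ∑ i, Berry.rWave ρ (φ n) (m n) (x i) (ofComplex z, θ) ^ 4) ∂ang := by
        refine integral_mono_of_nonneg (Eventually.of_forall fun z => abs_nonneg _)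
          iH.integral_prod_right (Eventually.of_forall fun z => ?_)
        unfold angProd
        beta_reduce
        rw [← Real.norm_eq_abs]
        refine norm_integral_le_of_norm_le (int_ang_cont ?_) (Eventually.of_forall fun θ => ?_)
        · exact continuous_const.add (continuous_finset_sum _ fun i _ =>
            ((n9 i).comp (Continuous.prodMk_right (ofComplex z))).pow 4)
        · rw [Real.norm_eq_abs]; exact hk _
    _ = ∫ θ, (∫ z in K, (1 + ∑ i, Berry.rWave ρ (φ n) (m n) (x i) (ofComplex z, θ) ^ 4)) ∂ang :=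
        (integral_integral_swap iH).symm
    _ ≤ ∫ _θ : ℝ, ((volume K).toReal + ∑ _i : Fin k, M) ∂ang := by
        refine integral_mono_of_nonneg (Eventually.of_forall fun θ =>
          integral_nonneg fun z => by positivity) (integrable_const _)
          (Eventually.of_forall fun θ => ?_)
        beta_reduce
        have hci : ∀ i, IntegrableOn (fun z => Berry.rWave ρ (φ n) (m n) (x i)
            (ofComplex z, θ) ^ 4) K := fun i => by
          exact ContinuousOn.integrableOn_compact hKc (ContinuousOn.pow (sec_cont (n4 i) θ) 4)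
        have i1 : IntegrableOn (fun _ : ℂ => (1 : ℝ)) K :=
          continuousOn_const.integrableOn_compact hKc
        rw [integral_add i1 (integrable_finset_sum _ fun i _ => hci i),
          integral_finset_sum _ fun i _ => hci i, integral_const, smul_eq_mul, mul_one,
          measureReal_restrict_apply_univ]
        exact add_le_add le_rfl (Finset.sum_le_sum fun i _ => n1 i θ)
    _ = _ := by simp

/-- the bound for the defects -/
lemma defect_bdd (W : WS Γ ρ D φ m h g') (x : Fin k → ℂ)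
    (hk : ∀ a : Fin k → ℝ, |∏ i, a i| ≤ 1 + ∑ i, a i ^ 4) (α β : ℝ) {K : Set ℂ}
    (hKc : IsCompact K) (hKU : K ⊆ HH) : ∃ C : ℝ, ∀ᶠ n in atTop,
      ∫ z in K, |angProd ρ (φ n) (m n) x (ofComplex z) - (α + β * φ n (ofComplex z) ^ 4)| ≤ C := by
  obtain ⟨C, hC⟩ := W.angProd_bdd x hk hKc hKU
  obtain ⟨M, hM⟩ := W.bdd4 hKc hKU
  refine ⟨C + (|α| * (volume K).toReal + |β| * M), ?_⟩
  filter_upwards [hC, hM, W.ac x] with n n1 n2 n8
  have cφ : ContinuousOn (fun z : ℂ => φ n (ofComplex z)) HH := cont_ofComplex (W.pc n)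
  have iA : IntegrableOn (fun z => |angProd ρ (φ n) (m n) x (ofComplex z)|) K :=
    ((cont_ofComplex n8).mono hKU).abs.integrableOn_compact hKc
  have i4 : IntegrableOn (fun z : ℂ => |β| * φ n (ofComplex z) ^ 4) K :=
    (continuousOn_const.mul ((cφ.mono hKU).pow 4)).integrableOn_compact hKc
  have i0 : IntegrableOn (fun _ : ℂ => |α|) K := continuousOn_const.integrableOn_compact hKc
  have iC : IntegrableOn (fun z : ℂ => |α| + |β| * φ n (ofComplex z) ^ 4) K := i0.add i4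
  calc ∫ z in K, |angProd ρ (φ n) (m n) x (ofComplex z) - (α + β * φ n (ofComplex z) ^ 4)|
      ≤ ∫ z in K, (|angProd ρ (φ n) (m n) x (ofComplex z)|
          + (|α| + |β| * φ n (ofComplex z) ^ 4)) := by
        refine integral_mono_of_nonneg (Eventually.of_forall fun z => abs_nonneg _)
          (iA.add iC) (Eventually.of_forall fun z => ?_)
        beta_reduce
        refine (abs_sub _ _).trans (add_le_add le_rfl ((abs_add_le _ _).trans ?_))
        rw [abs_mul, abs_of_nonneg (by positivity : 0 ≤ φ n (ofComplex z) ^ 4)]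
    _ = (∫ z in K, |angProd ρ (φ n) (m n) x (ofComplex z)|)
          + (|α| * (volume K).toReal + |β| * ∫ z in K, φ n (ofComplex z) ^ 4) := by
        rw [integral_add iA iC, integral_add i0 i4, integral_const_mul, integral_const,
          smul_eq_mul, measureReal_restrict_apply_univ]
        unfold Measure.real
        ring
    _ ≤ _ := by gcongr

/-- the local limit -/
lemma defect_loc (W : WS Γ ρ D φ m h g') (x : Fin k → ℂ) {α β : ℝ} (hloc : LocLim ρ h φ x α β)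
    {ψ : ℂ → ℝ} (hψ : ContDiff ℝ ∞ ψ) (hψs : HasCompactSupport ψ) (hψU : tsupport ψ ⊆ HH) :
    Tendsto (fun n => ∫ z, ψ z * (angProd ρ (φ n) (m n) x (ofComplex z)
      - (α + β * φ n (ofComplex z) ^ 4))) atTop (𝓝 0) := by
  set K := tsupport ψ with hKdef
  have hKc : IsCompact K := hψs
  obtain ⟨δ, hδ, hδU⟩ := hKc.exists_cthickening_subset_open isOpen_HH hψU
  have hδU' : Metric.cthickening (2 * (δ / 2)) K ⊆ HH := by
    rw [mul_div_cancel₀ _ (two_ne_zero)]; exact hδU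
  have h1 := hloc K (δ / 2) hKc (half_pos hδ) hδU' (fun i => frXi h (em ρ) (x i))
    (fun i => W.disp hKc hψU (x i)) ψ hψ hψs le_rfl
  have h2 : Tendsto (fun n => ((∫ z, ψ z * (angProd ρ (φ n) (m n) x (ofComplex z)
      - (α + β * φ n (ofComplex z) ^ 4)) : ℝ) : ℂ)) atTop (𝓝 0) := by
    refine h1.congr' ?_
    filter_upwards [W.val x hψU, W.jc x hψU, W.ac x] with n n1 n2 n3
    have hset : ∀ f : ℂ → ℝ, ∫ z, ψ z * f z = ∫ z in K, ψ z * f z := by
      intro f
      rw [setIntegral_eq_integral_of_forall_compl_eq_zero]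
      intro z hz
      rw [image_eq_zero_of_notMem_tsupport hz, zero_mul]
    have cψ : ContinuousOn (fun p : ℝ × ℂ => ψ p.2) (univ ×ˢ K) :=
      (hψ.continuous.comp continuous_snd).continuousOn
    have cH : ContinuousOn (fun p : ℝ × ℂ => ψ p.2 * ∏ i, Berry.rWave ρ (φ n) (m n) (x i)
        (ofComplex p.2, p.1)) (univ ×ˢ K) :=
      cψ.mul (continuousOn_finset_prod _ fun i _ => n2 i)
    have iH := real_int_ang hKc cH
    have e1 : ∀ θ : ℝ, ∫ z, (ψ z : ℂ) * ∏ i, (φ n (ofComplex (z + h n * wt (gw ρ) z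
        * frXi h (em ρ) (x i) n θ z)) : ℂ)
        = ((∫ z in K, ψ z * ∏ i, Berry.rWave ρ (φ n) (m n) (x i) (ofComplex z, θ) : ℝ) : ℂ) := by
      intro θ
      rw [← hset]
      refine Eq.trans ?_ (integral_ofReal (𝕜 := ℂ) (μ := volume) (f := fun z : ℂ => ψ z
        * ∏ i, Berry.rWave ρ (φ n) (m n) (x i) (ofComplex z, θ)))
      refine integral_congr_ae (Eventually.of_forall fun z => ?_)
      change _ = ((ψ z * ∏ i, Berry.rWave ρ (φ n) (m n) (x i) (ofComplex z, θ) : ℝ) : ℂ)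
      beta_reduce
      by_cases hz : z ∈ K
      · rw [Complex.ofReal_mul, Complex.ofReal_prod]
        congr 1
        refine Finset.prod_congr rfl fun i _ => ?_
        rw [n1 i θ z hz]
      · rw [image_eq_zero_of_notMem_tsupport hz]; simp
    have e2 : ∫ θ, (∫ z, (ψ z : ℂ) * ∏ i, (φ n (ofComplex (z + h n * wt (gw ρ) z
        * frXi h (em ρ) (x i) n θ z)) : ℂ)) ∂ang
        = ((∫ z, ψ z * angProd ρ (φ n) (m n) x (ofComplex z) : ℝ) : ℂ) := by
      simp only [e1]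
      refine (integral_ofReal (𝕜 := ℂ) (μ := ang) (f := fun θ : ℝ => ∫ z in K, ψ z
        * ∏ i, Berry.rWave ρ (φ n) (m n) (x i) (ofComplex z, θ))).trans ?_
      rw [integral_integral_swap iH, hset]
      congr 1
      refine integral_congr_ae (Eventually.of_forall fun z => ?_)
      unfold angProd
      beta_reduce
      rw [integral_const_mul]
    have j1 : Integrable (fun z => ψ z * angProd ρ (φ n) (m n) x (ofComplex z)) :=
      (Surf.continuous_cut_mul hψ.continuous hψU n3).integrable_of_hasCompactSupport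
        hψs.mul_right
    have j2 : Integrable ψ := hψ.continuous.integrable_of_hasCompactSupport hψs
    have j3 : Integrable (fun z => ψ z * φ n (ofComplex z) ^ 4) :=
      (Surf.continuous_cut_mul hψ.continuous hψU ((W.pc n).pow 4)).integrable_of_hasCompactSupport
        hψs.mul_right
    have j4 : Integrable (fun z => α * ψ z + β * (ψ z * φ n (ofComplex z) ^ 4)) :=
      (j2.const_mul α).add (j3.const_mul β)
    have e3 : ∫ z, ψ z * (angProd ρ (φ n) (m n) x (ofComplex z) - (α + β * φ n (ofComplex z) ^ 4))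
        = (∫ z, ψ z * angProd ρ (φ n) (m n) x (ofComplex z))
          - (α * (∫ z, ψ z) + β * ∫ z, ψ z * φ n (ofComplex z) ^ 4) := by
      rw [← integral_const_mul, ← integral_const_mul, ← integral_add (j2.const_mul α)
        (j3.const_mul β), ← integral_sub j1 j4]
      congr 1; funext z; ring
    have e4 : ∫ z, (ψ z : ℂ) = ((∫ z, ψ z : ℝ) : ℂ) := integral_ofReal
    have e5 : ∫ z, (ψ z : ℂ) * (φ n (ofComplex z) : ℂ) ^ 4
        = ((∫ z, ψ z * φ n (ofComplex z) ^ 4 : ℝ) : ℂ) := by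
      refine Eq.trans ?_ (integral_ofReal (𝕜 := ℂ) (μ := volume) (f := fun z : ℂ => ψ z
        * φ n (ofComplex z) ^ 4))
      refine integral_congr_ae (Eventually.of_forall fun z => ?_)
      change _ = ((ψ z * φ n (ofComplex z) ^ 4 : ℝ) : ℂ)
      push_cast; rfl
    rw [e2, e3, e4, e5]
    push_cast
    ring
  have h3 := (Complex.continuous_re.tendsto 0).comp h2
  simpa [Function.comp_def] using h3

/-- **Correlations of the local waves from the local formulas.** -/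
theorem wrap [Countable Γ] (W : WS Γ ρ D φ m h g') (x : Fin k → ℂ)
    (hk : ∀ a : Fin k → ℝ, |∏ i, a i| ≤ 1 + ∑ i, a i ^ 4) {α β : ℝ} (hloc : LocLim ρ h φ x α β) :
    Tendsto (fun n => (∫ p, ∏ i, Berry.rWave ρ (φ n) (m n) (x i) p ∂(Berry.rFrameProb ρ D))
      - (α + β * Berry.rAvg ρ D fun z => φ n z ^ 4)) atTop (𝓝 0) := by
  have main := global_lim (F := fun n z => angProd ρ (φ n) (m n) x z - (α + β * φ n z ^ 4))
    W.geo W.rc W.coc
    ((W.ac x).mono fun n hn => hn.sub (continuous_const.add (continuous_const.mul ((W.pc n).pow 4))))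
    (fun n γ hγ z => by
      beta_reduce
      rw [angProd_inv (W.pinv n) W.geo.inv (m n) x γ hγ z, W.pinv n γ hγ z])
    (fun K hKc hKU => W.defect_bdd x hk α β hKc hKU)
    (fun ψ hψ hψs hψU => W.defect_loc x hloc hψ hψs hψU)
  refine main.congr' ?_
  filter_upwards [W.wc x, W.ac x] with n hn1 hn2
  obtain ⟨C₁, hC₁⟩ := Berry.bdd_of_cocompact hn2
    (angProd_inv (W.pinv n) W.geo.inv (m n) x) W.coc
  obtain ⟨C₂, hC₂⟩ := Berry.bdd_of_cocompact (W.pc n) (W.pinv n) W.coc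
  have hcond : IsProbabilityMeasure (ProbabilityTheory.cond (Berry.area ρ) D) :=
    ProbabilityTheory.cond_isProbabilityMeasure_of_finite (Berry.area_ne_zero W.geo)
      (Berry.area_ne_top W.geo)
  have i1 : Integrable (angProd ρ (φ n) (m n) x) (ProbabilityTheory.cond (Berry.area ρ) D) :=
    Integrable.of_bound hn2.aestronglyMeasurable C₁ (Eventually.of_forall fun z => by
      rw [Real.norm_eq_abs]; exact hC₁ z)
  have i2 : Integrable (fun z => φ n z ^ 4) (ProbabilityTheory.cond (Berry.area ρ) D) :=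
    Integrable.of_bound ((W.pc n).pow 4).aestronglyMeasurable (C₂ ^ 4)
      (Eventually.of_forall fun z => by
        rw [Real.norm_eq_abs, abs_pow]
        exact pow_le_pow_left₀ (abs_nonneg _) (hC₂ z) 4)
  have i3 : Integrable (fun p => ∏ i, Berry.rWave ρ (φ n) (m n) (x i) p)
      ((ProbabilityTheory.cond (Berry.area ρ) D).prod ang) := by
    refine Integrable.of_bound (continuous_finset_prod _ fun i _ => hn1 i).aestronglyMeasurable
      (∏ _i : Fin k, |C₂|) (Eventually.of_forall fun p => ?_)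
    rw [norm_prod]
    refine Finset.prod_le_prod (fun _ _ => norm_nonneg _) fun i _ => ?_
    rw [Real.norm_eq_abs]
    exact (hC₂ _).trans (le_abs_self _)
  have i4 : Integrable (fun z => α + β * φ n z ^ 4) (ProbabilityTheory.cond (Berry.area ρ) D) :=
    (integrable_const α).add (i2.const_mul β)
  have e1 : ∫ p, ∏ i, Berry.rWave ρ (φ n) (m n) (x i) p ∂(Berry.rFrameProb ρ D)
      = ∫ z, angProd ρ (φ n) (m n) x z ∂(ProbabilityTheory.cond (Berry.area ρ) D) := by
    unfold Berry.rFrameProb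
    rw [integral_prod _ i3]
    rfl
  have e2 : Berry.rAvg ρ D (fun z => angProd ρ (φ n) (m n) x z - (α + β * φ n z ^ 4))
      = (∫ z, angProd ρ (φ n) (m n) x z ∂(ProbabilityTheory.cond (Berry.area ρ) D))
        - ∫ z, (α + β * φ n z ^ 4) ∂(ProbabilityTheory.cond (Berry.area ρ) D) := integral_sub i1 i4
  have e3 : ∫ z, (α + β * φ n z ^ 4) ∂(ProbabilityTheory.cond (Berry.area ρ) D)
      = α + β * Berry.rAvg ρ D (fun z => φ n z ^ 4) := by
    rw [integral_add (integrable_const α) (i2.const_mul β), integral_const, integral_const_mul]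
    simp [Berry.rAvg]
  rw [e1, e2, e3]

end WS

end

end QE
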