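import Pool.Agent.LibH11.QEV.Mix2

/-!
All normalised sequences of eigenfunctions on closed surfaces: Gaussian correlations of order at most
four are equivalent to quantum ergodicity together with the fourth moment `3`.
-/

open MeasureTheory Filter Topology Set MatrixGroups UpperHalfPlane
open scoped ContDiff

namespace QE

noncomputable section

variable {Γ : Subgroup SL(2, ℝ)} {ρ : ℍ → ℝ} {D : Set ℍ}

/-- the inverse of the weight -/
lemma wt_inv {z : ℂ} (hz : 0 < z.im) :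
    (wt (gw ρ) z)⁻¹ = ((Real.exp (ρ (ofComplex z)) / z.im : ℝ) : ℂ) := by
  rw [wt_gw hz, ← Complex.ofReal_mul, ← Complex.ofReal_inv]
  congr 1
  rw [Real.exp_neg, mul_inv, inv_inv, div_eq_mul_inv, mul_comm]

/-- quantum ergodicity from the two-point functions of the jets -/
theorem quantum_of_two {φ : ℕ → ℍ → ℝ} {m : ℕ → ℝ} {N : ℕ} {g' : ℂ → ℂ}
    (W : WS Γ ρ D (fun n => φ (n + N)) (fun n => m (n + N)) (fun n => 1 / m (n + N)) g')
    (htwo : TwoPt ρ (fun n => φ (n + N)) (fun n => 1 / m (n + N))) : QuantumErgodic ρ φ m := by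
  intro j k ζ h1 h2 h3
  rw [← tendsto_add_atTop_iff_nat N]
  have hR := W.set.rep_mono (r := fun z => Real.exp (ρ (ofComplex z)) / z.im)
    (fun z hz => wt_inv hz) j k
  have hL := W.set.rep_lim htwo hR (ζ := ζ) ⟨h1, h2, h3⟩
  have e : ∀ z : ℂ, (1 / (2 * Real.pi) : ℂ) * ∫ θ in (0 : ℝ)..(2 * Real.pi),
      ((((Real.exp (ρ (ofComplex z)) / z.im * Real.cos θ) ^ j
        * (Real.exp (ρ (ofComplex z)) / z.im * Real.sin θ) ^ k : ℝ)) : ℂ)
      = ((1 / (2 * Real.pi) * ∫ θ in (0 : ℝ)..(2 * Real.pi),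
        (Real.exp (ρ (ofComplex z)) / z.im * Real.cos θ) ^ j
          * (Real.exp (ρ (ofComplex z)) / z.im * Real.sin θ) ^ k : ℝ) : ℂ) := by
    intro z
    rw [intervalIntegral.integral_ofReal, Complex.ofReal_mul]
    push_cast
    rfl
  simp only [e] at hL
  exact hL

/-- **Gaussian correlations up to order four imply quantum ergodicity.** -/
theorem quantum_of_gauss [Countable Γ] (hDm : MeasurableSet D)
    (hD : IsFundamentalDomain Γ D (volume : Measure ℍ))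
    (hK : ∃ K : Set ℍ, IsCompact K ∧ ∀ z, ∃ γ ∈ Γ, γ • z ∈ K)
    (hρ : ContDiffOn ℝ ∞ (fun w : ℂ => ρ (ofComplex w)) {w | 0 < w.im})
    (hρΓ : ∀ γ ∈ Γ, ∀ z, ρ (γ • z) = ρ z)
    {φ : ℕ → ℍ → ℝ} {m : ℕ → ℝ} (hφ : Berry.REigenSeq Γ ρ φ m)
    (hs : ∀ n, ContDiffOn ℝ ∞ (fun w : ℂ => φ n (ofComplex w)) {w | 0 < w.im})
    (hG : Berry.RGaussUpToFour ρ D φ m) : QuantumErgodic ρ φ m := by
  have S := Berry.surf_of_cocompact hD hDm hK (continuous_of_smooth hρ) hρΓ hφ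
  have h3 := four_zero S hG.2.2.2
  obtain ⟨N, W⟩ := ws_gen hDm hD hK hρ hρΓ hφ hs (C := 4)
    ((h3.eventually_lt_const (by norm_num : (3 : ℝ) < 4)).mono fun n hn => hn.le)
  have hshift : Tendsto (fun n : ℕ => n + N) atTop atTop := tendsto_add_atTop_nat N
  refine quantum_of_two W (W.two_of_gauss (fun y => ?_) fun y => ?_)
  · refine ((hG.2.1 (y 0) (y 1)).comp hshift).congr fun n => ?_
    simp only [Function.comp_apply, Fin.prod_univ_two]
  · refine ((hG.2.2.2 (y 0) (y 1) (y 2) (y 3)).comp hshift).congr fun n => ?_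
    simp only [Function.comp_apply, Fin.prod_univ_four]

/-- four-point functions decide the averages at the Planck scale -/
theorem planck_of_four [Countable Γ] {φ : ℕ → ℍ → ℝ} {m : ℕ → ℝ} (S : Berry.Surf Γ ρ D φ m)
    (h2 : Tendsto (fun n => Berry.rAvg ρ D fun z => φ n z ^ 2) atTop (𝓝 1))
    (hf : Berry.RFourPt ρ D φ m) (a : ℂ) : Berry.RPlanckAt ρ D φ m a := by
  have h3 := four_zero S hf
  obtain ⟨B₁, hB₁⟩ := h3.bddAbove_range
  have hB' : ∀ n, (Berry.rAvg ρ D fun z => φ n z ^ 4) ≤ B₁ := fun n => hB₁ ⟨n, rfl⟩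
  have hP := Berry.rFrameProb_isProb S.geo
  obtain ⟨B₂, hdat⟩ := S.dat hB'
  obtain ⟨R, B', hR, hA⟩ := hdat.aWave hB'
  have h4 : ∀ x₁ x₂ x₃ x₄, Tendsto (fun n => Berry.c4 (Berry.rFrameProb ρ D)
      (Berry.wW ρ φ m R) n x₁ x₂ x₃ x₄) atTop (𝓝 ((1:ℝ) ^ 2 * (Berry.waveK (x₁ - x₂)
        * Berry.waveK (x₃ - x₄) + Berry.waveK (x₁ - x₃) * Berry.waveK (x₂ - x₄)
        + Berry.waveK (x₁ - x₄) * Berry.waveK (x₂ - x₃)))) := by
    intro x₁ x₂ x₃ x₄
    rw [one_pow, one_mul]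
    refine (hf x₁ x₂ x₃ x₄).congr' ?_
    filter_upwards [S.c4_ev hR x₁ x₂ x₃ x₄] with n hn
    exact hn.symm
  rw [S.planck_iff hR]
  exact hA.planck_of_gauss (v := 1) (h2.congr fun n => (S.c2_zero n).symm) h4 a

/-- averages at the Planck scale decide all moments up to order four -/
theorem gauss_of_planck [Countable Γ] {φ : ℕ → ℍ → ℝ} {m : ℕ → ℝ} (S : Berry.Surf Γ ρ D φ m)
    (hq : ∀ a, Berry.RPlanckAt ρ D φ m a) : Berry.RGaussUpToFour ρ D φ m := by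
  have hP := Berry.rFrameProb_isProb S.geo
  obtain ⟨B, hB⟩ := S.four_bounded (hq 0)
  obtain ⟨B₂, hdat⟩ := S.dat hB
  obtain ⟨R, B', hR, hA⟩ := hdat.aWave hB
  have hq' : Berry.AsyPlanck (Berry.rFrameProb ρ D) (Berry.wW ρ φ m R) 1 :=
    fun a => (S.planck_iff hR a).1 (hq a)
  obtain ⟨h3, h1⟩ := hA.odd_of_planck (hdat.odd hR) hq'
  refine ⟨fun x => ?_, fun x y => S.two_of_planck hB hq x y, fun x y z => ?_,
    fun x₁ x₂ x₃ x₄ => ?_⟩
  · refine (h1 x).congr' ?_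
    filter_upwards [S.c1_ev hR x] with n hn
    exact hn
  · refine (h3 x y z).congr' ?_
    filter_upwards [S.c3_ev hR x y z] with n hn
    exact hn
  · have h1 := (hA.gauss_of_planck (v := 1) hq').1 x₁ x₂ x₃ x₄
    rw [one_pow, one_mul] at h1
    refine h1.congr' ?_
    filter_upwards [S.c4_ev hR x₁ x₂ x₃ x₄] with n hn
    exact hn

/-- the second moment is the value of the two-point function at the origin -/
lemma second_of_gauss [Countable Γ] {φ : ℕ → ℍ → ℝ} {m : ℕ → ℝ} (S : Berry.Surf Γ ρ D φ m)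
    (hG : Berry.RGaussUpToFour ρ D φ m) :
    Tendsto (fun n => Berry.rAvg ρ D fun z => φ n z ^ 2) atTop (𝓝 1) := by
  have h1 := hG.2.1 0 0
  rw [sub_zero, Berry.waveK_zero] at h1
  refine h1.congr' ?_
  filter_upwards [S.c2_ev tendsto_id 0 0] with n hn
  rw [← hn, S.c2_zero]

/-- **All sequences of eigenfunctions on closed surfaces.** -/
theorem tfae_all [Countable Γ] (hDm : MeasurableSet D)
    (hD : IsFundamentalDomain Γ D (volume : Measure ℍ))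
    (hK : ∃ K : Set ℍ, IsCompact K ∧ ∀ z, ∃ γ ∈ Γ, γ • z ∈ K)
    (hρ : ContDiffOn ℝ ∞ (fun w : ℂ => ρ (ofComplex w)) {w | 0 < w.im})
    (hρΓ : ∀ γ ∈ Γ, ∀ z, ρ (γ • z) = ρ z)
    {φ : ℕ → ℍ → ℝ} {m : ℕ → ℝ} (hφ : Berry.REigenSeq Γ ρ φ m)
    (hs : ∀ n, ContDiffOn ℝ ∞ (fun w : ℂ => φ n (ofComplex w)) {w | 0 < w.im}) :
    List.TFAE [QuantumErgodic ρ φ m ∧ Tendsto (fun n => Berry.rAvg ρ D fun z => φ n z ^ 4)
        atTop (𝓝 3),
      QuantumErgodic ρ φ m ∧ Berry.RPlanckAt ρ D φ m 0, ∀ a, Berry.RPlanckAt ρ D φ m a,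
      Tendsto (fun n => Berry.rAvg ρ D fun z => φ n z ^ 2) atTop (𝓝 1) ∧ Berry.RFourPt ρ D φ m,
      Berry.RGaussUpToFour ρ D φ m] := by
  have S := Berry.surf_of_cocompact hD hDm hK (continuous_of_smooth hρ) hρΓ hφ
  tfae_have 1 ↔ 2 := by
    constructor
    · rintro ⟨hq, h3⟩
      exact ⟨hq, ((tfae_surface hDm hD hK hρ hρΓ hφ hs hq).out 0 1).1 h3⟩
    · rintro ⟨hq, h0⟩
      exact ⟨hq, ((tfae_surface hDm hD hK hρ hρΓ hφ hs hq).out 0 1).2 h0⟩
  tfae_have 1 → 5 := fun h => ((tfae_surface hDm hD hK hρ hρΓ hφ hs h.1).out 0 4).1 h.2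
  tfae_have 5 → 1 := fun hG => ⟨quantum_of_gauss hDm hD hK hρ hρΓ hφ hs hG,
    four_zero S hG.2.2.2⟩
  tfae_have 5 → 4 := fun hG => ⟨second_of_gauss S hG, hG.2.2.2⟩
  tfae_have 4 → 3 := fun h a => planck_of_four S h.1 h.2 a
  tfae_have 3 → 5 := fun hq => gauss_of_planck S hq
  tfae_finish

end

end QE
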