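import Pool.Agent.LibH11.QEV.Local4

/-!
From jets to values, without any hypothesis on weak limits.
-/

open MeasureTheory Filter Topology Set Complex
open scoped ContDiff

namespace QE

noncomputable section

variable {U : Set ℂ} {h : ℕ → ℝ} {a : ℂ → ℂ} {g : ℂ → ℂ} {φ : ℕ → ℂ → ℂ}

/-- the truncated jet expansion of the rotation average of a product of four values -/
def TN (h : ℕ → ℝ) (a : ℂ → ℂ) (φ : ℕ → ℂ → ℂ) (y : Fin 4 → ℂ) (ζ : ℂ → ℂ) (N n : ℕ) : ℂ :=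
  ∑ p ∈ Fintype.piFinset (fun _ : Fin 4 => Finset.Icc (-(N : ℤ)) N),
    (∏ i, CN N (p i) (y i)) * ((if ∑ i, p i = 0 then 1 else 0)
      * ∫ z, ζ z * (E h a φ (p 0) n z * E h a φ (p 1) n z
        * (E h a φ (p 2) n z * E h a φ (p 3) n z)))

namespace Setup

variable (S : Setup U g a h φ)

include S

/-- **The bridge from jets to values.**  For every sequence bounded in `L⁴` -/
theorem bridge {K : Set ℂ} (hK : IsCompact K) {δ : ℝ} (hδ : 0 < δ)
    (hδU : Metric.cthickening (2 * δ) K ⊆ U) {q : ℤ} (hq : q ≠ 0) (y : Fin 4 → ℂ)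
    (ξ : Fin 4 → ℕ → ℝ → ℂ → ℂ) (hξ : ∀ i, Disp h a K q (y i) (ξ i)) {ζ : ℂ → ℂ}
    (hζ : Test U ζ) (hζK : tsupport ζ ⊆ K) {ε : ℝ} (hε : 0 < ε) :
    ∃ N₀ : ℕ, ∀ N ≥ N₀, ∀ᶠ n in atTop,
      ‖(∫ θ, (∫ z, ζ z * ∏ i, φ n (z + h n * a z * ξ i n θ z)) ∂ang) - TN h a φ y ζ N n‖ ≤ ε := by
  have hKU : K ⊆ U := (Metric.self_subset_cthickening K).trans hδU
  have hset : ∀ f : ℂ → ℂ, ∫ z, ζ z * f z = ∫ z in K, ζ z * f z := by
    intro f
    rw [setIntegral_eq_integral_of_forall_compl_eq_zero]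
    intro z hz
    rw [image_eq_zero_of_notMem_tsupport (fun hz' => hz (hζK hz')), zero_mul]
  have hζc : ContinuousOn ζ K := hζ.smooth.continuous.continuousOn
  obtain ⟨N₀, hN₀⟩ := S.rot_close hK hδ hδU q (fun _ => true) y ξ hξ hζc hε
  refine ⟨N₀, fun N hN => ?_⟩
  filter_upwards [hN₀ N hN] with n hn
  simp only [fld, tay, if_true] at hn
  have e1 := S.rot_expand hK hKU hq y hζc N n
  simp only [Fin.prod_univ_four] at e1
  rw [e1] at hn
  unfold TN
  simp only [hset]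
  simp only [Fin.prod_univ_four]
  refine le_trans (le_of_eq ?_) hn
  congr 2
  refine Finset.sum_congr rfl fun p _ => ?_
  congr 2
  congr 1; funext z
  ring

end Setup

end

end QE
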