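import Pool.Agent.LibH11.QEV.Dir

/-!
Coefficients of the jets in the iterated directional derivatives, and bounded dominating sequences.
-/

open Complex MeasureTheory Filter Topology
open scoped ContDiff

namespace QE

noncomputable section

variable {U : Set ℂ} {h : ℕ → ℝ} {a g : ℂ → ℂ} {φ : ℕ → ℂ → ℂ}

/-- the coefficient of the jet of index `j` in the `k`-th derivative in the direction `ξ` -/
def cc : ℕ → ℤ → ℂ → ℂ
  | 0, j => fun _ => if j = 0 then 1 else 0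
  | k + 1, j => fun ξ => (I / 2) * (ξ * cc k (j - 1) ξ + (starRingEnd ℂ) ξ * cc k (j + 1) ξ)

lemma cc_succ (k : ℕ) (j : ℤ) (ξ : ℂ) : cc (k + 1) j ξ
    = (I / 2) * (ξ * cc k (j - 1) ξ + (starRingEnd ℂ) ξ * cc k (j + 1) ξ) := rfl

lemma continuous_cc (k : ℕ) : ∀ j, Continuous (cc k j) := by
  induction k with
  | zero => exact fun j => continuous_const
  | succ k ih =>
    intro j
    exact continuous_const.mul ((continuous_id.mul (ih (j - 1))).add
      (Complex.continuous_conj.mul (ih (j + 1))))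

lemma cc_eq_zero (k : ℕ) : ∀ j : ℤ, (k : ℤ) < |j| → ∀ ξ, cc k j ξ = 0 := by
  induction k with
  | zero =>
    intro j hj ξ
    have : j ≠ 0 := by rintro rfl; simp at hj
    simp [cc, this]
  | succ k ih =>
    intro j hj ξ
    have h1 : (k : ℤ) < |j - 1| := by
      push_cast at hj
      rcases abs_cases j with h | h <;> rcases abs_cases (j - 1) with h' | h' <;> omega
    have h2 : (k : ℤ) < |j + 1| := by
      push_cast at hj
      rcases abs_cases j with h | h <;> rcases abs_cases (j + 1) with h' | h' <;> omega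
    rw [cc_succ, ih _ h1, ih _ h2]; ring

/-- equivariance under rotations -/
lemma cc_rot (k : ℕ) {u : ℂ} (hu : ‖u‖ = 1) : ∀ (j : ℤ) (ξ : ℂ), cc k j (u * ξ) = u ^ j * cc k j ξ := by
  have hu0 : u ≠ 0 := by
    intro h0; rw [h0, norm_zero] at hu; exact zero_ne_one hu
  have hconj : (starRingEnd ℂ) u = u⁻¹ := by
    rw [Complex.inv_def, Complex.normSq_eq_norm_sq, hu]; simp
  induction k with
  | zero =>
    intro j ξ
    by_cases hj : j = 0
    · simp [cc, hj]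
    · simp [cc, hj]
  | succ k ih =>
    intro j ξ
    rw [cc_succ, cc_succ, ih, ih, map_mul, hconj, zpow_sub_one₀ hu0, zpow_add_one₀ hu0]
    field_simp

lemma sum_norm_cc (k : ℕ) : ∀ (s : Finset ℤ) (ξ : ℂ), ∑ j ∈ s, ‖cc k j ξ‖ ≤ ‖ξ‖ ^ k := by
  induction k with
  | zero =>
    intro s ξ
    rw [pow_zero]
    have : ∀ j ∈ s, ‖cc 0 j ξ‖ = if j = 0 then (1 : ℝ) else 0 := by
      intro j _
      by_cases hj : j = 0
      · simp [cc, hj]
      · simp [cc, hj]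
    rw [Finset.sum_congr rfl this, Finset.sum_ite_eq']
    split_ifs <;> norm_num
  | succ k ih =>
    intro s ξ
    have e1 : ∑ j ∈ s, ‖cc k (j - 1) ξ‖ ≤ ‖ξ‖ ^ k := by
      have := ih (s.map (Equiv.subRight (1 : ℤ)).toEmbedding) ξ
      rw [Finset.sum_map] at this
      exact this
    have e2 : ∑ j ∈ s, ‖cc k (j + 1) ξ‖ ≤ ‖ξ‖ ^ k := by
      have := ih (s.map (Equiv.addRight (1 : ℤ)).toEmbedding) ξ
      rw [Finset.sum_map] at this
      exact this
    calc ∑ j ∈ s, ‖cc (k + 1) j ξ‖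
        ≤ ∑ j ∈ s, (1 / 2 * ‖ξ‖ * ‖cc k (j - 1) ξ‖ + 1 / 2 * ‖ξ‖ * ‖cc k (j + 1) ξ‖) := by
          refine Finset.sum_le_sum fun j _ => ?_
          rw [cc_succ, norm_mul]
          have h1 : ‖(I / 2 : ℂ)‖ = 1 / 2 := by simp
          have h2 := norm_add_le (ξ * cc k (j - 1) ξ) ((starRingEnd ℂ) ξ * cc k (j + 1) ξ)
          rw [norm_mul, norm_mul, RCLike.norm_conj] at h2
          rw [h1]
          linarith
      _ = 1 / 2 * ‖ξ‖ * (∑ j ∈ s, ‖cc k (j - 1) ξ‖) + 1 / 2 * ‖ξ‖ * ∑ j ∈ s, ‖cc k (j + 1) ξ‖ := by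
          rw [Finset.sum_add_distrib, Finset.mul_sum, Finset.mul_sum]
      _ ≤ 1 / 2 * ‖ξ‖ * ‖ξ‖ ^ k + 1 / 2 * ‖ξ‖ * ‖ξ‖ ^ k := by gcongr
      _ = ‖ξ‖ ^ (k + 1) := by ring

lemma TT_eq (k : ℕ) : ∀ (m : ℤ) (s : Finset ℤ), Finset.Icc (-(k : ℤ)) k ⊆ s → ∀ (ξ : ℂ) (n : ℕ)
    (z : ℂ), Setup.TT h a φ k m ξ n z = ∑ j ∈ s, cc k j ξ * E h a φ (m + j) n z := by
  induction k with
  | zero =>
    intro m s hs ξ n z
    have h0 : (0 : ℤ) ∈ s := hs (by simp)
    rw [Finset.sum_eq_single_of_mem 0 h0 (fun j _ hj => by simp [cc, hj])]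
    simp [cc, Setup.TT]
  | succ k ih =>
    intro m s hs ξ n z
    have m1 : Finset.Icc (-(k : ℤ)) k ⊆ s.map (Equiv.subRight (1 : ℤ)).toEmbedding := by
      intro j hj
      rw [Finset.mem_map]
      rw [Finset.mem_Icc] at hj
      refine ⟨j + 1, hs ?_, by simp⟩
      rw [Finset.mem_Icc]; push_cast; omega
    have m2 : Finset.Icc (-(k : ℤ)) k ⊆ s.map (Equiv.addRight (1 : ℤ)).toEmbedding := by
      intro j hj
      rw [Finset.mem_map]
      rw [Finset.mem_Icc] at hj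
      refine ⟨j - 1, hs ?_, by simp⟩
      rw [Finset.mem_Icc]; push_cast; omega
    have e1 := ih (m + 1) _ m1 ξ n z
    have e2 := ih (m - 1) _ m2 ξ n z
    rw [Finset.sum_map] at e1 e2
    have e : Setup.TT h a φ (k + 1) m ξ n z = (I / 2) * (ξ * Setup.TT h a φ k (m + 1) ξ n z
        + (starRingEnd ℂ) ξ * Setup.TT h a φ k (m - 1) ξ n z) := rfl
    rw [e, e1, e2, Finset.mul_sum, Finset.mul_sum, ← Finset.sum_add_distrib, Finset.mul_sum]
    refine Finset.sum_congr rfl fun j _ => ?_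
    have i1 : m + 1 + (Equiv.subRight (1 : ℤ)).toEmbedding j = m + j := by
      show m + 1 + (j - 1) = m + j
      ring
    have i2 : m - 1 + (Equiv.addRight (1 : ℤ)).toEmbedding j = m + j := by
      show m - 1 + (j + 1) = m + j
      ring
    rw [i1, i2, cc_succ]
    show I / 2 * (ξ * (cc k (j - 1) ξ * _) + (starRingEnd ℂ) ξ * (cc k (j + 1) ξ * _)) = _
    ring

/-! ### dominating sequences -/

lemma sum_pow4 {ι : Type*} (s : Finset ι) {f : ι → ℝ} (hf : ∀ i ∈ s, 0 ≤ f i) :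
    (∑ i ∈ s, f i) ^ 4 ≤ (s.card : ℝ) ^ 3 * ∑ i ∈ s, f i ^ 4 :=
  pow_sum_le_card_mul_sum_pow hf 3

/-- nonnegative sequences which are bounded in `L⁴` on compact sets -/
structure RB (U : Set ℂ) (p : ℕ → ℂ → ℝ) : Prop where
  cont : ∀ n, ContinuousOn (p n) U
  nonneg : ∀ n z, 0 ≤ p n z
  bdd : ∀ K, IsCompact K → K ⊆ U → ∃ M : ℝ, ∀ᶠ n in atTop, ∫ z in K, p n z ^ 4 ≤ M

lemma RB.int {p : ℕ → ℂ → ℝ} (hp : RB U p) {K : Set ℂ} (hK : IsCompact K) (hKU : K ⊆ U) (n : ℕ) :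
    IntegrableOn (fun z => p n z ^ 4) K :=
  (((hp.cont n).mono hKU).pow 4).integrableOn_compact hK

lemma RB.zero : RB U (fun _ _ => 0) :=
  ⟨fun _ => continuousOn_const, fun _ _ => le_rfl, fun K _ _ =>
    ⟨0, Eventually.of_forall fun n => by simp⟩⟩

lemma RB.of_tame {w : ℕ → ℂ → ℂ} (hw : Tame U h w) : RB U (fun n z => ‖w n z‖) :=
  ⟨fun n => (hw.smooth n).continuousOn.norm, fun _ _ => norm_nonneg _, fun K hK hKU =>
    hw.bdd4 K hK hKU⟩

lemma four_add_int {K : Set ℂ} {p q : ℂ → ℝ} (hp0 : ∀ z, 0 ≤ p z) (hq0 : ∀ z, 0 ≤ q z)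
    (ip : IntegrableOn (fun z => p z ^ 4) K) (iq : IntegrableOn (fun z => q z ^ 4) K) :
    ∫ z in K, (p z + q z) ^ 4 ≤ 8 * ((∫ z in K, p z ^ 4) + ∫ z in K, q z ^ 4) := by
  rw [← integral_add ip iq, ← integral_const_mul]
  refine integral_mono_of_nonneg (Eventually.of_forall fun z => ?_) ((ip.add iq).const_mul 8)
    (Eventually.of_forall fun z => four_add _ _ (hp0 z) (hq0 z))
  have := hp0 z
  have := hq0 z
  show 0 ≤ (p z + q z) ^ 4
  positivity

lemma RB.add {p q : ℕ → ℂ → ℝ} (hp : RB U p) (hq : RB U q) : RB U (fun n z => p n z + q n z) := by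
  refine ⟨fun n => (hp.cont n).add (hq.cont n), fun n z => add_nonneg (hp.nonneg n z)
    (hq.nonneg n z), fun K hK hKU => ?_⟩
  obtain ⟨M, hM⟩ := hp.bdd K hK hKU
  obtain ⟨L, hL⟩ := hq.bdd K hK hKU
  refine ⟨8 * (M + L), ?_⟩
  filter_upwards [hM, hL] with n h1 h2
  refine (four_add_int (hp.nonneg n) (hq.nonneg n) (hp.int hK hKU n) (hq.int hK hKU n)).trans ?_
  gcongr

lemma RB.const_mul {p : ℕ → ℂ → ℝ} (hp : RB U p) {c : ℝ} (hc : 0 ≤ c) :
    RB U (fun n z => c * p n z) := by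
  refine ⟨fun n => continuousOn_const.mul (hp.cont n), fun n z => mul_nonneg hc (hp.nonneg n z),
    fun K hK hKU => ?_⟩
  obtain ⟨M, hM⟩ := hp.bdd K hK hKU
  refine ⟨c ^ 4 * M, ?_⟩
  filter_upwards [hM] with n h1
  simp only [mul_pow]
  rw [integral_const_mul]
  gcongr

lemma RB.sum {ι : Type*} (s : Finset ι) {p : ι → ℕ → ℂ → ℝ} (hp : ∀ i ∈ s, RB U (p i)) :
    RB U (fun n z => ∑ i ∈ s, p i n z) := by
  classical
  induction s using Finset.induction_on with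
  | empty => simpa using RB.zero
  | insert i s hi ih =>
    have h1 := (hp i (Finset.mem_insert_self i s)).add
      (ih fun j hj => hp j (Finset.mem_insert_of_mem hj))
    simpa only [Finset.sum_insert hi] using h1

lemma PT.bound {W : ℂ → ℕ → ℂ → ℂ} (hW : PT U h W) (r : ℝ) : ∃ w : ℕ → ℂ → ℝ, RB U w ∧
    ∀ ξ : ℂ, ‖ξ‖ ≤ r → ∀ n, ∀ z ∈ U, ‖W ξ n z‖ ≤ w n z := by
  obtain ⟨ι, _, c, w, hc, hw, h1⟩ := hW
  have hb : ∀ i, ∃ B : ℝ, 0 ≤ B ∧ ∀ ξ : ℂ, ‖ξ‖ ≤ r → ‖c i ξ‖ ≤ B := by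
    intro i
    obtain ⟨B, hB⟩ := (isCompact_closedBall (0 : ℂ) r).exists_bound_of_continuousOn
      (hc i).continuousOn
    exact ⟨|B|, abs_nonneg B, fun ξ hξ => (hB ξ (by simpa using hξ)).trans (le_abs_self B)⟩
  choose B hB0 hB using hb
  refine ⟨fun n z => ∑ i, B i * ‖w i n z‖, RB.sum _ fun i _ => (RB.of_tame (hw i)).const_mul (hB0 i),
    fun ξ hξ n z hz => ?_⟩
  rw [h1 ξ n z hz]
  refine (norm_sum_le _ _).trans (Finset.sum_le_sum fun i _ => ?_)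
  rw [norm_mul]
  exact mul_le_mul_of_nonneg_right (hB i ξ hξ) (norm_nonneg _)

end

end QE
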