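import Pool.Agent.LibH11.QEV.Local4

/-!
The local form of the formulas for one, two and three points.
-/

open Complex MeasureTheory Filter Topology Set
open scoped ContDiff

namespace QE

noncomputable section

variable {U : Set ℂ} {h : ℕ → ℝ} {a g : ℂ → ℂ} {φ : ℕ → ℂ → ℂ}

/-- the two-point model -/
lemma model_pair (y : Fin 2 → ℂ) :
    Tendsto (fun N : ℕ => ∑ p ∈ Fintype.piFinset (fun _ : Fin 2 => Finset.Icc (-(N : ℤ)) N),
      (∏ i, CN N (p i) (y i)) * ((if ∑ i, p i = 0 then 1 else 0) * P (p 0) (p 1))) atTop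
      (𝓝 (Berry.waveK (y 0 - y 1) : ℂ)) := by
  have hσ : ∀ i : Fin 2, ‖(![-1, 1] : Fin 2 → ℂ) i‖ = 1 := by intro i; fin_cases i <;> simp
  have h1 := tendsto_model ang (k := 2) (fun _ t => t) (fun _ => continuous_id)
    (fun i => (![-1, 1] : Fin 2 → ℂ) i * y i)
  have e1 : ∀ t : ℝ, ∏ i, ee ((![-1, 1] : Fin 2 → ℂ) i * y i) (uu t)
      = ee (∑ i, (![-1, 1] : Fin 2 → ℂ) i * y i) (uu t) := by
    intro t
    rw [Fin.prod_univ_two, Fin.sum_univ_two, ee_add]
  simp only [e1] at h1
  rw [int_ee] at h1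
  have ev : Berry.waveK (∑ i, (![-1, 1] : Fin 2 → ℂ) i * y i) = Berry.waveK (y 0 - y 1) := by
    rw [Fin.sum_univ_two, ← Berry.waveK_neg]
    congr 1
    simp only [Matrix.cons_val_zero, Matrix.cons_val_one]
    ring
  rw [ev] at h1
  refine h1.congr fun N => Finset.sum_congr rfl fun p _ => ?_
  have e2 : ∀ t : ℝ, ∏ i, uu t ^ p i = uu t ^ (∑ i, p i) := by
    intro t
    rw [Fin.prod_univ_two, Fin.sum_univ_two, zpow_add₀ (uu_ne t)]
  simp only [e2]
  rw [ang_zpow]
  have e3 : ∏ i, CN N (p i) ((![-1, 1] : Fin 2 → ℂ) i * y i)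
      = (∏ i, CN N (p i) (y i)) * (-1) ^ (p 0) := by
    rw [Fin.prod_univ_two, Fin.prod_univ_two, CN_rot N (hσ 0), CN_rot N (hσ 1)]
    simp only [Matrix.cons_val_zero, Matrix.cons_val_one, one_zpow]
    ring
  rw [e3, mul_assoc]
  congr 1
  rw [Fin.sum_univ_two]
  unfold P
  by_cases hp : p 0 + p 1 = 0
  · simp [hp]
  · simp [hp]

namespace Setup

variable (S : Setup U g a h φ)

include S

/-- **The local two-point formula.** -/
theorem two_local (htwo : ∀ (j m : ℤ) (η : ℂ → ℂ), Test U η →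
      Tendsto (fun n => ∫ z, η z * (E h a φ j n z * E h a φ m n z)) atTop
      (𝓝 (P j m * ∫ z, η z))) {K : Set ℂ} (hK : IsCompact K) {δ : ℝ} (hδ : 0 < δ)
    (hδU : Metric.cthickening (2 * δ) K ⊆ U) {q : ℤ} (hq : q ≠ 0) (y : Fin 2 → ℂ)
    (ξ : Fin 2 → ℕ → ℝ → ℂ → ℂ) (hξ : ∀ i, Disp h a K q (y i) (ξ i)) {ζ : ℂ → ℂ}
    (hζ : Test U ζ) (hζK : tsupport ζ ⊆ K) :
    Tendsto (fun n => (∫ θ, (∫ z, ζ z * (φ n (z + h n * a z * ξ 0 n θ z)
        * φ n (z + h n * a z * ξ 1 n θ z))) ∂ang)) atTop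
      (𝓝 ((∫ z, ζ z) * (Berry.waveK (y 0 - y 1) : ℂ))) := by
  have hKU : K ⊆ U := (Metric.self_subset_cthickening K).trans hδU
  have hset : ∀ f : ℂ → ℂ, ∫ z, ζ z * f z = ∫ z in K, ζ z * f z := by
    intro f
    rw [setIntegral_eq_integral_of_forall_compl_eq_zero]
    intro z hz
    rw [image_eq_zero_of_notMem_tsupport (fun hz' => hz (hζK hz')), zero_mul]
  have hζc : ContinuousOn ζ K := hζ.smooth.continuous.continuousOn
  have key := lim_combine
    (X := fun n => ∫ θ, (∫ z, ζ z * (φ n (z + h n * a z * ξ 0 n θ z)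
        * φ n (z + h n * a z * ξ 1 n θ z))) ∂ang)
    (T := fun N n => ∑ p ∈ Fintype.piFinset (fun _ : Fin 2 => Finset.Icc (-(N : ℤ)) N),
        (∏ i, CN N (p i) (y i)) * ((if ∑ i, p i = 0 then 1 else 0)
          * ∫ z in K, ζ z * ∏ i, E h a φ (p i) n z))
    (α := fun _ => ∫ z, ζ z) (β := fun _ => 0) (W₂ := fun _ => 0) (V₂ := 0)
    (C := ‖∫ z, ζ z‖) ?_ ?_ (model_pair y) tendsto_const_nhds
    (Eventually.of_forall fun n => le_rfl) (Eventually.of_forall fun n => by simp)
  · have := key.add_const ((∫ z, ζ z) * (Berry.waveK (y 0 - y 1) : ℂ))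
    rw [zero_add] at this
    refine this.congr fun n => ?_
    beta_reduce
    ring
  · intro ε hε
    have hone : Disp h a K q 0 (fun _ _ _ => 0) := by
      refine ⟨fun ε hε => Eventually.of_forall fun n θ z _ => by simpa using hε.le,
        Eventually.of_forall fun n => continuousOn_const,
        Eventually.of_forall fun n θ z _ w _ => by simp⟩
    obtain ⟨N₀, hN₀⟩ := S.rot_close hK hδ hδU q ![true, true, false, false] ![y 0, y 1, 0, 0]
      ![ξ 0, ξ 1, fun _ _ _ => 0, fun _ _ _ => 0] (fun i => by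
        fin_cases i
        · exact hξ 0
        · exact hξ 1
        · exact hone
        · exact hone) hζc hε
    refine ⟨N₀, fun N hN => ?_⟩
    filter_upwards [hN₀ N hN] with n hn
    simp only [Matrix.cons_val_zero, Matrix.cons_val_one, Matrix.cons_val, fld, tay, if_true,
      Bool.false_eq_true, if_false, mul_one] at hn
    have e1 := S.rot_expand hK hKU hq y hζc N n
    simp only [Fin.prod_univ_two] at e1
    rw [e1] at hn
    simp only [hset]
    simp only [Fin.prod_univ_two]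
    exact hn
  · intro N
    have h1 : ∀ p : Fin 2 → ℤ, Tendsto (fun n => (if ∑ i, p i = 0 then 1 else 0)
        * (∫ z in K, ζ z * ∏ i, E h a φ (p i) n z)
        - ((∫ z, ζ z) * ((if ∑ i, p i = 0 then 1 else 0) * P (p 0) (p 1)))) atTop (𝓝 0) := by
      intro p
      have h2 := (htwo (p 0) (p 1) ζ hζ).sub_const (P (p 0) (p 1) * ∫ z, ζ z)
      rw [sub_self] at h2
      have h3 := h2.const_mul (if ∑ i, p i = 0 then (1 : ℂ) else 0)
      rw [mul_zero] at h3
      refine h3.congr fun n => ?_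
      rw [hset (fun z => E h a φ (p 0) n z * E h a φ (p 1) n z)]
      simp only [Fin.prod_univ_two]
      ring
    have h2 := tendsto_finset_sum (Fintype.piFinset (fun _ : Fin 2 => Finset.Icc (-(N : ℤ)) N))
      fun p _ => (h1 p).const_mul (∏ i, CN N (p i) (y i))
    simp only [mul_zero, Finset.sum_const_zero] at h2
    refine h2.congr fun n => ?_
    rw [zero_mul, add_zero, Finset.mul_sum, ← Finset.sum_sub_distrib]
    exact Finset.sum_congr rfl fun p _ => by ring

/-- **The local three-point formula.** -/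
theorem three_local (htwo : ∀ (j m : ℤ) (η : ℂ → ℂ), Test U η →
      Tendsto (fun n => ∫ z, η z * (E h a φ j n z * E h a φ m n z)) atTop
      (𝓝 (P j m * ∫ z, η z))) {K : Set ℂ} (hK : IsCompact K) {δ : ℝ} (hδ : 0 < δ)
    (hδU : Metric.cthickening (2 * δ) K ⊆ U) {q : ℤ} (hq : q ≠ 0) (y : Fin 3 → ℂ)
    (ξ : Fin 3 → ℕ → ℝ → ℂ → ℂ) (hξ : ∀ i, Disp h a K q (y i) (ξ i)) {ζ : ℂ → ℂ}
    (hζ : Test U ζ) (hζK : tsupport ζ ⊆ K) :
    Tendsto (fun n => (∫ θ, (∫ z, ζ z * (φ n (z + h n * a z * ξ 0 n θ z)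
        * φ n (z + h n * a z * ξ 1 n θ z) * φ n (z + h n * a z * ξ 2 n θ z))) ∂ang)) atTop
      (𝓝 0) := by
  have hKU : K ⊆ U := (Metric.self_subset_cthickening K).trans hδU
  have hset : ∀ f : ℂ → ℂ, ∫ z, ζ z * f z = ∫ z in K, ζ z * f z := by
    intro f
    rw [setIntegral_eq_integral_of_forall_compl_eq_zero]
    intro z hz
    rw [image_eq_zero_of_notMem_tsupport (fun hz' => hz (hζK hz')), zero_mul]
  have hζc : ContinuousOn ζ K := hζ.smooth.continuous.continuousOn
  have key := lim_combine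
    (X := fun n => ∫ θ, (∫ z, ζ z * (φ n (z + h n * a z * ξ 0 n θ z)
        * φ n (z + h n * a z * ξ 1 n θ z) * φ n (z + h n * a z * ξ 2 n θ z))) ∂ang)
    (T := fun N n => ∑ p ∈ Fintype.piFinset (fun _ : Fin 3 => Finset.Icc (-(N : ℤ)) N),
        (∏ i, CN N (p i) (y i)) * ((if ∑ i, p i = 0 then 1 else 0)
          * ∫ z in K, ζ z * ∏ i, E h a φ (p i) n z))
    (α := fun _ => 0) (W₁ := fun _ => 0) (V₁ := 0) (β := fun _ => 0) (W₂ := fun _ => 0) (V₂ := 0)
    (C := 0) ?_ ?_ tendsto_const_nhds tendsto_const_nhds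
    (Eventually.of_forall fun n => by simp) (Eventually.of_forall fun n => by simp)
  · refine key.congr fun n => ?_
    beta_reduce
    ring
  · intro ε hε
    have hone : Disp h a K q 0 (fun _ _ _ => 0) := by
      refine ⟨fun ε hε => Eventually.of_forall fun n θ z _ => by simpa using hε.le,
        Eventually.of_forall fun n => continuousOn_const,
        Eventually.of_forall fun n θ z _ w _ => by simp⟩
    obtain ⟨N₀, hN₀⟩ := S.rot_close hK hδ hδU q ![true, true, true, false] ![y 0, y 1, y 2, 0]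
      ![ξ 0, ξ 1, ξ 2, fun _ _ _ => 0] (fun i => by
        fin_cases i
        · exact hξ 0
        · exact hξ 1
        · exact hξ 2
        · exact hone) hζc hε
    refine ⟨N₀, fun N hN => ?_⟩
    filter_upwards [hN₀ N hN] with n hn
    simp only [Matrix.cons_val_zero, Matrix.cons_val_one, Matrix.cons_val, fld, tay, if_true,
      Bool.false_eq_true, if_false, mul_one] at hn
    have e1 := S.rot_expand hK hKU hq y hζc N n
    simp only [Fin.prod_univ_three] at e1
    rw [e1] at hn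
    simp only [hset]
    simp only [Fin.prod_univ_three]
    exact hn
  · intro N
    have h1 : ∀ p : Fin 3 → ℤ, Tendsto (fun n => (if ∑ i, p i = 0 then 1 else 0)
        * (∫ z in K, ζ z * ∏ i, E h a φ (p i) n z)) atTop (𝓝 0) := by
      intro p
      by_cases hp : ∑ i, p i = 0
      · simp only [if_pos hp, one_mul]
        rw [Fin.sum_univ_three] at hp
        refine (S.jets_three htwo hζ (p 0) (p 1) (p 2) hp).congr fun n => ?_
        rw [hset (fun z => E h a φ (p 0) n z * E h a φ (p 1) n z * E h a φ (p 2) n z)]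
        simp only [Fin.prod_univ_three]
      · simp only [if_neg hp, zero_mul]
        exact tendsto_const_nhds
    have h2 := tendsto_finset_sum (Fintype.piFinset (fun _ : Fin 3 => Finset.Icc (-(N : ℤ)) N))
      fun p _ => (h1 p).const_mul (∏ i, CN N (p i) (y i))
    simp only [mul_zero, Finset.sum_const_zero] at h2
    refine h2.congr fun n => ?_
    rw [zero_mul, add_zero, sub_zero]

/-- the mean of an eigenfunction tends to zero -/
theorem mean_zero {ζ : ℂ → ℂ} (hζ : Test U ζ) :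
    Tendsto (fun n => ∫ z, ζ z * φ n z) atTop (𝓝 0) := by
  -- `φ = - 4 h² a² ∂ ∂̄ φ`
  have ha2 : ContDiffOn ℝ ∞ (fun z => a z ^ 2) U := S.ha.pow 2
  have hT : Test U (fun z => ζ z * a z ^ 2) := hζ.mul S.op ha2
  have hT2 : Test U (dz (dzb (fun z => ζ z * a z ^ 2))) := hT.dzb.dz
  have hone : LBdd 2 U (fun _ _ => (1 : ℂ)) := by
    intro K hK _
    exact ⟨∫ z in K, ‖(1 : ℂ)‖ ^ 2, Filter.Eventually.of_forall fun n => le_rfl⟩
  have h0 : LBdd 2 U φ := S.tame.bdd4.two_of_four S.tame.smooth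
  have h1 := tendsto_h_test_mul S.hlim h0 S.tame.smooth hone (fun n => contDiffOn_const) hT2
  have h2 : Tendsto (fun n => (h n : ℂ)) atTop (𝓝 0) := by
    have := (continuous_ofReal.tendsto 0).comp S.hlim
    simpa [Function.comp_def] using this
  have h3 := ((h2.mul h1).const_mul (-4))
  simp only [mul_zero] at h3
  refine h3.congr fun n => ?_
  have hd1 : ContDiffOn ℝ ∞ (dzb (φ n)) U := contDiffOn_dzb S.op (S.tame.smooth n)
  have e1 : ∫ z, (ζ z * a z ^ 2) * dz (dzb (φ n)) z
      = - ∫ z, dz (fun z => ζ z * a z ^ 2) z * dzb (φ n) z :=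
    integral_mul_dz S.op hT hd1
  have e2 : ∫ z, dz (fun z => ζ z * a z ^ 2) z * dzb (φ n) z
      = - ∫ z, dzb (dz (fun z => ζ z * a z ^ 2)) z * φ n z :=
    integral_mul_dzb S.op hT.dz (S.tame.smooth n)
  have e3 : ∫ z, dzb (dz (fun z => ζ z * a z ^ 2)) z * φ n z
      = ∫ z, dz (dzb (fun z => ζ z * a z ^ 2)) z * (φ n z * 1) := by
    congr 1; funext z
    rw [dz_dzb_comm (hT.smooth.contDiffAt.of_le (WithTop.coe_le_coe.2 le_top)), mul_one]
  have e4 : ∫ z, ζ z * φ n z = ∫ z, ζ z * (-4 * (h n : ℂ) ^ 2 * (a z ^ 2 * dz (dzb (φ n)) z)) := by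
    refine hζ.integral_congr fun z hz => ?_
    have h5 := S.eig n z hz
    have h6 := S.ag z hz
    linear_combination (a z ^ 2) * h5 - φ n z * h6
  have e5 : ∫ z, ζ z * (-4 * (h n : ℂ) ^ 2 * (a z ^ 2 * dz (dzb (φ n)) z))
      = -4 * (h n : ℂ) ^ 2 * ∫ z, (ζ z * a z ^ 2) * dz (dzb (φ n)) z := by
    rw [← integral_const_mul]
    congr 1; funext z; ring
  rw [e4, e5, e1, e2, e3]
  ring

/-- **The local one-point formula.** -/
theorem one_local {K : Set ℂ} (hK : IsCompact K) {δ : ℝ} (hδ : 0 < δ)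
    (hδU : Metric.cthickening (2 * δ) K ⊆ U) {q : ℤ} (hq : q ≠ 0) (y : Fin 1 → ℂ)
    (ξ : Fin 1 → ℕ → ℝ → ℂ → ℂ) (hξ : ∀ i, Disp h a K q (y i) (ξ i)) {ζ : ℂ → ℂ}
    (hζ : Test U ζ) (hζK : tsupport ζ ⊆ K) :
    Tendsto (fun n => (∫ θ, (∫ z, ζ z * φ n (z + h n * a z * ξ 0 n θ z)) ∂ang)) atTop
      (𝓝 0) := by
  have hKU : K ⊆ U := (Metric.self_subset_cthickening K).trans hδU
  have hset : ∀ f : ℂ → ℂ, ∫ z, ζ z * f z = ∫ z in K, ζ z * f z := by
    intro f
    rw [setIntegral_eq_integral_of_forall_compl_eq_zero]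
    intro z hz
    rw [image_eq_zero_of_notMem_tsupport (fun hz' => hz (hζK hz')), zero_mul]
  have hζc : ContinuousOn ζ K := hζ.smooth.continuous.continuousOn
  have key := lim_combine
    (X := fun n => ∫ θ, (∫ z, ζ z * φ n (z + h n * a z * ξ 0 n θ z)) ∂ang)
    (T := fun N n => ∑ p ∈ Fintype.piFinset (fun _ : Fin 1 => Finset.Icc (-(N : ℤ)) N),
        (∏ i, CN N (p i) (y i)) * ((if ∑ i, p i = 0 then 1 else 0)
          * ∫ z in K, ζ z * ∏ i, E h a φ (p i) n z))
    (α := fun _ => 0) (W₁ := fun _ => 0) (V₁ := 0) (β := fun _ => 0) (W₂ := fun _ => 0) (V₂ := 0)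
    (C := 0) ?_ ?_ tendsto_const_nhds tendsto_const_nhds
    (Eventually.of_forall fun n => by simp) (Eventually.of_forall fun n => by simp)
  · refine key.congr fun n => ?_
    beta_reduce
    ring
  · intro ε hε
    have hone : Disp h a K q 0 (fun _ _ _ => 0) := by
      refine ⟨fun ε hε => Eventually.of_forall fun n θ z _ => by simpa using hε.le,
        Eventually.of_forall fun n => continuousOn_const,
        Eventually.of_forall fun n θ z _ w _ => by simp⟩
    obtain ⟨N₀, hN₀⟩ := S.rot_close hK hδ hδU q ![true, false, false, false] ![y 0, 0, 0, 0]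
      ![ξ 0, fun _ _ _ => 0, fun _ _ _ => 0, fun _ _ _ => 0] (fun i => by
        fin_cases i
        · exact hξ 0
        · exact hone
        · exact hone
        · exact hone) hζc hε
    refine ⟨N₀, fun N hN => ?_⟩
    filter_upwards [hN₀ N hN] with n hn
    simp only [Matrix.cons_val_zero, Matrix.cons_val_one, Matrix.cons_val, fld, tay, if_true,
      Bool.false_eq_true, if_false, mul_one] at hn
    have e1 := S.rot_expand hK hKU hq y hζc N n
    simp only [Fin.prod_univ_one] at e1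
    rw [e1] at hn
    simp only [hset]
    simp only [Fin.prod_univ_one]
    exact hn
  · intro N
    have h1 : ∀ p : Fin 1 → ℤ, Tendsto (fun n => (if ∑ i, p i = 0 then 1 else 0)
        * (∫ z in K, ζ z * ∏ i, E h a φ (p i) n z)) atTop (𝓝 0) := by
      intro p
      by_cases hp : ∑ i, p i = 0
      · simp only [if_pos hp, one_mul]
        rw [Fin.sum_univ_one] at hp
        refine (S.mean_zero hζ).congr fun n => ?_
        rw [hset (fun z => φ n z)]
        simp only [Fin.prod_univ_one, hp]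
        rfl
      · simp only [if_neg hp, zero_mul]
        exact tendsto_const_nhds
    have h2 := tendsto_finset_sum (Fintype.piFinset (fun _ : Fin 1 => Finset.Icc (-(N : ℤ)) N))
      fun p _ => (h1 p).const_mul (∏ i, CN N (p i) (y i))
    simp only [mul_zero, Finset.sum_const_zero] at h2
    refine h2.congr fun n => ?_
    rw [zero_mul, add_zero, sub_zero]

end Setup

end

end QE
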