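import Pool.Agent.LibH11.QEV.Wrap
import Pool.Agent.LibH11.QEV.Local3
import Pool.Agent.Lib_helper67.QE.Final

/-!
Correlations of the local waves of quantum ergodic sequences bounded in `L⁴` on closed surfaces.
-/

open MeasureTheory Filter Topology Set MatrixGroups UpperHalfPlane
open scoped ContDiff

namespace QE

noncomputable section

variable {Γ : Subgroup SL(2, ℝ)} {ρ : ℍ → ℝ} {D : Set ℍ}

lemma prod_le_four {k : ℕ} (hk : k ≤ 4) (a : Fin k → ℝ) : |∏ i, a i| ≤ 1 + ∑ i, a i ^ 4 := by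
  set S : ℝ := 1 + ∑ i, a i ^ 4 with hS
  have hS1 : 1 ≤ S := by
    have : 0 ≤ ∑ i, a i ^ 4 := Finset.sum_nonneg fun i _ => by positivity
    linarith
  set c : ℝ := Real.sqrt (Real.sqrt S) with hc
  have hc4 : c ^ 4 = S := by
    have h1 : c ^ 2 = Real.sqrt S := Real.sq_sqrt (Real.sqrt_nonneg _)
    have h2 : Real.sqrt S ^ 2 = S := Real.sq_sqrt (by linarith)
    calc c ^ 4 = (c ^ 2) ^ 2 := by ring
      _ = S := by rw [h1, h2]
  have hc0 : 0 ≤ c := Real.sqrt_nonneg _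
  have hc1 : 1 ≤ c := by
    by_contra h
    push Not at h
    have : c ^ 4 < 1 := pow_lt_one₀ hc0 h (by norm_num)
    linarith
  have hi : ∀ i, |a i| ≤ c := by
    intro i
    have h1 : a i ^ 4 ≤ S := by
      have : a i ^ 4 ≤ ∑ j, a j ^ 4 := Finset.single_le_sum (f := fun j => a j ^ 4)
        (fun j _ => by positivity) (Finset.mem_univ i)
      linarith
    have h2 : |a i| ^ 4 ≤ c ^ 4 := by
      rw [hc4, Even.pow_abs ⟨2, rfl⟩]; exact h1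
    exact (pow_le_pow_iff_left₀ (abs_nonneg _) hc0 (by norm_num)).1 h2
  rw [Finset.abs_prod]
  calc ∏ i, |a i| ≤ ∏ _i : Fin k, c := Finset.prod_le_prod (fun i _ => abs_nonneg _) (fun i _ => hi i)
    _ = c ^ k := by simp
    _ ≤ c ^ 4 := pow_le_pow_right₀ hc1 hk
    _ = S := hc4

/-- the two point functions of the jets -/
def TwoPt (ρ : ℍ → ℝ) (φ : ℕ → ℍ → ℝ) (h : ℕ → ℝ) : Prop :=
  ∀ (j k : ℤ) (η : ℂ → ℂ), Test HH η →
    Tendsto (fun n => ∫ z, η z * (E h (wt (gw ρ)) (fun n z => (φ n (ofComplex z) : ℂ)) j n z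
      * E h (wt (gw ρ)) (fun n z => (φ n (ofComplex z) : ℂ)) k n z)) atTop
      (𝓝 (P j k * ∫ z, η z))

/-- the setting for quantum ergodic sequences -/
theorem ws_of_surface [Countable Γ] (hDm : MeasurableSet D)
    (hD : IsFundamentalDomain Γ D (volume : Measure ℍ))
    (hK : ∃ K : Set ℍ, IsCompact K ∧ ∀ z, ∃ γ ∈ Γ, γ • z ∈ K)
    (hρ : ContDiffOn ℝ ∞ (fun w : ℂ => ρ (ofComplex w)) {w | 0 < w.im})
    (hρΓ : ∀ γ ∈ Γ, ∀ z, ρ (γ • z) = ρ z)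
    {φ : ℕ → ℍ → ℝ} {m : ℕ → ℝ} (hφ : Berry.REigenSeq Γ ρ φ m)
    (hs : ∀ n, ContDiffOn ℝ ∞ (fun w : ℂ => φ n (ofComplex w)) {w | 0 < w.im})
    (hq : QuantumErgodic ρ φ m) {C : ℝ}
    (hb : ∀ᶠ n in atTop, Berry.rAvg ρ D (fun z => φ n z ^ 4) ≤ C) :
    ∃ N, WS Γ ρ D (fun n => φ (n + N)) (fun n => m (n + N)) (fun n => 1 / m (n + N))
        (fun z => ((gw ρ z : ℝ) : ℂ)) ∧
      TwoPt ρ (fun n => φ (n + N)) (fun n => 1 / m (n + N)) := by
  obtain ⟨N, H⟩ := localQE_of_surface hρ hφ hs hq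
  have hρc := continuous_of_smooth hρ
  have hgeo : Berry.Geo Γ ρ D := ⟨hD, hDm, Berry.finite_of_cocompact hD hK, hρΓ,
    Berry.bdd_of_cocompact hρc hρΓ hK, Berry.unif_of_cocompact hρc hρΓ hK⟩
  have hpc : ∀ n, Continuous (φ n) := fun n => continuous_of_smooth (hs n)
  have hL : LBdd 4 HH (fun n z => (φ (n + N) (ofComplex z) : ℂ)) := by
    intro K' hK' hK'U
    obtain ⟨c, hc0, hc⟩ := loc_le hgeo hρc hK hK' hK'U
    refine ⟨c * C, ?_⟩
    filter_upwards [(tendsto_add_atTop_nat N).eventually hb] with n hn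
    have h4 : ∀ z : ℂ, ‖(φ (n + N) (ofComplex z) : ℂ)‖ ^ 4 = φ (n + N) (ofComplex z) ^ 4 :=
      fun z => by
        rw [Complex.norm_real, Real.norm_eq_abs]
        exact Even.pow_abs ⟨2, rfl⟩ _
    simp only [h4]
    exact (hc (fun z => φ (n + N) z ^ 4) ((hpc _).pow 4) (fun z => by positivity)
      (fun γ hγ z => by rw [hφ.invariant _ γ hγ z])).trans (by gcongr)
  have S := setup_of_local isOpen_HH (smooth_weight hρ) (fun z hz => by
    have : 0 < z.im := hz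
    positivity) H hL
  have hpos : ∀ n, 0 < m (n + N) := fun n => one_div_pos.1 (H.hpos n)
  exact ⟨N, ⟨hgeo, hK, hρc, fun n => hpc _, fun n => hφ.invariant _, hpos,
    hφ.tendsto.comp (tendsto_add_atTop_nat N), fun n => rfl, S⟩, fun j k η hη => S.two_pt H j k η hη⟩

section
variable {φ : ℕ → ℍ → ℝ} {m h : ℕ → ℝ} {g' : ℂ → ℂ}

lemma test_real {ψ : ℂ → ℝ} (hψ : ContDiff ℝ ∞ ψ) (hψs : HasCompactSupport ψ) {K : Set ℂ}
    (hψK : tsupport ψ ⊆ K) (hKU : K ⊆ HH) :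
    Test HH (fun z => (ψ z : ℂ)) ∧ tsupport (fun z => (ψ z : ℂ)) ⊆ K := by
  have h1 : tsupport (fun z => (ψ z : ℂ)) ⊆ tsupport ψ := by
    refine closure_mono fun z hz => ?_
    simpa using hz
  exact ⟨⟨Complex.ofRealCLM.contDiff.comp hψ, hψs.comp_left (g := fun r : ℝ => (r : ℂ)) rfl,
    (h1.trans hψK).trans hKU⟩, h1.trans hψK⟩

lemma WS.locLim_four (W : WS Γ ρ D φ m h g') (htwo : TwoPt ρ φ h) (x : Fin 4 → ℂ) :
    LocLim ρ h φ x (wick x - 3 * defc x) (defc x) := by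
  intro K δ hK hδ hδU ξ hξ ψ hψ hψs hψK
  have hKU : K ⊆ HH := (Metric.self_subset_cthickening K).trans hδU
  obtain ⟨hT, hsub⟩ := test_real hψ hψs hψK hKU
  refine (W.set.four_local htwo hK hδ hδU (q := 2) (by norm_num) x ξ hξ hT hsub).congr fun n => ?_
  have e1 : ∀ θ z, (ψ z : ℂ) * ∏ i, (φ n (ofComplex (z + h n * wt (gw ρ) z * ξ i n θ z)) : ℂ)
      = (ψ z : ℂ) * ((φ n (ofComplex (z + h n * wt (gw ρ) z * ξ 0 n θ z)) : ℂ)
        * (φ n (ofComplex (z + h n * wt (gw ρ) z * ξ 1 n θ z)) : ℂ)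
        * (φ n (ofComplex (z + h n * wt (gw ρ) z * ξ 2 n θ z)) : ℂ)
        * (φ n (ofComplex (z + h n * wt (gw ρ) z * ξ 3 n θ z)) : ℂ)) := fun θ z => by
    rw [Fin.prod_univ_four]
  have e2 : ∀ z : ℂ, (φ n (ofComplex z) : ℂ) ^ 4 = (φ n (ofComplex z) : ℂ) * φ n (ofComplex z)
      * ((φ n (ofComplex z) : ℂ) * φ n (ofComplex z)) := fun z => by ring
  simp only [e1, e2]
  push_cast
  ring

lemma WS.locLim_two (W : WS Γ ρ D φ m h g') (htwo : TwoPt ρ φ h) (x : Fin 2 → ℂ) :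
    LocLim ρ h φ x (Berry.waveK (x 0 - x 1)) 0 := by
  intro K δ hK hδ hδU ξ hξ ψ hψ hψs hψK
  have hKU : K ⊆ HH := (Metric.self_subset_cthickening K).trans hδU
  obtain ⟨hT, hsub⟩ := test_real hψ hψs hψK hKU
  have h1 := W.set.two_local htwo hK hδ hδU (q := 2) (by norm_num) x ξ hξ hT hsub
  have h2 := h1.sub (tendsto_const_nhds
    (x := (∫ z, (ψ z : ℂ)) * ((Berry.waveK (x 0 - x 1) : ℝ) : ℂ)))
  rw [sub_self] at h2
  refine h2.congr fun n => ?_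
  have e1 : ∀ θ z, (ψ z : ℂ) * ∏ i, (φ n (ofComplex (z + h n * wt (gw ρ) z * ξ i n θ z)) : ℂ)
      = (ψ z : ℂ) * ((φ n (ofComplex (z + h n * wt (gw ρ) z * ξ 0 n θ z)) : ℂ)
        * (φ n (ofComplex (z + h n * wt (gw ρ) z * ξ 1 n θ z)) : ℂ)) := fun θ z => by
    rw [Fin.prod_univ_two]
  simp only [e1]
  push_cast
  ring

lemma WS.locLim_three (W : WS Γ ρ D φ m h g') (htwo : TwoPt ρ φ h) (x : Fin 3 → ℂ) :
    LocLim ρ h φ x 0 0 := by
  intro K δ hK hδ hδU ξ hξ ψ hψ hψs hψK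
  have hKU : K ⊆ HH := (Metric.self_subset_cthickening K).trans hδU
  obtain ⟨hT, hsub⟩ := test_real hψ hψs hψK hKU
  refine (W.set.three_local htwo hK hδ hδU (q := 2) (by norm_num) x ξ hξ hT hsub).congr fun n => ?_
  have e1 : ∀ θ z, (ψ z : ℂ) * ∏ i, (φ n (ofComplex (z + h n * wt (gw ρ) z * ξ i n θ z)) : ℂ)
      = (ψ z : ℂ) * ((φ n (ofComplex (z + h n * wt (gw ρ) z * ξ 0 n θ z)) : ℂ)
        * (φ n (ofComplex (z + h n * wt (gw ρ) z * ξ 1 n θ z)) : ℂ)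
        * (φ n (ofComplex (z + h n * wt (gw ρ) z * ξ 2 n θ z)) : ℂ)) := fun θ z => by
    rw [Fin.prod_univ_three]
  simp only [e1]
  push_cast
  ring

lemma WS.locLim_one (W : WS Γ ρ D φ m h g') (x : Fin 1 → ℂ) :
    LocLim ρ h φ x 0 0 := by
  intro K δ hK hδ hδU ξ hξ ψ hψ hψs hψK
  have hKU : K ⊆ HH := (Metric.self_subset_cthickening K).trans hδU
  obtain ⟨hT, hsub⟩ := test_real hψ hψs hψK hKU
  refine (W.set.one_local hK hδ hδU (q := 2) (by norm_num) x ξ hξ hT hsub).congr fun n => ?_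
  have e1 : ∀ θ z, (ψ z : ℂ) * ∏ i, (φ n (ofComplex (z + h n * wt (gw ρ) z * ξ i n θ z)) : ℂ)
      = (ψ z : ℂ) * (φ n (ofComplex (z + h n * wt (gw ρ) z * ξ 0 n θ z)) : ℂ) := fun θ z => by
    rw [Fin.prod_univ_one]
  simp only [e1]
  push_cast
  ring

end

/-- the correlations of order at most four of the local waves of quantum ergodic sequences -/
theorem corr_surface [Countable Γ] (hDm : MeasurableSet D)
    (hD : IsFundamentalDomain Γ D (volume : Measure ℍ))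
    (hK : ∃ K : Set ℍ, IsCompact K ∧ ∀ z, ∃ γ ∈ Γ, γ • z ∈ K)
    (hρ : ContDiffOn ℝ ∞ (fun w : ℂ => ρ (ofComplex w)) {w | 0 < w.im})
    (hρΓ : ∀ γ ∈ Γ, ∀ z, ρ (γ • z) = ρ z)
    {φ : ℕ → ℍ → ℝ} {m : ℕ → ℝ} (hφ : Berry.REigenSeq Γ ρ φ m)
    (hs : ∀ n, ContDiffOn ℝ ∞ (fun w : ℂ => φ n (ofComplex w)) {w | 0 < w.im})
    (hq : QuantumErgodic ρ φ m) {C : ℝ}
    (hb : ∀ᶠ n in atTop, Berry.rAvg ρ D (fun z => φ n z ^ 4) ≤ C) :
    (∀ x : Fin 4 → ℂ, Tendsto (fun n =>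
      (∫ p, ∏ i, Berry.rWave ρ (φ n) (m n) (x i) p ∂(Berry.rFrameProb ρ D))
        - (wick x + (Berry.rAvg ρ D (fun z => φ n z ^ 4) - 3) * defc x)) atTop (𝓝 0)) ∧
    (∀ x : Fin 3 → ℂ, Tendsto (fun n =>
      ∫ p, ∏ i, Berry.rWave ρ (φ n) (m n) (x i) p ∂(Berry.rFrameProb ρ D)) atTop (𝓝 0)) ∧
    (∀ x : Fin 2 → ℂ, Tendsto (fun n =>
      ∫ p, ∏ i, Berry.rWave ρ (φ n) (m n) (x i) p ∂(Berry.rFrameProb ρ D)) atTop
      (𝓝 (Berry.waveK (x 0 - x 1)))) ∧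
    (∀ x : Fin 1 → ℂ, Tendsto (fun n =>
      ∫ p, ∏ i, Berry.rWave ρ (φ n) (m n) (x i) p ∂(Berry.rFrameProb ρ D)) atTop (𝓝 0)) := by
  obtain ⟨N, W, htwo⟩ := ws_of_surface hDm hD hK hρ hρΓ hφ hs hq hb
  refine ⟨fun x => ?_, fun x => ?_, fun x => ?_, fun x => ?_⟩
  · have h1 := W.wrap x (prod_le_four le_rfl) (W.locLim_four htwo x)
    rw [← tendsto_add_atTop_iff_nat N]
    refine h1.congr fun n => ?_
    ring
  · have h1 := W.wrap x (prod_le_four (by norm_num)) (W.locLim_three htwo x)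
    rw [← tendsto_add_atTop_iff_nat N]
    refine h1.congr fun n => ?_
    ring
  · have h1 := W.wrap x (prod_le_four (by norm_num)) (W.locLim_two htwo x)
    rw [← tendsto_add_atTop_iff_nat N]
    have h2 := h1.add (tendsto_const_nhds (x := Berry.waveK (x 0 - x 1)))
    rw [zero_add] at h2
    refine h2.congr fun n => ?_
    ring
  · have h1 := W.wrap x (prod_le_four (by norm_num)) (W.locLim_one x)
    rw [← tendsto_add_atTop_iff_nat N]
    refine h1.congr fun n => ?_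
    ring

end

end QE
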