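import Pool.Agent.LibH11.QEV.Growth

/-!
Change of variables for maps which are close to the identity.
-/

open MeasureTheory Filter Topology Set
open scoped ContDiff ENNReal NNReal

namespace QE

noncomputable section

lemma volume_smul_hausdorff : ∃ c : ℝ≥0,
    (volume : Measure ℂ) = c • (μH[2] : Measure ℂ) := by
  have h1 : (Module.finrank ℝ ℂ : ℝ) = 2 := by simp
  have h2 : (μH[(Module.finrank ℝ ℂ : ℝ)] : Measure ℂ).IsAddHaarMeasure := inferInstance
  rw [h1] at h2
  exact ⟨_, Measure.isAddLeftInvariant_eq_smul _ _⟩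

/-- the preimage under an expanding map -/
lemma volume_preimage_le {K S : Set ℂ} {T : ℂ → ℂ}
    (hT : ∀ z ∈ K, ∀ w ∈ K, ‖z - w‖ ≤ 2 * ‖T z - T w‖) (hKS : MapsTo T K S) (s : Set ℂ) :
    volume (K ∩ T ⁻¹' s) ≤ 4 * volume (S ∩ s) := by
  obtain ⟨c, hc⟩ := volume_smul_hausdorff
  set A : Set ℂ := K ∩ T ⁻¹' s with hA
  have hinj : InjOn T K := by
    intro z hz w hw hzw
    have := hT z hz w hw
    rw [hzw, sub_self, norm_zero, mul_zero] at this
    exact sub_eq_zero.1 (norm_le_zero_iff.1 this)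
  set g := Function.invFunOn T K with hg
  have hgT : ∀ z ∈ K, g (T z) = z := fun z hz => hinj.leftInvOn_invFunOn hz
  have hlip : LipschitzOnWith 2 g (T '' A) := by
    refine LipschitzOnWith.of_dist_le_mul ?_
    rintro _ ⟨z, hz, rfl⟩ _ ⟨w, hw, rfl⟩
    rw [hgT z hz.1, hgT w hw.1, dist_eq_norm, dist_eq_norm]
    exact hT z hz.1 w hw.1
  have hAg : A = g '' (T '' A) := by
    rw [image_image]
    ext z
    constructor
    · exact fun hz => ⟨z, hz, hgT z hz.1⟩
    · rintro ⟨w, hw, rfl⟩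
      beta_reduce
      rwa [hgT w hw.1]
  have h1 := hlip.hausdorffMeasure_image_le (d := 2) (by norm_num)
  rw [← hAg] at h1
  have h2 : T '' A ⊆ S ∩ s := by
    rintro _ ⟨z, hz, rfl⟩
    exact ⟨hKS hz.1, hz.2⟩
  have h3 : (((2 : ℝ≥0) : ℝ≥0∞)) ^ (2 : ℝ) = 4 := by
    rw [show ((2 : ℝ)) = ((2 : ℕ) : ℝ) by norm_num, ENNReal.rpow_natCast]
    norm_num
  rw [h3] at h1
  calc volume A = c * μH[2] A := by rw [hc]; rfl
    _ ≤ c * (4 * μH[2] (T '' A)) := by gcongr
    _ = 4 * (c * μH[2] (T '' A)) := by ring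
    _ = 4 * volume (T '' A) := by rw [hc]; rfl
    _ ≤ 4 * volume (S ∩ s) := by gcongr

lemma map_le {K S : Set ℂ} {T : ℂ → ℂ} (hK : MeasurableSet K)
    (hT : ∀ z ∈ K, ∀ w ∈ K, ‖z - w‖ ≤ 2 * ‖T z - T w‖) (hKS : MapsTo T K S)
    (hTc : ContinuousOn T K) :
    Measure.map T (volume.restrict K) ≤ (4 : ℝ≥0∞) • (volume.restrict S) := by
  have hm : AEMeasurable T (volume.restrict K) := hTc.aemeasurable hK
  refine Measure.le_iff.2 fun s hs => ?_
  rw [Measure.map_apply_of_aemeasurable hm hs, Measure.smul_apply, Measure.restrict_apply hs,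
    Measure.restrict_apply' hK, inter_comm, smul_eq_mul, inter_comm s S]
  exact volume_preimage_le hT hKS s

/-- **Change of variables.** -/
theorem integral_comp_le {K S : Set ℂ} {T : ℂ → ℂ} (hK : IsCompact K) (hS : IsCompact S)
    (hT : ∀ z ∈ K, ∀ w ∈ K, ‖z - w‖ ≤ 2 * ‖T z - T w‖) (hKS : MapsTo T K S)
    (hTc : ContinuousOn T K) {f : ℂ → ℝ} (hf : ContinuousOn f S) (h0 : ∀ z ∈ S, 0 ≤ f z) :
    ∫ z in K, f (T z) ≤ 4 * ∫ z in S, f z := by
  have hTm : AEMeasurable T (volume.restrict K) := hTc.aemeasurable hK.measurableSet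
  have hle := map_le hK.measurableSet hT hKS hTc
  have hac : Measure.map T (volume.restrict K) ≪ (volume.restrict S) :=
    (Measure.absolutelyContinuous_of_le hle).trans
      (Measure.smul_absolutelyContinuous)
  have hfS : AEStronglyMeasurable f (volume.restrict S) :=
    hf.aestronglyMeasurable hS.measurableSet
  have hfm : AEStronglyMeasurable f (Measure.map T (volume.restrict K)) := hfS.mono_ac hac
  have hint : IntegrableOn f S := hf.integrableOn_compact hS
  have hint4 : Integrable f ((4 : ℝ≥0∞) • (volume.restrict S)) :=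
    hint.smul_measure (by norm_num)
  have e1 : ∫ z in K, f (T z) = ∫ z, f z ∂(Measure.map T (volume.restrict K)) :=
    (integral_map hTm hfm).symm
  have h0' : 0 ≤ᵐ[(4 : ℝ≥0∞) • (volume.restrict S)] f := by
    refine Measure.ae_smul_measure ?_ _
    exact (ae_restrict_iff' hS.measurableSet).2 (Eventually.of_forall h0)
  rw [e1]
  refine (integral_mono_measure hle h0' hint4).trans (le_of_eq ?_)
  rw [integral_smul_measure]
  norm_num

/-- maps which are close to the identity are expanding -/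
lemma expand_of_lip {K : Set ℂ} {v : ℂ → ℂ}
    (hv : ∀ z ∈ K, ∀ w ∈ K, ‖v z - v w‖ ≤ (1 / 2) * ‖z - w‖) {t : ℝ} (ht : t ∈ Icc (0 : ℝ) 1) :
    ∀ z ∈ K, ∀ w ∈ K, ‖z - w‖ ≤ 2 * ‖(z + t • v z) - (w + t • v w)‖ := by
  intro z hz w hw
  have h1 : ‖z - w‖ ≤ ‖(z + t • v z) - (w + t • v w)‖ + ‖t • (v z - v w)‖ := by
    have e : z - w = ((z + t • v z) - (w + t • v w)) - t • (v z - v w) := by
      rw [smul_sub]; ring
    calc ‖z - w‖ = ‖((z + t • v z) - (w + t • v w)) - t • (v z - v w)‖ := by rw [← e]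
      _ ≤ _ := norm_sub_le _ _
  have h2 : ‖t • (v z - v w)‖ ≤ (1 / 2) * ‖z - w‖ := by
    rw [norm_smul, Real.norm_of_nonneg ht.1]
    calc t * ‖v z - v w‖ ≤ 1 * ‖v z - v w‖ := by gcongr; exact ht.2
      _ ≤ _ := by rw [one_mul]; exact hv z hz w hw
  linarith

end

end QE
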