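import Pool.Agent.LibH11.QEV.Cov

/-!
Iterated directional derivatives of an eigenfunction in terms of the jets.
-/

open Complex MeasureTheory Filter Topology
open scoped ContDiff

namespace QE

noncomputable section

variable {U : Set ℂ} {h : ℕ → ℝ} {a g : ℂ → ℂ} {φ : ℕ → ℂ → ℂ}

lemma dir_eq (f : ℂ → ℂ) (z v : ℂ) :
    fderiv ℝ f z v = v * dz f z + (starRingEnd ℂ) v * dzb f z := by
  have e : v = (v.re : ℝ) • (1 : ℂ) + (v.im : ℝ) • I := by
    rw [Complex.real_smul, Complex.real_smul, mul_one, Complex.re_add_im]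
  have h1 : fderiv ℝ f z v = (v.re : ℂ) * fderiv ℝ f z 1 + (v.im : ℂ) * fderiv ℝ f z I := by
    conv_lhs => rw [e]
    rw [map_add, map_smul, map_smul, Complex.real_smul, Complex.real_smul]
  have h2 : v = v.re + v.im * I := (Complex.re_add_im v).symm
  have h3 : (starRingEnd ℂ) v = v.re - v.im * I := by
    conv_lhs => rw [h2]
    simp only [map_add, map_mul, conj_ofReal, conj_I]; ring
  rw [h1, h3]
  unfold dz dzb
  conv_rhs => rw [h2]
  simp only [add_re, ofReal_re, mul_re, I_re, mul_zero, ofReal_im, I_im, mul_one, sub_self,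
    add_zero, add_im, mul_im, zero_add]
  linear_combination ((v.im : ℂ) * fderiv ℝ f z I) * I_sq

/-- iterated derivatives in the direction `v` -/
def dirK : ℕ → ℂ → (ℂ → ℂ) → ℂ → ℂ
  | 0, _, f => f
  | k + 1, v, f => fun z => fderiv ℝ (dirK k v f) z v

lemma contDiffOn_dirK (hU : IsOpen U) (v : ℂ) {f : ℂ → ℂ} (hf : ContDiffOn ℝ ∞ f U) (k : ℕ) :
    ContDiffOn ℝ ∞ (dirK k v f) U := by
  induction k with
  | zero => exact hf
  | succ k ih =>
    exact (ih.fderiv_of_isOpen hU (by simp)).clm_apply contDiffOn_const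

lemma iteratedFDeriv_eq_dirK (hU : IsOpen U) (v : ℂ) {f : ℂ → ℂ} (hf : ContDiffOn ℝ ∞ f U)
    (k : ℕ) : ∀ z ∈ U, iteratedFDeriv ℝ k f z (fun _ => v) = dirK k v f z := by
  induction k with
  | zero => intro z _; rfl
  | succ k ih =>
    intro z hz
    have h1 : ContDiffAt ℝ ∞ f z := hf.contDiffAt (hU.mem_nhds hz)
    have h2 : DifferentiableAt ℝ (iteratedFDeriv ℝ k f) z :=
      h1.differentiableAt_iteratedFDeriv (by exact_mod_cast WithTop.coe_lt_top k)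
    have h3 := h2.iteratedFDeriv_succ_apply_left' (m := fun _ => v)
    rw [h3]
    show _ = fderiv ℝ (dirK k v f) z v
    congr 1
    refine Filter.EventuallyEq.fderiv_eq ?_
    filter_upwards [hU.mem_nhds hz] with w hw
    exact ih w hw

lemma dirK_smul (hU : IsOpen U) (c : ℝ) (v : ℂ) {f : ℂ → ℂ} (hf : ContDiffOn ℝ ∞ f U) (k : ℕ)
    {z : ℂ} (hz : z ∈ U) : dirK k ((c : ℂ) * v) f z = (c : ℂ) ^ k * dirK k v f z := by
  rw [← iteratedFDeriv_eq_dirK hU _ hf k z hz, ← iteratedFDeriv_eq_dirK hU _ hf k z hz]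
  have h1 := (iteratedFDeriv ℝ k f z).map_smul_univ (fun _ => c) (fun _ => v)
  simp only [Finset.prod_const, Finset.card_univ, Fintype.card_fin] at h1
  have e : (fun _ : Fin k => (c : ℂ) * v) = fun _ => c • v := by
    funext _; rw [Complex.real_smul]
  rw [e, h1, Complex.real_smul, Complex.ofReal_pow]

/-! ### families depending on a direction -/

/-- finite sums of continuous functions of the direction times tame sequences -/
def PT (U : Set ℂ) (h : ℕ → ℝ) (F : ℂ → ℕ → ℂ → ℂ) : Prop :=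
  ∃ (ι : Type) (_ : Fintype ι) (c : ι → ℂ → ℂ) (w : ι → ℕ → ℂ → ℂ), (∀ i, Continuous (c i)) ∧
    (∀ i, Tame U h (w i)) ∧ ∀ ξ n, ∀ z ∈ U, F ξ n z = ∑ i, c i ξ * w i n z

/-- equality up to `h` times such a family -/
def NPT (U : Set ℂ) (h : ℕ → ℝ) (F G : ℂ → ℕ → ℂ → ℂ) : Prop :=
  ∃ W, PT U h W ∧ ∀ ξ n, ∀ z ∈ U, F ξ n z = G ξ n z + (h n : ℂ) * W ξ n z

theorem PT.of_tame {w : ℕ → ℂ → ℂ} (hw : Tame U h w) : PT U h (fun _ n z => w n z) :=
  ⟨Unit, inferInstance, fun _ _ => 1, fun _ => w, fun _ => continuous_const, fun _ => hw,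
    fun ξ n z _ => by simp⟩

theorem PT.congr {F G : ℂ → ℕ → ℂ → ℂ} (hF : PT U h F) (he : ∀ ξ n, ∀ z ∈ U, F ξ n z = G ξ n z) :
    PT U h G := by
  obtain ⟨ι, _, c, w, hc, hw, h1⟩ := hF
  exact ⟨ι, inferInstance, c, w, hc, hw, fun ξ n z hz => by rw [← he ξ n z hz, h1 ξ n z hz]⟩

theorem PT.add {F G : ℂ → ℕ → ℂ → ℂ} (hF : PT U h F) (hG : PT U h G) :
    PT U h (fun ξ n z => F ξ n z + G ξ n z) := by
  obtain ⟨ι, _, c, w, hc, hw, h1⟩ := hF
  obtain ⟨κ, _, c', w', hc', hw', h1'⟩ := hG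
  refine ⟨ι ⊕ κ, inferInstance, Sum.elim c c', Sum.elim w w', ?_, ?_, fun ξ n z hz => ?_⟩
  · rintro (i | i); exacts [hc i, hc' i]
  · rintro (i | i); exacts [hw i, hw' i]
  · beta_reduce
    rw [h1 ξ n z hz, h1' ξ n z hz, Fintype.sum_sum_type]
    rfl

theorem PT.cmul {F : ℂ → ℕ → ℂ → ℂ} (hF : PT U h F) {b : ℂ → ℂ} (hb : Continuous b) :
    PT U h (fun ξ n z => b ξ * F ξ n z) := by
  obtain ⟨ι, _, c, w, hc, hw, h1⟩ := hF
  refine ⟨ι, inferInstance, fun i ξ => b ξ * c i ξ, w, fun i => hb.mul (hc i), hw,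
    fun ξ n z hz => ?_⟩
  beta_reduce
  rw [h1 ξ n z hz, Finset.mul_sum]
  exact Finset.sum_congr rfl fun i _ => by ring

theorem PT.fmul (hU : IsOpen U) (hh0 : Tendsto h atTop (𝓝 0)) {F : ℂ → ℕ → ℂ → ℂ}
    (hF : PT U h F) {b : ℂ → ℂ} (hb : ContDiffOn ℝ ∞ b U) :
    PT U h (fun ξ n z => b z * F ξ n z) := by
  obtain ⟨ι, _, c, w, hc, hw, h1⟩ := hF
  refine ⟨ι, inferInstance, c, fun i n z => b z * w i n z, hc, fun i => (hw i).fn_mul hU hh0 hb,
    fun ξ n z hz => ?_⟩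
  beta_reduce
  rw [h1 ξ n z hz, Finset.mul_sum]
  exact Finset.sum_congr rfl fun i _ => by ring

theorem PT.hmul (hU : IsOpen U) (hh0 : Tendsto h atTop (𝓝 0)) {F : ℂ → ℕ → ℂ → ℂ}
    (hF : PT U h F) : PT U h (fun ξ n z => (h n : ℂ) * F ξ n z) := by
  obtain ⟨ι, _, c, w, hc, hw, h1⟩ := hF
  refine ⟨ι, inferInstance, c, fun i n z => (h n : ℂ) * w i n z, hc,
    fun i => (hw i).const_mul hU (hbd hh0), fun ξ n z hz => ?_⟩
  beta_reduce
  rw [h1 ξ n z hz, Finset.mul_sum]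
  exact Finset.sum_congr rfl fun i _ => by ring

theorem PT.dAt (hU : IsOpen U) {F : ℂ → ℕ → ℂ → ℂ} (hF : PT U h F) (ξ : ℂ) (n : ℕ) {z : ℂ}
    (hz : z ∈ U) : DifferentiableAt ℝ (F ξ n) z := by
  obtain ⟨ι, _, c, w, hc, hw, h1⟩ := hF
  have e : F ξ n =ᶠ[𝓝 z] fun z => ∑ i, c i ξ * w i n z := by
    filter_upwards [hU.mem_nhds hz] with y hy
    exact h1 ξ n y hy
  refine DifferentiableAt.congr_of_eventuallyEq ?_ e
  exact DifferentiableAt.fun_sum fun i _ => ((hw i).smooth.dAt hU n hz).const_mul _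

/-- the semiclassical derivative in the direction `ξ` -/
def hdir (h : ℕ → ℝ) (F : ℂ → ℕ → ℂ → ℂ) : ℂ → ℕ → ℂ → ℂ :=
  fun ξ n z => (h n : ℂ) * fderiv ℝ (F ξ n) z ξ

lemma hdir_congr (hU : IsOpen U) {F G : ℂ → ℕ → ℂ → ℂ} (he : ∀ ξ n, ∀ z ∈ U, F ξ n z = G ξ n z)
    (ξ : ℂ) (n : ℕ) {z : ℂ} (hz : z ∈ U) : hdir h F ξ n z = hdir h G ξ n z := by
  unfold hdir
  congr 2
  refine Filter.EventuallyEq.fderiv_eq ?_
  filter_upwards [hU.mem_nhds hz] with y hy
  exact he ξ n y hy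

theorem PT.hdir (hU : IsOpen U) {F : ℂ → ℕ → ℂ → ℂ} (hF : PT U h F) : PT U h (QE.hdir h F) := by
  obtain ⟨ι, _, c, w, hc, hw, h1⟩ := hF
  refine ⟨ι ⊕ ι, inferInstance, Sum.elim (fun i ξ => ξ * c i ξ)
    (fun i ξ => (starRingEnd ℂ) ξ * c i ξ), Sum.elim (fun i n z => (h n : ℂ) * dz (w i n) z)
    (fun i n z => (h n : ℂ) * dzb (w i n) z), ?_, ?_, fun ξ n z hz => ?_⟩
  · rintro (i | i)
    · exact continuous_id.mul (hc i)
    · exact Complex.continuous_conj.mul (hc i)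
  · rintro (i | i)
    · exact (hw i).hdz hU
    · exact (hw i).hdzb hU
  · rw [hdir_congr hU h1 ξ n hz]
    unfold QE.hdir
    have hd : ∀ i ∈ (Finset.univ : Finset ι), DifferentiableAt ℝ (fun z => c i ξ * w i n z) z :=
      fun i _ => ((hw i).smooth.dAt hU n hz).const_mul _
    have e1 : fderiv ℝ (fun z => ∑ i, c i ξ * w i n z) z ξ
        = ∑ i, c i ξ * fderiv ℝ (w i n) z ξ := by
      rw [fderiv_fun_sum hd, FunLike.coe_sum, Finset.sum_apply]
      refine Finset.sum_congr rfl fun i _ => ?_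
      rw [fderiv_const_mul ((hw i).smooth.dAt hU n hz), FunLike.coe_smul, Pi.smul_apply,
        smul_eq_mul]
    rw [e1, Fintype.sum_sum_type, Finset.mul_sum, ← Finset.sum_add_distrib]
    refine Finset.sum_congr rfl fun i _ => ?_
    rw [dir_eq]
    simp only [Sum.elim_inl, Sum.elim_inr]
    ring

theorem NPT.of_eq (hU : IsOpen U) {F G : ℂ → ℕ → ℂ → ℂ}
    (he : ∀ ξ n, ∀ z ∈ U, F ξ n z = G ξ n z) : NPT U h F G :=
  ⟨_, PT.of_tame (Tame.zero hU), fun ξ n z hz => by rw [he ξ n z hz]; simp⟩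

theorem NPT.of_near {u v : ℕ → ℂ → ℂ} (h1 : Near U h u v) :
    NPT U h (fun _ n z => u n z) (fun _ n z => v n z) := by
  obtain ⟨w, hw, hw'⟩ := h1
  exact ⟨_, PT.of_tame hw, fun _ n z hz => hw' n z hz⟩

theorem NPT.trans {F G H : ℂ → ℕ → ℂ → ℂ} (h1 : NPT U h F G) (h2 : NPT U h G H) :
    NPT U h F H := by
  obtain ⟨a, ha, ha'⟩ := h1
  obtain ⟨b, hb, hb'⟩ := h2
  refine ⟨_, ha.add hb, fun ξ n z hz => ?_⟩
  rw [ha' ξ n z hz, hb' ξ n z hz]; ring

theorem NPT.add {F G F' G' : ℂ → ℕ → ℂ → ℂ} (h1 : NPT U h F G) (h2 : NPT U h F' G') :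
    NPT U h (fun ξ n z => F ξ n z + F' ξ n z) (fun ξ n z => G ξ n z + G' ξ n z) := by
  obtain ⟨a, ha, ha'⟩ := h1
  obtain ⟨b, hb, hb'⟩ := h2
  refine ⟨_, ha.add hb, fun ξ n z hz => ?_⟩
  beta_reduce
  rw [ha' ξ n z hz, hb' ξ n z hz]; ring

theorem NPT.cmul {F G : ℂ → ℕ → ℂ → ℂ} (h1 : NPT U h F G) {b : ℂ → ℂ} (hb : Continuous b) :
    NPT U h (fun ξ n z => b ξ * F ξ n z) (fun ξ n z => b ξ * G ξ n z) := by
  obtain ⟨a, ha, ha'⟩ := h1
  refine ⟨_, ha.cmul hb, fun ξ n z hz => ?_⟩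
  beta_reduce
  rw [ha' ξ n z hz]; ring

theorem NPT.fmul (hU : IsOpen U) (hh0 : Tendsto h atTop (𝓝 0)) {F G : ℂ → ℕ → ℂ → ℂ}
    (h1 : NPT U h F G) {b : ℂ → ℂ} (hb : ContDiffOn ℝ ∞ b U) :
    NPT U h (fun ξ n z => b z * F ξ n z) (fun ξ n z => b z * G ξ n z) := by
  obtain ⟨a, ha, ha'⟩ := h1
  refine ⟨_, ha.fmul hU hh0 hb, fun ξ n z hz => ?_⟩
  beta_reduce
  rw [ha' ξ n z hz]; ring

theorem NPT.hdir (hU : IsOpen U) {F G : ℂ → ℕ → ℂ → ℂ}
    (h1 : NPT U h F G) (hG : PT U h G) : NPT U h (QE.hdir h F) (QE.hdir h G) := by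
  obtain ⟨W, hW, hW'⟩ := h1
  refine ⟨_, hW.hdir hU, fun ξ n z hz => ?_⟩
  rw [hdir_congr hU hW' ξ n hz]
  unfold QE.hdir
  rw [fderiv_fun_add (hG.dAt hU ξ n hz) ((hW.dAt hU ξ n hz).const_mul _),
    fderiv_const_mul (hW.dAt hU ξ n hz)]
  simp only [add_apply, smul_apply, smul_eq_mul]
  ring

namespace Setup

/-- the jets in the expansion of the iterated directional derivatives -/
def TT (h : ℕ → ℝ) (a : ℂ → ℂ) (φ : ℕ → ℂ → ℂ) : ℕ → ℤ → ℂ → ℕ → ℂ → ℂ
  | 0, m => fun _ n z => E h a φ m n z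
  | k + 1, m => fun ξ n z => (I / 2) * (ξ * TT h a φ k (m + 1) ξ n z
      + (starRingEnd ℂ) ξ * TT h a φ k (m - 1) ξ n z)

variable (S : Setup U g a h φ)

include S

theorem pt_TT (k : ℕ) : ∀ m : ℤ, PT U h (TT h a φ k m) := by
  induction k with
  | zero => exact fun m => PT.of_tame (S.tame_E m)
  | succ k ih =>
    intro m
    have h1 := (ih (m + 1)).cmul (b := fun ξ => (I / 2) * ξ) (by fun_prop)
    have h2 := (ih (m - 1)).cmul (b := fun ξ => (I / 2) * (starRingEnd ℂ) ξ)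
      (continuous_const.mul Complex.continuous_conj)
    refine (h1.add h2).congr fun ξ n z _ => ?_
    show _ = (I / 2) * (ξ * TT h a φ k (m + 1) ξ n z + (starRingEnd ℂ) ξ * TT h a φ k (m - 1) ξ n z)
    ring

theorem hdz_E (m : ℤ) : Near U h (fun n z => (h n : ℂ) * dz (E h a φ m n) z)
    (fun n z => (I / 2) * (a z * g z) * E h a φ (m + 1) n z) := by
  have hb : ContDiffOn ℝ ∞ (fun z => (I / 2) * (a z * g z)) U :=
    contDiffOn_const.mul (S.ha.mul S.hg)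
  have h1 := (S.LL_E m).fn_mul S.op S.hlim hb
  have h0 : Near U h (fun n z => (h n : ℂ) * dz (E h a φ m n) z)
      (fun n z => (I / 2) * (a z * g z) * QE.LL h a (E h a φ m) n z) := by
    refine Near.of_eq S.op fun n z hz => ?_
    have hag := S.ag z hz
    unfold QE.LL
    linear_combination (-(h n : ℂ) * dz (E h a φ m n) z) * hag
      + ((h n : ℂ) * a z ^ 2 * g z * dz (E h a φ m n) z) * I_sq
  exact h0.trans S.op h1

theorem hdzb_E (m : ℤ) : Near U h (fun n z => (h n : ℂ) * dzb (E h a φ m n) z)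
    (fun n z => (I / 2) * (a z * g z) * E h a φ (m - 1) n z) := by
  have hb : ContDiffOn ℝ ∞ (fun z => (I / 2) * (a z * g z)) U :=
    contDiffOn_const.mul (S.ha.mul S.hg)
  have h1 := (S.LLb_E m).fn_mul S.op S.hlim hb
  have h0 : Near U h (fun n z => (h n : ℂ) * dzb (E h a φ m n) z)
      (fun n z => (I / 2) * (a z * g z) * QE.LLb h a (E h a φ m) n z) := by
    refine Near.of_eq S.op fun n z hz => ?_
    have hag := S.ag z hz
    unfold QE.LLb
    linear_combination (-(h n : ℂ) * dzb (E h a φ m n) z) * hag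
      + ((h n : ℂ) * a z ^ 2 * g z * dzb (E h a φ m n) z) * I_sq
  exact h0.trans S.op h1

theorem hdir_TT (k : ℕ) : ∀ m : ℤ, NPT U h (QE.hdir h (TT h a φ k m))
    (fun ξ n z => (a z * g z) * TT h a φ (k + 1) m ξ n z) := by
  induction k with
  | zero =>
    intro m
    have h1 := (NPT.of_near (S.hdz_E m)).cmul (b := fun ξ => ξ) continuous_id
    have h2 := (NPT.of_near (S.hdzb_E m)).cmul (b := fun ξ => (starRingEnd ℂ) ξ)
      Complex.continuous_conj
    refine ((NPT.of_eq S.op fun ξ n z _ => ?_).trans (h1.add h2)).trans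
      (NPT.of_eq S.op fun ξ n z _ => ?_)
    · show (h n : ℂ) * fderiv ℝ (E h a φ m n) z ξ = _
      rw [dir_eq]; ring
    · show _ = a z * g z * ((I / 2) * (ξ * E h a φ (m + 1) n z
        + (starRingEnd ℂ) ξ * E h a φ (m - 1) n z))
      ring
  | succ k ih =>
    intro m
    have h1 := (ih (m + 1)).cmul (b := fun ξ => (I / 2) * ξ) (by fun_prop)
    have h2 := (ih (m - 1)).cmul (b := fun ξ => (I / 2) * (starRingEnd ℂ) ξ)
      (continuous_const.mul Complex.continuous_conj)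
    refine ((NPT.of_eq S.op fun ξ n z hz => ?_).trans (h1.add h2)).trans
      (NPT.of_eq S.op fun ξ n z _ => ?_)
    · have d1 := (S.pt_TT k (m + 1)).dAt S.op ξ n hz
      have d2 := (S.pt_TT k (m - 1)).dAt S.op ξ n hz
      show (h n : ℂ) * fderiv ℝ (fun z => (I / 2) * (ξ * TT h a φ k (m + 1) ξ n z
        + (starRingEnd ℂ) ξ * TT h a φ k (m - 1) ξ n z)) z ξ
        = I / 2 * ξ * ((h n : ℂ) * fderiv ℝ (TT h a φ k (m + 1) ξ n) z ξ)
          + I / 2 * (starRingEnd ℂ) ξ * ((h n : ℂ) * fderiv ℝ (TT h a φ k (m - 1) ξ n) z ξ)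
      rw [fderiv_const_mul ((d1.const_mul _).fun_add (d2.const_mul _)),
        fderiv_fun_add (d1.const_mul _) (d2.const_mul _), fderiv_const_mul d1, fderiv_const_mul d2]
      simp only [add_apply, smul_apply, smul_eq_mul]
      ring
    · have e : TT h a φ (k + 1 + 1) m ξ n z = (I / 2) * (ξ * TT h a φ (k + 1) (m + 1) ξ n z
        + (starRingEnd ℂ) ξ * TT h a φ (k + 1) (m - 1) ξ n z) := rfl
      rw [e]; ring

/-- **iterated semiclassical derivatives in terms of jets** -/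
theorem dirK_near (k : ℕ) : NPT U h (fun ξ n z => (h n : ℂ) ^ k * dirK k ξ (φ n) z)
    (fun ξ n z => (a z * g z) ^ k * TT h a φ k 0 ξ n z) := by
  induction k with
  | zero =>
    refine NPT.of_eq S.op fun ξ n z _ => ?_
    simp only [pow_zero, one_mul]
    rfl
  | succ k ih =>
    have hag : ContDiffOn ℝ ∞ (fun z => a z * g z) U := S.ha.mul S.hg
    have hagk : ContDiffOn ℝ ∞ (fun z => (a z * g z) ^ k) U := hag.pow k
    have hG : PT U h (fun ξ n z => (a z * g z) ^ k * TT h a φ k 0 ξ n z) :=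
      (S.pt_TT k 0).fmul S.op S.hlim hagk
    have h1 := ih.hdir S.op hG
    have h2 := (S.hdir_TT k 0).fmul S.op S.hlim hagk
    -- the derivative of the weight
    have h3 : NPT U h (QE.hdir h (fun ξ n z => (a z * g z) ^ k * TT h a φ k 0 ξ n z))
        (fun ξ n z => (a z * g z) ^ k * QE.hdir h (TT h a φ k 0) ξ n z) := by
      have p1 := ((S.pt_TT k 0).fmul S.op S.hlim (contDiffOn_dz S.op hagk)).cmul
        (b := fun ξ => ξ) continuous_id
      have p2 := ((S.pt_TT k 0).fmul S.op S.hlim (contDiffOn_dzb S.op hagk)).cmul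
        (b := fun ξ => (starRingEnd ℂ) ξ) Complex.continuous_conj
      refine ⟨_, p1.add p2, fun ξ n z hz => ?_⟩
      have d1 : DifferentiableAt ℝ (fun z => (a z * g z) ^ k) z :=
        (hagk.contDiffAt (S.op.mem_nhds hz)).differentiableAt (by simp)
      have d2 := (S.pt_TT k 0).dAt S.op ξ n hz
      have e1 : fderiv ℝ (fun z => (a z * g z) ^ k * TT h a φ k 0 ξ n z) z ξ
          = (a z * g z) ^ k * fderiv ℝ (TT h a φ k 0 ξ n) z ξ
            + TT h a φ k 0 ξ n z * fderiv ℝ (fun z => (a z * g z) ^ k) z ξ := by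
        rw [fderiv_fun_mul d1 d2]
        simp only [add_apply, smul_apply, smul_eq_mul]
      unfold QE.hdir
      rw [e1, dir_eq (fun z => (a z * g z) ^ k)]
      ring
    refine ((NPT.of_eq S.op fun ξ n z hz => ?_).trans (h1.trans (h3.trans h2))).trans
      (NPT.of_eq S.op fun ξ n z _ => ?_)
    · show (h n : ℂ) ^ (k + 1) * fderiv ℝ (dirK k ξ (φ n)) z ξ
        = (h n : ℂ) * fderiv ℝ (fun z => (h n : ℂ) ^ k * dirK k ξ (φ n) z) z ξ
      have d : DifferentiableAt ℝ (dirK k ξ (φ n)) z :=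
        ((contDiffOn_dirK S.op ξ (S.tame.smooth n) k).contDiffAt (S.op.mem_nhds hz)).differentiableAt
          (by simp)
      rw [fderiv_const_mul d]
      simp only [smul_apply, smul_eq_mul]
      ring
    · ring

end Setup

end

end QE
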