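import Pool.Agent.Lib_helper67.QE.Elliptic

/-!
A quantitative form of the interior elliptic estimate at scale `h` in `L⁴`.
-/

open Complex MeasureTheory Filter Topology
open scoped ContDiff

namespace QE

noncomputable section

open EllAux

/-- the constant of the estimate -/
def ellC : ℝ := 8 * (∫ u, kap u) ^ 4

lemma ellC_nonneg : 0 ≤ ellC := by
  have : 0 ≤ ∫ u, kap u := integral_nonneg kap_nonneg
  unfold ellC; positivity

theorem planck_quant {U : Set ℂ} (hU : IsOpen U) {h : ℕ → ℝ} (hh : ∀ n, 0 < h n)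
    (hh0 : Tendsto h atTop (𝓝 0)) {v : ℕ → ℂ → ℂ} (hv : SmoothSeq U v) {K : Set ℂ}
    (hK : IsCompact K) {δ : ℝ} (hδ : 0 < δ) (hδU : Metric.cthickening δ K ⊆ U) :
    ∀ᶠ n in atTop, ∫ z in K, ‖(h n : ℂ) * dz (v n) z‖ ^ 4
      ≤ ellC * ((∫ z in Metric.cthickening δ K, ‖v n z‖ ^ 4)
        + ∫ z in Metric.cthickening δ K, ‖((h n : ℂ)) ^ 2 * dz (dzb (v n)) z‖ ^ 4) := by
  have hK'c : IsCompact (Metric.cthickening δ K) := hK.cthickening
  have hKU : K ⊆ U := (Metric.self_subset_cthickening K).trans hδU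
  set K' := Metric.cthickening δ K with hK'
  have hw : SmoothSeq U (fun n z => ((h n : ℂ)) ^ 2 * dz (dzb (v n)) z) :=
    ((hv.dzb hU).dz hU).const_mul (fun n => (h n : ℂ) ^ 2)
  have hsmall : ∀ᶠ n in atTop, h n ≤ δ := (hh0.eventually_lt_const hδ).mono fun n hn => hn.le
  filter_upwards [hsmall] with n hn3
  have hκ : 0 ≤ ∫ u, kap u := integral_nonneg kap_nonneg
  set g : ℂ → ℝ := fun z => ‖v n z‖ + ‖((h n : ℂ)) ^ 2 * dz (dzb (v n)) z‖ with hg
  have hgc : ContinuousOn g K' :=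
    ((hv n).continuousOn.mono hδU).norm.add ((hw n).continuousOn.mono hδU).norm
  have hg0 : ∀ z, 0 ≤ g z := fun z => add_nonneg (norm_nonneg _) (norm_nonneg _)
  obtain ⟨B, hB⟩ := hK'c.exists_bound_of_continuousOn hgc
  set G : ℂ → ℝ := K'.indicator g with hG
  have hG0 : ∀ z, 0 ≤ G z := fun z => Set.indicator_nonneg (fun z _ => hg0 z) z
  have hGB : ∀ z, G z ≤ max B 0 := by
    intro z
    by_cases hz : z ∈ K'
    · rw [hG, Set.indicator_of_mem hz]
      exact (le_abs_self _).trans ((hB z hz).trans (le_max_left _ _))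
    · rw [hG, Set.indicator_of_notMem hz]; exact le_max_right _ _
  have hGm : AEStronglyMeasurable G volume := by
    rw [hG, aestronglyMeasurable_indicator_iff hK'c.measurableSet]
    exact hgc.aestronglyMeasurable hK'c.measurableSet
  have hG4e : (fun z => G z ^ 4) = K'.indicator fun z => g z ^ 4 := by
    funext z
    by_cases hz : z ∈ K'
    · rw [hG, Set.indicator_of_mem hz, Set.indicator_of_mem hz]
    · rw [hG, Set.indicator_of_notMem hz, Set.indicator_of_notMem hz]; simp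
  have hG4 : Integrable (fun z => G z ^ 4) := by
    rw [hG4e, integrable_indicator_iff hK'c.measurableSet]
    exact (hgc.pow 4).integrableOn_compact hK'c
  have hG4i : ∫ z, G z ^ 4 ≤ 8 * ((∫ z in K', ‖v n z‖ ^ 4)
            + ∫ z in K', ‖((h n : ℂ)) ^ 2 * dz (dzb (v n)) z‖ ^ 4) := by
    rw [hG4e, integral_indicator hK'c.measurableSet]
    have i1 := hv.intOn hK'c hδU 4 n
    have i2 := hw.intOn hK'c hδU 4 n
    calc ∫ z in K', g z ^ 4
        ≤ ∫ z in K', 8 * (‖v n z‖ ^ 4 + ‖((h n : ℂ)) ^ 2 * dz (dzb (v n)) z‖ ^ 4) := by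
          refine setIntegral_mono_on ((hgc.pow 4).integrableOn_compact hK'c)
            ((i1.add i2).const_mul 8) hK'c.measurableSet fun z _ => ?_
          simp only [hg]
          have p1 := norm_nonneg (v n z)
          have p2 := norm_nonneg (((h n : ℂ)) ^ 2 * dz (dzb (v n)) z)
          set a := ‖v n z‖
          set b := ‖((h n : ℂ)) ^ 2 * dz (dzb (v n)) z‖
          nlinarith [sq_nonneg (a ^ 2 - b ^ 2), sq_nonneg (a - b), sq_nonneg (a + b),
            mul_nonneg (sq_nonneg (a - b)) (add_nonneg (sq_nonneg (a + b))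
              (add_nonneg (sq_nonneg a) (sq_nonneg b)))]
      _ = 8 * ((∫ z in K', ‖v n z‖ ^ 4)
            + ∫ z in K', ‖((h n : ℂ)) ^ 2 * dz (dzb (v n)) z‖ ^ 4) := by
          rw [integral_const_mul, integral_add i1 i2]
  obtain ⟨y1, y2, y3⟩ := young4 (kh_nonneg (h n)) (kh_integrable (hh n)) hG0 hGm hGB hG4
  rw [kh_total (hh n)] at y2 y3
  have hpt : ∀ z ∈ K, ‖(h n : ℂ) * dz (v n) z‖ ^ 4
      ≤ (∫ u, kap u) ^ 3 * ∫ w, kh (h n) w * G (z - w) ^ 4 := by
    intro z hz
    have hball : Metric.closedBall z (h n) ⊆ K' :=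
      (Metric.closedBall_subset_closedBall hn3).trans
        (Metric.closedBall_subset_cthickening hz δ)
    have b1 := scale_bound hU (hv n) (hh n) (hball.trans hδU)
    have b2 : ∫ u, kap u * (‖v n (z + (h n : ℂ) * u)‖
        + ‖(h n : ℂ) ^ 2 * dz (dzb (v n)) (z + (h n : ℂ) * u)‖)
        = ∫ u, kap u * G (z + (h n : ℂ) * u) := by
      refine integral_congr_ae (Filter.Eventually.of_forall fun u => ?_)
      simp only []
      by_cases hu : 1 < ‖u‖
      · rw [kap_eq_zero hu, zero_mul, zero_mul]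
      · push Not at hu
        have hmem : z + (h n : ℂ) * u ∈ K' := by
          apply hball
          rw [Metric.mem_closedBall, dist_eq_norm, add_sub_cancel_left, norm_mul,
            Complex.norm_real, Real.norm_of_nonneg (hh n).le]
          have := hh n
          nlinarith
        rw [hG, Set.indicator_of_mem hmem]
    rw [b2, kh_int (hh n)] at b1
    refine le_trans ?_ (y2 z)
    exact pow_le_pow_left₀ (norm_nonneg _) b1 4
  have hsm : SmoothSeq U (fun n z => (h n : ℂ) * dz (v n) z) :=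
    (hv.dz hU).const_mul (fun n => (h n : ℂ))
  calc ∫ z in K, ‖(h n : ℂ) * dz (v n) z‖ ^ 4
      ≤ ∫ z in K, (∫ u, kap u) ^ 3 * ∫ w, kh (h n) w * G (z - w) ^ 4 :=
        setIntegral_mono_on (hsm.intOn hK hKU 4 n) (y1.integrableOn.const_mul _)
          hK.measurableSet hpt
    _ = (∫ u, kap u) ^ 3 * ∫ z in K, ∫ w, kh (h n) w * G (z - w) ^ 4 := integral_const_mul _ _
    _ ≤ (∫ u, kap u) ^ 3 * ∫ z, ∫ w, kh (h n) w * G (z - w) ^ 4 := by
        refine mul_le_mul_of_nonneg_left ?_ (pow_nonneg hκ 3)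
        refine setIntegral_le_integral y1 (Filter.Eventually.of_forall fun z => ?_)
        exact integral_nonneg fun w => mul_nonneg (kh_nonneg _ _) (pow_nonneg (hG0 _) _)
    _ = (∫ u, kap u) ^ 3 * ((∫ u, kap u) * ∫ z, G z ^ 4) := by rw [y3]
    _ ≤ (∫ u, kap u) ^ 3 * ((∫ u, kap u) * (8 * ((∫ z in K', ‖v n z‖ ^ 4)
            + ∫ z in K', ‖((h n : ℂ)) ^ 2 * dz (dzb (v n)) z‖ ^ 4))) := by gcongr
    _ = _ := by unfold ellC; ring

end

end QE
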