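import Pool.Agent.LibH11.QEV.Corr
import Pool.Agent.LibH11.Berry.RFin3

/-!
Quantum ergodic sequences on closed surfaces: the fourth moment decides all correlations of order at
most four.
-/

open MeasureTheory Filter Topology Set MatrixGroups UpperHalfPlane
open scoped ContDiff

namespace QE

noncomputable section

variable {Γ : Subgroup SL(2, ℝ)} {ρ : ℍ → ℝ} {D : Set ℍ}

/-- the value at the origin -/
lemma four_zero [Countable Γ] {φ : ℕ → ℍ → ℝ} {m : ℕ → ℝ} (S : Berry.Surf Γ ρ D φ m)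
    (hf : Berry.RFourPt ρ D φ m) :
    Tendsto (fun n => Berry.rAvg ρ D fun z => φ n z ^ 4) atTop (𝓝 3) := by
  have h1 := hf 0 0 0 0
  have e : Berry.waveK (0 - 0) * Berry.waveK (0 - 0) + Berry.waveK (0 - 0) * Berry.waveK (0 - 0)
      + Berry.waveK (0 - 0) * Berry.waveK (0 - 0) = 3 := by
    rw [sub_zero, Berry.waveK_zero]; norm_num
  rw [e] at h1
  refine h1.congr' ?_
  filter_upwards [S.c4_ev tendsto_id 0 0 0 0] with n hn
  rw [← hn, S.c4_zero]

/-- **The fourth moment and the correlations of order at most four.** -/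
theorem tfae_surface [Countable Γ] (hDm : MeasurableSet D)
    (hD : IsFundamentalDomain Γ D (volume : Measure ℍ))
    (hK : ∃ K : Set ℍ, IsCompact K ∧ ∀ z, ∃ γ ∈ Γ, γ • z ∈ K)
    (hρ : ContDiffOn ℝ ∞ (fun w : ℂ => ρ (ofComplex w)) {w | 0 < w.im})
    (hρΓ : ∀ γ ∈ Γ, ∀ z, ρ (γ • z) = ρ z)
    {φ : ℕ → ℍ → ℝ} {m : ℕ → ℝ} (hφ : Berry.REigenSeq Γ ρ φ m)
    (hs : ∀ n, ContDiffOn ℝ ∞ (fun w : ℂ => φ n (ofComplex w)) {w | 0 < w.im})
    (hq : QuantumErgodic ρ φ m) :
    List.TFAE [Tendsto (fun n => Berry.rAvg ρ D fun z => φ n z ^ 4) atTop (𝓝 3),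
      Berry.RPlanckAt ρ D φ m 0, ∀ a, Berry.RPlanckAt ρ D φ m a, Berry.RFourPt ρ D φ m,
      Berry.RGaussUpToFour ρ D φ m] := by
  have S := Berry.surf_of_cocompact hD hDm hK (continuous_of_smooth hρ) hρΓ hφ
  have hcorr : Tendsto (fun n => Berry.rAvg ρ D fun z => φ n z ^ 4) atTop (𝓝 3) →
      Berry.RGaussUpToFour ρ D φ m := by
    intro h
    obtain ⟨h4, h3, h2, h1⟩ := corr_surface hDm hD hK hρ hρΓ hφ hs hq (C := 4)
      ((h.eventually_lt_const (by norm_num : (3 : ℝ) < 4)).mono fun n hn => hn.le)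
    refine ⟨fun x => ?_, fun x y => ?_, fun x y z => ?_, fun x₁ x₂ x₃ x₄ => ?_⟩
    · have := h1 ![x]
      simpa [Fin.prod_univ_one] using this
    · have := h2 ![x, y]
      simpa [Fin.prod_univ_two] using this
    · have := h3 ![x, y, z]
      simp only [Fin.prod_univ_three] at this
      exact this
    · have a1 := h4 ![x₁, x₂, x₃, x₄]
      simp only [Fin.prod_univ_four] at a1
      have a2 : Tendsto (fun n => (Berry.rAvg ρ D (fun z => φ n z ^ 4) - 3)
          * defc ![x₁, x₂, x₃, x₄]) atTop (𝓝 ((3 - 3) * defc ![x₁, x₂, x₃, x₄])) :=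
        (h.sub_const 3).mul_const _
      have a3 := (a1.add a2).add_const (wick ![x₁, x₂, x₃, x₄])
      rw [sub_self, zero_mul, zero_add, zero_add] at a3
      refine a3.congr fun n => ?_
      simp only [Matrix.cons_val]
      ring
  tfae_have 1 → 5 := hcorr
  tfae_have 5 → 4 := fun h => h.2.2.2
  tfae_have 4 → 3 := by
    intro hf a
    have h3 := four_zero S hf
    have hG := hcorr h3
    obtain ⟨B₁, hB₁⟩ := h3.bddAbove_range
    have hB' : ∀ n, (Berry.rAvg ρ D fun z => φ n z ^ 4) ≤ B₁ := fun n => hB₁ ⟨n, rfl⟩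
    have hP := Berry.rFrameProb_isProb S.geo
    obtain ⟨B₂, hdat⟩ := S.dat hB'
    obtain ⟨R, B', hR, hA⟩ := hdat.aWave hB'
    have h4 : ∀ x₁ x₂ x₃ x₄, Tendsto (fun n => Berry.c4 (Berry.rFrameProb ρ D)
        (Berry.wW ρ φ m R) n x₁ x₂ x₃ x₄) atTop (𝓝 ((1:ℝ) ^ 2 * (Berry.waveK (x₁ - x₂)
          * Berry.waveK (x₃ - x₄) + Berry.waveK (x₁ - x₃) * Berry.waveK (x₂ - x₄)
          + Berry.waveK (x₁ - x₄) * Berry.waveK (x₂ - x₃)))) := by
      intro x₁ x₂ x₃ x₄
      rw [one_pow, one_mul]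
      refine (hf x₁ x₂ x₃ x₄).congr' ?_
      filter_upwards [S.c4_ev hR x₁ x₂ x₃ x₄] with n hn
      exact hn.symm
    rw [S.planck_iff hR]
    refine hA.planck_of_gauss (v := 1) ?_ h4 a
    have h2 := hG.2.1 0 0
    rw [sub_zero, Berry.waveK_zero] at h2
    refine h2.congr' ?_
    filter_upwards [S.c2_ev hR 0 0] with n hn
    exact hn.symm
  tfae_have 3 → 2 := fun h => h 0
  tfae_have 2 → 1 := by
    intro h
    rw [Metric.tendsto_atTop]
    intro ε hε
    obtain ⟨N, hN⟩ := eventually_atTop.1 ((S.upper' h (half_pos hε)).and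
      (lower_surface hDm hD hK hρ hρΓ hφ hs hq (half_pos hε)))
    refine ⟨N, fun n hn => ?_⟩
    obtain ⟨h1, h2⟩ := hN n hn
    rw [Real.dist_eq, abs_lt]
    constructor <;> linarith
  tfae_finish

end

end QE
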