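import Pool.Agent.Lib_helper67.QE.JetFull

/-!
Correlations of three jets of arbitrary total index, when the correlations of four jets are Gaussian.
-/

open Complex MeasureTheory Filter Topology
open scoped ContDiff

namespace QE

noncomputable section

variable {U : Set ℂ} {h : ℕ → ℝ} {a : ℂ → ℂ} {g : ℂ → ℂ} {φ : ℕ → ℂ → ℂ}

lemma normP_le_ite (j k : ℤ) : ‖P j k‖ ≤ if j + k = 0 then 1 else 0 := by
  unfold P
  split_ifs
  · rw [norm_zpow]; simp
  · simp

/-- the alternating sums of the pairings of total index zero are bounded -/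
lemma sum_P_le (a b : ℤ) (N : ℕ) :
    ‖∑ t ∈ Finset.range N, P (a + 3 * t) (b - 3 * t)‖ ≤ 1 := by
  by_cases hab : a + b = 0
  · have e : ∀ t : ℕ, P (a + 3 * t) (b - 3 * t) = (-1) ^ a * (-1) ^ t := by
      intro t
      unfold P
      rw [if_pos (by omega), zpow_add₀ (by norm_num), zpow_mul]
      norm_num
    simp only [e]
    rw [← Finset.mul_sum, norm_mul, norm_zpow, norm_neg, norm_one, one_zpow, one_mul]
    have h2 : ∀ N : ℕ, ∑ t ∈ Finset.range N, (-1 : ℂ) ^ t = if Even N then 0 else 1 :=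
      fun N => neg_one_geom_sum
    rw [h2]
    split_ifs <;> simp
  · have e : ∀ t : ℕ, P (a + 3 * t) (b - 3 * t) = 0 := by
      intro t
      unfold P
      rw [if_neg (by omega)]
    simp only [e, Finset.sum_const_zero, norm_zero]
    exact zero_le_one

/-- sums of the Gaussian four point values -/
lemma sum_G_le (a b : ℤ) (N : ℕ) :
    ‖∑ t ∈ Finset.range N, ∑ u ∈ Finset.range N,
      G (a + 3 * t) (b - 3 * t) (-a - 3 * u) (-b + 3 * u)‖ ≤ 1 + 2 * N := by
  have e1 : ∑ t ∈ Finset.range N, ∑ u ∈ Finset.range N,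
      G (a + 3 * t) (b - 3 * t) (-a - 3 * u) (-b + 3 * u)
      = (∑ t ∈ Finset.range N, P (a + 3 * t) (b - 3 * t))
          * (∑ u ∈ Finset.range N, P (-a - 3 * u) (-b + 3 * u))
        + (∑ t ∈ Finset.range N, ∑ u ∈ Finset.range N,
          P (a + 3 * t) (-a - 3 * u) * P (b - 3 * t) (-b + 3 * u))
        + ∑ t ∈ Finset.range N, ∑ u ∈ Finset.range N,
          P (a + 3 * t) (-b + 3 * u) * P (b - 3 * t) (-a - 3 * u) := by
    rw [Finset.sum_mul_sum, ← Finset.sum_add_distrib, ← Finset.sum_add_distrib]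
    refine Finset.sum_congr rfl fun t _ => ?_
    rw [← Finset.sum_add_distrib, ← Finset.sum_add_distrib]
    refine Finset.sum_congr rfl fun u _ => ?_
    unfold G; ring
  have hcount : ∀ (f : ℕ → ℕ → ℂ) (q : ℕ → ℤ), (∀ t u, ‖f t u‖ ≤ if (u : ℤ) = q t then 1 else 0) →
      ‖∑ t ∈ Finset.range N, ∑ u ∈ Finset.range N, f t u‖ ≤ N := by
    intro f q hf
    refine (norm_sum_le _ _).trans ?_
    calc ∑ t ∈ Finset.range N, ‖∑ u ∈ Finset.range N, f t u‖
        ≤ ∑ _t ∈ Finset.range N, (1 : ℝ) := by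
          refine Finset.sum_le_sum fun t _ => ?_
          refine (norm_sum_le _ _).trans ?_
          calc ∑ u ∈ Finset.range N, ‖f t u‖
              ≤ ∑ u ∈ Finset.range N, if (u : ℤ) = q t then (1 : ℝ) else 0 :=
                Finset.sum_le_sum fun u _ => hf t u
            _ ≤ ∑ u ∈ Finset.range N, if u = (q t).toNat then (1 : ℝ) else 0 := by
                refine Finset.sum_le_sum fun u _ => ?_
                by_cases hu : (u : ℤ) = q t
                · rw [if_pos hu, if_pos (by omega)]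
                · rw [if_neg hu]; split_ifs <;> norm_num
            _ ≤ 1 := by
                rw [Finset.sum_ite_eq' (Finset.range N) (q t).toNat (fun _ => (1 : ℝ))]
                split_ifs <;> norm_num
      _ = N := by simp
  have h1 : ‖∑ u ∈ Finset.range N, P (-a - 3 * u) (-b + 3 * u)‖ ≤ 1 := by
    have := sum_P_le (-b) (-a) N
    have e : ∀ u : ℕ, ‖∑ u ∈ Finset.range N, P (-a - 3 * u) (-b + 3 * u)‖
        = ‖∑ u ∈ Finset.range N, P (-b + 3 * u) (-a - 3 * u)‖ := by
      intro _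
      have e2 : ∀ u : ℕ, P (-a - 3 * u) (-b + 3 * u) = P (-b + 3 * u) (-a - 3 * u) := by
        intro u
        unfold P
        by_cases h : -a - 3 * (u : ℤ) + (-b + 3 * u) = 0
        · rw [if_pos h, if_pos (by omega)]
          have : -a - 3 * (u : ℤ) = -(-b + 3 * u) := by omega
          rw [this, zpow_neg, ← inv_zpow]; norm_num
        · rw [if_neg h, if_neg (by omega)]
      simp only [e2]
    rw [e 0]; exact this
  have b1 : ‖(∑ t ∈ Finset.range N, P (a + 3 * t) (b - 3 * t))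
          * (∑ u ∈ Finset.range N, P (-a - 3 * u) (-b + 3 * u))‖ ≤ 1 := by
    rw [norm_mul]
    exact mul_le_one₀ (sum_P_le a b N) (norm_nonneg _) h1
  have b2 := hcount (fun t u => P (a + 3 * t) (-a - 3 * u) * P (b - 3 * t) (-b + 3 * u))
    (fun t => (t : ℤ)) (fun t u => by
      rw [norm_mul]
      have p1 := normP_le_ite (a + 3 * t) (-a - 3 * u)
      have p2 := normP_le_ite (b - 3 * t) (-b + 3 * u)
      by_cases hu : (u : ℤ) = t
      · rw [if_pos hu]
        rw [if_pos (by omega)] at p1 p2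
        exact mul_le_one₀ p1 (norm_nonneg _) p2
      · rw [if_neg hu]
        rw [if_neg (by omega)] at p1
        have : ‖P (a + 3 * t) (-a - 3 * u)‖ = 0 := le_antisymm p1 (norm_nonneg _)
        rw [this, zero_mul])
  have b3 := hcount (fun t u => P (a + 3 * t) (-b + 3 * u) * P (b - 3 * t) (-a - 3 * u))
    (fun t => (b - a - 3 * t) / 3) (fun t u => by
      rw [norm_mul]
      have p1 := normP_le_ite (a + 3 * t) (-b + 3 * u)
      have p2 := normP_le_ite (b - 3 * t) (-a - 3 * u)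
      by_cases hu : a + 3 * (t : ℤ) + (-b + 3 * u) = 0
      · rw [if_pos (by omega)]
        rw [if_pos (by omega)] at p1 p2
        exact mul_le_one₀ p1 (norm_nonneg _) p2
      · rw [if_neg hu] at p1
        have : ‖P (a + 3 * t) (-b + 3 * u)‖ = 0 := le_antisymm p1 (norm_nonneg _)
        rw [this, zero_mul]
        split_ifs <;> norm_num)
  rw [e1]
  calc _ ≤ 1 + (N : ℝ) + N := (norm_add_le _ _).trans (add_le_add ((norm_add_le _ _).trans
        (add_le_add b1 b2)) b3)
    _ = 1 + 2 * N := by ring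

/-- **the correlations of three jets vanish**, for all total indices -/
theorem Setup.three_full (S : Setup U g a h φ) {ρ : ℂ → ℝ} (hρ : Test U (fun z => (ρ z : ℂ)))
    (hρ0 : ∀ z, 0 ≤ ρ z)
    (h4 : ∀ j m k l : ℤ, Tendsto (fun n => ∫ z, (ρ z : ℂ)
      * (E h a φ j n z * E h a φ m n z * (E h a φ k n z * E h a φ l n z))) atTop
      (𝓝 (G j m k l * ∫ z, (ρ z : ℂ)))) (a' b c : ℤ) :
    Tendsto (fun n => ∫ z, (ρ z : ℂ)
      * (E h a φ a' n z * E h a φ b n z * E h a φ c n z)) atTop (𝓝 0) := by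
  have hρi : ∀ (f : ℂ → ℝ), ContinuousOn f U → Integrable (fun z => ρ z * f z) := by
    intro f hf
    have hρc : Continuous ρ := by
      have := Complex.continuous_re.comp hρ.smooth.continuous
      simpa [Function.comp_def] using this
    have hts : tsupport ρ = tsupport (fun z => (ρ z : ℂ)) := by
      unfold tsupport
      congr 1
      ext z
      simp
    exact integrable_mul_of_tsupport S.op hρc (by
      unfold HasCompactSupport; rw [hts]; exact hρ.supp) (by rw [hts]; exact hρ.sub) hf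
  have hZ : ∫ z, ((ρ z : ℝ) : ℂ) = ((∫ z, ρ z : ℝ) : ℂ) := integral_ofReal
  set Z : ℝ := ∫ z, ρ z with hZdef
  have hZ0 : 0 ≤ Z := integral_nonneg hρ0
  -- boundedness of the single factor
  obtain ⟨C, hC⟩ := (S.bd2 c (-c)).test (S.sm2 c (-c)) hρ
  have hV : ∀ᶠ n in atTop, ∫ z, ρ z * ‖E h a φ c n z‖ ^ 2 ≤ |C| := by
    filter_upwards [hC] with n hn
    have e1 : ((∫ z, ρ z * ‖E h a φ c n z‖ ^ 2 : ℝ) : ℂ)
        = (-1) ^ c * ∫ z, (ρ z : ℂ) * (E h a φ c n z * E h a φ (-c) n z) := by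
      rw [← integral_const_mul]
      have e0 : ((∫ z, ρ z * ‖E h a φ c n z‖ ^ 2 : ℝ) : ℂ)
          = ∫ z, ((ρ z * ‖E h a φ c n z‖ ^ 2 : ℝ) : ℂ) := integral_ofReal.symm
      rw [e0]
      have e2 := hρ.integral_congr (f := fun z => ((‖E h a φ c n z‖ ^ 2 : ℝ) : ℂ))
        (f' := fun z => (-1) ^ c * (E h a φ c n z * E h a φ (-c) n z)) (fun z hz => by
          have h1 := S.conj_E c n z hz
          rw [← Complex.normSq_eq_norm_sq, ← mul_conj, h1]
          ring)
      refine Eq.trans ?_ (e2.trans ?_)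
      · refine MeasureTheory.integral_congr_ae (Filter.Eventually.of_forall fun z => ?_)
        beta_reduce; push_cast; ring
      · refine MeasureTheory.integral_congr_ae (Filter.Eventually.of_forall fun z => ?_)
        beta_reduce; ring
    have e3 : |∫ z, ρ z * ‖E h a φ c n z‖ ^ 2| ≤ C := by
      rw [← Real.norm_eq_abs, ← Complex.norm_real, e1, norm_mul, norm_zpow, norm_neg, norm_one,
        one_zpow, one_mul]
      exact hn
    exact (le_abs_self _).trans (e3.trans (le_abs_self C))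
  set Y : ℕ → ℤ → ℤ → ℤ → ℂ := fun n j m k => ∫ z, (ρ z : ℂ)
      * (E h a φ j n z * E h a φ m n z * E h a φ k n z) with hY
  have t1 : ∀ n a b c, Y n a b c = Y n b a c := fun n a b c => by
    simp only [hY]; congr 1; funext z; ring
  have hD : ∀ a b c : ℤ, Tendsto (fun n => Y n (a + 1) b c + Y n a (b + 1) c
      + Y n a b (c + 1)) atTop (𝓝 0) := fun a b c => S.ibp3 a b c hρ
  have hDb : ∀ a b c : ℤ, Tendsto (fun n => Y n (a - 1) b c + Y n a (b - 1) c
      + Y n a b (c - 1)) atTop (𝓝 0) := fun a b c => S.ibp3b a b c hρ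
  have hsh : ∀ t : ℕ, Tendsto (fun n => Y n (a' + 3 * t) (b - 3 * t) c - Y n a' b c) atTop (𝓝 0) := by
    intro t
    have h1 := T_shift_nat t1 hD hDb c t a' (b - 3 * t)
    unfold Asy at h1
    refine h1.congr fun n => ?_
    rw [sub_add_cancel]
  change Tendsto (fun n => Y n a' b c) atTop (𝓝 0)
  rw [tendsto_zero_iff_norm_tendsto_zero, Metric.tendsto_atTop]
  intro ε hε
  -- the number of terms
  obtain ⟨N, hN0, hN⟩ : ∃ N : ℕ, 0 < N ∧ (|C| + 2) * (3 * Z + 1) < N * (ε / 2) ^ 2 := by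
    obtain ⟨N, hN⟩ := exists_nat_gt ((|C| + 2) * (3 * Z + 1) / (ε / 2) ^ 2)
    refine ⟨N + 1, by omega, ?_⟩
    rw [div_lt_iff₀ (by positivity)] at hN
    push_cast
    have : 0 ≤ (ε / 2) ^ 2 := by positivity
    nlinarith
  have hNr : (0 : ℝ) < N := by exact_mod_cast hN0
  have hNr1 : (1 : ℝ) ≤ N := by exact_mod_cast hN0
  -- the block
  set T : ℕ → ℂ → ℂ := fun n z => ∑ t ∈ Finset.range N,
    E h a φ (a' + 3 * t) n z * E h a φ (b - 3 * t) n z with hT
  have hTs : ∀ n, ContDiffOn ℝ ∞ (T n) U := fun n => ContDiffOn.sum fun t _ => (S.sm2 _ _) n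
  have hblock : ∀ n, ∑ t ∈ Finset.range N, Y n (a' + 3 * t) (b - 3 * t) c
      = ∫ z, (ρ z : ℂ) * (T n z * E h a φ c n z) := by
    intro n
    simp only [hY]
    rw [← integral_finsetSum _ (fun t _ => S.int3 hρ n _ _ _)]
    refine MeasureTheory.integral_congr_ae (Filter.Eventually.of_forall fun z => ?_)
    beta_reduce
    simp only [hT]
    rw [Finset.sum_mul, Finset.mul_sum]
  have hTT : ∀ n, ((∫ z, ρ z * ‖T n z‖ ^ 2 : ℝ) : ℂ) = (-1) ^ (a' + b)
      * ∑ t ∈ Finset.range N, ∑ u ∈ Finset.range N, ∫ z, (ρ z : ℂ)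
        * (E h a φ (a' + 3 * t) n z * E h a φ (b - 3 * t) n z
          * (E h a φ (-a' - 3 * u) n z * E h a φ (-b + 3 * u) n z)) := by
    intro n
    rw [S.int_sum_sum hρ n N (fun t => a' + 3 * t) (fun t => b - 3 * t) (fun u => -a' - 3 * u)
        (fun u => -b + 3 * u), ← integral_const_mul]
    have e0 : ((∫ z, ρ z * ‖T n z‖ ^ 2 : ℝ) : ℂ)
        = ∫ z, ((ρ z * ‖T n z‖ ^ 2 : ℝ) : ℂ) := integral_ofReal.symm
    rw [e0]
    have e3 := hρ.integral_congr (f := fun z => (-1 : ℂ) ^ (a' + b) * (T n z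
      * ∑ u ∈ Finset.range N, E h a φ (-a' - 3 * u) n z * E h a φ (-b + 3 * u) n z))
      (f' := fun z => ((‖T n z‖ ^ 2 : ℝ) : ℂ)) (fun z hz => by
        rw [← Complex.normSq_eq_norm_sq, ← mul_conj]
        have e5 : (starRingEnd ℂ) (T n z) = (-1 : ℂ) ^ (a' + b) * ∑ u ∈ Finset.range N,
            E h a φ (-a' - 3 * u) n z * E h a φ (-b + 3 * u) n z := by
          simp only [hT]
          rw [map_sum, Finset.mul_sum]
          refine Finset.sum_congr rfl fun u _ => ?_
          rw [map_mul, S.conj_E _ n z hz, S.conj_E _ n z hz]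
          have q1 : (-1 : ℂ) ^ (a' + 3 * (u : ℤ)) * (-1 : ℂ) ^ (b - 3 * (u : ℤ))
              = (-1 : ℂ) ^ (a' + b) := by
            rw [← zpow_add₀ (by norm_num)]
            congr 1; ring
          have q2 : -(a' + 3 * (u : ℤ)) = -a' - 3 * u := by ring
          have q3 : -(b - 3 * (u : ℤ)) = -b + 3 * u := by ring
          rw [← q1, q2, q3]
          ring
        rw [e5]
        ring)
    refine Eq.symm (Eq.trans ?_ (e3.trans ?_))
    · refine MeasureTheory.integral_congr_ae (Filter.Eventually.of_forall fun z => ?_)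
      beta_reduce; ring
    · refine MeasureTheory.integral_congr_ae (Filter.Eventually.of_forall fun z => ?_)
      beta_reduce; push_cast; ring
  -- the limit of the norm of the block
  have hlimT : ∀ᶠ n in atTop, ∫ z, ρ z * ‖T n z‖ ^ 2 ≤ (1 + 2 * N) * Z + 1 := by
    have h1 : Tendsto (fun n => ((∫ z, ρ z * ‖T n z‖ ^ 2 : ℝ) : ℂ)) atTop (𝓝 ((-1) ^ (a' + b)
        * ∑ t ∈ Finset.range N, ∑ u ∈ Finset.range N,
          (G (a' + 3 * t) (b - 3 * t) (-a' - 3 * u) (-b + 3 * u) * ∫ z, (ρ z : ℂ)))) := by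
      refine Tendsto.congr (fun n => (hTT n).symm) ?_
      exact (tendsto_finsetSum _ fun t _ => tendsto_finsetSum _ fun u _ => h4 _ _ _ _).const_mul _
    have h2 := h1.norm
    have h3 : ‖(-1 : ℂ) ^ (a' + b) * ∑ t ∈ Finset.range N, ∑ u ∈ Finset.range N,
          (G (a' + 3 * t) (b - 3 * t) (-a' - 3 * u) (-b + 3 * u) * ∫ z, (ρ z : ℂ))‖
        < (1 + 2 * N) * Z + 1 := by
      have e : ∑ t ∈ Finset.range N, ∑ u ∈ Finset.range N,
          (G (a' + 3 * t) (b - 3 * t) (-a' - 3 * u) (-b + 3 * u) * ∫ z, (ρ z : ℂ))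
          = (∑ t ∈ Finset.range N, ∑ u ∈ Finset.range N,
            G (a' + 3 * t) (b - 3 * t) (-a' - 3 * u) (-b + 3 * u)) * ∫ z, (ρ z : ℂ) := by
        rw [Finset.sum_mul]
        exact Finset.sum_congr rfl fun t _ => by rw [Finset.sum_mul]
      rw [e, norm_mul, norm_mul, norm_zpow, norm_neg, norm_one, one_zpow, one_mul, hZ,
        Complex.norm_real, Real.norm_of_nonneg hZ0]
      have := mul_le_mul_of_nonneg_right (sum_G_le a' b N) hZ0
      linarith
    filter_upwards [h2.eventually_lt_const h3] with n hn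
    rw [Complex.norm_real, Real.norm_eq_abs] at hn
    exact (le_abs_self _).trans hn.le
  -- the shifts
  have hshN : Tendsto (fun n => (∑ t ∈ Finset.range N, Y n (a' + 3 * t) (b - 3 * t) c)
      - N * Y n a' b c) atTop (𝓝 0) := by
    have h1 := tendsto_finsetSum (Finset.range N) fun t _ => hsh t
    simp only [Finset.sum_const_zero] at h1
    refine h1.congr fun n => ?_
    rw [Finset.sum_sub_distrib, Finset.sum_const, Finset.card_range, nsmul_eq_mul]
  have hsh2 := (tendsto_zero_iff_norm_tendsto_zero.1 hshN).eventually_lt_const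
    (show 0 < N * (ε / 2) by positivity)
  obtain ⟨n₀, hn₀⟩ := eventually_atTop.1 (hV.and (hlimT.and hsh2))
  refine ⟨n₀, fun n hn => ?_⟩
  obtain ⟨n1, n2, n3⟩ := hn₀ n hn
  rw [dist_zero_right, norm_norm]
  have i1 : Integrable (fun z => ρ z * ‖E h a φ c n z‖ ^ 2) :=
    hρi _ (((S.tame_E c).smooth n).continuousOn.norm.pow 2)
  have i2 : Integrable (fun z => ρ z * ‖T n z‖ ^ 2) := hρi _ ((hTs n).continuousOn.norm.pow 2)
  -- Cauchy-Schwarz with the weight `l = 1 / s`
  set s : ℝ := ε / 2 * N / (|C| + 1) with hs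
  have hC1 : 0 < |C| + 1 := by positivity
  have hs0 : 0 < s := by positivity
  have hcs : ‖∫ z, (ρ z : ℂ) * (T n z * E h a φ c n z)‖
      ≤ (s * (∫ z, ρ z * ‖E h a φ c n z‖ ^ 2) + s⁻¹ * ∫ z, ρ z * ‖T n z‖ ^ 2) / 2 := by
    calc ‖∫ z, (ρ z : ℂ) * (T n z * E h a φ c n z)‖
        ≤ ∫ z, ‖(ρ z : ℂ) * (T n z * E h a φ c n z)‖ := norm_integral_le_integral_norm _
      _ ≤ ∫ z, (s * (ρ z * ‖E h a φ c n z‖ ^ 2) + s⁻¹ * (ρ z * ‖T n z‖ ^ 2)) / 2 := by
          refine integral_mono_of_nonneg (Filter.Eventually.of_forall fun z => norm_nonneg _)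
            (((i1.const_mul s).add (i2.const_mul s⁻¹)).div_const 2)
            (Filter.Eventually.of_forall fun z => ?_)
          beta_reduce
          rw [norm_mul, norm_mul, Complex.norm_real, Real.norm_of_nonneg (hρ0 z)]
          have h1 : ‖T n z‖ * ‖E h a φ c n z‖
              ≤ (s * ‖E h a φ c n z‖ ^ 2 + s⁻¹ * ‖T n z‖ ^ 2) / 2 := by
            have h2 : 0 ≤ s⁻¹ * (s * ‖E h a φ c n z‖ - ‖T n z‖) ^ 2 := by positivity
            have h3 : s⁻¹ * (s * ‖E h a φ c n z‖ - ‖T n z‖) ^ 2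
                = s * ‖E h a φ c n z‖ ^ 2 - 2 * (‖T n z‖ * ‖E h a φ c n z‖)
                  + s⁻¹ * ‖T n z‖ ^ 2 := by
              field_simp
              ring
            rw [h3] at h2
            linarith
          have := mul_le_mul_of_nonneg_left h1 (hρ0 z)
          linarith
      _ = (s * (∫ z, ρ z * ‖E h a φ c n z‖ ^ 2) + s⁻¹ * ∫ z, ρ z * ‖T n z‖ ^ 2) / 2 := by
          rw [integral_div, integral_add (i1.const_mul s) (i2.const_mul s⁻¹),
            integral_const_mul, integral_const_mul]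
  rw [← hblock n] at hcs
  have k1 : s * (∫ z, ρ z * ‖E h a φ c n z‖ ^ 2) ≤ ε / 2 * N := by
    calc s * (∫ z, ρ z * ‖E h a φ c n z‖ ^ 2) ≤ s * (|C| + 1) := by
          refine mul_le_mul_of_nonneg_left ?_ hs0.le
          linarith
      _ = ε / 2 * N := by rw [hs]; field_simp
  have k2 : s⁻¹ * (∫ z, ρ z * ‖T n z‖ ^ 2) ≤ ε / 2 * N := by
    have h5 : ∫ z, ρ z * ‖T n z‖ ^ 2 ≤ (3 * Z + 1) * N := by
      refine n2.trans ?_
      nlinarith
    have h6 : (3 * Z + 1) * N ≤ (ε / 2 * N) * s := by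
      rw [hs]
      rw [mul_div_assoc', le_div_iff₀ hC1]
      have h7 : (|C| + 1) * (3 * Z + 1) ≤ N * (ε / 2) ^ 2 := by
        have h8 : (|C| + 1) * (3 * Z + 1) ≤ (|C| + 2) * (3 * Z + 1) := by
          have : 0 ≤ 3 * Z + 1 := by linarith
          nlinarith
        linarith
      nlinarith
    calc s⁻¹ * (∫ z, ρ z * ‖T n z‖ ^ 2) ≤ s⁻¹ * ((ε / 2 * N) * s) :=
          mul_le_mul_of_nonneg_left (h5.trans h6) (inv_nonneg.2 hs0.le)
      _ = ε / 2 * N := by field_simp
  have k3 : ‖(N : ℂ) * Y n a' b c‖ < ε * N := by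
    have e : (N : ℂ) * Y n a' b c = (∑ t ∈ Finset.range N, Y n (a' + 3 * t) (b - 3 * t) c)
        - ((∑ t ∈ Finset.range N, Y n (a' + 3 * t) (b - 3 * t) c) - N * Y n a' b c) := by ring
    rw [e]
    refine (norm_sub_le _ _).trans_lt ?_
    have : ‖∑ t ∈ Finset.range N, Y n (a' + 3 * t) (b - 3 * t) c‖ ≤ ε / 2 * N := by linarith
    linarith
  rw [norm_mul, Complex.norm_natCast, mul_comm ε] at k3
  exact lt_of_mul_lt_mul_left k3 hNr.le

end

end QE
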