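import Pool.Agent.LibH11.QEV.Local3
import Pool.Agent.LibH11.QEV.Full3

/-!
Products of the values of an eigenfunction at nearby points, for a fixed direction of the frame.
-/

open Complex MeasureTheory Filter Topology Set
open scoped ContDiff

namespace QE

noncomputable section

variable {U : Set ℂ} {h : ℕ → ℝ} {a g : ℂ → ℂ} {φ : ℕ → ℂ → ℂ}

namespace Setup

variable (S : Setup U g a h φ)

include S

/-- the means of the jets tend to zero -/
theorem one_full {ζ : ℂ → ℂ} (hζ : Test U ζ) (j : ℤ) :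
    Tendsto (fun n => ∫ z, ζ z * E h a φ j n z) atTop (𝓝 0) := by
  obtain ⟨w', hw', he'⟩ := S.LL_E (j - 1)
  have hE := fun j => (S.tame_E j)
  have b1 : LBdd 2 U (fun _ _ => (1 : ℂ)) := by
    intro K hK _
    exact ⟨∫ z in K, ‖(1 : ℂ)‖ ^ 2, Filter.Eventually.of_forall fun n => le_rfl⟩
  have b0 : LBdd 2 U (fun _ _ => (0 : ℂ)) := LBdd.zero 2 (by norm_num)
  have key := ibp_LL S.op S.hlim S.ha
    (u := fun n z => E h a φ (j - 1) n z) (v := fun _ _ => 1)
    (u' := fun n z => E h a φ (j - 1 + 1) n z) (v' := fun _ _ => 0) (r := w') (s := fun _ _ => 0)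
    (hE _).smooth (fun n => contDiffOn_const) (hE _).smooth (fun n => contDiffOn_const)
    hw'.smooth (fun n => contDiffOn_const)
    ((hE _).bdd4.two_of_four (hE _).smooth) b1 (hw'.bdd4.two_of_four hw'.smooth) b0 he'
    (fun n z hz => by
      beta_reduce
      rw [dz_const, mul_zero, mul_zero, add_zero]) hζ
  refine key.congr fun n => ?_
  congr 1; funext z
  rw [sub_add_cancel]; ring

/-- **Products and their Taylor polynomials, for a fixed direction.** -/
theorem fix_close {K : Set ℂ} (hK : IsCompact K) {δ : ℝ} (hδ : 0 < δ)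
    (hδU : Metric.cthickening (2 * δ) K ⊆ U) (q : ℤ) (b : Fin 4 → Bool) (y : Fin 4 → ℂ)
    (ξ : Fin 4 → ℕ → ℝ → ℂ → ℂ) (hξ : ∀ i, Disp h a K q (y i) (ξ i)) {ζ : ℂ → ℂ}
    (hζ : ContinuousOn ζ K) {ε : ℝ} (hε : 0 < ε) :
    ∃ N₀ : ℕ, ∀ N ≥ N₀, ∀ᶠ n in atTop, ∀ θ : ℝ,
      ‖(∫ z in K, ζ z * (fld h a φ (b 0) (ξ 0) n θ z * fld h a φ (b 1) (ξ 1) n θ z
          * fld h a φ (b 2) (ξ 2) n θ z * fld h a φ (b 3) (ξ 3) n θ z))
        - ∫ z in K, ζ z * (tay h a φ (b 0) q (y 0) N n θ z * tay h a φ (b 1) q (y 1) N n θ z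
          * tay h a φ (b 2) q (y 2) N n θ z * tay h a φ (b 3) q (y 3) N n θ z)‖ ≤ ε := by
  have hKU : K ⊆ U := (Metric.self_subset_cthickening K).trans hδU
  set K₁ := Metric.cthickening δ K with hK₁def
  have hK₁ : IsCompact K₁ := hK.cthickening
  have hK₁U : K₁ ⊆ U := (Metric.cthickening_mono (by linarith) K).trans hδU
  obtain ⟨M₀, hM₀⟩ := S.tame.bdd4 K₁ hK₁ hK₁U
  obtain ⟨Z₀, hZ₀⟩ := hK.exists_bound_of_continuousOn hζ
  set B : ℝ := max (4 * |M₀|) ((volume K).toReal) with hB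
  have hB0 : 0 ≤ B := le_trans (by positivity) (le_max_left _ _)
  obtain ⟨ε₁, hε₁, hclose⟩ := prod4_close hK (abs_nonneg Z₀) hB0 hε
  have hT : ∀ i, ∃ N₀ : ℕ, ∀ N ≥ N₀, ∀ᶠ n in atTop, ∀ θ : ℝ, ∫ z in K,
      ‖φ n (z + h n * a z * ξ i n θ z) - Phi h a φ N (uu θ ^ q * y i) n z‖ ^ 4 ≤ ε₁ := by
    intro i
    obtain ⟨N₀, hN₀⟩ := S.taylor hK hδ hδU (norm_nonneg (y i)) hε₁
    refine ⟨N₀, fun N hN => hN₀ N hN ℝ (fun θ => uu θ ^ q * y i) (ξ i) (fun θ => ?_) (hξ i).lim ?_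
      (hξ i).lip⟩
    · rw [norm_mul, norm_zpow, norm_uu, one_zpow, one_mul]
    · filter_upwards [(hξ i).cont] with n hn θ
      exact hn.comp (by fun_prop : ContinuousOn (fun z : ℂ => (θ, z)) K)
        fun z hz => ⟨mem_univ _, hz⟩
  choose N₀ hN₀ using hT
  refine ⟨∑ i, N₀ i, fun N hN => ?_⟩
  have hNi : ∀ i, N₀ i ≤ N := fun i =>
    (Finset.single_le_sum (f := N₀) (fun _ _ => Nat.zero_le _) (Finset.mem_univ i)).trans hN
  have e1 : ∀ᶠ n in atTop, ∀ i : Fin 4, ∀ θ : ℝ, ∫ z in K,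
      ‖φ n (z + h n * a z * ξ i n θ z) - Phi h a φ N (uu θ ^ q * y i) n z‖ ^ 4 ≤ ε₁ :=
    eventually_all.2 fun i => hN₀ i N (hNi i)
  have e2 : ∀ᶠ n in atTop, ∀ i : Fin 4, ContinuousOn (fun p : ℝ × ℂ => ξ i n p.1 p.2) (univ ×ˢ K) :=
    eventually_all.2 fun i => (hξ i).cont
  have e3 : ∀ᶠ n in atTop, ∀ i : Fin 4, ∀ θ, ∀ z ∈ K, ∀ t ∈ Icc (0 : ℝ) 1,
      z + t • ((h n : ℂ) * a z * ξ i n θ z) ∈ K₁ :=
    eventually_all.2 fun i => S.seg_mem hK hδ hδU (hξ i)
  have e4 : ∀ᶠ n in atTop, ∀ i : Fin 4, ∀ θ, ∀ z ∈ K, ∀ w ∈ K,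
      ‖h n * a z * ξ i n θ z - h n * a w * ξ i n θ w‖ ≤ (1 / 2) * ‖z - w‖ :=
    eventually_all.2 fun i => (hξ i).lip
  filter_upwards [e1, e2, e3, e4, hM₀] with n n1 n2 n3 n4 n5
  -- joint continuity of the fields
  have hmem : ∀ i θ, ∀ z ∈ K, z + (h n : ℂ) * a z * ξ i n θ z ∈ K₁ := by
    intro i θ z hz
    have := n3 i θ z hz 1 (by simp)
    rwa [one_smul] at this
  have cdisp : ∀ i, ContinuousOn (fun p : ℝ × ℂ => p.2 + (h n : ℂ) * a p.2 * ξ i n p.1 p.2)
      (univ ×ˢ K) := fun i =>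
    continuousOn_snd.add ((continuousOn_const.mul ((S.ha.continuousOn.mono hKU).comp
      continuousOn_snd fun p hp => hp.2)).mul (n2 i))
  have cF : ∀ i, ContinuousOn (fun p : ℝ × ℂ => fld h a φ (b i) (ξ i) n p.1 p.2) (univ ×ˢ K) := by
    intro i
    unfold fld
    cases b i with
    | false => simpa using continuousOn_const
    | true =>
      simp only [if_true]
      exact ((S.tame.smooth n).continuousOn.mono hK₁U).comp (cdisp i)
        fun p hp => hmem i p.1 p.2 hp.2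
  have cG : ∀ i, ContinuousOn (fun p : ℝ × ℂ => tay h a φ (b i) q (y i) N n p.1 p.2)
      (univ ×ˢ K) := by
    intro i
    unfold tay
    cases b i with
    | false => simpa using continuousOn_const
    | true =>
      simp only [if_true]
      exact S.Phi_cont hKU q (y i) N n
  have sec : ∀ (H : ℝ × ℂ → ℂ), ContinuousOn H (univ ×ˢ K) → ∀ θ : ℝ,
      ContinuousOn (fun z => H (θ, z)) K := fun H hH θ =>
    hH.comp (by fun_prop : ContinuousOn (fun z : ℂ => (θ, z)) K) fun z hz => ⟨mem_univ _, hz⟩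
  intro θ
  refine hclose (fun i z => fld h a φ (b i) (ξ i) n θ z)
    (fun i z => tay h a φ (b i) q (y i) N n θ z) (fun i => sec _ (cF i) θ)
    (fun i => sec _ (cG i) θ) (fun i => ?_) (fun i => ?_) ζ hζ
    (fun z hz => (hZ₀ z hz).trans (le_abs_self Z₀))
  · unfold fld
    cases b i with
    | false =>
      simp only [Bool.false_eq_true, if_false, norm_one, one_pow]
      rw [integral_const, smul_eq_mul, mul_one, measureReal_restrict_apply_univ]
      exact le_max_right _ _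
    | true =>
      simp only [if_true]
      refine le_trans ?_ (le_max_left _ _)
      have hexp := expand_of_lip (v := fun z => (h n : ℂ) * a z * ξ i n θ z) (n4 i θ)
        (t := 1) (by simp)
      simp only [one_smul] at hexp
      have := integral_comp_le hK hK₁ hexp (fun z hz => hmem i θ z hz) (sec _ (cdisp i) θ)
        (f := fun z => ‖φ n z‖ ^ 4)
        (((S.tame.smooth n).continuousOn.mono hK₁U).norm.pow 4) (fun z _ => by positivity)
      refine this.trans ?_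
      have := n5.trans (le_abs_self M₀)
      linarith
  · unfold fld tay
    cases b i with
    | false =>
      simp only [Bool.false_eq_true, if_false, sub_self, norm_zero]
      simpa using hε₁.le
    | true =>
      simp only [if_true]
      exact n1 i θ

/-- the products of the Taylor polynomials -/
theorem fix_expand {K : Set ℂ} (hK : IsCompact K) (hKU : K ⊆ U) {q : ℤ} {k : ℕ}
    (y : Fin k → ℂ) {ζ : ℂ → ℂ} (hζ : ContinuousOn ζ K) (N n : ℕ) (θ : ℝ) :
    ∫ z in K, ζ z * ∏ i, Phi h a φ N (uu θ ^ q * y i) n z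
      = ∑ p ∈ Fintype.piFinset (fun _ : Fin k => Finset.Icc (-(N : ℤ)) N),
        ((uu θ ^ q) ^ (∑ i, p i)) * ((∏ i, CN N (p i) (y i))
          * ∫ z in K, ζ z * ∏ i, E h a φ (p i) n z) := by
  set s := Fintype.piFinset (fun _ : Fin k => Finset.Icc (-(N : ℤ)) N) with hs
  have hE : ∀ p : Fin k → ℤ, IntegrableOn (fun z => ζ z * ∏ i, E h a φ (p i) n z) K := by
    intro p
    refine ContinuousOn.integrableOn_compact hK ?_
    exact hζ.mul (continuousOn_finset_prod _ fun i _ =>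
      ((S.tame_E (p i)).smooth n).continuousOn.mono hKU)
  have hu : ‖uu θ ^ q‖ = 1 := by rw [norm_zpow, norm_uu, one_zpow]
  have hu0 : uu θ ^ q ≠ 0 := zpow_ne_zero _ (uu_ne θ)
  have e2 : ∀ z, ζ z * ∏ i, Phi h a φ N (uu θ ^ q * y i) n z
      = ∑ p ∈ s, ((uu θ ^ q) ^ (∑ i, p i) * ∏ i, CN N (p i) (y i))
        * (ζ z * ∏ i, E h a φ (p i) n z) := by
    intro z
    have e3 : ∏ i, Phi h a φ N (uu θ ^ q * y i) n z = ∑ p ∈ s,
        ∏ i, ((uu θ ^ q) ^ (p i) * CN N (p i) (y i) * E h a φ (p i) n z) := by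
      rw [hs, ← Finset.prod_univ_sum (fun _ : Fin k => Finset.Icc (-(N : ℤ)) N)
        (fun i j => (uu θ ^ q) ^ j * CN N j (y i) * E h a φ j n z)]
      refine Finset.prod_congr rfl fun i _ => ?_
      rw [Phi_eq]
      exact Finset.sum_congr rfl fun j _ => by rw [CN_rot N hu]
    rw [e3, Finset.mul_sum]
    refine Finset.sum_congr rfl fun p _ => ?_
    rw [Finset.prod_mul_distrib, Finset.prod_mul_distrib]
    have e4 : ∏ i, (uu θ ^ q) ^ (p i) = (uu θ ^ q) ^ (∑ i, p i) := by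
      induction (Finset.univ : Finset (Fin k)) using Finset.induction_on with
      | empty => simp
      | insert i t hi ih => rw [Finset.prod_insert hi, Finset.sum_insert hi, zpow_add₀ hu0, ih]
    rw [e4]; ring
  simp only [e2]
  rw [integral_finset_sum _ fun p _ => (hE p).const_mul _]
  refine Finset.sum_congr rfl fun p _ => ?_
  rw [integral_const_mul]; ring

/-- **The local formula for a fixed direction.** -/
theorem fix_lim {K : Set ℂ} (hK : IsCompact K) (hKU : K ⊆ U) {q : ℤ} {k : ℕ}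
    (y : Fin k → ℂ) (ξ : Fin k → ℕ → ℝ → ℂ → ℂ) {ζ : ℂ → ℂ} (hζ : Test U ζ)
    (hζK : tsupport ζ ⊆ K) (θ : ℝ) {Γ : (Fin k → ℤ) → ℂ} {V : ℂ}
    (hc : ∀ ε > 0, ∃ N₀ : ℕ, ∀ N ≥ N₀, ∀ᶠ n in atTop,
      ‖(∫ z in K, ζ z * ∏ i, φ n (z + h n * a z * ξ i n θ z))
        - ∫ z in K, ζ z * ∏ i, Phi h a φ N (uu θ ^ q * y i) n z‖ ≤ ε)
    (hj : ∀ p : Fin k → ℤ, Tendsto (fun n => ∫ z, ζ z * ∏ i, E h a φ (p i) n z) atTop
      (𝓝 (Γ p * ∫ z, ζ z)))
    (hΓ : ∀ p, ∑ i, p i ≠ 0 → Γ p = 0)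
    (hm : Tendsto (fun N : ℕ => ∑ p ∈ Fintype.piFinset (fun _ : Fin k => Finset.Icc (-(N : ℤ)) N),
      (∏ i, CN N (p i) (y i)) * ((if ∑ i, p i = 0 then 1 else 0) * Γ p)) atTop (𝓝 V)) :
    Tendsto (fun n => ∫ z, ζ z * ∏ i, φ n (z + h n * a z * ξ i n θ z)) atTop
      (𝓝 ((∫ z, ζ z) * V)) := by
  have hset : ∀ f : ℂ → ℂ, ∫ z, ζ z * f z = ∫ z in K, ζ z * f z := by
    intro f
    rw [setIntegral_eq_integral_of_forall_compl_eq_zero]
    intro z hz
    rw [image_eq_zero_of_notMem_tsupport (fun hz' => hz (hζK hz')), zero_mul]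
  have hζc : ContinuousOn ζ K := hζ.smooth.continuous.continuousOn
  have key := lim_combine
    (X := fun n => ∫ z in K, ζ z * ∏ i, φ n (z + h n * a z * ξ i n θ z))
    (T := fun N n => ∫ z in K, ζ z * ∏ i, Phi h a φ N (uu θ ^ q * y i) n z)
    (α := fun _ => ∫ z, ζ z) (β := fun _ => 0) (W₂ := fun _ => 0) (V₂ := 0)
    (C := ‖∫ z, ζ z‖) hc ?_ hm tendsto_const_nhds
    (Eventually.of_forall fun n => le_rfl) (Eventually.of_forall fun n => by simp)
  · have := key.add_const ((∫ z, ζ z) * V)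
    rw [zero_add] at this
    refine this.congr fun n => ?_
    rw [hset (fun z => ∏ i, φ n (z + h n * a z * ξ i n θ z))]
    ring
  · intro N
    have h1 : ∀ p : Fin k → ℤ, Tendsto (fun n => ((uu θ ^ q) ^ (∑ i, p i))
        * ((∏ i, CN N (p i) (y i)) * ∫ z in K, ζ z * ∏ i, E h a φ (p i) n z)
        - (∫ z, ζ z) * ((∏ i, CN N (p i) (y i)) * ((if ∑ i, p i = 0 then 1 else 0) * Γ p)))
          atTop (𝓝 0) := by
      intro p
      have h2 := (((hj p).const_mul (∏ i, CN N (p i) (y i))).const_mul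
        ((uu θ ^ q) ^ (∑ i, p i))).sub_const ((∫ z, ζ z) * ((∏ i, CN N (p i) (y i))
          * ((if ∑ i, p i = 0 then 1 else 0) * Γ p)))
      have e : (uu θ ^ q) ^ (∑ i, p i) * ((∏ i, CN N (p i) (y i)) * (Γ p * ∫ z, ζ z))
          - (∫ z, ζ z) * ((∏ i, CN N (p i) (y i)) * ((if ∑ i, p i = 0 then 1 else 0) * Γ p)) = 0 := by
        by_cases hp : ∑ i, p i = 0
        · rw [hp, if_pos rfl, zpow_zero]; ring
        · rw [hΓ p hp]; ring
      rw [e] at h2
      refine h2.congr fun n => ?_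
      rw [hset (fun z => ∏ i, E h a φ (p i) n z)]
    have h2 := tendsto_finset_sum (Fintype.piFinset (fun _ : Fin k => Finset.Icc (-(N : ℤ)) N))
      fun p _ => h1 p
    simp only [Finset.sum_const_zero] at h2
    refine h2.congr fun n => ?_
    rw [S.fix_expand hK hKU y hζc N n θ, zero_mul, add_zero, Finset.mul_sum,
      ← Finset.sum_sub_distrib]

end Setup

end

end QE
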