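import Pool.Agent.LibH11.QEV.Fix

/-!
The local formulas of order at most four for a fixed direction of the frame.
-/

open Complex MeasureTheory Filter Topology Set
open scoped ContDiff

namespace QE

noncomputable section

variable {U : Set ℂ} {h : ℕ → ℝ} {a g : ℂ → ℂ} {φ : ℕ → ℂ → ℂ}

lemma disp_zero (h : ℕ → ℝ) (a : ℂ → ℂ) (K : Set ℂ) (q : ℤ) :
    Disp h a K q 0 (fun _ _ _ => 0) :=
  ⟨fun ε hε => Eventually.of_forall fun n θ z _ => by simpa using hε.le,
    Eventually.of_forall fun n => continuousOn_const,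
    Eventually.of_forall fun n θ z _ w _ => by simp⟩

namespace Setup

variable (S : Setup U g a h φ)

include S

theorem fix_four {K : Set ℂ} (hK : IsCompact K) {δ : ℝ} (hδ : 0 < δ)
    (hδU : Metric.cthickening (2 * δ) K ⊆ U) {q : ℤ} (y : Fin 4 → ℂ)
    (ξ : Fin 4 → ℕ → ℝ → ℂ → ℂ) (hξ : ∀ i, Disp h a K q (y i) (ξ i)) {ζ : ℂ → ℂ}
    (hζ : Test U ζ) (hζK : tsupport ζ ⊆ K) (θ : ℝ)
    (hj : ∀ j m k l : ℤ, Tendsto (fun n => ∫ z, ζ z
      * (E h a φ j n z * E h a φ m n z * (E h a φ k n z * E h a φ l n z))) atTop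
      (𝓝 (G j m k l * ∫ z, ζ z))) :
    Tendsto (fun n => ∫ z, ζ z * ∏ i, φ n (z + h n * a z * ξ i n θ z)) atTop
      (𝓝 ((∫ z, ζ z) * (wick y : ℂ))) := by
  have hKU : K ⊆ U := (Metric.self_subset_cthickening K).trans hδU
  have hζc : ContinuousOn ζ K := hζ.smooth.continuous.continuousOn
  refine S.fix_lim hK hKU (q := q) y ξ hζ hζK θ (Γ := fun p => G (p 0) (p 1) (p 2) (p 3)) ?_ ?_ ?_
    (model_wick y)
  · intro ε hε
    obtain ⟨N₀, hN₀⟩ := S.fix_close hK hδ hδU q (fun _ => true) y ξ hξ hζc hε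
    refine ⟨N₀, fun N hN => ?_⟩
    filter_upwards [hN₀ N hN] with n hn
    have := hn θ
    simp only [fld, tay, if_true] at this
    simp only [Fin.prod_univ_four]
    exact this
  · intro p
    refine (hj (p 0) (p 1) (p 2) (p 3)).congr fun n => ?_
    congr 1; funext z
    rw [Fin.prod_univ_four]; ring
  · intro p hp
    rw [Fin.sum_univ_four] at hp
    unfold G P
    have e : ∀ A B C D : ℤ, p 0 + p 1 + p 2 + p 3 = (A + B) + (C + D) →
        (if A + B = 0 then (-1 : ℂ) ^ A else 0) * (if C + D = 0 then (-1 : ℂ) ^ C else 0) = 0 := by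
      intro A B C D h
      by_cases hA : A + B = 0
      · rw [if_neg (show ¬ C + D = 0 by omega), mul_zero]
      · rw [if_neg hA, zero_mul]
    rw [e (p 0) (p 1) (p 2) (p 3) (by ring), e (p 0) (p 2) (p 1) (p 3) (by ring),
      e (p 0) (p 3) (p 1) (p 2) (by ring)]
    ring

theorem fix_three {K : Set ℂ} (hK : IsCompact K) {δ : ℝ} (hδ : 0 < δ)
    (hδU : Metric.cthickening (2 * δ) K ⊆ U) {q : ℤ} (y : Fin 3 → ℂ)
    (ξ : Fin 3 → ℕ → ℝ → ℂ → ℂ) (hξ : ∀ i, Disp h a K q (y i) (ξ i)) {ζ : ℂ → ℂ}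
    (hζ : Test U ζ) (hζK : tsupport ζ ⊆ K) (θ : ℝ)
    (hj : ∀ j m k : ℤ, Tendsto (fun n => ∫ z, ζ z
      * (E h a φ j n z * E h a φ m n z * E h a φ k n z)) atTop (𝓝 0)) :
    Tendsto (fun n => ∫ z, ζ z * ∏ i, φ n (z + h n * a z * ξ i n θ z)) atTop (𝓝 0) := by
  have hKU : K ⊆ U := (Metric.self_subset_cthickening K).trans hδU
  have hζc : ContinuousOn ζ K := hζ.smooth.continuous.continuousOn
  have key := S.fix_lim hK hKU (q := q) y ξ hζ hζK θ (Γ := fun _ => 0) (V := 0) ?_ ?_ ?_ ?_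
  · rwa [mul_zero] at key
  · intro ε hε
    obtain ⟨N₀, hN₀⟩ := S.fix_close hK hδ hδU q ![true, true, true, false] ![y 0, y 1, y 2, 0]
      ![ξ 0, ξ 1, ξ 2, fun _ _ _ => 0] (fun i => by
        fin_cases i
        · exact hξ 0
        · exact hξ 1
        · exact hξ 2
        · exact disp_zero h a K q) hζc hε
    refine ⟨N₀, fun N hN => ?_⟩
    filter_upwards [hN₀ N hN] with n hn
    have := hn θ
    simp only [Matrix.cons_val_zero, Matrix.cons_val_one, Matrix.cons_val, fld, tay, if_true,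
      Bool.false_eq_true, if_false, mul_one] at this
    simp only [Fin.prod_univ_three]
    exact this
  · intro p
    rw [zero_mul]
    refine (hj (p 0) (p 1) (p 2)).congr fun n => ?_
    simp only [Fin.prod_univ_three]
  · intro p _; rfl
  · simp only [mul_zero, Finset.sum_const_zero]
    exact tendsto_const_nhds

theorem fix_two {K : Set ℂ} (hK : IsCompact K) {δ : ℝ} (hδ : 0 < δ)
    (hδU : Metric.cthickening (2 * δ) K ⊆ U) {q : ℤ} (y : Fin 2 → ℂ)
    (ξ : Fin 2 → ℕ → ℝ → ℂ → ℂ) (hξ : ∀ i, Disp h a K q (y i) (ξ i)) {ζ : ℂ → ℂ}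
    (hζ : Test U ζ) (hζK : tsupport ζ ⊆ K) (θ : ℝ)
    (hj : ∀ j m : ℤ, Tendsto (fun n => ∫ z, ζ z * (E h a φ j n z * E h a φ m n z)) atTop
      (𝓝 (P j m * ∫ z, ζ z))) :
    Tendsto (fun n => ∫ z, ζ z * ∏ i, φ n (z + h n * a z * ξ i n θ z)) atTop
      (𝓝 ((∫ z, ζ z) * (Berry.waveK (y 0 - y 1) : ℂ))) := by
  have hKU : K ⊆ U := (Metric.self_subset_cthickening K).trans hδU
  have hζc : ContinuousOn ζ K := hζ.smooth.continuous.continuousOn
  refine S.fix_lim hK hKU (q := q) y ξ hζ hζK θ (Γ := fun p => P (p 0) (p 1)) ?_ ?_ ?_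
    (model_pair y)
  · intro ε hε
    obtain ⟨N₀, hN₀⟩ := S.fix_close hK hδ hδU q ![true, true, false, false] ![y 0, y 1, 0, 0]
      ![ξ 0, ξ 1, fun _ _ _ => 0, fun _ _ _ => 0] (fun i => by
        fin_cases i
        · exact hξ 0
        · exact hξ 1
        · exact disp_zero h a K q
        · exact disp_zero h a K q) hζc hε
    refine ⟨N₀, fun N hN => ?_⟩
    filter_upwards [hN₀ N hN] with n hn
    have := hn θ
    simp only [Matrix.cons_val_zero, Matrix.cons_val_one, Matrix.cons_val, fld, tay, if_true,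
      Bool.false_eq_true, if_false, mul_one] at this
    simp only [Fin.prod_univ_two]
    exact this
  · intro p
    refine (hj (p 0) (p 1)).congr fun n => ?_
    simp only [Fin.prod_univ_two]
  · intro p hp
    rw [Fin.sum_univ_two] at hp
    unfold P
    rw [if_neg hp]

theorem fix_one {K : Set ℂ} (hK : IsCompact K) {δ : ℝ} (hδ : 0 < δ)
    (hδU : Metric.cthickening (2 * δ) K ⊆ U) {q : ℤ} (y : Fin 1 → ℂ)
    (ξ : Fin 1 → ℕ → ℝ → ℂ → ℂ) (hξ : ∀ i, Disp h a K q (y i) (ξ i)) {ζ : ℂ → ℂ}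
    (hζ : Test U ζ) (hζK : tsupport ζ ⊆ K) (θ : ℝ) :
    Tendsto (fun n => ∫ z, ζ z * ∏ i, φ n (z + h n * a z * ξ i n θ z)) atTop (𝓝 0) := by
  have hKU : K ⊆ U := (Metric.self_subset_cthickening K).trans hδU
  have hζc : ContinuousOn ζ K := hζ.smooth.continuous.continuousOn
  have key := S.fix_lim hK hKU (q := q) y ξ hζ hζK θ (Γ := fun _ => 0) (V := 0) ?_ ?_ ?_ ?_
  · rwa [mul_zero] at key
  · intro ε hε
    obtain ⟨N₀, hN₀⟩ := S.fix_close hK hδ hδU q ![true, false, false, false] ![y 0, 0, 0, 0]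
      ![ξ 0, fun _ _ _ => 0, fun _ _ _ => 0, fun _ _ _ => 0] (fun i => by
        fin_cases i
        · exact hξ 0
        · exact disp_zero h a K q
        · exact disp_zero h a K q
        · exact disp_zero h a K q) hζc hε
    refine ⟨N₀, fun N hN => ?_⟩
    filter_upwards [hN₀ N hN] with n hn
    have := hn θ
    simp only [Matrix.cons_val_zero, Matrix.cons_val_one, Matrix.cons_val, fld, tay, if_true,
      Bool.false_eq_true, if_false, mul_one] at this
    simp only [Fin.prod_univ_one]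
    exact this
  · intro p
    rw [zero_mul]
    refine (S.one_full hζ (p 0)).congr fun n => ?_
    simp only [Fin.prod_univ_one]
  · intro p _; rfl
  · simp only [mul_zero, Finset.sum_const_zero]
    exact tendsto_const_nhds

end Setup

end

end QE
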