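import Pool.Agent.LibH11.QEV.Local3
import Pool.Agent.LibH11.Berry.RFin1
import Pool.Agent.Lib_helper67.QE.Final

/-!
The local coordinates at a frame as displacements.
-/

open Complex MeasureTheory Filter Topology Set MatrixGroups
open UpperHalfPlane hiding I
open scoped ContDiff

namespace QE

noncomputable section

/-- the upper half plane in `ℂ` -/
abbrev HH : Set ℂ := {z : ℂ | 0 < z.im}

lemma isOpen_HH : IsOpen HH := isOpen_lt continuous_const Complex.continuous_im

lemma one_add_ne {c : ℂ} (hc : ‖c‖ < 1) : 1 + c ≠ 0 := by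
  intro h0
  have : c = -1 := by linear_combination h0
  rw [this, norm_neg, norm_one] at hc
  exact lt_irrefl _ hc

lemma rot_coe (θ : ℝ) {t : ℂ} (ht : ‖t‖ < 1) (hi : 0 < (I + t).im) :
    ((Berry.rot θ • (ofComplex (I + t) : ℍ) : ℍ) : ℂ)
      = I + t * uu θ ^ 2 / (1 + t * uu θ * Real.sin θ) := by
  rw [coe_specialLinearGroup_apply, Berry.coe_ofComplex hi]
  have hcs : (Real.cos θ : ℂ) ^ 2 + (Real.sin θ : ℂ) ^ 2 = 1 := by
    exact_mod_cast Real.cos_sq_add_sin_sq θ
  have hu : uu θ = Real.cos θ - Real.sin θ * I := by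
    unfold uu
    rw [← Complex.ofReal_neg, Complex.exp_mul_I, ← Complex.ofReal_cos, ← Complex.ofReal_sin,
      Real.cos_neg, Real.sin_neg]
    push_cast; ring
  have hc : ‖t * uu θ * Real.sin θ‖ < 1 := by
    rw [norm_mul, norm_mul, norm_uu, mul_one, Complex.norm_real, Real.norm_eq_abs]
    have := Real.abs_sin_le_one θ
    have h0 := norm_nonneg t
    nlinarith
  have h1 := one_add_ne hc
  have hI : I ^ 2 = -1 := I_sq
  set D : ℂ := (Real.sin θ : ℂ) * (I + t) + Real.cos θ with hD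
  have e : uu θ * D = 1 + t * uu θ * Real.sin θ := by
    rw [hu, hD]
    linear_combination hcs - (Real.sin θ : ℂ) ^ 2 * hI
  have hne : D ≠ 0 := by
    intro h0
    rw [h0, mul_zero] at e
    exact h1 e.symm
  have e2 : t * uu θ ^ 2 / (1 + t * uu θ * Real.sin θ) = t * uu θ / D := by
    rw [← e]
    have := uu_ne θ
    field_simp
  rw [e2]
  simp only [Berry.rot, Matrix.of_apply, Matrix.cons_val',
    Matrix.cons_val_zero, Matrix.cons_val_one, Algebra.algebraMap_self, RingHom.id_apply]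
  show ((Real.cos θ : ℂ) * (I + t) + ((-Real.sin θ : ℝ) : ℂ)) / D = I + t * uu θ / D
  rw [div_eq_iff hne, add_mul, div_mul_cancel₀ _ hne, hu, hD]
  push_cast
  linear_combination (-(Complex.sin θ : ℂ)) * hI

lemma frame_coe (z : ℍ) (θ : ℝ) {t : ℂ} (ht : ‖t‖ < 1) :
    ((Berry.frame (z, θ) • (ofComplex (I + t) : ℍ) : ℍ) : ℂ)
      = z + z.im * (t * uu θ ^ 2 / (1 + t * uu θ * Real.sin θ)) := by
  have hi : 0 < (I + t).im := by
    have h1 := Complex.abs_im_le_norm t
    have h2 := neg_abs_le t.im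
    rw [Complex.add_im, Complex.I_im]
    linarith
  unfold Berry.frame
  rw [mul_smul, Berry.toSL2R_smul_coe, rot_coe θ ht hi]
  have h3 : (z : ℂ) = z.re + z.im * I := (Complex.re_add_im (z : ℂ)).symm
  show (z.im : ℂ) * (I + t * uu θ ^ 2 / (1 + t * uu θ * Real.sin θ)) + z.re = _
  rw [h3]; ring

end

end QE
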