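import Pool.Agent.LibH11.QEV.Frame

/-!
The displacements of the local coordinates at a frame.
-/

open Complex MeasureTheory Filter Topology Set MatrixGroups
open UpperHalfPlane hiding I
open scoped ContDiff

namespace QE

noncomputable section

/-- the rescaled displacement -/
def frXi (h : ℕ → ℝ) (e : ℂ → ℝ) (x : ℂ) (n : ℕ) (θ : ℝ) (z : ℂ) : ℂ :=
  x * uu θ ^ 2 / (1 + h n * x * uu θ * Real.sin θ * e z)

lemma norm_c_le {h : ℝ} (hh : 0 ≤ h) (x : ℂ) (θ : ℝ) : ‖(h : ℂ) * x * uu θ * Real.sin θ‖ ≤ h * ‖x‖ := by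
  rw [norm_mul, norm_mul, norm_mul, norm_uu, mul_one, Complex.norm_real, Complex.norm_real,
    Real.norm_of_nonneg hh, Real.norm_eq_abs]
  have := Real.abs_sin_le_one θ
  have h0 : 0 ≤ h * ‖x‖ := by positivity
  nlinarith

/-- the frames give displacements -/
theorem disp_frame {h : ℕ → ℝ} (hpos : ∀ n, 0 < h n) (hlim : Tendsto h atTop (𝓝 0)) {K : Set ℂ}
    {a : ℂ → ℂ} {b e : ℂ → ℝ} {L M : ℝ} (hL : ∀ z ∈ K, ∀ w ∈ K, ‖a z - a w‖ ≤ L * ‖z - w‖)
    (hb : ∀ z ∈ K, ∀ w ∈ K, |b z - b w| ≤ ‖z - w‖) (hab : ∀ z ∈ K, a z = b z * e z)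
    (hec : ContinuousOn e K) (hM : ∀ z ∈ K, |e z| ≤ M) (x : ℂ) :
    Disp h a K 2 x (frXi h e x) := by
  rcases K.eq_empty_or_nonempty with rfl | ⟨z₀, hz₀⟩
  · exact ⟨fun ε _ => Eventually.of_forall fun n θ z hz => absurd hz (notMem_empty z),
      Eventually.of_forall fun n => by rw [prod_empty]; exact continuousOn_empty _,
      Eventually.of_forall fun n θ z hz => absurd hz (notMem_empty z)⟩
  have hM0 : 0 ≤ M := (abs_nonneg _).trans (hM z₀ hz₀)
  -- the denominators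
  have hsmall : ∀ᶠ n in atTop, h n * (‖x‖ * M) < 1 / 2 := by
    have := hlim.mul_const (‖x‖ * M)
    rw [zero_mul] at this
    exact this.eventually_lt_const (by norm_num)
  have hden : ∀ n, h n * (‖x‖ * M) < 1 / 2 → ∀ θ, ∀ z ∈ K,
      ‖(h n : ℂ) * x * uu θ * Real.sin θ * e z‖ ≤ h n * (‖x‖ * M) := by
    intro n hn θ z hz
    have h1 := norm_c_le (hpos n).le x θ
    rw [norm_mul _ ((e z : ℝ) : ℂ), Complex.norm_real, Real.norm_eq_abs, ← mul_assoc]
    exact mul_le_mul h1 (hM z hz) (abs_nonneg _) (by have := (hpos n).le; positivity)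
  have hden2 : ∀ n, h n * (‖x‖ * M) < 1 / 2 → ∀ θ, ∀ z ∈ K,
      1 / 2 ≤ ‖1 + (h n : ℂ) * x * uu θ * Real.sin θ * e z‖ := by
    intro n hn θ z hz
    have h1 := hden n hn θ z hz
    have h2 := norm_sub_norm_le (1 : ℂ) (-((h n : ℂ) * x * uu θ * Real.sin θ * e z))
    rw [norm_one, norm_neg, sub_neg_eq_add] at h2
    linarith
  refine ⟨fun ε hε => ?_, ?_, ?_⟩
  · -- the limit
    have ht : Tendsto (fun n => 2 * ‖x‖ * (h n * (‖x‖ * M))) atTop (𝓝 0) := by
      have := (hlim.mul_const (‖x‖ * M)).const_mul (2 * ‖x‖)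
      simpa using this
    filter_upwards [hsmall, ht.eventually_lt_const hε] with n hn hn2 θ z hz
    have h1 := hden n hn θ z hz
    have h2 := hden2 n hn θ z hz
    set c := (h n : ℂ) * x * uu θ * Real.sin θ * e z with hc
    have hne : (1 + c) ≠ 0 := by
      intro h0; rw [h0, norm_zero] at h2; linarith
    have e1 : frXi h e x n θ z - uu θ ^ (2 : ℤ) * x = -(x * uu θ ^ 2 * c / (1 + c)) := by
      have e0 : frXi h e x n θ z = x * uu θ ^ 2 / (1 + c) := rfl
      rw [e0]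
      have : uu θ ^ (2 : ℤ) = uu θ ^ 2 := by norm_cast
      rw [this]
      field_simp
      ring
    rw [e1, norm_neg, norm_div, norm_mul, norm_mul, norm_pow, norm_uu, one_pow, mul_one,
      div_le_iff₀ (by linarith)]
    have hx := norm_nonneg x
    calc ‖x‖ * ‖c‖ ≤ ‖x‖ * (h n * (‖x‖ * M)) := by gcongr
      _ = (2 * ‖x‖ * (h n * (‖x‖ * M))) * (1 / 2) := by ring
      _ ≤ ε * ‖1 + c‖ := by
          have := hpos n
          exact mul_le_mul hn2.le h2 (by norm_num) hε.le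
  · filter_upwards [hsmall] with n hn
    unfold frXi
    have c1 : ContinuousOn (fun p : ℝ × ℂ => e p.2) (univ ×ˢ K) :=
      hec.comp continuousOn_snd fun p hp => hp.2
    have c2 : Continuous (fun p : ℝ × ℂ => uu p.1) := continuous_uu.comp continuous_fst
    refine ContinuousOn.div ?_ ?_ fun p hp => ?_
    · exact (continuous_const.mul (c2.pow 2)).continuousOn
    · refine continuousOn_const.add (ContinuousOn.mul ?_ ?_)
      · exact (((continuous_const.mul c2).mul (Complex.continuous_ofReal.comp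
          (Real.continuous_sin.comp continuous_fst)))).continuousOn
      · exact Complex.continuous_ofReal.comp_continuousOn c1
    · have h2 := hden2 n hn p.1 p.2 hp.2
      intro h0
      rw [h0, norm_zero] at h2; linarith
  · have ht : Tendsto (fun n => h n * (‖x‖ * 4 * (|L| + h n * ‖x‖ * M ^ 2))) atTop (𝓝 0) := by
      have h1 : Tendsto (fun n => ‖x‖ * 4 * (|L| + h n * ‖x‖ * M ^ 2)) atTop
          (𝓝 (‖x‖ * 4 * (|L| + 0 * ‖x‖ * M ^ 2))) :=
        (((hlim.mul_const ‖x‖).mul_const (M ^ 2)).const_add |L|).const_mul _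
      have := hlim.mul h1
      simpa using this
    filter_upwards [hsmall, ht.eventually_lt_const (show (0 : ℝ) < 1 / 2 by norm_num)]
      with n hn hn2 θ z hz w hw
    have hz2 := hden2 n hn θ z hz
    have hw2 := hden2 n hn θ w hw
    have hcn := norm_c_le (hpos n).le x θ
    set c := (h n : ℂ) * x * uu θ * Real.sin θ with hc
    set E1 : ℂ := ((e z : ℝ) : ℂ) with hE1
    set E2 : ℂ := ((e w : ℝ) : ℂ) with hE2
    have nz : (1 + c * E1) ≠ 0 := by
      intro h0; rw [h0, norm_zero] at hz2; linarith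
    have nw : (1 + c * E2) ≠ 0 := by
      intro h0; rw [h0, norm_zero] at hw2; linarith
    have e1 : (h n : ℂ) * a z * frXi h e x n θ z - (h n : ℂ) * a w * frXi h e x n θ w
        = (h n : ℂ) * x * uu θ ^ 2 * ((a z - a w) + c * E1 * E2 * (b z - b w))
          / ((1 + c * E1) * (1 + c * E2)) := by
      have e0 : frXi h e x n θ z = x * uu θ ^ 2 / (1 + c * E1) := rfl
      have e0' : frXi h e x n θ w = x * uu θ ^ 2 / (1 + c * E2) := rfl
      rw [e0, e0', hab z hz, hab w hw]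
      field_simp
      ring
    rw [e1, norm_div, norm_mul, norm_mul, norm_mul, norm_pow, norm_uu, one_pow, mul_one, norm_mul,
      Complex.norm_real, Real.norm_of_nonneg (hpos n).le]
    have hE1n : ‖E1‖ ≤ M := by rw [hE1, Complex.norm_real]; exact hM z hz
    have hE2n : ‖E2‖ ≤ M := by rw [hE2, Complex.norm_real]; exact hM w hw
    have hbn : ‖(b z : ℂ) - b w‖ ≤ ‖z - w‖ := by
      rw [← Complex.ofReal_sub, Complex.norm_real]; exact hb z hz w hw
    have hpn := (hpos n).le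
    have hnum : ‖(a z - a w) + c * E1 * E2 * (b z - b w)‖
        ≤ (|L| + h n * ‖x‖ * M ^ 2) * ‖z - w‖ := by
      refine (norm_add_le _ _).trans ?_
      rw [norm_mul, norm_mul, norm_mul]
      have h3 : ‖a z - a w‖ ≤ |L| * ‖z - w‖ := (hL z hz w hw).trans (by
        have := le_abs_self L; gcongr)
      have h4 : ‖c‖ * ‖E1‖ * ‖E2‖ * ‖(b z : ℂ) - b w‖ ≤ (h n * ‖x‖) * M * M * ‖z - w‖ := by
        gcongr
      calc _ ≤ |L| * ‖z - w‖ + (h n * ‖x‖) * M * M * ‖z - w‖ := add_le_add h3 h4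
        _ = _ := by ring
    have hd : 1 / 4 ≤ ‖1 + c * E1‖ * ‖1 + c * E2‖ := by nlinarith
    rw [div_le_iff₀ (by linarith)]
    have hzw := norm_nonneg (z - w)
    calc h n * ‖x‖ * ‖(a z - a w) + c * E1 * E2 * (b z - b w)‖
        ≤ h n * ‖x‖ * ((|L| + h n * ‖x‖ * M ^ 2) * ‖z - w‖) := by gcongr
      _ = (h n * (‖x‖ * 4 * (|L| + h n * ‖x‖ * M ^ 2))) * ‖z - w‖ * (1 / 4) := by ring
      _ ≤ 1 / 2 * ‖z - w‖ * (‖1 + c * E1‖ * ‖1 + c * E2‖) := by
          have h5 : (h n * (‖x‖ * 4 * (|L| + h n * ‖x‖ * M ^ 2))) * ‖z - w‖ ≤ 1 / 2 * ‖z - w‖ := by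
            gcongr
          exact mul_le_mul h5 hd (by norm_num) (by positivity)

end

end QE
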