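import Pool.Agent.Lib_helper67.QE.Local
import Pool.Agent.Lib_helper67.QE.Symbols
import Pool.Agent.Lib_helper67.QE.JetJ

/-!
From the two-point limits of the jets to quantum ergodicity tested on differential operators.
-/

open Complex MeasureTheory Filter Topology Set
open scoped ContDiff

namespace QE

noncomputable section

variable {U : Set ℂ} {h : ℕ → ℝ} {a : ℂ → ℂ} {g : ℂ → ℂ} {φ : ℕ → ℂ → ℂ}

theorem Near.fn_mul (hU : IsOpen U) (hh0 : Tendsto h atTop (𝓝 0)) {b : ℂ → ℂ}
    (hb : ContDiffOn ℝ ∞ b U) {u v : ℕ → ℂ → ℂ} (h1 : Near U h u v) :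
    Near U h (fun n z => b z * u n z) (fun n z => b z * v n z) := by
  obtain ⟨w, hw, hw'⟩ := h1
  refine ⟨_, hw.fn_mul hU hh0 hb, fun n z hz => ?_⟩
  beta_reduce
  rw [hw' n z hz]; ring

theorem Near.sum (hU : IsOpen U) {ι : Type} (s : Finset ι) {u v : ι → ℕ → ℂ → ℂ}
    (h1 : ∀ i ∈ s, Near U h (u i) (v i)) :
    Near U h (fun n z => ∑ i ∈ s, u i n z) (fun n z => ∑ i ∈ s, v i n z) := by
  classical
  induction s using Finset.induction_on with
  | empty => simpa using Near.of_eq hU fun n z _ => rfl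
  | insert i t hi ih =>
    simp only [Finset.sum_insert hi]
    exact (h1 i (Finset.mem_insert_self i t)).add hU
      (ih fun j hj => h1 j (Finset.mem_insert_of_mem hj))

lemma hD_one_eq (h : ℝ) (f : ℂ → ℂ) (z : ℂ) :
    hD h 1 f z = (1 / 2) * (-(2 * I * h) * dz f z + -(2 * I * h) * dzb f z) := by
  unfold hD dz dzb
  ring

lemma hD_I_eq (h : ℝ) (f : ℂ → ℂ) (z : ℂ) :
    hD h I f z = (I / 2) * (-(2 * I * h) * dz f z - -(2 * I * h) * dzb f z) := by
  unfold hD dz dzb
  linear_combination (-I * h * fderiv ℝ f z I) * (I_mul_I)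

/-- representation of a sequence by jets, up to tame errors, together with its symbol -/
structure Rep (U : Set ℂ) (h : ℕ → ℝ) (a : ℂ → ℂ) (φ : ℕ → ℂ → ℂ) (u : ℕ → ℂ → ℂ)
    (F : ℂ → ℝ → ℂ) : Prop where
  smooth : SmoothSeq U u
  rep : ∃ (ι : Type) (_ : Fintype ι) (b : ι → ℂ → ℂ) (d : ι → ℤ),
    (∀ i, ContDiffOn ℝ ∞ (b i) U) ∧ Near U h u (fun n z => ∑ i, b i z * E h a φ (d i) n z) ∧
    ∀ z ∈ U, ∀ θ : ℝ, F z θ = ∑ i, b i z * Complex.exp (-(θ : ℂ) * I) ^ (d i)

namespace Setup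

variable (S : Setup U g a h φ)

include S

lemma a_ne {z : ℂ} (hz : z ∈ U) : a z ≠ 0 := by
  intro h0
  have := S.ag z hz
  rw [h0] at this
  norm_num at this

lemma rep_zero : Rep U h a φ φ (fun _ _ => 1) := by
  refine ⟨S.tame.smooth, Unit, inferInstance, fun _ _ => 1, fun _ => 0, fun _ => contDiffOn_const,
    Near.of_eq S.op fun n z _ => ?_, fun z _ θ => ?_⟩
  · simp only [Finset.univ_unique, Finset.sum_singleton, one_mul]
    rfl
  · simp

lemma LL_bE {b : ℂ → ℂ} (hb : ContDiffOn ℝ ∞ b U) (m : ℤ) :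
    Near U h (QE.LL h a (fun n z => b z * E h a φ m n z)) (fun n z => b z * E h a φ (m + 1) n z) := by
  have h1 : Near U h (QE.LL h a (fun n z => b z * E h a φ m n z))
      (fun n z => b z * QE.LL h a (E h a φ m) n z) := by
    have hdb := contDiffOn_dz S.op hb
    refine ⟨fun n z => (-(2 * I) * (a z * dz b z)) * E h a φ m n z,
      (S.tame_E m).fn_mul S.op S.hlim (contDiffOn_const.mul (S.ha.mul hdb)), fun n z hz => ?_⟩
    unfold QE.LL
    beta_reduce
    rw [dz_mul ((hb.contDiffAt (S.op.mem_nhds hz)).differentiableAt (by simp))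
      ((S.tame_E m).smooth.dAt S.op n hz)]
    ring
  exact h1.trans S.op ((S.LL_E m).fn_mul S.op S.hlim hb)

lemma LLb_bE {b : ℂ → ℂ} (hb : ContDiffOn ℝ ∞ b U) (m : ℤ) :
    Near U h (QE.LLb h a (fun n z => b z * E h a φ m n z))
      (fun n z => b z * E h a φ (m - 1) n z) := by
  have h1 : Near U h (QE.LLb h a (fun n z => b z * E h a φ m n z))
      (fun n z => b z * QE.LLb h a (E h a φ m) n z) := by
    have hdb := contDiffOn_dzb S.op hb
    refine ⟨fun n z => (-(2 * I) * (a z * dzb b z)) * E h a φ m n z,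
      (S.tame_E m).fn_mul S.op S.hlim (contDiffOn_const.mul (S.ha.mul hdb)), fun n z hz => ?_⟩
    unfold QE.LLb
    beta_reduce
    rw [dzb_mul ((hb.contDiffAt (S.op.mem_nhds hz)).differentiableAt (by simp))
      ((S.tame_E m).smooth.dAt S.op n hz)]
    ring
  exact h1.trans S.op ((S.LLb_E m).fn_mul S.op S.hlim hb)

lemma LL_sumE {ι : Type} (s : Finset ι) {b : ι → ℂ → ℂ} (hb : ∀ i, ContDiffOn ℝ ∞ (b i) U)
    (d : ι → ℤ) : Near U h (QE.LL h a (fun n z => ∑ i ∈ s, b i z * E h a φ (d i) n z))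
      (fun n z => ∑ i ∈ s, b i z * E h a φ (d i + 1) n z) := by
  refine Near.trans S.op (Near.of_eq S.op fun n z hz => ?_)
    (Near.sum S.op s fun i _ => S.LL_bE (hb i) (d i))
  unfold QE.LL
  beta_reduce
  rw [← Finset.mul_sum]
  congr 1
  have hd : ∀ i ∈ s, DifferentiableAt ℝ (fun w => b i w * E h a φ (d i) n w) z := fun i _ =>
    (((hb i).contDiffAt (S.op.mem_nhds hz)).differentiableAt (by simp)).fun_mul
      ((S.tame_E (d i)).smooth.dAt S.op n hz)
  unfold dz
  rw [fderiv_fun_sum hd]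
  simp only [sum_apply]
  rw [← Finset.mul_sum, Finset.sum_sub_distrib, Finset.mul_sum]

lemma LLb_sumE {ι : Type} (s : Finset ι) {b : ι → ℂ → ℂ} (hb : ∀ i, ContDiffOn ℝ ∞ (b i) U)
    (d : ι → ℤ) : Near U h (QE.LLb h a (fun n z => ∑ i ∈ s, b i z * E h a φ (d i) n z))
      (fun n z => ∑ i ∈ s, b i z * E h a φ (d i - 1) n z) := by
  refine Near.trans S.op (Near.of_eq S.op fun n z hz => ?_)
    (Near.sum S.op s fun i _ => S.LLb_bE (hb i) (d i))
  unfold QE.LLb
  beta_reduce
  rw [← Finset.mul_sum]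
  congr 1
  have hd : ∀ i ∈ s, DifferentiableAt ℝ (fun w => b i w * E h a φ (d i) n w) z := fun i _ =>
    (((hb i).contDiffAt (S.op.mem_nhds hz)).differentiableAt (by simp)).fun_mul
      ((S.tame_E (d i)).smooth.dAt S.op n hz)
  unfold dzb
  rw [fderiv_fun_sum hd]
  simp only [sum_apply]
  rw [← Finset.mul_sum, Finset.sum_add_distrib, Finset.mul_sum]

/-- the inverse of the weight is smooth -/
lemma inv_smooth : ContDiffOn ℝ ∞ (fun z => (a z)⁻¹) U := S.ha.inv fun _ hz => S.a_ne hz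

/-- one step, for a combination `c₁ L + c₂ L̄` -/
lemma rep_step {u : ℕ → ℂ → ℂ} {F : ℂ → ℝ → ℂ} (hR : Rep U h a φ u F) (c₁ c₂ : ℂ)
    {u' : ℕ → ℂ → ℂ} (hu' : ∀ n, ∀ z ∈ U, u' n z
      = (a z)⁻¹ * (c₁ * QE.LL h a u n z + c₂ * QE.LLb h a u n z)) :
    Rep U h a φ u' (fun z θ => (a z)⁻¹ * (c₁ * Complex.exp (-(θ : ℂ) * I)
      + c₂ * (Complex.exp (-(θ : ℂ) * I))⁻¹) * F z θ) := by
  obtain ⟨hsm, ι, _, b, d, hb, hN, hF⟩ := hR
  have hsum : SmoothSeq U (fun n z => ∑ i, b i z * E h a φ (d i) n z) := fun n =>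
    ContDiffOn.sum fun i _ => (hb i).mul ((S.tame_E (d i)).smooth n)
  refine ⟨?_, ι × Bool, inferInstance,
    fun p z => (a z)⁻¹ * ((if p.2 then c₁ else c₂) * b p.1 z),
    fun p => if p.2 then d p.1 + 1 else d p.1 - 1, ?_, ?_, ?_⟩
  · intro n
    refine ContDiffOn.congr ?_ (hu' n)
    exact S.inv_smooth.mul ((contDiffOn_const.mul (hsm.LL S.op S.ha n)).add
      (contDiffOn_const.mul (hsm.LLb S.op S.ha n)))
  · rintro ⟨i, b'⟩
    exact S.inv_smooth.mul (contDiffOn_const.mul (hb i))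
  · have h1 : Near U h u' (fun n z => (a z)⁻¹ * (c₁ * QE.LL h a u n z + c₂ * QE.LLb h a u n z)) :=
      Near.of_eq S.op hu'
    have h2 : Near U h (QE.LL h a u) (fun n z => ∑ i, b i z * E h a φ (d i + 1) n z) :=
      (hN.LL S.op S.hlim S.ha hsum).trans S.op (S.LL_sumE Finset.univ hb d)
    have h3 : Near U h (QE.LLb h a u) (fun n z => ∑ i, b i z * E h a φ (d i - 1) n z) :=
      (hN.LLb S.op S.hlim S.ha hsum).trans S.op (S.LLb_sumE Finset.univ hb d)
    have h4 := ((h2.smul S.op c₁).add S.op (h3.smul S.op c₂)).fn_mul S.op S.hlim S.inv_smooth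
    refine (h1.trans S.op h4).trans S.op (Near.of_eq S.op fun n z _ => ?_)
    rw [Fintype.sum_prod_type]
    simp only [Fintype.sum_bool, if_true, Bool.false_eq_true, if_false]
    rw [Finset.mul_sum, Finset.mul_sum, ← Finset.sum_add_distrib, Finset.mul_sum]
    exact Finset.sum_congr rfl fun i _ => by ring
  · intro z hz θ
    rw [Fintype.sum_prod_type]
    simp only [Fintype.sum_bool, if_true, Bool.false_eq_true, if_false]
    rw [hF z hz θ, Finset.mul_sum]
    refine Finset.sum_congr rfl fun i _ => ?_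
    rw [zpow_add_one₀ (Complex.exp_ne_zero _), zpow_sub_one₀ (Complex.exp_ne_zero _)]
    ring

/-- the monomials -/
lemma rep_mono {r : ℂ → ℝ} (hr : ∀ z ∈ U, (a z)⁻¹ = (r z : ℂ)) (j k : ℕ) :
    Rep U h a φ (fun n => (hD (h n) 1)^[j] ((hD (h n) I)^[k] (φ n)))
      (fun z θ => (((r z * Real.cos θ) ^ j * (r z * Real.sin θ) ^ k : ℝ) : ℂ)) := by
  have hx : ∀ θ : ℝ, (1 / 2 : ℂ) * Complex.exp (-(θ : ℂ) * I)
      + (1 / 2) * (Complex.exp (-(θ : ℂ) * I))⁻¹ = (Real.cos θ : ℂ) := by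
    intro θ
    rw [← Complex.exp_neg, neg_mul, neg_neg, Complex.ofReal_cos, Complex.cos, neg_mul]
    ring
  have hy : ∀ θ : ℝ, (I / 2 : ℂ) * Complex.exp (-(θ : ℂ) * I)
      + (-(I / 2)) * (Complex.exp (-(θ : ℂ) * I))⁻¹ = (Real.sin θ : ℂ) := by
    intro θ
    rw [← Complex.exp_neg, neg_mul, neg_neg, Complex.ofReal_sin, Complex.sin, neg_mul]
    ring
  induction j with
  | zero =>
    induction k with
    | zero =>
      have h0 := S.rep_zero
      simpa using h0
    | succ k ih =>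
      have h1 := S.rep_step ih (I / 2) (-(I / 2))
        (u' := fun n => (hD (h n) 1)^[0] ((hD (h n) I)^[k + 1] (φ n))) (fun n z hz => by
          simp only [Function.iterate_zero, id_eq]
          rw [Function.iterate_succ_apply', hD_I_eq]
          unfold QE.LL QE.LLb
          field_simp [S.a_ne hz]
          ring)
      refine ⟨h1.smooth, ?_⟩
      obtain ⟨ι, i1, b, d, hb, hN, hF⟩ := h1.rep
      refine ⟨ι, i1, b, d, hb, hN, fun z hz θ => ?_⟩
      rw [← hF z hz θ, hy, hr z hz]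
      push_cast
      ring
  | succ j ih =>
    have h1 := S.rep_step ih (1 / 2) (1 / 2)
      (u' := fun n => (hD (h n) 1)^[j + 1] ((hD (h n) I)^[k] (φ n))) (fun n z hz => by
        rw [Function.iterate_succ_apply', hD_one_eq]
        unfold QE.LL QE.LLb
        field_simp [S.a_ne hz])
    refine ⟨h1.smooth, ?_⟩
    obtain ⟨ι, i1, b, d, hb, hN, hF⟩ := h1.rep
    refine ⟨ι, i1, b, d, hb, hN, fun z hz θ => ?_⟩
    rw [← hF z hz θ, hx, hr z hz]
    push_cast
    ring

/-- the limits of the matrix elements -/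
lemma rep_lim (htwo : ∀ (j m : ℤ) (η : ℂ → ℂ), Test U η →
      Tendsto (fun n => ∫ z, η z * (E h a φ j n z * E h a φ m n z)) atTop
      (𝓝 (P j m * ∫ z, η z))) {u : ℕ → ℂ → ℂ} {F : ℂ → ℝ → ℂ} (hR : Rep U h a φ u F)
    {ζ : ℂ → ℂ} (hζ : Test U ζ) :
    Tendsto (fun n => ∫ z, ζ z * (u n z * φ n z)) atTop
      (𝓝 (∫ z, ζ z * ((1 / (2 * Real.pi) : ℂ) * ∫ θ in (0 : ℝ)..(2 * Real.pi), F z θ))) := by
  obtain ⟨hsm, ι, _, b, d, hb, ⟨w, hw, hw'⟩, hF⟩ := hR
  have hbζ : ∀ i, Test U (fun z => ζ z * b i z) := fun i => hζ.mul S.op (hb i)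
  have h1 : ∀ i, Tendsto (fun n => ∫ z, (ζ z * b i z) * (E h a φ (d i) n z * E h a φ 0 n z)) atTop
      (𝓝 (P (d i) 0 * ∫ z, ζ z * b i z)) := fun i => htwo (d i) 0 _ (hbζ i)
  have h2 := tendsto_finset_sum Finset.univ fun i _ => h1 i
  have h3 := tendsto_h_int S.hlim hw S.tame hζ
  have h4 := h2.add h3
  rw [add_zero] at h4
  have e1 : ∫ z, ζ z * ((1 / (2 * Real.pi) : ℂ) * ∫ θ in (0 : ℝ)..(2 * Real.pi), F z θ)
      = ∑ i, P (d i) 0 * ∫ z, ζ z * b i z := by
    have e2 : ∀ z ∈ U, (1 / (2 * Real.pi) : ℂ) * ∫ θ in (0 : ℝ)..(2 * Real.pi), F z θ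
        = ∑ i, P (d i) 0 * b i z := by
      intro z hz
      have e3 : ∀ k : ℤ, (1 / (2 * Real.pi) : ℂ)
          * ∫ θ in (0 : ℝ)..(2 * Real.pi), Complex.exp (-(θ : ℂ) * I) ^ k = P k 0 := by
        intro k
        unfold P
        rw [add_zero]
        by_cases hk : k = 0
        · subst hk
          simp only [zpow_zero, if_true]
          rw [intervalIntegral.integral_const]
          simp
          field_simp
        · rw [if_neg hk]
          have e4 : ∀ θ : ℝ, Complex.exp (-(θ : ℂ) * I) ^ k = Complex.exp ((-(k : ℂ) * I) * θ) := by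
            intro θ
            rw [← Complex.exp_int_mul]
            congr 1; ring
          simp only [e4]
          rw [integral_exp_mul_complex (by simp [Complex.ext_iff]; exact hk)]
          have h5 : Complex.exp (-(k : ℂ) * I * ((2 * Real.pi : ℝ) : ℂ)) = 1 := by
            rw [Complex.exp_eq_one_iff]
            exact ⟨-k, by push_cast; ring⟩
          rw [h5]
          simp
      have e5 : ∫ θ in (0 : ℝ)..(2 * Real.pi), F z θ
          = ∑ i, b i z * ∫ θ in (0 : ℝ)..(2 * Real.pi), Complex.exp (-(θ : ℂ) * I) ^ (d i) := by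
        simp only [hF z hz]
        rw [intervalIntegral.integral_finsetSum]
        · exact Finset.sum_congr rfl fun i _ => intervalIntegral.integral_const_mul _ _
        · intro i _
          apply Continuous.intervalIntegrable
          refine continuous_const.mul (Continuous.zpow₀ (by fun_prop) _ fun θ => Or.inl
            (Complex.exp_ne_zero _))
      rw [e5, Finset.mul_sum]
      refine Finset.sum_congr rfl fun i _ => ?_
      rw [← e3 (d i)]; ring
    have e6 := hζ.integral_congr e2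
    rw [e6]
    simp only [Finset.mul_sum]
    rw [integral_finset_sum]
    · refine Finset.sum_congr rfl fun i _ => ?_
      rw [← integral_const_mul]
      congr 1; funext z; ring
    · intro i _
      have hi : Integrable (fun z => ζ z * b i z) := hζ.integrable_mul S.op (hb i).continuousOn
      refine (hi.const_mul (P (d i) 0)).congr (Eventually.of_forall fun z => ?_)
      beta_reduce; ring
  rw [e1]
  refine h4.congr fun n => ?_
  have hi1 : ∀ i, Integrable (fun z => (ζ z * b i z) * (E h a φ (d i) n z * E h a φ 0 n z)) :=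
    fun i => (hbζ i).integrable_mul S.op (((S.tame_E (d i)).smooth n).continuousOn.mul
      ((S.tame_E 0).smooth n).continuousOn)
  have hi2 : Integrable (fun z => ζ z * (w n z * φ n z)) :=
    hζ.integrable_mul S.op ((hw.smooth n).continuousOn.mul (S.tame.smooth n).continuousOn)
  rw [hζ.integral_congr (f := fun z => u n z * φ n z) (f' := fun z =>
    (∑ i, b i z * E h a φ (d i) n z + (h n : ℂ) * w n z) * φ n z) (fun z hz => by
      rw [hw' n z hz])]
  rw [← integral_finset_sum _ fun i _ => hi1 i]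
  have e7 : (h n : ℂ) * ∫ z, ζ z * (w n z * φ n z) = ∫ z, (h n : ℂ) * (ζ z * (w n z * φ n z)) :=
    (integral_const_mul _ _).symm
  rw [e7, ← integral_add (integrable_finset_sum _ fun i _ => hi1 i) (hi2.const_mul _)]
  refine integral_congr_ae (Eventually.of_forall fun z => ?_)
  have e8 : E h a φ 0 n z = φ n z := rfl
  simp only [e8]
  rw [add_mul, Finset.sum_mul, mul_add, Finset.mul_sum]
  congr 1
  · exact Finset.sum_congr rfl fun i _ => by ring
  · ring

end Setup

end

end QE
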