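import Pool.Agent.LibH11.QEV.Bridge
import Pool.Agent.Lib_helper67.QE.VarJ
import Pool.Agent.Lib_helper67.QE.Local

/-!
Quantum ergodic sequences multiplied by constants: two-point and four-point functions.
-/

open Complex MeasureTheory Filter Topology Set
open scoped ContDiff

namespace QE

noncomputable section

variable {U : Set ℂ} {h : ℕ → ℝ} {a : ℂ → ℂ} {g : ℂ → ℂ} {φ : ℕ → ℂ → ℂ}

lemma dz_iter {f : ℂ → ℂ} (hU : IsOpen U) (hf : ContDiffOn ℝ ∞ f U) (c : ℂ) (k : ℕ) :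
    ContDiffOn ℝ ∞ (dz^[k] f) U ∧ ∀ z ∈ U, dz^[k] (fun w => c * f w) z = c * dz^[k] f z := by
  induction k with
  | zero => exact ⟨hf, fun z _ => rfl⟩
  | succ k ih =>
    rw [Function.iterate_succ']
    refine ⟨contDiffOn_dz hU ih.1, fun z hz => ?_⟩
    have h1 : DifferentiableAt ℝ (dz^[k] f) z :=
      ((ih.1.contDiffAt (hU.mem_nhds hz)).differentiableAt (by simp))
    simp only [Function.comp_apply]
    rw [dz_congr_on hU ih.2 hz, dz_const_mul c h1]

namespace Setup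

variable (S : Setup U g a h φ)

include S

/-- the two-point functions, with a constant -/
theorem two_c {c : ℂ} (h0 : ∀ ζ : ℂ → ℂ, Test U ζ →
      Tendsto (fun n => ∫ z, ζ z * (E h a φ 0 n z * E h a φ 0 n z)) atTop (𝓝 (c * ∫ z, ζ z)))
    (h1 : ∀ k : ℕ, 1 ≤ k → ∀ ζ : ℂ → ℂ, Test U ζ →
      Tendsto (fun n => ∫ z, ζ z * (E h a φ 0 n z * E h a φ k n z)) atTop (𝓝 0))
    (j m : ℤ) {ζ : ℂ → ℂ} (hζ : Test U ζ) :
    Tendsto (fun n => ∫ z, ζ z * (E h a φ j n z * E h a φ m n z)) atTop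
      (𝓝 (c * (P j m * ∫ z, ζ z))) := by
  -- the case `j = 0`
  have base : ∀ m : ℤ, Tendsto (fun n => ∫ z, ζ z * (E h a φ 0 n z * E h a φ m n z)) atTop
      (𝓝 (c * (P 0 m * ∫ z, ζ z))) := by
    intro m
    unfold P
    cases m with
    | ofNat m =>
      cases m with
      | zero =>
        have := h0 ζ hζ
        simpa using this
      | succ m =>
        have h2 := h1 (m + 1) (by omega) ζ hζ
        have h3 : ¬ ((0 : ℤ) + Int.ofNat (m + 1) = 0) := by
          rw [zero_add]; exact Int.ofNat_ne_zero.2 (Nat.succ_ne_zero m)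
        rw [if_neg h3, zero_mul, mul_zero]
        exact h2
    | negSucc m =>
      have h2 := h1 (m + 1) (by omega) _ hζ.conj
      have h3 : ¬ ((0 : ℤ) + Int.negSucc m = 0) := by
        rw [zero_add]; exact Int.negSucc_ne_zero m
      rw [if_neg h3, zero_mul, mul_zero]
      have h4 := ((continuous_conj.tendsto 0).comp h2).const_mul ((-1 : ℂ) ^ (m + 1))
      rw [map_zero, mul_zero] at h4
      refine h4.congr fun n => ?_
      simp only [Function.comp_apply]
      rw [← integral_conj, ← integral_const_mul]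
      have e2 := hζ.integral_congr (f := fun z => (-1 : ℂ) ^ (m + 1) * (E h a φ 0 n z
        * (starRingEnd ℂ) (jet h a φ (m + 1) n z)))
        (f' := fun z => E h a φ 0 n z * E h a φ (Int.negSucc m) n z) (fun z _ => by
          show _ = E h a φ 0 n z * ((-1) ^ (m + 1) * (starRingEnd ℂ) (jet h a φ (m + 1) n z))
          ring)
      rw [← e2]
      have e3 := hζ.integral_congr (f := fun z => (-1 : ℂ) ^ (m + 1) * (E h a φ 0 n z
        * (starRingEnd ℂ) (jet h a φ (m + 1) n z)))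
        (f' := fun z => (-1 : ℂ) ^ (m + 1) * ((starRingEnd ℂ) (E h a φ 0 n z)
        * (starRingEnd ℂ) (E h a φ ((m + 1 : ℕ) : ℤ) n z))) (fun z hz => by
          have : (starRingEnd ℂ) (E h a φ 0 n z) = E h a φ 0 n z := S.real n z hz
          rw [this]
          rfl)
      rw [e3]
      refine MeasureTheory.integral_congr_ae (Filter.Eventually.of_forall fun z => ?_)
      beta_reduce
      simp only [map_mul, starRingEnd_self_apply]
      ring
  have hstep : ∀ j m : ℤ, (0 : ℂ) - c * (P j (m + 1) * ∫ z, ζ z) = c * (P (j + 1) m * ∫ z, ζ z) := by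
    intro j m
    unfold P
    have h1 : (j + (m + 1) = 0) ↔ ((j + 1) + m = 0) := by constructor <;> intro h <;> linarith
    by_cases h2 : (j + 1) + m = 0
    · rw [if_pos (h1.2 h2), if_pos h2, zpow_add_one₀ (by norm_num)]; ring
    · rw [if_neg (fun h3 => h2 (h1.1 h3)), if_neg h2]; ring
  -- induction on `j`
  have up : ∀ j : ℤ, (∀ m : ℤ, Tendsto (fun n => ∫ z, ζ z * (E h a φ j n z * E h a φ m n z)) atTop
      (𝓝 (c * (P j m * ∫ z, ζ z)))) →
      ∀ m : ℤ, Tendsto (fun n => ∫ z, ζ z * (E h a φ (j + 1) n z * E h a φ m n z)) atTop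
      (𝓝 (c * (P (j + 1) m * ∫ z, ζ z))) := by
    intro j hj m
    have h2 := (S.int_add j m hζ).sub (hj (m + 1))
    rw [hstep] at h2
    refine h2.congr fun n => ?_
    ring
  have down : ∀ j : ℤ, (∀ m : ℤ, Tendsto (fun n => ∫ z, ζ z * (E h a φ j n z * E h a φ m n z)) atTop
      (𝓝 (c * (P j m * ∫ z, ζ z)))) →
      ∀ m : ℤ, Tendsto (fun n => ∫ z, ζ z * (E h a φ (j - 1) n z * E h a φ m n z)) atTop
      (𝓝 (c * (P (j - 1) m * ∫ z, ζ z))) := by
    intro j hj m
    have h2 := (S.int_add (j - 1) (m - 1) hζ).sub (hj (m - 1))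
    rw [sub_add_cancel, sub_add_cancel] at h2
    have e := hstep (j - 1) (m - 1)
    rw [sub_add_cancel, sub_add_cancel] at e
    have e2 : (0 : ℂ) - c * (P j (m - 1) * ∫ z, ζ z) = c * (P (j - 1) m * ∫ z, ζ z) := by
      rw [← e]; ring
    rw [e2] at h2
    refine h2.congr fun n => ?_
    ring
  induction j using Int.induction_on generalizing m with
  | zero => exact base m
  | succ j ih => exact up _ ih m
  | pred j ih => exact down _ ih m

/-- the weak limits of the products of two jets -/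
theorem jetLim_c {c : ℂ} (h2 : ∀ (j m : ℤ) (η : ℂ → ℂ), Test U η →
      Tendsto (fun n => ∫ z, η z * (E h a φ j n z * E h a φ m n z)) atTop
      (𝓝 (c * (P j m * ∫ z, η z)))) :
    JetLim U h a φ (fun k _ => if k = 0 then c else 0) := by
  have hloc : ∀ d : ℂ, LocL2 U (fun _ => d) := fun d =>
    LocL2.of_smooth (contDiffOn_const)
  refine ⟨fun k => hloc _, fun j m => ?_⟩
  refine TLim.wlim S.op (S.sm2 j m) (S.bd2 j m) ⟨?_, fun ζ hζ => ?_⟩
  · exact hloc _
  · refine (h2 j m ζ hζ).congr' (Eventually.of_forall fun n => rfl) |>.trans (le_of_eq ?_)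
    congr 1
    rw [integral_mul_const]
    unfold P
    by_cases h3 : j + m = 0
    · simp only [h3, if_true]; ring
    · simp only [h3, if_false]; ring

/-- **The local four-point formula, with a constant.** -/
theorem four_local_c {c : ℂ} (htwo : ∀ (j m : ℤ) (η : ℂ → ℂ), Test U η →
      Tendsto (fun n => ∫ z, η z * (E h a φ j n z * E h a φ m n z)) atTop
      (𝓝 (c * (P j m * ∫ z, η z)))) {K : Set ℂ} (hK : IsCompact K) {δ : ℝ} (hδ : 0 < δ)
    (hδU : Metric.cthickening (2 * δ) K ⊆ U) {q : ℤ} (hq : q ≠ 0) (y : Fin 4 → ℂ)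
    (ξ : Fin 4 → ℕ → ℝ → ℂ → ℂ) (hξ : ∀ i, Disp h a K q (y i) (ξ i)) {ζ : ℂ → ℂ}
    (hζ : Test U ζ) (hζK : tsupport ζ ⊆ K) :
    Tendsto (fun n => (∫ θ, (∫ z, ζ z * ∏ i, φ n (z + h n * a z * ξ i n θ z)) ∂ang)
      - ((c ^ 2 * ∫ z, ζ z) * (wick y : ℂ)
        + ((∫ z, ζ z * (φ n z * φ n z * (φ n z * φ n z))) - 3 * (c ^ 2 * ∫ z, ζ z)) * (defc y : ℂ)))
      atTop (𝓝 0) := by
  set A : ℂ := c ^ 2 * ∫ z, ζ z with hA
  obtain ⟨C₁, hC₁⟩ := (S.bd2 0 0).test_mul (S.sm2 0 0) (S.bd2 0 0) (S.sm2 0 0) hζ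
  have hκ : ∀ᶠ n in atTop, ‖(∫ z, ζ z * (φ n z * φ n z * (φ n z * φ n z))) - 3 * A‖
      ≤ C₁ + ‖(3 : ℂ) * A‖ := by
    filter_upwards [hC₁] with n hn
    exact (norm_sub_le _ _).trans (add_le_add hn le_rfl)
  have L := S.jetLim_c htwo
  have hGam : ∀ j m k l : ℤ, Gam (fun k _ => if k = 0 then c else 0) ζ j m k l
      = A * G j m k l := by
    intro j m k l
    have hW : ∀ (j m : ℤ) (z : ℂ), WW (fun k _ => if k = 0 then c else 0) j m z = c * P j m := by
      intro j m z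
      unfold WW P
      by_cases h3 : j + m = 0
      · simp only [h3, if_true]; ring
      · simp only [h3, if_false]; ring
    unfold Gam GW
    simp only [hW]
    rw [integral_mul_const, hA]
    unfold G
    ring
  refine lim_combine
    (X := fun n => ∫ θ, (∫ z, ζ z * ∏ i, φ n (z + h n * a z * ξ i n θ z)) ∂ang)
    (T := TN h a φ y ζ) (α := fun _ => A)
    (β := fun n => (∫ z, ζ z * (φ n z * φ n z * (φ n z * φ n z))) - 3 * A)
    (C := max ‖A‖ (C₁ + ‖(3 : ℂ) * A‖))
    (fun ε hε => S.bridge hK hδ hδU hq y ξ hξ hζ hζK hε) ?_ (model_wick y) (model_defc y)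
    (Eventually.of_forall fun n => le_max_left _ _)
    (hκ.mono fun n hn => hn.trans (le_max_right _ _))
  intro N
  have h1 : ∀ p : Fin 4 → ℤ, Tendsto (fun n => (if ∑ i, p i = 0 then 1 else 0)
      * (∫ z, ζ z * (E h a φ (p 0) n z * E h a φ (p 1) n z
        * (E h a φ (p 2) n z * E h a φ (p 3) n z)))
      - (A * ((if ∑ i, p i = 0 then 1 else 0) * G (p 0) (p 1) (p 2) (p 3))
        + ((∫ z, ζ z * (φ n z * φ n z * (φ n z * φ n z))) - 3 * A)
          * ((if ∑ i, p i = 0 then 1 else 0) * pat (p 0) (p 1) (p 2) (p 3)))) atTop (𝓝 0) := by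
    intro p
    by_cases hp : ∑ i, p i = 0
    · simp only [if_pos hp, one_mul]
      rw [Fin.sum_univ_four] at hp
      refine (jets_four_var S L hζ (p 0) (p 1) (p 2) (p 3) hp).congr fun n => ?_
      unfold YY
      rw [hGam, hGam]
      have e : G 0 0 0 0 = 3 := by unfold G P; norm_num
      have e2 : ∫ z, ζ z * (E h a φ 0 n z * E h a φ 0 n z * (E h a φ 0 n z * E h a φ 0 n z))
          = ∫ z, ζ z * (φ n z * φ n z * (φ n z * φ n z)) := rfl
      rw [e, e2]
      ring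
    · simp only [if_neg hp, zero_mul, mul_zero, add_zero, sub_zero]
      exact tendsto_const_nhds
  have h2 := tendsto_finset_sum (Fintype.piFinset (fun _ : Fin 4 => Finset.Icc (-(N : ℤ)) N))
    fun p _ => (h1 p).const_mul (∏ i, CN N (p i) (y i))
  simp only [mul_zero, Finset.sum_const_zero] at h2
  refine h2.congr fun n => ?_
  unfold TN
  rw [Finset.mul_sum, Finset.mul_sum, ← Finset.sum_add_distrib, ← Finset.sum_sub_distrib]
  exact Finset.sum_congr rfl fun p _ => by ring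

end Setup

/-- a quantum ergodic sequence multiplied by constants -/
theorem setup_scale {g₀ : ℂ → ℝ} (hU : IsOpen U) (hg : ContDiffOn ℝ ∞ g₀ U)
    (hgpos : ∀ z ∈ U, 0 < g₀ z) (H : LocalQE U g₀ h φ) (s : ℕ → ℝ)
    (hb : LBdd 4 U (fun n z => (s n : ℂ) * φ n z)) :
    Setup U (fun z => (g₀ z : ℂ)) (wt g₀) h (fun n z => (s n : ℂ) * φ n z) := by
  have hgC : ContDiffOn ℝ ∞ (fun z => (g₀ z : ℂ)) U := ofRealCLM.contDiff.comp_contDiffOn hg
  have hsm : SmoothSeq U (fun n z => (s n : ℂ) * φ n z) := fun n =>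
    contDiffOn_const.mul (H.smooth n)
  have heig : ∀ n, ∀ z ∈ U, 4 * (h n : ℂ) ^ 2 * dz (dzb (fun w => (s n : ℂ) * φ n w)) z
      = - ((g₀ z : ℝ) : ℂ) * ((s n : ℂ) * φ n z) := by
    intro n z hz
    have d1 : ∀ w ∈ U, DifferentiableAt ℝ (φ n) w := fun w hw =>
      ((H.smooth n).contDiffAt (hU.mem_nhds hw)).differentiableAt (by simp)
    have d2 : DifferentiableAt ℝ (dzb (φ n)) z :=
      ((contDiffOn_dzb hU (H.smooth n)).contDiffAt (hU.mem_nhds hz)).differentiableAt (by simp)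
    have e1 : dz (dzb (fun w => (s n : ℂ) * φ n w)) z = (s n : ℂ) * dz (dzb (φ n)) z := by
      rw [dz_congr_on hU (g := fun w => (s n : ℂ) * dzb (φ n) w)
        (fun w hw => dzb_const_mul _ (d1 w hw)) hz, dz_const_mul _ d2]
    rw [e1]
    have := H.eig n z hz
    linear_combination (s n : ℂ) * this
  refine ⟨hU, H.hpos, H.hlim, ?_, hgC, fun z _ => conj_ofReal _, ?_, ?_, ?_, heig⟩
  · have h1 : ContDiffOn ℝ ∞ (fun z => (Real.sqrt (g₀ z))⁻¹) U :=
      (hg.sqrt fun z hz => (hgpos z hz).ne').inv fun z hz => (Real.sqrt_pos.2 (hgpos z hz)).ne'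
    exact ofRealCLM.contDiff.comp_contDiffOn h1
  · intro z hz
    have h0 := hgpos z hz
    have h1 : (Real.sqrt (g₀ z)) ^ 2 = g₀ z := Real.sq_sqrt h0.le
    have h2 : (Real.sqrt (g₀ z))⁻¹ ^ 2 * g₀ z = 1 := by
      rw [inv_pow, h1, inv_mul_cancel₀ h0.ne']
    unfold wt
    exact_mod_cast h2
  · refine tame_of_eigen hU H.hlim (ellProp hU H.hpos H.hlim) hsm hb
      (b := fun z => -(1 / 4) * (g₀ z : ℂ)) (contDiffOn_const.mul hgC) fun n z hz => ?_
    have := heig n z hz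
    unfold hLap
    linear_combination (1 / 4) * this
  · intro n z hz
    rw [map_mul, conj_ofReal, H.real n z hz]

/-- its two-point functions -/
theorem two_scale {g₀ : ℂ → ℝ} (hU : IsOpen U) (hg : ContDiffOn ℝ ∞ g₀ U)
    (hgpos : ∀ z ∈ U, 0 < g₀ z) (H : LocalQE U g₀ h φ) {s : ℕ → ℝ}
    (hb : LBdd 4 U (fun n z => (s n : ℂ) * φ n z)) {c : ℝ}
    (hc : Tendsto (fun n => s n ^ 2) atTop (𝓝 c)) (j m : ℤ) (η : ℂ → ℂ) (hη : Test U η) :
    Tendsto (fun n => ∫ z, η z * (E h (wt g₀) (fun n z => (s n : ℂ) * φ n z) j n z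
      * E h (wt g₀) (fun n z => (s n : ℂ) * φ n z) m n z)) atTop
      (𝓝 ((c : ℂ) * (P j m * ∫ z, η z))) := by
  have S := setup_scale hU hg hgpos H s hb
  have hcc : Tendsto (fun n => ((s n ^ 2 : ℝ) : ℂ)) atTop (𝓝 (c : ℂ)) :=
    (continuous_ofReal.tendsto c).comp hc
  refine S.two_c (fun ζ hζ => ?_) (fun k hk ζ hζ => ?_) j m hη
  · refine (hcc.mul (H.mass ζ hζ)).congr fun n => ?_
    rw [← integral_const_mul]
    refine integral_congr_ae (Eventually.of_forall fun z => ?_)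
    show ((s n ^ 2 : ℝ) : ℂ) * (ζ z * (φ n z * φ n z))
      = ζ z * (((s n : ℂ) * φ n z) * ((s n : ℂ) * φ n z))
    push_cast; ring
  · refine S.mom_jet (fun ζ hζ => ?_) hζ
    have h1 := hcc.mul (H.mom k hk ζ hζ)
    rw [mul_zero] at h1
    refine h1.congr fun n => ?_
    rw [← integral_const_mul]
    have e := hζ.integral_congr (f := fun z => ((s n : ℂ) * φ n z) * ((h n : ℂ) ^ k
      * dz^[k] (fun w => (s n : ℂ) * φ n w) z))
      (f' := fun z => ((s n : ℂ) * φ n z) * ((h n : ℂ) ^ k * ((s n : ℂ) * dz^[k] (φ n) z)))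
      (fun z hz => by rw [(dz_iter hU (H.smooth n) (s n : ℂ) k).2 z hz])
    rw [e]
    refine integral_congr_ae (Eventually.of_forall fun z => ?_)
    beta_reduce
    push_cast; ring

end

end QE
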