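import Pool.Agent.LibH11.QEV.Fin
import Pool.Agent.LibH11.QEV.Scale

/-!
The four-point formula for all quantum ergodic sequences on closed surfaces, without any bound for the
fourth moments.
-/

open MeasureTheory Filter Topology Set MatrixGroups UpperHalfPlane
open scoped ContDiff

namespace QE

noncomputable section

variable {Γ : Subgroup SL(2, ℝ)} {ρ : ℍ → ℝ} {D : Set ℍ}

/-- the two point functions of the jets, with a constant -/
def TwoPtC (ρ : ℍ → ℝ) (φ : ℕ → ℍ → ℝ) (h : ℕ → ℝ) (c : ℝ) : Prop :=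
  ∀ (j k : ℤ) (η : ℂ → ℂ), Test HH η →
    Tendsto (fun n => ∫ z, η z * (E h (wt (gw ρ)) (fun n z => (φ n (ofComplex z) : ℂ)) j n z
      * E h (wt (gw ρ)) (fun n z => (φ n (ofComplex z) : ℂ)) k n z)) atTop
      (𝓝 ((c : ℂ) * (P j k * ∫ z, η z)))

/-- the setting for quantum ergodic sequences multiplied by constants -/
theorem ws_scale [Countable Γ] (hDm : MeasurableSet D)
    (hD : IsFundamentalDomain Γ D (volume : Measure ℍ))
    (hK : ∃ K : Set ℍ, IsCompact K ∧ ∀ z, ∃ γ ∈ Γ, γ • z ∈ K)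
    (hρ : ContDiffOn ℝ ∞ (fun w : ℂ => ρ (ofComplex w)) {w | 0 < w.im})
    (hρΓ : ∀ γ ∈ Γ, ∀ z, ρ (γ • z) = ρ z)
    {φ : ℕ → ℍ → ℝ} {m : ℕ → ℝ} (hφ : Berry.REigenSeq Γ ρ φ m)
    (hs : ∀ n, ContDiffOn ℝ ∞ (fun w : ℂ => φ n (ofComplex w)) {w | 0 < w.im})
    (hq : QuantumErgodic ρ φ m) {s : ℕ → ℝ} {C : ℝ}
    (hb : ∀ᶠ n in atTop, Berry.rAvg ρ D (fun z => (s n * φ n z) ^ 4) ≤ C) {c : ℝ}
    (hc : Tendsto (fun n => s n ^ 2) atTop (𝓝 c)) :
    ∃ N, WS Γ ρ D (fun n z => s (n + N) * φ (n + N) z) (fun n => m (n + N))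
        (fun n => 1 / m (n + N)) (fun z => ((gw ρ z : ℝ) : ℂ)) ∧
      TwoPtC ρ (fun n z => s (n + N) * φ (n + N) z) (fun n => 1 / m (n + N)) c := by
  obtain ⟨N, H⟩ := localQE_of_surface hρ hφ hs hq
  have hρc := continuous_of_smooth hρ
  have hgeo : Berry.Geo Γ ρ D := ⟨hD, hDm, Berry.finite_of_cocompact hD hK, hρΓ,
    Berry.bdd_of_cocompact hρc hρΓ hK, Berry.unif_of_cocompact hρc hρΓ hK⟩
  have hpc : ∀ n, Continuous fun z => s (n + N) * φ (n + N) z := fun n =>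
    continuous_const.mul (continuous_of_smooth (hs _))
  have hpi : ∀ n, ∀ γ ∈ Γ, ∀ z, s (n + N) * φ (n + N) (γ • z) = s (n + N) * φ (n + N) z :=
    fun n γ hγ z => by rw [hφ.invariant _ γ hγ z]
  have hfun : (fun (n : ℕ) (z : ℂ) => (((s (n + N) * φ (n + N) (ofComplex z) : ℝ)) : ℂ))
      = fun n z => (s (n + N) : ℂ) * (φ (n + N) (ofComplex z) : ℂ) := by
    funext n z
    rw [Complex.ofReal_mul]
  have hL : LBdd 4 HH (fun n z => (s (n + N) : ℂ) * (φ (n + N) (ofComplex z) : ℂ)) := by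
    rw [← hfun]
    intro K' hK' hK'U
    obtain ⟨c, hc0, hc⟩ := loc_le hgeo hρc hK hK' hK'U
    refine ⟨c * C, ?_⟩
    filter_upwards [(tendsto_add_atTop_nat N).eventually hb] with n hn
    have h4 : ∀ z : ℂ, ‖((s (n + N) * φ (n + N) (ofComplex z) : ℝ) : ℂ)‖ ^ 4
        = (s (n + N) * φ (n + N) (ofComplex z)) ^ 4 := fun z => by
      rw [Complex.norm_real, Real.norm_eq_abs]
      exact Even.pow_abs ⟨2, rfl⟩ _
    simp only [h4]
    exact (hc (fun z => (s (n + N) * φ (n + N) z) ^ 4) ((hpc _).pow 4) (fun z => by positivity)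
      (fun γ hγ z => by rw [hpi n γ hγ z])).trans (by gcongr)
  have hgp : ∀ z ∈ HH, 0 < gw ρ z := fun z hz => by
    have : 0 < z.im := hz
    unfold gw
    positivity
  have S := setup_scale isOpen_HH (smooth_weight hρ) hgp H (fun n => s (n + N)) hL
  have hpos : ∀ n, 0 < m (n + N) := fun n => one_div_pos.1 (H.hpos n)
  refine ⟨N, ⟨hgeo, hK, hρc, hpc, hpi, hpos,
    hφ.tendsto.comp (tendsto_add_atTop_nat N), fun n => rfl, ?_⟩, fun j k η hη => ?_⟩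
  · simp only [hfun]
    exact S
  · simp only [hfun]
    exact two_scale isOpen_HH (smooth_weight hρ) hgp H hL
      (hc.comp (tendsto_add_atTop_nat N)) j k η hη

lemma WS.locLim_four_c {φ : ℕ → ℍ → ℝ} {m h : ℕ → ℝ} {g' : ℂ → ℂ} (W : WS Γ ρ D φ m h g') {c : ℝ}
    (htwo : TwoPtC ρ φ h c) (x : Fin 4 → ℂ) :
    LocLim ρ h φ x (c ^ 2 * wick x - 3 * c ^ 2 * defc x) (defc x) := by
  intro K δ hK hδ hδU ξ hξ ψ hψ hψs hψK
  have hKU : K ⊆ HH := (Metric.self_subset_cthickening K).trans hδU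
  obtain ⟨hT, hsub⟩ := test_real hψ hψs hψK hKU
  refine (W.set.four_local_c htwo hK hδ hδU (q := 2) (by norm_num) x ξ hξ hT hsub).congr
    fun n => ?_
  have e2 : ∀ z : ℂ, (φ n (ofComplex z) : ℂ) ^ 4 = (φ n (ofComplex z) : ℂ) * φ n (ofComplex z)
      * ((φ n (ofComplex z) : ℂ) * φ n (ofComplex z)) := fun z => by ring
  simp only [e2]
  push_cast
  ring

/-- the correlations of a quantum ergodic sequence multiplied by constants -/
theorem corr_scale [Countable Γ] (hDm : MeasurableSet D)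
    (hD : IsFundamentalDomain Γ D (volume : Measure ℍ))
    (hK : ∃ K : Set ℍ, IsCompact K ∧ ∀ z, ∃ γ ∈ Γ, γ • z ∈ K)
    (hρ : ContDiffOn ℝ ∞ (fun w : ℂ => ρ (ofComplex w)) {w | 0 < w.im})
    (hρΓ : ∀ γ ∈ Γ, ∀ z, ρ (γ • z) = ρ z)
    {φ : ℕ → ℍ → ℝ} {m : ℕ → ℝ} (hφ : Berry.REigenSeq Γ ρ φ m)
    (hs : ∀ n, ContDiffOn ℝ ∞ (fun w : ℂ => φ n (ofComplex w)) {w | 0 < w.im})
    (hq : QuantumErgodic ρ φ m) {s : ℕ → ℝ} {C : ℝ}
    (hb : ∀ᶠ n in atTop, Berry.rAvg ρ D (fun z => (s n * φ n z) ^ 4) ≤ C) {c : ℝ}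
    (hc : Tendsto (fun n => s n ^ 2) atTop (𝓝 c)) (x : Fin 4 → ℂ) :
    Tendsto (fun n =>
      s n ^ 4 * (∫ p, ∏ i, Berry.rWave ρ (φ n) (m n) (x i) p ∂(Berry.rFrameProb ρ D))
        - (c ^ 2 * wick x + (s n ^ 4 * Berry.rAvg ρ D (fun z => φ n z ^ 4) - 3 * c ^ 2) * defc x))
        atTop (𝓝 0) := by
  obtain ⟨N, W, htwo⟩ := ws_scale hDm hD hK hρ hρΓ hφ hs hq hb hc
  have h1 := W.wrap x (prod_le_four le_rfl) (W.locLim_four_c htwo x)
  rw [← tendsto_add_atTop_iff_nat N]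
  refine h1.congr fun n => ?_
  have e1 : ∫ p, ∏ i, Berry.rWave ρ (fun z => s (n + N) * φ (n + N) z) (m (n + N)) (x i) p
      ∂(Berry.rFrameProb ρ D) = s (n + N) ^ 4 * ∫ p, ∏ i, Berry.rWave ρ (φ (n + N)) (m (n + N))
      (x i) p ∂(Berry.rFrameProb ρ D) := by
    rw [← integral_const_mul]
    congr 1; funext p
    simp only [Fin.prod_univ_four]
    unfold Berry.rWave
    ring
  have e2 : Berry.rAvg ρ D (fun z => (s (n + N) * φ (n + N) z) ^ 4)
      = s (n + N) ^ 4 * Berry.rAvg ρ D (fun z => φ (n + N) z ^ 4) := by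
    unfold Berry.rAvg
    rw [← integral_const_mul]
    congr 1; funext z
    ring
  rw [e1, e2]
  ring

/-- **The four-point formula for quantum ergodic sequences on closed surfaces.** -/
theorem four_surface [Countable Γ] (hDm : MeasurableSet D)
    (hD : IsFundamentalDomain Γ D (volume : Measure ℍ))
    (hK : ∃ K : Set ℍ, IsCompact K ∧ ∀ z, ∃ γ ∈ Γ, γ • z ∈ K)
    (hρ : ContDiffOn ℝ ∞ (fun w : ℂ => ρ (ofComplex w)) {w | 0 < w.im})
    (hρΓ : ∀ γ ∈ Γ, ∀ z, ρ (γ • z) = ρ z)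
    {φ : ℕ → ℍ → ℝ} {m : ℕ → ℝ} (hφ : Berry.REigenSeq Γ ρ φ m)
    (hs : ∀ n, ContDiffOn ℝ ∞ (fun w : ℂ => φ n (ofComplex w)) {w | 0 < w.im})
    (hq : QuantumErgodic ρ φ m) (x : Fin 4 → ℂ) :
    Tendsto (fun n =>
      ((∫ p, ∏ i, Berry.rWave ρ (φ n) (m n) (x i) p ∂(Berry.rFrameProb ρ D))
        - (wick x + (Berry.rAvg ρ D (fun z => φ n z ^ 4) - 3) * defc x))
        / Berry.rAvg ρ D (fun z => φ n z ^ 4)) atTop (𝓝 0) := by
  refine tendsto_of_subseq_tendsto fun ns hns => ?_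
  -- the normalising constants
  set κ : ℕ → ℝ := fun n => Berry.rAvg ρ D (fun z => φ (ns n) z ^ 4) with hκ
  set s : ℕ → ℝ := fun n => (Real.sqrt (Real.sqrt (κ n)))⁻¹ with hsdef
  have hκ2 : ∀ᶠ n in atTop, 2 ≤ κ n := by
    have := hns.eventually (lower_surface hDm hD hK hρ hρΓ hφ hs hq one_pos)
    filter_upwards [this] with n hn
    rw [hκ]
    linarith
  have hs4 : ∀ n, 2 ≤ κ n → s n ^ 4 = (κ n)⁻¹ := by
    intro n hn
    rw [hsdef]
    simp only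
    rw [inv_pow]
    congr 1
    have h1 : Real.sqrt (Real.sqrt (κ n)) ^ 4 = (Real.sqrt (Real.sqrt (κ n)) ^ 2) ^ 2 := by ring
    rw [h1, Real.sq_sqrt (Real.sqrt_nonneg _), Real.sq_sqrt (by linarith)]
  have hs01 : ∀ᶠ n in atTop, s n ^ 2 ∈ Icc (0 : ℝ) 1 := by
    filter_upwards [hκ2] with n hn
    have h4 := hs4 n hn
    have h5 : (s n ^ 2) ^ 2 ≤ 1 := by
      calc (s n ^ 2) ^ 2 = s n ^ 4 := by ring
        _ = (κ n)⁻¹ := h4
        _ ≤ 1 := inv_le_one_of_one_le₀ (by linarith)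
    refine ⟨by positivity, ?_⟩
    by_contra hcon
    push Not at hcon
    nlinarith
  obtain ⟨c, -, ms, hms, hc⟩ := isCompact_Icc.tendsto_subseq' hs01.frequently
  refine ⟨ms, ?_⟩
  have hσ : Tendsto (fun n => ns (ms n)) atTop atTop := hns.comp hms.tendsto_atTop
  have hκ2' : ∀ᶠ n in atTop, 2 ≤ κ (ms n) := hms.tendsto_atTop.eventually hκ2
  have hφ' : Berry.REigenSeq Γ ρ (fun n => φ (ns (ms n))) (fun n => m (ns (ms n))) :=
    ⟨fun n => hφ.invariant _, fun n => hφ.smooth _, fun n => hφ.eigen _, hφ.tendsto.comp hσ⟩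
  have hq' : QuantumErgodic ρ (fun n => φ (ns (ms n))) (fun n => m (ns (ms n))) :=
    fun j k ζ h1 h2 h3 => (hq j k ζ h1 h2 h3).comp hσ
  have hb : ∀ᶠ n in atTop, Berry.rAvg ρ D (fun z => (s (ms n) * φ (ns (ms n)) z) ^ 4) ≤ 1 := by
    filter_upwards [hκ2'] with n hn
    have e2 : Berry.rAvg ρ D (fun z => (s (ms n) * φ (ns (ms n)) z) ^ 4)
        = s (ms n) ^ 4 * κ (ms n) := by
      rw [hκ]
      unfold Berry.rAvg
      rw [← integral_const_mul]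
      congr 1; funext z
      ring
    rw [e2, hs4 _ hn, inv_mul_cancel₀ (by linarith)]
  have key := corr_scale hDm hD hK hρ hρΓ hφ' (fun n => hs _) hq' (s := fun n => s (ms n)) hb hc x
  have k2 : Tendsto (fun n => (c ^ 2 - (s (ms n) ^ 2) ^ 2) * (wick x - 3 * defc x)) atTop (𝓝 0) := by
    have h1 : Tendsto (fun n => c ^ 2 - (s (ms n) ^ 2) ^ 2) atTop (𝓝 (c ^ 2 - c ^ 2)) :=
      (hc.pow 2).const_sub (c ^ 2)
    rw [sub_self] at h1
    have := h1.mul_const (wick x - 3 * defc x)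
    rwa [zero_mul] at this
  have k3 := key.add k2
  rw [add_zero] at k3
  refine k3.congr' ?_
  filter_upwards [hκ2'] with n hn
  have h4 := hs4 _ hn
  have hne : κ (ms n) ≠ 0 := by
    intro h0; rw [h0] at hn; linarith
  have e3 : (s (ms n) ^ 2) ^ 2 = (κ (ms n))⁻¹ := by rw [← h4]; ring
  rw [e3, h4]
  change (κ (ms n))⁻¹ * _ - (c ^ 2 * wick x + ((κ (ms n))⁻¹ * κ (ms n) - 3 * c ^ 2) * defc x)
    + (c ^ 2 - (κ (ms n))⁻¹) * (wick x - 3 * defc x) = (_ - (wick x + (κ (ms n) - 3) * defc x)) / κ (ms n)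
  field_simp
  ring

end

end QE
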