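import Pool.Agent.LibH11.QEV.Mode
import Pool.Agent.LibH11.QEV.Sym
import Pool.Agent.LibH11.QEV.Unb

/-!
The setting for arbitrary sequences of eigenfunctions with bounded fourth moments.
-/

open MeasureTheory Filter Topology Set MatrixGroups UpperHalfPlane
open scoped ContDiff

namespace QE

noncomputable section

/-- sequences bounded in `L⁴` -/
theorem setup_of_eig {U : Set ℂ} {h : ℕ → ℝ} {φ : ℕ → ℂ → ℂ} {g₀ : ℂ → ℝ} (hU : IsOpen U)
    (hg : ContDiffOn ℝ ∞ g₀ U) (hgpos : ∀ z ∈ U, 0 < g₀ z) (hpos : ∀ n, 0 < h n)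
    (hlim : Tendsto h atTop (𝓝 0)) (hsm : SmoothSeq U φ)
    (hreal : ∀ n, ∀ z ∈ U, (starRingEnd ℂ) (φ n z) = φ n z)
    (heig : ∀ n, ∀ z ∈ U, 4 * (h n : ℂ) ^ 2 * dz (dzb (φ n)) z = - ((g₀ z : ℝ) : ℂ) * φ n z)
    (hb : LBdd 4 U φ) : Setup U (fun z => (g₀ z : ℂ)) (wt g₀) h φ := by
  have hgC : ContDiffOn ℝ ∞ (fun z => (g₀ z : ℂ)) U := Complex.ofRealCLM.contDiff.comp_contDiffOn hg
  refine ⟨hU, hpos, hlim, ?_, hgC, fun z _ => Complex.conj_ofReal _, ?_, ?_, hreal, heig⟩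
  · have h1 : ContDiffOn ℝ ∞ (fun z => (Real.sqrt (g₀ z))⁻¹) U :=
      (hg.sqrt fun z hz => (hgpos z hz).ne').inv fun z hz => (Real.sqrt_pos.2 (hgpos z hz)).ne'
    exact Complex.ofRealCLM.contDiff.comp_contDiffOn h1
  · intro z hz
    have h0 := hgpos z hz
    have h1 : (Real.sqrt (g₀ z)) ^ 2 = g₀ z := Real.sq_sqrt h0.le
    have h2 : (Real.sqrt (g₀ z))⁻¹ ^ 2 * g₀ z = 1 := by
      rw [inv_pow, h1, inv_mul_cancel₀ h0.ne']
    unfold wt
    exact_mod_cast h2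
  · refine tame_of_eigen hU hlim (ellProp hU hpos hlim) hsm hb
      (b := fun z => -(1 / 4) * (g₀ z : ℂ)) (contDiffOn_const.mul hgC) fun n z hz => ?_
    have := heig n z hz
    unfold hLap
    linear_combination (1 / 4) * this

variable {Γ : Subgroup SL(2, ℝ)} {ρ : ℍ → ℝ} {D : Set ℍ}

/-- the equation in the chart -/
lemma eig_chart {φ : ℕ → ℍ → ℝ} {m : ℕ → ℝ} (hφ : Berry.REigenSeq Γ ρ φ m) {n : ℕ}
    (hm : 0 < m n) : ∀ z ∈ HH, 4 * ((1 / m n : ℝ) : ℂ) ^ 2 *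
      dz (dzb (fun w : ℂ => (φ n (ofComplex w) : ℂ))) z
      = - ((gw ρ z : ℝ) : ℂ) * (φ n (ofComplex z) : ℂ) := by
  intro z hz
  have hz' : 0 < z.im := hz
  have hm0 : m n ≠ 0 := hm.ne'
  have hcd : ContDiffAt ℝ 2 (fun w : ℂ => φ n (ofComplex w)) z :=
    (hφ.smooth _).contDiffAt (isOpen_HH.mem_nhds hz)
  have h4 := four_dz_dzb hcd
  have he := hφ.eigen n ⟨z, hz'⟩
  have hoc : ofComplex z = ⟨z, hz'⟩ := ofComplex_apply_of_im_pos hz'
  have hre : (z.im : ℝ) ^ 2 * (Laplacian.laplacian (fun w : ℂ => φ n (ofComplex w)) z)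
      = - (m n ^ 2 * Real.exp (2 * ρ (ofComplex z)) * φ n (ofComplex z)) := by
    rw [hoc]; exact he
  have hrc : ((z.im : ℝ) : ℂ) ^ 2 * ((Laplacian.laplacian (fun w : ℂ =>
      φ n (ofComplex w)) z : ℝ) : ℂ) = - ((m n : ℂ) ^ 2 *
        (Real.exp (2 * ρ (ofComplex z)) : ℂ) * (φ n (ofComplex z) : ℂ)) := by
    exact_mod_cast congrArg (fun x : ℝ => (x : ℂ)) hre
  rw [← h4] at hrc
  have him : ((z.im : ℝ) : ℂ) ≠ 0 := by exact_mod_cast hz'.ne'
  have hmc : (m n : ℂ) ≠ 0 := by exact_mod_cast hm0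
  unfold gw
  push_cast
  push_cast at hrc
  field_simp
  linear_combination hrc

/-- the setting for sequences of eigenfunctions with bounded fourth moments -/
theorem ws_gen [Countable Γ] (hDm : MeasurableSet D)
    (hD : IsFundamentalDomain Γ D (volume : Measure ℍ))
    (hK : ∃ K : Set ℍ, IsCompact K ∧ ∀ z, ∃ γ ∈ Γ, γ • z ∈ K)
    (hρ : ContDiffOn ℝ ∞ (fun w : ℂ => ρ (ofComplex w)) {w | 0 < w.im})
    (hρΓ : ∀ γ ∈ Γ, ∀ z, ρ (γ • z) = ρ z)
    {φ : ℕ → ℍ → ℝ} {m : ℕ → ℝ} (hφ : Berry.REigenSeq Γ ρ φ m)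
    (hs : ∀ n, ContDiffOn ℝ ∞ (fun w : ℂ => φ n (ofComplex w)) {w | 0 < w.im}) {C : ℝ}
    (hb : ∀ᶠ n in atTop, Berry.rAvg ρ D (fun z => φ n z ^ 4) ≤ C) :
    ∃ N, WS Γ ρ D (fun n => φ (n + N)) (fun n => m (n + N)) (fun n => 1 / m (n + N))
        (fun z => ((gw ρ z : ℝ) : ℂ)) := by
  obtain ⟨N, hN⟩ := (hφ.tendsto.eventually_ge_atTop 1).exists_forall_of_atTop
  have hm1 : ∀ n, 1 ≤ m (n + N) := fun n => hN _ (Nat.le_add_left _ _)
  have hpos : ∀ n, 0 < m (n + N) := fun n => lt_of_lt_of_le one_pos (hm1 n)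
  have hshift : Tendsto (fun n : ℕ => n + N) atTop atTop := tendsto_add_atTop_nat N
  have hρc := continuous_of_smooth hρ
  have hgeo : Berry.Geo Γ ρ D := ⟨hD, hDm, Berry.finite_of_cocompact hD hK, hρΓ,
    Berry.bdd_of_cocompact hρc hρΓ hK, Berry.unif_of_cocompact hρc hρΓ hK⟩
  have hpc : ∀ n, Continuous (φ n) := fun n => continuous_of_smooth (hs n)
  have hL : LBdd 4 HH (fun n z => (φ (n + N) (ofComplex z) : ℂ)) := by
    intro K' hK' hK'U
    obtain ⟨c, hc0, hc⟩ := loc_le hgeo hρc hK hK' hK'U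
    refine ⟨c * C, ?_⟩
    filter_upwards [hshift.eventually hb] with n hn
    have h4 : ∀ z : ℂ, ‖(φ (n + N) (ofComplex z) : ℂ)‖ ^ 4 = φ (n + N) (ofComplex z) ^ 4 :=
      fun z => by
        rw [Complex.norm_real, Real.norm_eq_abs]
        exact Even.pow_abs ⟨2, rfl⟩ _
    simp only [h4]
    exact (hc (fun z => φ (n + N) z ^ 4) ((hpc _).pow 4) (fun z => by positivity)
      (fun γ hγ z => by rw [hφ.invariant _ γ hγ z])).trans (by gcongr)
  have hgp : ∀ z ∈ HH, 0 < gw ρ z := fun z hz => by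
    have : 0 < z.im := hz
    unfold gw
    positivity
  have hh : Tendsto (fun n => 1 / m (n + N)) atTop (𝓝 0) := by
    have h1 : Tendsto (fun n => m (n + N)) atTop atTop := hφ.tendsto.comp hshift
    simpa [one_div, Function.comp_def] using tendsto_inv_atTop_zero.comp h1
  have S := setup_of_eig isOpen_HH (smooth_weight hρ) hgp (h := fun n => 1 / m (n + N))
    (φ := fun n z => (φ (n + N) (ofComplex z) : ℂ))
    (fun n => one_div_pos.2 (hpos n)) hh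
    (fun n => Complex.ofRealCLM.contDiff.comp_contDiffOn (hs _))
    (fun n z _ => Complex.conj_ofReal _) (fun n z hz => eig_chart hφ (hpos n) z hz) hL
  exact ⟨N, ⟨hgeo, hK, hρc, fun n => hpc _, fun n => hφ.invariant _, hpos,
    hφ.tendsto.comp hshift, fun n => rfl, S⟩⟩

end

end QE
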