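import Pool.Agent.LibH11.QEV.Frame2

/-!
From local limits to limits of averages over closed surfaces.
-/

open MeasureTheory Filter Topology Set MatrixGroups UpperHalfPlane
open scoped ContDiff

namespace QE

noncomputable section

variable {Γ : Subgroup SL(2, ℝ)} {ρ : ℍ → ℝ} {D : Set ℍ}

open Surf in
/-- one test function on the upper half plane, positive on a given compact set, computes the
integrals over `D` of all invariant functions -/
lemma exists_test' [Countable Γ] (hD : IsFundamentalDomain Γ D (volume : Measure ℍ))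
    (hDm : MeasurableSet D) (hK : ∃ K : Set ℍ, IsCompact K ∧ ∀ z, ∃ γ ∈ Γ, γ • z ∈ K)
    (hρ : Continuous ρ) (hρΓ : ∀ γ ∈ Γ, ∀ z, ρ (γ • z) = ρ z) {K' : Set ℂ} (hK' : IsCompact K')
    (hK'U : K' ⊆ HH) :
    ∃ ζ : ℂ → ℝ, Continuous ζ ∧ HasCompactSupport ζ ∧ tsupport ζ ⊆ {w | 0 < w.im} ∧
      (∀ w, 0 ≤ ζ w) ∧ (∃ c₀ > 0, ∀ w ∈ K', c₀ ≤ ζ w) ∧
      ∀ f : ℍ → ℝ, Continuous f → (∀ z, 0 ≤ f z) →
        (∀ γ ∈ Γ, ∀ z, f (γ • z) = f z) →
        ∫ w, ζ w * f (ofComplex w) = ∫ z in D, f z ∂(Berry.area ρ) := by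
  obtain ⟨K₀, hK₀c, hcov₀⟩ := hK
  have hK'c : IsCompact (UpperHalfPlane.coe ⁻¹' K') := by
    rw [isOpenEmbedding_coe.isInducing.isCompact_preimage_iff]
    · exact hK'
    · rw [range_coe]; exact hK'U
  set K : Set ℍ := K₀ ∪ UpperHalfPlane.coe ⁻¹' K' with hKdef
  have hKc : IsCompact K := hK₀c.union hK'c
  have hcov : ∀ z, ∃ γ ∈ Γ, γ • z ∈ K := fun z => by
    obtain ⟨γ, hγ, hz⟩ := hcov₀ z
    exact ⟨γ, hγ, Or.inl hz⟩
  obtain ⟨c, hc, hcs, hcU, hc0, hc1⟩ := exists_cut hKc
  set χ : ℍ → ℝ := fun z => c z with hχdef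
  have hχc : Continuous χ := hc.comp continuous_coe
  have hχ0 : ∀ z, 0 ≤ χ z := fun z => hc0 _
  -- the support of `χ` is bounded
  have hcomp : IsCompact (UpperHalfPlane.coe ⁻¹' tsupport c) := by
    rw [isOpenEmbedding_coe.isInducing.isCompact_preimage_iff]
    · exact hcs
    · rw [range_coe]; exact hcU
  obtain ⟨R, hR⟩ := hcomp.isBounded.subset_closedBall I
  have hχ : ∀ z, χ z ≠ 0 → dist z I ≤ R := fun z hz =>
    hR (show (z : ℂ) ∈ tsupport c from subset_tsupport c hz)
  have hpos : ∀ z, 0 < NN Γ χ z := by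
    intro z
    obtain ⟨γ, hγ, hz⟩ := hcov z
    have h1 : χ ((⟨γ, hγ⟩ : Γ) • z) ≤ NN Γ χ z :=
      (NN_summable hD hχ z).le_tsum _ fun δ _ => hχ0 _
    have h2 : χ ((⟨γ, hγ⟩ : Γ) • z) = 1 := hc1 _ hz
    linarith
  have hN := NN_continuous hD hχ hχc
  set G : ℍ → ℝ := fun z => 1 / z.im ^ 2 * (Real.exp (2 * ρ z) / NN Γ χ z) with hG
  have hGc : Continuous G := by
    refine (continuous_const.div (continuous_im.pow 2) fun z => (pow_pos z.im_pos 2).ne').mul ?_
    exact (Real.continuous_exp.comp (continuous_const.mul hρ)).div hN fun z => (hpos z).ne'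
  have hGpos : ∀ z, 0 < G z := by
    intro z
    have h1 := z.im_pos
    have h2 := hpos z
    simp only [hG]
    positivity
  have hG0 : ∀ z, 0 ≤ G z := fun z => (hGpos z).le
  have hlow : ∃ c₀ > 0, ∀ w ∈ K', c₀ ≤ c w * G (ofComplex w) := by
    have h1 : ∃ c₀ > 0, ∀ z ∈ UpperHalfPlane.coe ⁻¹' K', c₀ ≤ G z := by
      rcases (UpperHalfPlane.coe ⁻¹' K').eq_empty_or_nonempty with he | hne
      · exact ⟨1, one_pos, fun z hz => by rw [he] at hz; exact absurd hz (notMem_empty z)⟩
      · obtain ⟨z₁, hz₁, hmin⟩ := hK'c.exists_isMinOn hne hGc.continuousOn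
        exact ⟨G z₁, hGpos z₁, fun z hz => hmin hz⟩
    obtain ⟨c₀, hc₀, h1⟩ := h1
    refine ⟨c₀, hc₀, fun w hw => ?_⟩
    have hwU := hK'U hw
    have e2 : ((ofComplex w : ℍ) : ℂ) = w := by rw [ofComplex_apply_of_im_pos hwU]
    have hz : (ofComplex w : ℍ) ∈ UpperHalfPlane.coe ⁻¹' K' := by
      show ((ofComplex w : ℍ) : ℂ) ∈ K'
      rw [e2]; exact hw
    have h2 := hc1 _ (Or.inr hz : (ofComplex w : ℍ) ∈ K)
    rw [e2] at h2
    rw [h2, one_mul]
    exact h1 _ hz
  refine ⟨fun w => c w * G (ofComplex w), continuous_cut_mul hc hcU hGc, hcs.mul_right,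
    (closure_mono (Function.support_mul_subset_left _ _)).trans hcU,
    fun w => mul_nonneg (hc0 w) (hG0 _), hlow, ?_⟩
  intro f hf hf0 hinv
  have hU : IsOpen {w : ℂ | 0 < w.im} := isOpen_lt continuous_const Complex.continuous_im
  -- left side
  have hcont : Continuous fun w => c w * G (ofComplex w) * f (ofComplex w) := by
    have := continuous_cut_mul hc hcU (hGc.mul hf)
    refine this.congr fun w => ?_
    simp only [Pi.mul_apply]; ring
  rw [integral_eq_lintegral_of_nonneg_ae
    (Eventually.of_forall fun w => mul_nonneg (mul_nonneg (hc0 w) (hG0 _)) (hf0 _))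
    hcont.aestronglyMeasurable,
    integral_eq_lintegral_of_nonneg_ae (Eventually.of_forall fun z => hf0 z)
      hf.aestronglyMeasurable]
  congr 1
  have hexp : Measurable fun z => ENNReal.ofReal (Real.exp (2 * ρ z)) :=
    ENNReal.measurable_ofReal.comp
      (Real.continuous_exp.comp (continuous_const.mul hρ)).measurable
  have hfm : Measurable fun z => ENNReal.ofReal (f z) := ENNReal.measurable_ofReal.comp hf.measurable
  unfold Berry.area
  rw [setLIntegral_withDensity_eq_setLIntegral_mul _ hexp hfm hDm]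
  have e1 : ∫⁻ z in D, ((fun z => ENNReal.ofReal (Real.exp (2 * ρ z))) *
      fun z => ENNReal.ofReal (f z)) z = ∫⁻ z in D, ENNReal.ofReal (Real.exp (2 * ρ z) * f z) := by
    refine lintegral_congr fun z => ?_
    rw [Pi.mul_apply, ENNReal.ofReal_mul (Real.exp_pos _).le]
  have hfe : Continuous fun z => Real.exp (2 * ρ z) * f z :=
    (Real.continuous_exp.comp (continuous_const.mul hρ)).mul hf
  rw [e1, Surf.unfold hD hχ hχc hχ0 hpos hfe
    (fun γ hγ z => by simp only [hρΓ γ hγ, hinv γ hγ]), lintegral_uhp]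
  · rw [← lintegral_indicator hU.measurableSet]
    refine lintegral_congr fun w => ?_
    by_cases hw : 0 < w.im
    · rw [indicator_of_mem (show w ∈ {w : ℂ | 0 < w.im} from hw),
        ← ENNReal.ofReal_mul (by positivity)]
      congr 1
      have e2 : ((ofComplex w : ℍ) : ℂ) = w := by rw [ofComplex_apply_of_im_pos hw]
      have e3 : (ofComplex w : ℍ).im = w.im := by rw [ofComplex_apply_of_im_pos hw]; rfl
      simp only [hG, hχdef, e2, e3]
      ring
    · rw [indicator_of_notMem (show w ∉ {w : ℂ | 0 < w.im} from hw)]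
      have : c w = 0 := by
        by_contra h
        exact hw (hcU (subset_tsupport c h))
      rw [this, zero_mul, zero_mul, ENNReal.ofReal_zero]
  · refine ENNReal.measurable_ofReal.comp (Continuous.measurable ?_)
    exact (hχc.div hN fun z => (hpos z).ne').mul hfe

/-- the averages of the invariant functions are their integrals against a test function -/
lemma rAvg_eq [Countable Γ] (hg : Berry.Geo Γ ρ D)
    (hK : ∃ K : Set ℍ, IsCompact K ∧ ∀ z, ∃ γ ∈ Γ, γ • z ∈ K) {ζ : ℂ → ℝ}
    (hζc : Continuous ζ) (hζs : HasCompactSupport ζ) (hζU : tsupport ζ ⊆ HH)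
    (h5 : ∀ f : ℍ → ℝ, Continuous f → (∀ z, 0 ≤ f z) →
        (∀ γ ∈ Γ, ∀ z, f (γ • z) = f z) →
        ∫ w, ζ w * f (ofComplex w) = ∫ z in D, f z ∂(Berry.area ρ))
    {f : ℍ → ℝ} (hf : Continuous f) (hinv : ∀ γ ∈ Γ, ∀ z, f (γ • z) = f z) :
    Berry.rAvg ρ D f = ((Berry.area ρ D).toReal)⁻¹ * ∫ w, ζ w * f (ofComplex w) := by
  obtain ⟨C, hC⟩ := Berry.bdd_of_cocompact hf hinv hK
  have hA : ∫ w, ζ w = (Berry.area ρ D).toReal := by
    have := h5 (fun _ => 1) continuous_const (fun _ => zero_le_one) (fun _ _ _ => rfl)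
    simpa [Measure.real] using this
  have h1 := h5 (fun z => f z + C) (hf.add continuous_const)
    (fun z => by have := (abs_le.1 (hC z)).1; linarith) (fun γ hγ z => by
      beta_reduce; rw [hinv γ hγ z])
  have i1 : Integrable (fun w => ζ w * f (ofComplex w)) :=
    (Surf.continuous_cut_mul hζc hζU hf).integrable_of_hasCompactSupport hζs.mul_right
  have i2 : Integrable ζ := hζc.integrable_of_hasCompactSupport hζs
  have e1 : ∫ w, ζ w * (f (ofComplex w) + C) = (∫ w, ζ w * f (ofComplex w)) + C * ∫ w, ζ w := by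
    rw [← integral_const_mul, ← integral_add i1 (i2.const_mul C)]
    congr 1; funext w; ring
  have hfin : IsFiniteMeasure ((Berry.area ρ).restrict D) :=
    ⟨by rw [Measure.restrict_apply_univ]; exact (Berry.area_ne_top hg).lt_top⟩
  have i3 : Integrable f ((Berry.area ρ).restrict D) :=
    Integrable.of_bound hf.aestronglyMeasurable C (Eventually.of_forall fun z => by
      rw [Real.norm_eq_abs]; exact hC z)
  have e2 : ∫ z in D, (f z + C) ∂(Berry.area ρ) = (∫ z in D, f z ∂(Berry.area ρ))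
      + C * (Berry.area ρ D).toReal := by
    rw [integral_add i3 (integrable_const C), integral_const, smul_eq_mul,
      measureReal_restrict_apply_univ]
    unfold Measure.real
    ring
  rw [e1, e2, hA] at h1
  have h2 : ∫ w, ζ w * f (ofComplex w) = ∫ z in D, f z ∂(Berry.area ρ) := by linarith
  rw [h2]
  unfold Berry.rAvg ProbabilityTheory.cond
  rw [integral_smul_measure, smul_eq_mul, ENNReal.toReal_inv]

/-- **From local limits to limits of averages.** -/
theorem global_lim [Countable Γ] (hg : Berry.Geo Γ ρ D) (hρ : Continuous ρ)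
    (hK : ∃ K : Set ℍ, IsCompact K ∧ ∀ z, ∃ γ ∈ Γ, γ • z ∈ K) {F : ℕ → ℍ → ℝ}
    (hF : ∀ᶠ n in atTop, Continuous (F n)) (hinv : ∀ n, ∀ γ ∈ Γ, ∀ z, F n (γ • z) = F n z)
    (hbd : ∀ K : Set ℂ, IsCompact K → K ⊆ HH → ∃ C : ℝ, ∀ᶠ n in atTop,
      ∫ z in K, |F n (ofComplex z)| ≤ C)
    (hloc : ∀ ψ : ℂ → ℝ, ContDiff ℝ ∞ ψ → HasCompactSupport ψ → tsupport ψ ⊆ HH →
      Tendsto (fun n => ∫ z, ψ z * F n (ofComplex z)) atTop (𝓝 0)) :
    Tendsto (fun n => Berry.rAvg ρ D (F n)) atTop (𝓝 0) := by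
  obtain ⟨ζ, hζc, hζs, hζU, hζ0, -, h5⟩ := exists_test' (K' := ∅) hg.dom hg.meas hK hρ hg.inv
    isCompact_empty (empty_subset _)
  have hKc : IsCompact (tsupport ζ) := hζs
  obtain ⟨C, hC⟩ := hbd _ hKc hζU
  set A := (Berry.area ρ D).toReal with hA
  have hA0 : 0 < A := ENNReal.toReal_pos (Berry.area_ne_zero hg) (Berry.area_ne_top hg)
  have hlim : Tendsto (fun n => ∫ w, ζ w * F n (ofComplex w)) atTop (𝓝 0) := by
    rw [Metric.tendsto_nhds]
    intro ε hε
    set δ : ℝ := ε / (12 * (|C| + 1)) with hδ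
    have hδ0 : 0 < δ := by positivity
    obtain ⟨ψ, hψ, hψ1, hψ2⟩ := exists_smooth_between hζc hδ0
    have hψ0 : ∀ z, 0 ≤ ψ z := fun z => (le_max_right _ _).trans (hψ1 z)
    have hsupp : Function.support ψ ⊆ Function.support ζ := by
      intro z hz hz0
      apply hz
      have h1 := hψ2 z
      rw [hz0, max_eq_right (by linarith)] at h1
      exact le_antisymm h1 (hψ0 z)
    have hts : tsupport ψ ⊆ tsupport ζ := closure_mono hsupp
    have hψs : HasCompactSupport ψ := hKc.of_isClosed_subset (isClosed_tsupport _) hts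
    have hclose : ∀ z, |ζ z - ψ z| ≤ 3 * δ := by
      intro z
      have h1 := hψ1 z
      have h2 := hψ2 z
      have h3 := hζ0 z
      have h4 := le_max_left (ζ z - 3 * δ) 0
      have h5 : max (ζ z - δ) 0 ≤ ζ z := max_le (by linarith) h3
      rw [abs_le]
      constructor <;> linarith
    have hl := hloc ψ hψ hψs (hts.trans hζU)
    filter_upwards [hC, hF, (Metric.tendsto_nhds.1 hl) (ε / 2) (by positivity)] with n h1 h2 h3
    rw [dist_zero_right, Real.norm_eq_abs] at h3 ⊢
    have iζ : Integrable (fun w => ζ w * F n (ofComplex w)) :=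
      (Surf.continuous_cut_mul hζc hζU h2).integrable_of_hasCompactSupport hζs.mul_right
    have iψ : Integrable (fun w => ψ w * F n (ofComplex w)) :=
      (Surf.continuous_cut_mul hψ.continuous (hts.trans hζU) h2).integrable_of_hasCompactSupport
        hψs.mul_right
    have hFc : ContinuousOn (fun z : ℂ => F n (ofComplex z)) HH := by
      intro z hz
      exact (h2.continuousAt.comp (contMDiffAt_ofComplex (n := 0) hz).continuousAt).continuousWithinAt
    have hdiff : |(∫ w, ζ w * F n (ofComplex w)) - ∫ w, ψ w * F n (ofComplex w)| ≤ 3 * δ * |C| := by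
      rw [← integral_sub iζ iψ]
      have e1 : ∫ w, (ζ w * F n (ofComplex w) - ψ w * F n (ofComplex w))
          = ∫ w in tsupport ζ, (ζ w - ψ w) * F n (ofComplex w) := by
        rw [setIntegral_eq_integral_of_forall_compl_eq_zero]
        · congr 1; funext w; ring
        · intro z hz
          rw [image_eq_zero_of_notMem_tsupport hz,
            image_eq_zero_of_notMem_tsupport (fun hz' => hz (hts hz')), sub_zero, zero_mul]
      rw [e1, ← Real.norm_eq_abs]
      calc ‖∫ w in tsupport ζ, (ζ w - ψ w) * F n (ofComplex w)‖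
          ≤ ∫ w in tsupport ζ, 3 * δ * |F n (ofComplex w)| := by
            refine norm_integral_le_of_norm_le ?_ (Eventually.of_forall fun w => ?_)
            · exact ((hFc.mono hζU).abs.integrableOn_compact hKc).const_mul _
            · rw [norm_mul, Real.norm_eq_abs, Real.norm_eq_abs]
              exact mul_le_mul_of_nonneg_right (hclose w) (abs_nonneg _)
        _ ≤ 3 * δ * |C| := by
            rw [integral_const_mul]
            have := h1.trans (le_abs_self C)
            gcongr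
    have h6 : 3 * δ * |C| ≤ ε / 4 := by
      have h7 : 0 ≤ |C| := abs_nonneg C
      calc 3 * δ * |C| ≤ 3 * δ * (|C| + 1) := by gcongr; linarith
        _ = ε / 4 := by rw [hδ]; field_simp; norm_num
    have h8 := abs_sub_abs_le_abs_sub (∫ w, ζ w * F n (ofComplex w)) (∫ w, ψ w * F n (ofComplex w))
    linarith
  have h9 := hlim.const_mul A⁻¹
  rw [mul_zero] at h9
  refine h9.congr' ?_
  filter_upwards [hF] with n hn
  exact (rAvg_eq hg hK hζc hζs hζU h5 hn (hinv n)).symm

end

end QE
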