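import Pool.Agent.LibH11.QEV.Global

/-!
The local waves on closed surfaces: continuity, invariance, and the relation with displacements.
-/

open MeasureTheory Filter Topology Set MatrixGroups UpperHalfPlane
open scoped ContDiff

namespace QE

noncomputable section

variable {Γ : Subgroup SL(2, ℝ)} {ρ : ℍ → ℝ} {D : Set ℍ}

/-- local integrals are controlled by averages -/
theorem loc_le [Countable Γ] (hg : Berry.Geo Γ ρ D) (hρ : Continuous ρ)
    (hK : ∃ K : Set ℍ, IsCompact K ∧ ∀ z, ∃ γ ∈ Γ, γ • z ∈ K) {K' : Set ℂ} (hK' : IsCompact K')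
    (hK'U : K' ⊆ HH) : ∃ C : ℝ, 0 ≤ C ∧ ∀ f : ℍ → ℝ, Continuous f → (∀ z, 0 ≤ f z) →
      (∀ γ ∈ Γ, ∀ z, f (γ • z) = f z) →
      ∫ z in K', f (ofComplex z) ≤ C * Berry.rAvg ρ D f := by
  obtain ⟨ζ, hζc, hζs, hζU, hζ0, ⟨c₀, hc₀, hlow⟩, h5⟩ := exists_test' hg.dom hg.meas hK hρ hg.inv
    hK' hK'U
  set A := (Berry.area ρ D).toReal with hA
  have hA0 : 0 < A := ENNReal.toReal_pos (Berry.area_ne_zero hg) (Berry.area_ne_top hg)
  refine ⟨c₀⁻¹ * A, by positivity, fun f hf hf0 hinv => ?_⟩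
  have e := rAvg_eq hg hK hζc hζs hζU h5 hf hinv
  have iζ : Integrable (fun w => ζ w * f (ofComplex w)) :=
    (Surf.continuous_cut_mul hζc hζU hf).integrable_of_hasCompactSupport hζs.mul_right
  have h1 : ∫ z in K', f (ofComplex z) ≤ ∫ z in K', c₀⁻¹ * (ζ z * f (ofComplex z)) := by
    refine integral_mono_of_nonneg (Eventually.of_forall fun z => hf0 _)
      (iζ.integrableOn.const_mul _) ?_
    refine (ae_restrict_iff' hK'.measurableSet).2 (Eventually.of_forall fun z hz => ?_)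
    have h2 := hlow z hz
    have h3 := hf0 (ofComplex z)
    calc f (ofComplex z) = c₀⁻¹ * (c₀ * f (ofComplex z)) := by field_simp
      _ ≤ c₀⁻¹ * (ζ z * f (ofComplex z)) := by gcongr
  refine h1.trans ?_
  rw [integral_const_mul, e]
  have h4 : ∫ z in K', ζ z * f (ofComplex z) ≤ ∫ z, ζ z * f (ofComplex z) :=
    setIntegral_le_integral iζ (Eventually.of_forall fun z => mul_nonneg (hζ0 z) (hf0 _))
  calc c₀⁻¹ * ∫ z in K', ζ z * f (ofComplex z) ≤ c₀⁻¹ * ∫ z, ζ z * f (ofComplex z) := by gcongr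
    _ = c₀⁻¹ * A * (A⁻¹ * ∫ w, ζ w * f (ofComplex w)) := by field_simp

/-- the periodicity of the integral over the angle -/
lemma ang_shift {f : ℝ → ℝ} (hf : Function.Periodic f (2 * Real.pi)) (α : ℝ) :
    ∫ t, f (α + t) ∂ang = ∫ t, f t ∂ang := by
  rw [ang_int, ang_int]
  congr 1
  rw [intervalIntegral.integral_comp_add_left f α]
  have h4 := hf.intervalIntegral_add_eq (α + 0) 0
  rw [zero_add] at h4
  rw [← h4]
  congr 1; ring

/-- the average over the angle of a product of values of the local wave -/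
def angProd (ρ : ℍ → ℝ) (φ : ℍ → ℝ) (m : ℝ) {k : ℕ} (x : Fin k → ℂ) (z : ℍ) : ℝ :=
  ∫ θ, ∏ i, Berry.rWave ρ φ m (x i) (z, θ) ∂ang

lemma angProd_inv {φ : ℍ → ℝ} (hφ : ∀ γ ∈ Γ, ∀ z, φ (γ • z) = φ z)
    (hρ : ∀ γ ∈ Γ, ∀ z, ρ (γ • z) = ρ z) (m : ℝ) {k : ℕ} (x : Fin k → ℂ) :
    ∀ γ ∈ Γ, ∀ z, angProd ρ φ m x (γ • z) = angProd ρ φ m x z := by
  intro γ hγ z
  unfold angProd
  obtain ⟨α, hα⟩ := Berry.mul_frame γ z
  have hper : Function.Periodic (fun θ => ∏ i, Berry.rWave ρ φ m (x i) (γ • z, θ))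
      (2 * Real.pi) := by
    intro θ
    unfold Berry.rWave
    simp only [Berry.frame_periodic]
  rw [← ang_shift hper α]
  congr 1; funext θ
  refine Finset.prod_congr rfl fun i _ => ?_
  unfold Berry.rWave
  simp only
  rw [← hα θ, mul_smul, hφ γ hγ, hρ γ hγ]

/-- the local wave is continuous as soon as the points stay in the upper half plane -/
lemma rWave_continuous {φ : ℍ → ℝ} (hφ : Continuous φ) (hρ : Continuous ρ) {m : ℝ} {x : ℂ}
    (hx : ∀ z : ℍ, ‖x / ((m * Real.exp (ρ z) : ℝ) : ℂ)‖ < 1) (hm : m ≠ 0) :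
    Continuous (Berry.rWave ρ φ m x) := by
  unfold Berry.rWave
  have h1 : Continuous fun p : ℍ × ℝ =>
      (ofComplex (Complex.I + x / ((m * Real.exp (ρ p.1) : ℝ) : ℂ)) : ℍ) := by
    rw [continuous_iff_continuousAt]
    intro p
    have hi : 0 < (Complex.I + x / ((m * Real.exp (ρ p.1) : ℝ) : ℂ)).im := Berry.im_pos_of_norm (hx p.1)
    have h2 : ContinuousAt (ofComplex : ℂ → ℍ) (Complex.I + x / ((m * Real.exp (ρ p.1) : ℝ) : ℂ)) :=
      (contMDiffAt_ofComplex (n := 0) hi).continuousAt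
    refine ContinuousAt.comp (g := (ofComplex : ℂ → ℍ))
      (f := fun p : ℍ × ℝ => Complex.I + x / ((m * Real.exp (ρ p.1) : ℝ) : ℂ)) h2 ?_
    refine continuousAt_const.add (continuousAt_const.div ?_ ?_)
    · exact (Complex.continuous_ofReal.comp (continuous_const.mul
        (Real.continuous_exp.comp (hρ.comp continuous_fst)))).continuousAt
    · have := Real.exp_ne_zero (ρ p.1)
      exact_mod_cast mul_ne_zero hm this
  exact hφ.comp (Berry.frame_continuous.smul h1)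

lemma angProd_continuous {φ : ℍ → ℝ} (hφ : Continuous φ) (hρ : Continuous ρ) {m : ℝ} {k : ℕ}
    {x : Fin k → ℂ} (hx : ∀ i, ∀ z : ℍ, ‖x i / ((m * Real.exp (ρ z) : ℝ) : ℂ)‖ < 1) (hm : m ≠ 0) :
    Continuous (angProd ρ φ m x) := by
  unfold angProd
  simp only [ang_int, smul_eq_mul]
  refine continuous_const.mul ?_
  refine intervalIntegral.continuous_parametric_intervalIntegral_of_continuous' ?_ _ _
  exact continuous_finset_prod _ fun i _ => rWave_continuous hφ hρ (hx i) hm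

/-- the points of the local coordinates as displacements -/
lemma rWave_eq_disp {φ : ℍ → ℝ} {m : ℝ} (hm : 0 < m) (x : ℂ) (θ : ℝ) {z : ℂ} (hz : 0 < z.im)
    (hx : ‖x / ((m * Real.exp (ρ (ofComplex z)) : ℝ) : ℂ)‖ < 1) {n : ℕ} {h : ℕ → ℝ}
    (hh : h n = 1 / m) {a : ℂ → ℂ} (ha : a z = (z.im : ℂ) * (Real.exp (-ρ (ofComplex z)) : ℂ)) :
    Berry.rWave ρ φ m x (ofComplex z, θ) = φ (ofComplex (z + h n * a z
      * frXi h (fun w => Real.exp (-ρ (ofComplex w))) x n θ z)) := by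
  unfold Berry.rWave
  simp only
  set t : ℂ := x / ((m * Real.exp (ρ (ofComplex z)) : ℝ) : ℂ) with ht
  have e1 := frame_coe (ofComplex z) θ hx
  have e2 : ((ofComplex z : ℍ) : ℂ) = z := by rw [ofComplex_apply_of_im_pos hz]
  have e3 : (ofComplex z : ℍ).im = z.im := by rw [ofComplex_apply_of_im_pos hz]; rfl
  have e4 : ((Berry.frame (ofComplex z, θ) • (ofComplex (Complex.I + t) : ℍ) : ℍ) : ℂ)
      = z + h n * a z * frXi h (fun w => Real.exp (-ρ (ofComplex w))) x n θ z := by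
    rw [e1, e2, e3, ha]
    unfold frXi
    rw [hh, ht]
    set E : ℂ := ((Real.exp (ρ (ofComplex z)) : ℝ) : ℂ) with hE
    have hE0 : E ≠ 0 := by rw [hE]; exact_mod_cast Real.exp_ne_zero _
    have hEi : ((Real.exp (-ρ (ofComplex z)) : ℝ) : ℂ) = E⁻¹ := by
      rw [Real.exp_neg, Complex.ofReal_inv]
    have hm0 : (m : ℂ) ≠ 0 := by exact_mod_cast hm.ne'
    have e5 : (((1 / m : ℝ)) : ℂ) * x * uu θ * (Real.sin θ : ℂ) * ((Real.exp (-ρ (ofComplex z)) : ℝ) : ℂ)
        = x / ((m * Real.exp (ρ (ofComplex z)) : ℝ) : ℂ) * uu θ * (Real.sin θ : ℂ) := by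
      rw [hEi]
      push_cast
      rw [← Complex.ofReal_exp, ← hE]
      field_simp
    rw [e5, hEi]
    push_cast
    rw [← Complex.ofReal_exp, ← hE]
    field_simp
  rw [← e4, ofComplex_apply]

end

end QE
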