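import Pool.Agent.LibH11.QEV.EllQ
import Pool.Agent.Lib_helper67.QE.Jets

/-!
Geometric growth of the jets of an eigenfunction in `L⁴`.
-/

open Complex MeasureTheory Filter Topology
open scoped ContDiff

namespace QE

noncomputable section

variable {U : Set ℂ} {h : ℕ → ℝ} {a g : ℂ → ℂ} {φ : ℕ → ℂ → ℂ}

theorem Near.fn_mul (hU : IsOpen U) (hh0 : Tendsto h atTop (𝓝 0)) {b : ℂ → ℂ}
    (hb : ContDiffOn ℝ ∞ b U) {u v : ℕ → ℂ → ℂ} (h1 : Near U h u v) :
    Near U h (fun n z => b z * u n z) (fun n z => b z * v n z) := by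
  obtain ⟨w, hw, hw'⟩ := h1
  refine ⟨_, hw.fn_mul hU hh0 hb, fun n z hz => ?_⟩
  beta_reduce
  rw [hw' n z hz]; ring

namespace Setup

variable (S : Setup U g a h φ)

include S

theorem a_ne {z : ℂ} (hz : z ∈ U) : a z ≠ 0 := by
  intro h0
  have := S.ag z hz
  rw [h0] at this
  simp at this

theorem LL_LLb_E (m : ℤ) : Near U h (QE.LL h a (QE.LLb h a (E h a φ m))) (E h a φ m) := by
  have h1 := (S.LLb_E m).LL S.op S.hlim S.ha (S.tame_E (m - 1)).smooth
  have h2 := S.LL_E (m - 1)
  rw [sub_add_cancel] at h2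
  exact h1.trans S.op h2

/-- `h² ∂ ∂̄ E_m = - (g / 4) E_m + h (tame)` -/
theorem hLap_E (m : ℤ) : Near U h (hLap h (E h a φ m)) (fun n z => (-(g z / 4)) * E h a φ m n z) := by
  have hda : ∀ z ∈ U, DifferentiableAt ℝ a z := fun z hz =>
    (S.ha.contDiffAt (S.op.mem_nhds hz)).differentiableAt (by simp)
  have haz := contDiffOn_dz S.op S.ha
  have hb : ContDiffOn ℝ ∞ (fun z => -(g z / 4)) U := (S.hg.div_const 4).neg
  have h1 := (S.LL_LLb_E m).fn_mul S.op S.hlim hb
  have hc : ContDiffOn ℝ ∞ (fun z => g z * a z * dz a z) U := (S.hg.mul S.ha).mul haz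
  have h0 : Near U h (hLap h (E h a φ m))
      (fun n z => (-(g z / 4)) * QE.LL h a (QE.LLb h a (E h a φ m)) n z) := by
    refine ⟨_, (((S.tame_E m).hdzb S.op).fn_mul S.op S.hlim hc).smul S.op (-1), fun n z hz => ?_⟩
    have s2 : DifferentiableAt ℝ (dzb (E h a φ m n)) z :=
      (SmoothSeq.dzb S.op (S.tame_E m).smooth).dAt S.op n hz
    have hI : I ^ 2 = -1 := I_sq
    have e2 : dz (QE.LLb h a (E h a φ m) n) z
        = -(2 * I * h n) * (dz a z * dzb (E h a φ m n) z + a z * dz (dzb (E h a φ m n)) z) := by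
      unfold QE.LLb
      have : (fun z => -(2 * I * (h n : ℂ)) * a z * dzb (E h a φ m n) z)
          = fun z => -(2 * I * (h n : ℂ)) * (a z * dzb (E h a φ m n) z) := by funext w; ring
      rw [this, dz_const_mul _ ((hda z hz).fun_mul s2), dz_mul (hda z hz) s2]
    have e4 : QE.LL h a (QE.LLb h a (E h a φ m)) n z
        = -(2 * I * h n) * a z * dz (QE.LLb h a (E h a φ m) n) z := rfl
    have hag := S.ag z hz
    unfold hLap
    beta_reduce
    rw [e4, e2]
    linear_combination (-(h n : ℂ) ^ 2 * dz (dzb (E h a φ m n)) z) * hag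
      + (g z * (h n : ℂ) ^ 2 * a z * (dz a z * dzb (E h a φ m n) z
        + a z * dz (dzb (E h a φ m n)) z)) * hI
  exact h0.trans S.op h1

end Setup

lemma four_add (x y : ℝ) (hx : 0 ≤ x) (hy : 0 ≤ y) : (x + y) ^ 4 ≤ 8 * (x ^ 4 + y ^ 4) := by
  nlinarith [sq_nonneg (x ^ 2 - y ^ 2), sq_nonneg (x - y), sq_nonneg (x + y),
    mul_nonneg (sq_nonneg (x - y)) (add_nonneg (sq_nonneg (x + y))
      (add_nonneg (sq_nonneg x) (sq_nonneg y)))]

/-- the error term of `Near` in `L⁴` -/
theorem Near.small {u v : ℕ → ℂ → ℂ} (hh0 : Tendsto h atTop (𝓝 0))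
    (h1 : Near U h u v) (hu : SmoothSeq U u) (hv : SmoothSeq U v) {K : Set ℂ} (hK : IsCompact K)
    (hKU : K ⊆ U) {ε : ℝ} (hε : 0 < ε) :
    ∀ᶠ n in atTop, ∫ z in K, ‖u n z - v n z‖ ^ 4 ≤ ε := by
  obtain ⟨w, hw, hw'⟩ := h1
  obtain ⟨C, hC⟩ := hw.bdd4 K hK hKU
  have hlim : Tendsto (fun n => h n ^ 4 * |C|) atTop (𝓝 0) := by
    have := (hh0.pow 4).mul_const |C|
    simpa using this
  filter_upwards [hC, hlim.eventually_lt_const hε] with n hn hn2
  have e : ∫ z in K, ‖u n z - v n z‖ ^ 4 = h n ^ 4 * ∫ z in K, ‖w n z‖ ^ 4 := by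
    rw [← integral_const_mul]
    refine setIntegral_congr_fun hK.measurableSet fun z hz => ?_
    beta_reduce
    rw [hw' n z (hKU hz), add_sub_cancel_left, norm_mul, mul_pow, Complex.norm_real,
      Real.norm_eq_abs, show |h n| ^ 4 = h n ^ 4 from Even.pow_abs ⟨2, rfl⟩ _]
  rw [e]
  refine le_trans ?_ hn2.le
  have : 0 ≤ h n ^ 4 := by positivity
  exact mul_le_mul_of_nonneg_left (hn.trans (le_abs_self C)) this

theorem Setup.growth (S : Setup U g a h φ) {K : Set ℂ} (hK : IsCompact K) {δ : ℝ} (hδ : 0 < δ)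
    (hδU : Metric.cthickening δ K ⊆ U) :
    ∃ C : ℝ, 1 ≤ C ∧ ∀ m : ℤ, ∀ᶠ n in atTop,
      ∫ z in K, ‖E h a φ m n z‖ ^ 4 ≤ C ^ (m.natAbs + 1) := by
  have hK'c : IsCompact (Metric.cthickening δ K) := hK.cthickening
  obtain ⟨A, hA⟩ := hK'c.exists_bound_of_continuousOn (S.ha.continuousOn.mono hδU)
  obtain ⟨G, hG⟩ := hK'c.exists_bound_of_continuousOn (S.hg.continuousOn.mono hδU)
  obtain ⟨M, hM⟩ := S.tame.bdd4 _ hK'c hδU
  set C1 : ℝ := 16 * |A| ^ 4 * ellC * (1 + 8 * (|G| / 4) ^ 4) with hC1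
  have hC10 : 0 ≤ C1 := by have := ellC_nonneg; positivity
  set C : ℝ := |M| + C1 + 1 with hC
  have hC1' : 1 ≤ C := by have := abs_nonneg M; linarith
  -- jets of nonnegative index
  have key : ∀ N : ℕ, 0 < N → ∀ m : ℕ, m ≤ N → ∀ᶠ n in atTop,
      ∫ z in Metric.cthickening (δ * ((N - m : ℕ) : ℝ) / N) K, ‖jet h a φ m n z‖ ^ 4
        ≤ C ^ (m + 1) := by
    intro N hN m
    have hN' : (0 : ℝ) < N := by exact_mod_cast hN
    induction m with
    | zero =>
      intro _
      have e : δ * ((N - 0 : ℕ) : ℝ) / N = δ := by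
        rw [Nat.sub_zero]; field_simp
      rw [e]
      filter_upwards [hM] with n hn
      refine hn.trans ?_
      rw [zero_add, pow_one]
      have := le_abs_self M
      linarith
    | succ m ih =>
      intro hm
      set r : ℝ := δ * ((N - (m + 1) : ℕ) : ℝ) / N with hr
      set r' : ℝ := δ * ((N - m : ℕ) : ℝ) / N with hr'
      have hr0 : 0 ≤ r := by positivity
      have hrr : r' = δ / N + r := by
        rw [hr, hr']
        have : ((N - m : ℕ) : ℝ) = ((N - (m + 1) : ℕ) : ℝ) + 1 := by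
          rw [← Nat.cast_add_one]; congr 1; omega
        rw [this]; ring
      have hr'δ : r' ≤ δ := by
        rw [hr', div_le_iff₀ hN']
        have : ((N - m : ℕ) : ℝ) ≤ N := by exact_mod_cast Nat.sub_le N m
        exact mul_le_mul_of_nonneg_left this hδ.le
      have hr'0 : 0 ≤ r' := by positivity
      set K1 := Metric.cthickening r K with hK1
      have hK1c : IsCompact K1 := hK.cthickening
      have hsub : Metric.cthickening (δ / N) K1 ⊆ Metric.cthickening r' K := by
        rw [hrr]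
        exact Metric.cthickening_cthickening_subset (by positivity) hr0 K
      have hsubU : Metric.cthickening r' K ⊆ Metric.cthickening δ K :=
        Metric.cthickening_mono hr'δ K
      have hK1U : K1 ⊆ Metric.cthickening δ K :=
        (Metric.self_subset_cthickening K1).trans (hsub.trans hsubU)
      have hK2c : IsCompact (Metric.cthickening r' K) := hK.cthickening
      have hU2 := hsubU.trans hδU
      have hell := planck_quant S.op S.hpos S.hlim (S.tame_jet m).smooth hK1c
        (show 0 < δ / N by positivity) (hsub.trans hU2)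
      have hLap' : SmoothSeq U (hLap h (jet h a φ m)) := (S.tame_jet m).smooth.hLap S.op
      have hgm : SmoothSeq U (fun n z => (-(g z / 4)) * jet h a φ m n z) :=
        (S.tame_jet m).smooth.fn_mul (S.hg.div_const 4).neg
      have hsmall := (S.hLap_E (m : ℤ)).small S.hlim hLap' hgm hK2c hU2
        (ε := (1 / (8 * (16 * |A| ^ 4 * ellC) + 1))) (by have := ellC_nonneg; positivity)
      filter_upwards [ih (by omega), hell, hsmall] with n h1 h2 h3
      have hcc := ellC_nonneg
      -- the mean over the enlarged set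
      have i1 := (S.tame_jet m).smooth.intOn hK2c hU2 4 n
      have i2 := hLap'.intOn hK2c hU2 4 n
      have i3 : IntegrableOn (fun z => ‖hLap h (jet h a φ m) n z
          - (-(g z / 4)) * jet h a φ m n z‖ ^ 4) (Metric.cthickening r' K) :=
        (hLap'.sub hgm).intOn hK2c hU2 4 n
      have b1 : ∫ z in Metric.cthickening (δ / N) K1, ‖jet h a φ m n z‖ ^ 4
          ≤ ∫ z in Metric.cthickening r' K, ‖jet h a φ m n z‖ ^ 4 :=
        setIntegral_mono_set i1 (Eventually.of_forall fun z => by positivity) hsub.eventuallyLE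
      have b2 : ∫ z in Metric.cthickening (δ / N) K1, ‖((h n : ℂ)) ^ 2 * dz (dzb (jet h a φ m n)) z‖ ^ 4
          ≤ ∫ z in Metric.cthickening r' K, ‖hLap h (jet h a φ m) n z‖ ^ 4 :=
        setIntegral_mono_set i2 (Eventually.of_forall fun z => by positivity) hsub.eventuallyLE
      have b3 : ∫ z in Metric.cthickening r' K, ‖hLap h (jet h a φ m) n z‖ ^ 4
          ≤ 8 * ((1 / (8 * (16 * |A| ^ 4 * ellC) + 1))
            + (|G| / 4) ^ 4 * ∫ z in Metric.cthickening r' K, ‖jet h a φ m n z‖ ^ 4) := by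
        calc ∫ z in Metric.cthickening r' K, ‖hLap h (jet h a φ m) n z‖ ^ 4
            ≤ ∫ z in Metric.cthickening r' K, 8 * (‖hLap h (jet h a φ m) n z
                - (-(g z / 4)) * jet h a φ m n z‖ ^ 4 + (|G| / 4) ^ 4 * ‖jet h a φ m n z‖ ^ 4) := by
              refine setIntegral_mono_on i2 ((i3.add (i1.const_mul _)).const_mul 8)
                hK2c.measurableSet fun z hz => ?_
              have t1 : ‖hLap h (jet h a φ m) n z‖ ≤ ‖hLap h (jet h a φ m) n z
                  - (-(g z / 4)) * jet h a φ m n z‖ + ‖(-(g z / 4)) * jet h a φ m n z‖ := by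
                have := norm_add_le (hLap h (jet h a φ m) n z - (-(g z / 4)) * jet h a φ m n z)
                  ((-(g z / 4)) * jet h a φ m n z)
                rwa [sub_add_cancel] at this
              have t2 : ‖(-(g z / 4)) * jet h a φ m n z‖ ≤ (|G| / 4) * ‖jet h a φ m n z‖ := by
                rw [norm_mul, norm_neg, norm_div]
                have h5 : ‖g z‖ ≤ |G| := (hG z (hsubU hz)).trans (le_abs_self G)
                have h6 : ‖(4 : ℂ)‖ = 4 := by simp
                rw [h6]
                gcongr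
              calc ‖hLap h (jet h a φ m) n z‖ ^ 4
                  ≤ (‖hLap h (jet h a φ m) n z - (-(g z / 4)) * jet h a φ m n z‖
                    + (|G| / 4) * ‖jet h a φ m n z‖) ^ 4 :=
                    pow_le_pow_left₀ (norm_nonneg _) (t1.trans (by gcongr)) 4
                _ ≤ 8 * (‖hLap h (jet h a φ m) n z - (-(g z / 4)) * jet h a φ m n z‖ ^ 4
                    + ((|G| / 4) * ‖jet h a φ m n z‖) ^ 4) :=
                    four_add _ _ (norm_nonneg _) (by positivity)
                _ = _ := by rw [mul_pow]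
          _ = 8 * ((∫ z in Metric.cthickening r' K, ‖hLap h (jet h a φ m) n z
                - (-(g z / 4)) * jet h a φ m n z‖ ^ 4) + (|G| / 4) ^ 4 *
                ∫ z in Metric.cthickening r' K, ‖jet h a φ m n z‖ ^ 4) := by
              rw [integral_const_mul, integral_add i3 (i1.const_mul _), integral_const_mul]
          _ ≤ _ := by gcongr; exact h3
      have e1 : ∫ z in K1, ‖jet h a φ (m + 1) n z‖ ^ 4
          ≤ 16 * |A| ^ 4 * ∫ z in K1, ‖(h n : ℂ) * dz (jet h a φ m n) z‖ ^ 4 := by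
        rw [← integral_const_mul]
        have hK1U' : K1 ⊆ U := hK1U.trans hδU
        refine setIntegral_mono_on ((S.tame_jet (m + 1)).smooth.intOn hK1c hK1U' 4 n)
          ((((S.tame_jet m).smooth.hdz S.op).intOn hK1c hK1U' 4 n).const_mul _)
          hK1c.measurableSet fun z hz => ?_
        have e5 : jet h a φ (m + 1) n z = -(2 * I) * (a z * ((h n : ℂ) * dz (jet h a φ m n) z)) := by
          show -(2 * I * h n) * a z * dz (jet h a φ m n) z = _
          ring
        rw [e5, norm_mul, norm_mul, mul_pow, mul_pow]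
        have h5 : ‖a z‖ ≤ |A| := (hA z (hK1U hz)).trans (le_abs_self A)
        have h6 : ‖-(2 * I)‖ = 2 := by simp
        rw [h6]
        have h7 : ‖a z‖ ^ 4 ≤ |A| ^ 4 := pow_le_pow_left₀ (norm_nonneg _) h5 4
        have h8 : 0 ≤ ‖(h n : ℂ) * dz (jet h a φ m n) z‖ ^ 4 := by positivity
        nlinarith [mul_le_mul_of_nonneg_right h7 h8]
      set X := ∫ z in Metric.cthickening r' K, ‖jet h a φ m n z‖ ^ 4 with hX
      have hXC : X ≤ C ^ (m + 1) := h1
      have hq : 0 ≤ 16 * |A| ^ 4 * ellC := by positivity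
      have e2 : ∫ z in K1, ‖jet h a φ (m + 1) n z‖ ^ 4
          ≤ 16 * |A| ^ 4 * (ellC * (X + 8 * ((1 / (8 * (16 * |A| ^ 4 * ellC) + 1))
            + (|G| / 4) ^ 4 * X))) := by
        refine e1.trans ?_
        gcongr
        refine h2.trans ?_
        gcongr
        exact b2.trans b3
      have e3 : 8 * (16 * |A| ^ 4 * ellC) * (1 / (8 * (16 * |A| ^ 4 * ellC) + 1)) ≤ 1 := by
        rw [mul_one_div, div_le_one (by positivity)]
        linarith
      calc ∫ z in K1, ‖jet h a φ (m + 1) n z‖ ^ 4 ≤ _ := e2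
        _ = C1 * X + 8 * (16 * |A| ^ 4 * ellC) * (1 / (8 * (16 * |A| ^ 4 * ellC) + 1)) := by
            rw [hC1]; ring
        _ ≤ C1 * C ^ (m + 1) + 1 := by gcongr
        _ ≤ C1 * C ^ (m + 1) + C ^ (m + 1) := by
            have := one_le_pow₀ hC1' (n := m + 1)
            linarith
        _ = (C1 + 1) * C ^ (m + 1) := by ring
        _ ≤ C * C ^ (m + 1) := by
            have := abs_nonneg M
            gcongr
            linarith
        _ = C ^ (m + 1 + 1) := by ring
  have key2 : ∀ m : ℕ, ∀ᶠ n in atTop, ∫ z in K, ‖jet h a φ m n z‖ ^ 4 ≤ C ^ (m + 1) := by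
    intro m
    have h1 := key (m + 1) (Nat.succ_pos m) m (Nat.le_succ m)
    filter_upwards [h1] with n hn
    refine le_trans (setIntegral_mono_set ?_ (Eventually.of_forall fun z => by positivity)
      (Metric.self_subset_cthickening K).eventuallyLE) hn
    have hle : δ * ((m + 1 - m : ℕ) : ℝ) / (m + 1 : ℕ) ≤ δ := by
      rw [div_le_iff₀ (by positivity)]
      have : ((m + 1 - m : ℕ) : ℝ) ≤ (m + 1 : ℕ) := by exact_mod_cast Nat.sub_le _ _
      exact mul_le_mul_of_nonneg_left this hδ.le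
    exact (S.tame_jet m).smooth.intOn hK.cthickening
      ((Metric.cthickening_mono hle K).trans hδU) 4 n
  refine ⟨C, hC1', fun m => ?_⟩
  cases m with
  | ofNat m => exact key2 m
  | negSucc m =>
    filter_upwards [key2 (m + 1)] with n hn
    refine le_trans (le_of_eq ?_) hn
    congr 1
    funext z
    show ‖(-1) ^ (m + 1) * (starRingEnd ℂ) (jet h a φ (m + 1) n z)‖ ^ 4 = _
    rw [norm_mul, norm_pow, norm_neg, norm_one, one_pow, one_mul, RCLike.norm_conj]

end

end QE
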