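import Pool.Agent.LibH11.QEV.LocDefs
import Pool.Agent.LibH11.QEV.Fix2
import Pool.Agent.LibH11.QEV.All

/-!
Moments of the local waves over regions of the surface and in fixed directions.
-/

open MeasureTheory Filter Topology Set MatrixGroups UpperHalfPlane
open scoped ContDiff

namespace QE

noncomputable section

variable {Γ : Subgroup SL(2, ℝ)} {ρ : ℍ → ℝ} {D : Set ℍ}

/-- from smooth nonnegative to continuous nonnegative test functions -/
lemma cont_lim_nonneg {F : ℕ → ℂ → ℝ} (hF : ∀ᶠ n in atTop, ContinuousOn (F n) HH)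
    (hbd : ∀ K : Set ℂ, IsCompact K → K ⊆ HH → ∃ C : ℝ, ∀ᶠ n in atTop, ∫ z in K, |F n z| ≤ C)
    (hloc : ∀ ψ : ℂ → ℝ, ContDiff ℝ ∞ ψ → HasCompactSupport ψ → tsupport ψ ⊆ HH →
      Tendsto (fun n => ∫ z, ψ z * F n z) atTop (𝓝 0)) {ζ : ℂ → ℝ} (hζc : Continuous ζ)
    (hζs : HasCompactSupport ζ) (hζU : tsupport ζ ⊆ HH) (hζ0 : ∀ z, 0 ≤ ζ z) :
    Tendsto (fun n => ∫ z, ζ z * F n z) atTop (𝓝 0) := by
  have hKc : IsCompact (tsupport ζ) := hζs
  obtain ⟨C, hC⟩ := hbd _ hKc hζU
  rw [Metric.tendsto_nhds]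
  intro ε hε
  set δ : ℝ := ε / (12 * (|C| + 1)) with hδ
  have hδ0 : 0 < δ := by positivity
  obtain ⟨ψ, hψ, hψ1, hψ2⟩ := exists_smooth_between hζc hδ0
  have hψ0 : ∀ z, 0 ≤ ψ z := fun z => (le_max_right _ _).trans (hψ1 z)
  have hsupp : Function.support ψ ⊆ Function.support ζ := by
    intro z hz hz0
    apply hz
    have h1 := hψ2 z
    rw [hz0, max_eq_right (by linarith)] at h1
    exact le_antisymm h1 (hψ0 z)
  have hts : tsupport ψ ⊆ tsupport ζ := closure_mono hsupp
  have hψs : HasCompactSupport ψ := hKc.of_isClosed_subset (isClosed_tsupport _) hts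
  have hclose : ∀ z, |ζ z - ψ z| ≤ 3 * δ := by
    intro z
    have h1 := hψ1 z
    have h2 := hψ2 z
    have h3 := hζ0 z
    have h4 := le_max_left (ζ z - 3 * δ) 0
    have h5 : max (ζ z - δ) 0 ≤ ζ z := max_le (by linarith) h3
    rw [abs_le]
    constructor <;> linarith
  have hl := hloc ψ hψ hψs (hts.trans hζU)
  filter_upwards [hC, hF, (Metric.tendsto_nhds.1 hl) (ε / 2) (by positivity)] with n h1 h2 h3
  rw [dist_zero_right, Real.norm_eq_abs] at h3 ⊢
  have hsetζ : ∫ z, ζ z * F n z = ∫ z in tsupport ζ, ζ z * F n z := by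
    rw [setIntegral_eq_integral_of_forall_compl_eq_zero]
    intro z hz
    rw [image_eq_zero_of_notMem_tsupport hz, zero_mul]
  have hsetψ : ∫ z, ψ z * F n z = ∫ z in tsupport ζ, ψ z * F n z := by
    rw [setIntegral_eq_integral_of_forall_compl_eq_zero]
    intro z hz
    rw [image_eq_zero_of_notMem_tsupport (fun hz' => hz (hts hz')), zero_mul]
  have iζ : IntegrableOn (fun w => ζ w * F n w) (tsupport ζ) :=
    (hζc.continuousOn.mul (h2.mono hζU)).integrableOn_compact hKc
  have iψ : IntegrableOn (fun w => ψ w * F n w) (tsupport ζ) :=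
    (hψ.continuous.continuousOn.mul (h2.mono hζU)).integrableOn_compact hKc
  have hdiff : |(∫ w, ζ w * F n w) - ∫ w, ψ w * F n w| ≤ 3 * δ * |C| := by
    rw [hsetζ, hsetψ, ← integral_sub iζ iψ, ← Real.norm_eq_abs]
    calc ‖∫ w in tsupport ζ, (ζ w * F n w - ψ w * F n w)‖
        ≤ ∫ w in tsupport ζ, 3 * δ * |F n w| := by
          refine norm_integral_le_of_norm_le ?_ (Eventually.of_forall fun w => ?_)
          · exact ((h2.mono hζU).abs.integrableOn_compact hKc).const_mul _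
          · rw [← sub_mul, norm_mul, Real.norm_eq_abs, Real.norm_eq_abs]
            exact mul_le_mul_of_nonneg_right (hclose w) (abs_nonneg _)
      _ ≤ 3 * δ * |C| := by
          rw [integral_const_mul]
          have := h1.trans (le_abs_self C)
          gcongr
  have h6 : 3 * δ * |C| ≤ ε / 4 := by
    have h7 : 0 ≤ |C| := abs_nonneg C
    calc 3 * δ * |C| ≤ 3 * δ * (|C| + 1) := by gcongr; linarith
      _ = ε / 4 := by rw [hδ]; field_simp; norm_num
  have h8 := abs_sub_abs_le_abs_sub (∫ w, ζ w * F n w) (∫ w, ψ w * F n w)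
  linarith

/-- from smooth to continuous test functions -/
lemma cont_lim {F : ℕ → ℂ → ℝ} (hF : ∀ᶠ n in atTop, ContinuousOn (F n) HH)
    (hbd : ∀ K : Set ℂ, IsCompact K → K ⊆ HH → ∃ C : ℝ, ∀ᶠ n in atTop, ∫ z in K, |F n z| ≤ C)
    {v : ℝ} (hloc : ∀ ψ : ℂ → ℝ, ContDiff ℝ ∞ ψ → HasCompactSupport ψ → tsupport ψ ⊆ HH →
      Tendsto (fun n => ∫ z, ψ z * F n z) atTop (𝓝 (v * ∫ z, ψ z))) {ζ : ℂ → ℝ}
    (hζc : Continuous ζ) (hζs : HasCompactSupport ζ) (hζU : tsupport ζ ⊆ HH) :
    Tendsto (fun n => ∫ z, ζ z * F n z) atTop (𝓝 (v * ∫ z, ζ z)) := by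
  have hint : ∀ (f : ℂ → ℝ), ContinuousOn f HH → ∀ η : ℂ → ℝ, Continuous η → HasCompactSupport η →
      tsupport η ⊆ HH → Integrable (fun z => η z * f z) := by
    intro f hf η h1 h2 h3
    exact integrable_mul_of_tsupport isOpen_HH h1 h2 h3 hf
  -- the functions `F - v`
  have hF' : ∀ᶠ n in atTop, ContinuousOn (fun z => F n z - v) HH :=
    hF.mono fun n hn => hn.sub continuousOn_const
  have hbd' : ∀ K : Set ℂ, IsCompact K → K ⊆ HH → ∃ C : ℝ, ∀ᶠ n in atTop,
      ∫ z in K, |F n z - v| ≤ C := by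
    intro K hK hKU
    obtain ⟨C, hC⟩ := hbd K hK hKU
    refine ⟨C + |v| * (volume K).toReal, ?_⟩
    filter_upwards [hC, hF] with n h1 h2
    have i1 : IntegrableOn (fun z => |F n z|) K := (h2.mono hKU).abs.integrableOn_compact hK
    have i2 : IntegrableOn (fun _ : ℂ => |v|) K := continuousOn_const.integrableOn_compact hK
    calc ∫ z in K, |F n z - v| ≤ ∫ z in K, (|F n z| + |v|) := by
          refine integral_mono_of_nonneg (Eventually.of_forall fun z => abs_nonneg _)
            (i1.add i2) (Eventually.of_forall fun z => abs_sub _ _)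
      _ = (∫ z in K, |F n z|) + |v| * (volume K).toReal := by
          rw [integral_add i1 i2, integral_const, smul_eq_mul, measureReal_restrict_apply_univ]
          unfold Measure.real
          ring
      _ ≤ _ := by gcongr
  have hsub : ∀ η : ℂ → ℝ, Continuous η → HasCompactSupport η → tsupport η ⊆ HH → ∀ n,
      ContinuousOn (F n) HH → ∫ z, η z * (F n z - v) = (∫ z, η z * F n z) - v * ∫ z, η z := by
    intro η h1 h2 h3 n hn
    rw [← integral_const_mul, ← integral_sub (hint _ hn η h1 h2 h3)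
      ((h1.integrable_of_hasCompactSupport h2).const_mul v)]
    congr 1; funext z; ring
  have hloc' : ∀ ψ : ℂ → ℝ, ContDiff ℝ ∞ ψ → HasCompactSupport ψ → tsupport ψ ⊆ HH →
      Tendsto (fun n => ∫ z, ψ z * (F n z - v)) atTop (𝓝 0) := by
    intro ψ h1 h2 h3
    have h4 := (hloc ψ h1 h2 h3).sub_const (v * ∫ z, ψ z)
    rw [sub_self] at h4
    refine h4.congr' ?_
    filter_upwards [hF] with n hn
    exact (hsub ψ h1.continuous h2 h3 n hn).symm
  -- positive and negative parts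
  set ζp : ℂ → ℝ := fun z => max (ζ z) 0 with hζp
  set ζm : ℂ → ℝ := fun z => max (-ζ z) 0 with hζm
  have sp : Function.support ζp ⊆ Function.support ζ := by
    intro z hz hz0
    apply hz
    simp only [hζp]
    rw [hz0, max_self]
  have sm : Function.support ζm ⊆ Function.support ζ := by
    intro z hz hz0
    apply hz
    simp only [hζm]
    rw [hz0, neg_zero, max_self]
  have cp : Continuous ζp := hζc.max continuous_const
  have cm : Continuous ζm := hζc.neg.max continuous_const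
  have tp : tsupport ζp ⊆ tsupport ζ := closure_mono sp
  have tm : tsupport ζm ⊆ tsupport ζ := closure_mono sm
  have hKc : IsCompact (tsupport ζ) := hζs
  have l1 := cont_lim_nonneg hF' hbd' hloc' cp (hKc.of_isClosed_subset (isClosed_tsupport _) tp)
    (tp.trans hζU) (fun z => le_max_right _ _)
  have l2 := cont_lim_nonneg hF' hbd' hloc' cm (hKc.of_isClosed_subset (isClosed_tsupport _) tm)
    (tm.trans hζU) (fun z => le_max_right _ _)
  have l3 := l1.sub l2
  rw [sub_zero] at l3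
  have l4 := l3.add_const (v * ∫ z, ζ z)
  rw [zero_add] at l4
  refine l4.congr' ?_
  filter_upwards [hF, hF'] with n hn hn'
  have e1 := hint _ hn' ζp cp (hKc.of_isClosed_subset (isClosed_tsupport _) tp) (tp.trans hζU)
  have e2 := hint _ hn' ζm cm (hKc.of_isClosed_subset (isClosed_tsupport _) tm) (tm.trans hζU)
  have e3 := hsub ζ hζc hζs hζU n hn
  rw [← integral_sub e1 e2]
  have e4 : ∫ z, (ζp z * (F n z - v) - ζm z * (F n z - v)) = ∫ z, ζ z * (F n z - v) := by
    congr 1; funext z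
    have : ζp z - ζm z = ζ z := by
      simp only [hζp, hζm]
      rcases le_total 0 (ζ z) with h | h
      · rw [max_eq_left h, max_eq_right (by linarith)]; ring
      · rw [max_eq_right h, max_eq_left (by linarith)]; ring
    rw [← sub_mul, this]
  rw [e4, e3]
  ring

variable {φ : ℕ → ℍ → ℝ} {m h : ℕ → ℝ} {g' : ℂ → ℂ}

namespace WS

variable {k : ℕ}

/-- the bound for the products in a fixed direction -/
lemma prod_bdd (W : WS Γ ρ D φ m h g') (x : Fin k → ℂ)
    (hk : ∀ a : Fin k → ℝ, |∏ i, a i| ≤ 1 + ∑ i, a i ^ 4) {K : Set ℂ} (hKc : IsCompact K)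
    (hKU : K ⊆ HH) : ∃ C : ℝ, ∀ᶠ n in atTop, ∀ θ : ℝ,
      ∫ z in K, |∏ i, Berry.rWave ρ (φ n) (m n) (x i) (ofComplex z, θ)| ≤ C := by
  obtain ⟨M, hM0, hM⟩ := W.four x hKc hKU
  refine ⟨(volume K).toReal + ∑ _i : Fin k, M, ?_⟩
  filter_upwards [hM, W.jc x hKU] with n n1 n4 θ
  have hci : ∀ i, IntegrableOn (fun z => Berry.rWave ρ (φ n) (m n) (x i)
      (ofComplex z, θ) ^ 4) K := fun i => by
    exact ContinuousOn.integrableOn_compact hKc (ContinuousOn.pow (sec_cont (n4 i) θ) 4)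
  have i1 : IntegrableOn (fun _ : ℂ => (1 : ℝ)) K :=
    continuousOn_const.integrableOn_compact hKc
  have i2 : IntegrableOn (fun z => ∑ i, Berry.rWave ρ (φ n) (m n) (x i) (ofComplex z, θ) ^ 4) K :=
    integrable_finset_sum _ fun i _ => hci i
  calc ∫ z in K, |∏ i, Berry.rWave ρ (φ n) (m n) (x i) (ofComplex z, θ)|
      ≤ ∫ z in K, (1 + ∑ i, Berry.rWave ρ (φ n) (m n) (x i) (ofComplex z, θ) ^ 4) := by
        refine integral_mono_of_nonneg (Eventually.of_forall fun z => abs_nonneg _)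
          (i1.add i2) (Eventually.of_forall fun z => hk _)
    _ = (volume K).toReal + ∑ i, ∫ z in K, Berry.rWave ρ (φ n) (m n) (x i) (ofComplex z, θ) ^ 4 := by
        rw [integral_add i1 i2, integral_finset_sum _ fun i _ => hci i, integral_const, smul_eq_mul,
          mul_one, measureReal_restrict_apply_univ]
        rfl
    _ ≤ _ := add_le_add le_rfl (Finset.sum_le_sum fun i _ => n1 i θ)

/-- **The moments in a fixed direction from the local formulas.** -/
lemma locMoment (W : WS Γ ρ D φ m h g') (x : Fin k → ℂ)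
    (hk : ∀ a : Fin k → ℝ, |∏ i, a i| ≤ 1 + ∑ i, a i ^ 4) {v : ℝ}
    (hfix : ∀ (K : Set ℂ) (δ : ℝ), IsCompact K → 0 < δ → Metric.cthickening (2 * δ) K ⊆ HH →
      ∀ ξ : Fin k → ℕ → ℝ → ℂ → ℂ, (∀ i, Disp h (wt (gw ρ)) K 2 (x i) (ξ i)) →
      ∀ ψ : ℂ → ℝ, ContDiff ℝ ∞ ψ → HasCompactSupport ψ → tsupport ψ ⊆ K → ∀ θ : ℝ,
      Tendsto (fun n => ∫ z, (ψ z : ℂ) * ∏ i, (φ n (ofComplex (z + h n * wt (gw ρ) z
          * ξ i n θ z)) : ℂ)) atTop (𝓝 ((∫ z, (ψ z : ℂ)) * (v : ℂ)))) :
    Berry.LocMoment ρ φ m x v := by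
  intro ζ hζc hζs hζU θ
  refine cont_lim (F := fun n z => ∏ i, Berry.rWave ρ (φ n) (m n) (x i) (ofComplex z, θ)) ?_ ?_ ?_
    hζc hζs hζU
  · filter_upwards [W.jc x (K := HH) le_rfl] with n hn
    exact continuousOn_finset_prod _ fun i _ => sec_cont (hn i) θ
  · intro K hK hKU
    obtain ⟨C, hC⟩ := W.prod_bdd x hk hK hKU
    exact ⟨C, hC.mono fun n hn => hn θ⟩
  · intro ψ hψ hψs hψU
    set K := tsupport ψ with hKdef
    have hKc : IsCompact K := hψs
    obtain ⟨δ, hδ, hδU⟩ := hKc.exists_cthickening_subset_open isOpen_HH hψU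
    have hδU' : Metric.cthickening (2 * (δ / 2)) K ⊆ HH := by
      rw [mul_div_cancel₀ _ (two_ne_zero)]; exact hδU
    have h1 := hfix K (δ / 2) hKc (half_pos hδ) hδU' (fun i => frXi h (em ρ) (x i))
      (fun i => W.disp hKc hψU (x i)) ψ hψ hψs le_rfl θ
    have h3 := (Complex.continuous_re.tendsto _).comp h1
    have e0 : ((∫ z, (ψ z : ℂ)) * (v : ℂ)).re = v * ∫ z, ψ z := by
      have : ∫ z, (ψ z : ℂ) = ((∫ z, ψ z : ℝ) : ℂ) := integral_ofReal
      rw [this, ← Complex.ofReal_mul, Complex.ofReal_re, mul_comm]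
    rw [e0] at h3
    refine h3.congr' ?_
    filter_upwards [W.val x hψU] with n n1
    rw [Function.comp_apply]
    have e1 : ∫ z, (ψ z : ℂ) * ∏ i, (φ n (ofComplex (z + h n * wt (gw ρ) z
        * frXi h (em ρ) (x i) n θ z)) : ℂ)
        = ((∫ z, ψ z * ∏ i, Berry.rWave ρ (φ n) (m n) (x i) (ofComplex z, θ) : ℝ) : ℂ) := by
      refine Eq.trans ?_ (integral_ofReal (𝕜 := ℂ) (μ := volume) (f := fun z : ℂ => ψ z
        * ∏ i, Berry.rWave ρ (φ n) (m n) (x i) (ofComplex z, θ)))
      refine integral_congr_ae (Eventually.of_forall fun z => ?_)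
      change _ = ((ψ z * ∏ i, Berry.rWave ρ (φ n) (m n) (x i) (ofComplex z, θ) : ℝ) : ℂ)
      beta_reduce
      by_cases hz : z ∈ K
      · rw [Complex.ofReal_mul, Complex.ofReal_prod]
        congr 1
        refine Finset.prod_congr rfl fun i _ => ?_
        rw [n1 i θ z hz]
      · rw [image_eq_zero_of_notMem_tsupport hz]; simp
    rw [e1, Complex.ofReal_re]

end WS

end

end QE
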