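import Pool.Agent.LibH11.QEV.Loc

/-!
Moments of the local waves over regions of the surface and in fixed directions: the equivalence.
-/

open MeasureTheory Filter Topology Set MatrixGroups UpperHalfPlane
open scoped ContDiff

namespace QE

noncomputable section

variable {Γ : Subgroup SL(2, ℝ)} {ρ : ℍ → ℝ} {D : Set ℍ}

/-- if the mean of the fourth power tends to `3` then so do the local means -/
theorem four_weak [Countable Γ] (hDm : MeasurableSet D)
    (hD : IsFundamentalDomain Γ D (volume : Measure ℍ))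
    (hK : ∃ K : Set ℍ, IsCompact K ∧ ∀ z, ∃ γ ∈ Γ, γ • z ∈ K)
    (hρ : ContDiffOn ℝ ∞ (fun w : ℂ => ρ (ofComplex w)) {w | 0 < w.im})
    (hρΓ : ∀ γ ∈ Γ, ∀ z, ρ (γ • z) = ρ z)
    {φ : ℕ → ℍ → ℝ} {m : ℕ → ℝ} (hφ : Berry.REigenSeq Γ ρ φ m)
    (hs : ∀ n, ContDiffOn ℝ ∞ (fun w : ℂ => φ n (ofComplex w)) {w | 0 < w.im})
    (hq : QuantumErgodic ρ φ m)
    (h3 : Tendsto (fun n => Berry.rAvg ρ D fun z => φ n z ^ 4) atTop (𝓝 3)) {ζ : ℂ → ℝ}
    (hζc : Continuous ζ) (hζs : HasCompactSupport ζ) (hζU : tsupport ζ ⊆ HH) (hζ0 : ∀ z, 0 ≤ ζ z) :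
    Tendsto (fun n => ∫ z, ζ z * φ n (ofComplex z) ^ 4) atTop (𝓝 (3 * ∫ z, ζ z)) := by
  have hρc := continuous_of_smooth hρ
  have hgeo : Berry.Geo Γ ρ D := ⟨hD, hDm, Berry.finite_of_cocompact hD hK, hρΓ,
    Berry.bdd_of_cocompact hρc hρΓ hK, Berry.unif_of_cocompact hρc hρΓ hK⟩
  have hpc : ∀ n, Continuous (φ n) := fun n => continuous_of_smooth (hs n)
  have hKc : IsCompact (tsupport ζ) := hζs
  obtain ⟨χ, hχc, hχs, hχU, hχ0, ⟨c₀, hc₀, hlow⟩, h5⟩ := exists_test' hD hDm hK hρc hρΓ hKc hζU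
  obtain ⟨M, hM⟩ := hζc.bounded_above_of_compact_support hζs
  have hM0 : 0 ≤ M := (norm_nonneg _).trans (hM 0)
  set C : ℝ := M / c₀ with hC
  have hC0 : 0 ≤ C := by positivity
  set A := (Berry.area ρ D).toReal with hA
  have hA0 : 0 < A := ENNReal.toReal_pos (Berry.area_ne_zero hgeo) (Berry.area_ne_top hgeo)
  -- the difference
  set η : ℂ → ℝ := fun z => C * χ z - ζ z with hη
  have hηc : Continuous η := (continuous_const.mul hχc).sub hζc
  have hη0 : ∀ z, 0 ≤ η z := by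
    intro z
    simp only [hη]
    by_cases hz : z ∈ tsupport ζ
    · have h1 := hlow z hz
      have h2 : ζ z ≤ M := (le_abs_self _).trans (hM z)
      have h3 : M = C * c₀ := by rw [hC]; field_simp
      have h4 : C * c₀ ≤ C * χ z := mul_le_mul_of_nonneg_left h1 hC0
      linarith
    · rw [image_eq_zero_of_notMem_tsupport hz, sub_zero]
      exact mul_nonneg hC0 (hχ0 z)
  have hηsup : tsupport η ⊆ tsupport χ ∪ tsupport ζ := by
    refine closure_minimal (fun z hz => ?_) ((isClosed_tsupport _).union (isClosed_tsupport _))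
    by_contra hcon
    rw [mem_union, not_or] at hcon
    apply hz
    simp only [hη]
    rw [image_eq_zero_of_notMem_tsupport hcon.1, image_eq_zero_of_notMem_tsupport hcon.2]
    ring
  have hηs : HasCompactSupport η :=
    ((show IsCompact (tsupport χ) from hχs).union hKc).of_isClosed_subset (isClosed_tsupport _) hηsup
  have hηU : tsupport η ⊆ HH := hηsup.trans (union_subset hχU hζU)
  -- integrability
  have hint : ∀ n, ∀ θ : ℂ → ℝ, Continuous θ → HasCompactSupport θ → tsupport θ ⊆ HH →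
      Integrable (fun z => θ z * φ n (ofComplex z) ^ 4) := fun n θ h1 h2 h3 =>
    (Surf.continuous_cut_mul h1 h3 ((hpc n).pow 4)).integrable_of_hasCompactSupport h2.mul_right
  have e1 : ∀ n, ∫ z, η z * φ n (ofComplex z) ^ 4
      = C * (∫ z, χ z * φ n (ofComplex z) ^ 4) - ∫ z, ζ z * φ n (ofComplex z) ^ 4 := by
    intro n
    rw [← integral_const_mul, ← integral_sub ((hint n χ hχc hχs hχU).const_mul C)
      (hint n ζ hζc hζs hζU)]
    congr 1; funext z
    simp only [hη]; ring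
  have e2 : ∫ z, η z = C * (∫ z, χ z) - ∫ z, ζ z := by
    rw [← integral_const_mul, ← integral_sub ((hχc.integrable_of_hasCompactSupport hχs).const_mul C)
      (hζc.integrable_of_hasCompactSupport hζs)]
  have hχA : ∫ z, χ z = A := by
    have := h5 (fun _ => 1) continuous_const (fun _ => zero_le_one) (fun _ _ _ => rfl)
    simpa [Measure.real] using this
  have hχ3 : Tendsto (fun n => ∫ z, χ z * φ n (ofComplex z) ^ 4) atTop (𝓝 (3 * ∫ z, χ z)) := by
    have h6 := h3.const_mul A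
    rw [hχA, mul_comm 3 A]
    refine h6.congr fun n => ?_
    have h7 := rAvg_eq hgeo hK hχc hχs hχU h5 (f := fun z => φ n z ^ 4) ((hpc n).pow 4)
      (fun γ hγ z => by beta_reduce; rw [hφ.invariant _ γ hγ z])
    rw [h7, ← hA, mul_inv_cancel_left₀ hA0.ne']
  rw [Metric.tendsto_nhds]
  intro ε hε
  have l1 := lower_local hρ hφ hs hq hζc hζs hζU hζ0 (show 0 < ε / 4 by positivity)
  have l2 := lower_local hρ hφ hs hq hηc hηs hηU hη0 (show 0 < ε / 4 by positivity)
  have l3 := (hχ3.const_mul C).eventually (Metric.ball_mem_nhds _ (show 0 < ε / 4 by positivity))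
  filter_upwards [l1, l2, l3] with n n1 n2 n3
  rw [Real.dist_eq, abs_lt] at n3
  rw [Real.dist_eq, abs_lt]
  rw [e1, e2] at n2
  obtain ⟨n3a, n3b⟩ := n3
  constructor
  · linarith
  · linarith

/-- **Quantum ergodicity and the fourth moment give the Gaussian moments in every region and in every
direction.** -/
theorem local_of_quantum [Countable Γ] (hDm : MeasurableSet D)
    (hD : IsFundamentalDomain Γ D (volume : Measure ℍ))
    (hK : ∃ K : Set ℍ, IsCompact K ∧ ∀ z, ∃ γ ∈ Γ, γ • z ∈ K)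
    (hρ : ContDiffOn ℝ ∞ (fun w : ℂ => ρ (ofComplex w)) {w | 0 < w.im})
    (hρΓ : ∀ γ ∈ Γ, ∀ z, ρ (γ • z) = ρ z)
    {φ : ℕ → ℍ → ℝ} {m : ℕ → ℝ} (hφ : Berry.REigenSeq Γ ρ φ m)
    (hs : ∀ n, ContDiffOn ℝ ∞ (fun w : ℂ => φ n (ofComplex w)) {w | 0 < w.im})
    (hq : QuantumErgodic ρ φ m)
    (h3 : Tendsto (fun n => Berry.rAvg ρ D fun z => φ n z ^ 4) atTop (𝓝 3)) :
    Berry.RLocalGauss ρ φ m := by
  obtain ⟨N, W, htwo⟩ := ws_of_surface hDm hD hK hρ hρΓ hφ hs hq (C := 4)
    ((h3.eventually_lt_const (by norm_num : (3 : ℝ) < 4)).mono fun n hn => hn.le)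
  have hw : ∀ r : ℂ → ℝ, Test HH (fun z => (r z : ℂ)) → (∀ z, 0 ≤ r z) →
      Tendsto (fun n => ∫ z, (r z : ℂ) * ((φ (n + N) (ofComplex z) : ℂ)
        * (φ (n + N) (ofComplex z) : ℂ) * ((φ (n + N) (ofComplex z) : ℂ)
          * (φ (n + N) (ofComplex z) : ℂ)))) atTop (𝓝 (3 * ∫ z, (r z : ℂ))) := by
    intro r hr hr0
    have hrc : Continuous r := by
      have := Complex.continuous_re.comp hr.smooth.continuous
      simpa [Function.comp_def] using this
    have hts : tsupport r = tsupport (fun z => (r z : ℂ)) := by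
      unfold tsupport
      congr 1
      ext z
      simp
    have h4 := four_weak hDm hD hK hρ hρΓ hφ hs hq h3 hrc (by
      unfold HasCompactSupport; rw [hts]; exact hr.supp) (by rw [hts]; exact hr.sub) hr0
    have h5 := (Complex.continuous_ofReal.tendsto _).comp (h4.comp (tendsto_add_atTop_nat N))
    have e0 : ((3 * ∫ z, r z : ℝ) : ℂ) = 3 * ∫ z, (r z : ℂ) := by
      have : ∫ z, (r z : ℂ) = ((∫ z, r z : ℝ) : ℂ) := integral_ofReal
      rw [this]; push_cast; ring
    rw [e0] at h5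
    refine h5.congr fun n => ?_
    simp only [Function.comp_apply]
    refine Eq.trans (integral_ofReal (𝕜 := ℂ) (μ := volume) (f := fun z : ℂ => r z
      * φ (n + N) (ofComplex z) ^ 4)).symm ?_
    refine integral_congr_ae (Eventually.of_forall fun z => ?_)
    change ((r z * φ (n + N) (ofComplex z) ^ 4 : ℝ) : ℂ) = _
    push_cast; ring
  have hr4 : ∀ r : ℂ → ℝ, Test HH (fun z => (r z : ℂ)) → (∀ z, 0 ≤ r z) → ∀ j m' k l : ℤ, _ :=
    fun r hr hr0 => W.set.jets_full htwo hr hr0 (hw r hr hr0)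
  have hr3 : ∀ r : ℂ → ℝ, Test HH (fun z => (r z : ℂ)) → (∀ z, 0 ≤ r z) → ∀ j m' k : ℤ, _ :=
    fun r hr hr0 => W.set.three_full hr hr0 (hr4 r hr hr0)
  -- complex test functions
  have hj4 : ∀ ζ : ℂ → ℂ, Test HH ζ → ∀ j m' k l : ℤ, Tendsto (fun n => ∫ z, ζ z
      * (E (fun n => 1 / m (n + N)) (wt (gw ρ)) (fun n z => (φ (n + N) (ofComplex z) : ℂ)) j n z
        * E (fun n => 1 / m (n + N)) (wt (gw ρ)) (fun n z => (φ (n + N) (ofComplex z) : ℂ)) m' n z
        * (E (fun n => 1 / m (n + N)) (wt (gw ρ)) (fun n z => (φ (n + N) (ofComplex z) : ℂ)) k n z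
        * E (fun n => 1 / m (n + N)) (wt (gw ρ)) (fun n z => (φ (n + N) (ofComplex z) : ℂ)) l n z)))
      atTop (𝓝 (G j m' k l * ∫ z, ζ z)) := by
    intro ζ hζ j m' k l
    have s4 := fun n => ((W.set.sm2 j m').mul (W.set.sm2 k l)) n
    have key := Test.induct_nonneg W.set.op (F := fun n ζ =>
      (∫ z, ζ z * (E (fun n => 1 / m (n + N)) (wt (gw ρ)) (fun n z => (φ (n + N) (ofComplex z) : ℂ)) j n z
        * E (fun n => 1 / m (n + N)) (wt (gw ρ)) (fun n z => (φ (n + N) (ofComplex z) : ℂ)) m' n z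
        * (E (fun n => 1 / m (n + N)) (wt (gw ρ)) (fun n z => (φ (n + N) (ofComplex z) : ℂ)) k n z
        * E (fun n => 1 / m (n + N)) (wt (gw ρ)) (fun n z => (φ (n + N) (ofComplex z) : ℂ)) l n z)))
        - G j m' k l * (∫ z, ζ z)) ?_ ?_ ?_ hζ
    · have := key.add_const (G j m' k l * ∫ z, ζ z)
      rw [zero_add] at this
      refine this.congr fun n => ?_
      ring
    · intro n ζ ξ hζ hξ
      beta_reduce
      rw [Test.int_add W.set.op (s4 n) hζ hξ, Test.integral_add' hζ hξ]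
      ring
    · intro n c ζ _
      beta_reduce
      rw [Test.int_smul, integral_const_mul]
      ring
    · intro r hr hr0
      have := (hr4 r hr hr0 j m' k l).sub_const (G j m' k l * ∫ z, (r z : ℂ))
      rw [sub_self] at this
      exact this
  have hj3 : ∀ ζ : ℂ → ℂ, Test HH ζ → ∀ j m' k : ℤ, Tendsto (fun n => ∫ z, ζ z
      * (E (fun n => 1 / m (n + N)) (wt (gw ρ)) (fun n z => (φ (n + N) (ofComplex z) : ℂ)) j n z
        * E (fun n => 1 / m (n + N)) (wt (gw ρ)) (fun n z => (φ (n + N) (ofComplex z) : ℂ)) m' n z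
        * E (fun n => 1 / m (n + N)) (wt (gw ρ)) (fun n z => (φ (n + N) (ofComplex z) : ℂ)) k n z))
      atTop (𝓝 0) := by
    intro ζ hζ j m' k
    have s3 := fun n => ((W.set.sm2 j m').mul (W.set.tame_E k).smooth) n
    refine Test.induct_nonneg W.set.op (F := fun n ζ =>
      ∫ z, ζ z * (E (fun n => 1 / m (n + N)) (wt (gw ρ)) (fun n z => (φ (n + N) (ofComplex z) : ℂ)) j n z
        * E (fun n => 1 / m (n + N)) (wt (gw ρ)) (fun n z => (φ (n + N) (ofComplex z) : ℂ)) m' n z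
        * E (fun n => 1 / m (n + N)) (wt (gw ρ)) (fun n z => (φ (n + N) (ofComplex z) : ℂ)) k n z))
        ?_ ?_ ?_ hζ
    · intro n ζ ξ hζ hξ
      beta_reduce
      rw [Test.int_add W.set.op (s3 n) hζ hξ]
    · intro n c ζ _
      beta_reduce
      rw [Test.int_smul]
    · intro r hr hr0
      exact hr3 r hr hr0 j m' k
  -- removal of the shift
  have hshift : ∀ {k : ℕ} (x : Fin k → ℂ) (v : ℝ),
      Berry.LocMoment ρ (fun n => φ (n + N)) (fun n => m (n + N)) x v → Berry.LocMoment ρ φ m x v := by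
    intro k x v H ζ h1 h2 h3 θ
    rw [← tendsto_add_atTop_iff_nat N]
    exact H ζ h1 h2 h3 θ
  refine ⟨fun x => hshift x 0 ?_, fun x => hshift x _ ?_, fun x => hshift x 0 ?_,
    fun x => hshift x _ ?_⟩
  · refine W.locMoment x (prod_le_four (by norm_num)) ?_
    intro K δ hKc hδ hδU ξ hξ ψ hψ hψs hψK θ
    obtain ⟨hT, hsub⟩ := test_real hψ hψs hψK ((Metric.self_subset_cthickening K).trans hδU)
    have := W.set.fix_one hKc hδ hδU x ξ hξ hT hsub θ
    simpa using this
  · refine W.locMoment x (prod_le_four (by norm_num)) ?_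
    intro K δ hKc hδ hδU ξ hξ ψ hψ hψs hψK θ
    obtain ⟨hT, hsub⟩ := test_real hψ hψs hψK ((Metric.self_subset_cthickening K).trans hδU)
    exact W.set.fix_two hKc hδ hδU x ξ hξ hT hsub θ (fun j k => htwo j k _ hT)
  · refine W.locMoment x (prod_le_four (by norm_num)) ?_
    intro K δ hKc hδ hδU ξ hξ ψ hψ hψs hψK θ
    obtain ⟨hT, hsub⟩ := test_real hψ hψs hψK ((Metric.self_subset_cthickening K).trans hδU)
    have := W.set.fix_three hKc hδ hδU x ξ hξ hT hsub θ (hj3 _ hT)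
    simpa using this
  · refine W.locMoment x (prod_le_four le_rfl) ?_
    intro K δ hKc hδ hδU ξ hξ ψ hψ hψs hψK θ
    obtain ⟨hT, hsub⟩ := test_real hψ hψs hψK ((Metric.self_subset_cthickening K).trans hδU)
    exact W.set.fix_four hKc hδ hδU x ξ hξ hT hsub θ (hj4 _ hT)

end

end QE
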