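import Pool.Agent.LibH11.QEV.Loc2

/-!
The local moments decide the global ones; the equivalence of the six conditions.
-/

open MeasureTheory Filter Topology Set MatrixGroups UpperHalfPlane
open scoped ContDiff

namespace QE

noncomputable section

variable {Γ : Subgroup SL(2, ℝ)} {ρ : ℍ → ℝ} {D : Set ℍ}

lemma rWave_origin (ρ : ℍ → ℝ) (φ : ℍ → ℝ) (m : ℝ) (p : ℍ × ℝ) : Berry.rWave ρ φ m 0 p = φ p.1 := by
  unfold Berry.rWave
  rw [zero_div, add_zero]
  have : (ofComplex Complex.I : ℍ) = I := by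
    rw [ofComplex_apply_of_im_pos (by simp : 0 < Complex.I.im)]
    rfl
  rw [this, Berry.frame_smul_I]

section
variable {φ : ℕ → ℍ → ℝ} {m h : ℕ → ℝ} {g' : ℂ → ℂ}

/-- **Local moments decide the global ones.** -/
lemma WS.global_of_loc [Countable Γ] (W : WS Γ ρ D φ m h g') {k : ℕ} (x : Fin k → ℂ)
    (hk : ∀ a : Fin k → ℝ, |∏ i, a i| ≤ 1 + ∑ i, a i ^ 4) {v : ℝ}
    (hl : Berry.LocMoment ρ φ m x v) :
    Tendsto (fun n => ∫ p, ∏ i, Berry.rWave ρ (φ n) (m n) (x i) p ∂(Berry.rFrameProb ρ D)) atTop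
      (𝓝 v) := by
  obtain ⟨ζ, hζc, hζs, hζU, hζ0, -, h5⟩ := exists_test' (K' := ∅) W.geo.dom W.geo.meas W.coc W.rc
    W.geo.inv isCompact_empty (empty_subset _)
  set K := tsupport ζ with hKdef
  have hKc : IsCompact K := hζs
  obtain ⟨B, hB⟩ := hζc.bounded_above_of_compact_support hζs
  have hB0 : 0 ≤ B := (norm_nonneg _).trans (hB 0)
  set A := (Berry.area ρ D).toReal with hA
  have hA0 : 0 < A := ENNReal.toReal_pos (Berry.area_ne_zero W.geo) (Berry.area_ne_top W.geo)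
  have hζA : ∫ z, ζ z = A := by
    have := h5 (fun _ => 1) continuous_const (fun _ => zero_le_one) (fun _ _ _ => rfl)
    simpa [Measure.real] using this
  obtain ⟨C, hC⟩ := W.prod_bdd x hk hKc hζU
  have hset : ∀ f : ℂ → ℝ, ∫ z, ζ z * f z = ∫ z in K, ζ z * f z := by
    intro f
    rw [setIntegral_eq_integral_of_forall_compl_eq_zero]
    intro z hz
    rw [image_eq_zero_of_notMem_tsupport hz, zero_mul]
  have lim : Tendsto (fun n => ∫ θ, (∫ z, ζ z * ∏ i, Berry.rWave ρ (φ n) (m n) (x i)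
      (ofComplex z, θ)) ∂ang) atTop (𝓝 (∫ _θ : ℝ, v * ∫ z, ζ z ∂volume ∂ang)) := by
    refine tendsto_integral_filter_of_dominated_convergence (fun _ => B * |C|) ?_ ?_
      (integrable_const _) (Eventually.of_forall fun θ => hl ζ hζc hζs hζU θ)
    · filter_upwards [W.jc x hζU] with n hn
      have cζ : ContinuousOn (fun p : ℝ × ℂ => ζ p.2) (univ ×ˢ K) :=
        (hζc.comp continuous_snd).continuousOn
      have cH : ContinuousOn (fun p : ℝ × ℂ => ζ p.2 * ∏ i, Berry.rWave ρ (φ n) (m n) (x i)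
          (ofComplex p.2, p.1)) (univ ×ˢ K) :=
        cζ.mul (continuousOn_finset_prod _ fun i _ => hn i)
      have := (real_int_ang hKc cH).integral_prod_left.aestronglyMeasurable
      simp only [hset]
      exact this
    · filter_upwards [hC, W.jc x hζU] with n hn hn2
      refine Eventually.of_forall fun θ => ?_
      rw [hset]
      have hi : IntegrableOn (fun z => |∏ i, Berry.rWave ρ (φ n) (m n) (x i) (ofComplex z, θ)|) K :=
        ((continuousOn_finset_prod _ fun i _ => sec_cont (hn2 i) θ).abs).integrableOn_compact hKc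
      calc ‖∫ z in K, ζ z * ∏ i, Berry.rWave ρ (φ n) (m n) (x i) (ofComplex z, θ)‖
          ≤ ∫ z in K, B * |∏ i, Berry.rWave ρ (φ n) (m n) (x i) (ofComplex z, θ)| := by
            refine norm_integral_le_of_norm_le (hi.const_mul B) (Eventually.of_forall fun z => ?_)
            rw [norm_mul, Real.norm_eq_abs (∏ i, _)]
            exact mul_le_mul_of_nonneg_right (hB z) (abs_nonneg _)
        _ = B * ∫ z in K, |∏ i, Berry.rWave ρ (φ n) (m n) (x i) (ofComplex z, θ)| :=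
            integral_const_mul _ _
        _ ≤ B * |C| := mul_le_mul_of_nonneg_left ((hn θ).trans (le_abs_self C)) hB0
  have lim2 := lim.const_mul A⁻¹
  have e0 : A⁻¹ * ∫ _θ : ℝ, v * ∫ z, ζ z ∂volume ∂ang = v := by
    rw [integral_const, hζA, probReal_univ, one_smul]
    field_simp
  rw [e0] at lim2
  refine lim2.congr' ?_
  filter_upwards [W.wc x, W.ac x, W.jc x hζU] with n hn1 hn2 hn3
  obtain ⟨C₂, hC₂⟩ := Berry.bdd_of_cocompact (W.pc n) (W.pinv n) W.coc
  have hcond : IsProbabilityMeasure (ProbabilityTheory.cond (Berry.area ρ) D) :=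
    ProbabilityTheory.cond_isProbabilityMeasure_of_finite (Berry.area_ne_zero W.geo)
      (Berry.area_ne_top W.geo)
  have i3 : Integrable (fun p => ∏ i, Berry.rWave ρ (φ n) (m n) (x i) p)
      ((ProbabilityTheory.cond (Berry.area ρ) D).prod ang) := by
    refine Integrable.of_bound (continuous_finset_prod _ fun i _ => hn1 i).aestronglyMeasurable
      (∏ _i : Fin k, |C₂|) (Eventually.of_forall fun p => ?_)
    rw [norm_prod]
    refine Finset.prod_le_prod (fun _ _ => norm_nonneg _) fun i _ => ?_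
    rw [Real.norm_eq_abs]
    exact (hC₂ _).trans (le_abs_self _)
  have e1 : ∫ p, ∏ i, Berry.rWave ρ (φ n) (m n) (x i) p ∂(Berry.rFrameProb ρ D)
      = Berry.rAvg ρ D (angProd ρ (φ n) (m n) x) := by
    unfold Berry.rFrameProb
    rw [integral_prod _ i3]
    rfl
  rw [e1, rAvg_eq W.geo W.coc hζc hζs hζU h5 hn2 (angProd_inv (W.pinv n) W.geo.inv (m n) x), ← hA]
  congr 1
  have cζ : ContinuousOn (fun p : ℝ × ℂ => ζ p.2) (univ ×ˢ K) :=
    (hζc.comp continuous_snd).continuousOn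
  have cH : ContinuousOn (fun p : ℝ × ℂ => ζ p.2 * ∏ i, Berry.rWave ρ (φ n) (m n) (x i)
      (ofComplex p.2, p.1)) (univ ×ˢ K) :=
    cζ.mul (continuousOn_finset_prod _ fun i _ => hn3 i)
  have iH := real_int_ang hKc cH
  simp only [hset]
  rw [integral_integral_swap iH]
  refine integral_congr_ae (Eventually.of_forall fun z => ?_)
  unfold angProd
  beta_reduce
  rw [integral_const_mul]

end

/-- **The Gaussian moments in every region and in every direction give the global ones.** -/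
theorem gauss_of_local [Countable Γ] (hDm : MeasurableSet D)
    (hD : IsFundamentalDomain Γ D (volume : Measure ℍ))
    (hK : ∃ K : Set ℍ, IsCompact K ∧ ∀ z, ∃ γ ∈ Γ, γ • z ∈ K)
    (hρ : ContDiffOn ℝ ∞ (fun w : ℂ => ρ (ofComplex w)) {w | 0 < w.im})
    (hρΓ : ∀ γ ∈ Γ, ∀ z, ρ (γ • z) = ρ z)
    {φ : ℕ → ℍ → ℝ} {m : ℕ → ℝ} (hφ : Berry.REigenSeq Γ ρ φ m)
    (hs : ∀ n, ContDiffOn ℝ ∞ (fun w : ℂ => φ n (ofComplex w)) {w | 0 < w.im})
    (hl : Berry.RLocalGauss ρ φ m) : Berry.RGaussUpToFour ρ D φ m := by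
  have hρc := continuous_of_smooth hρ
  have hgeo : Berry.Geo Γ ρ D := ⟨hD, hDm, Berry.finite_of_cocompact hD hK, hρΓ,
    Berry.bdd_of_cocompact hρc hρΓ hK, Berry.unif_of_cocompact hρc hρΓ hK⟩
  have hpc : ∀ n, Continuous (φ n) := fun n => continuous_of_smooth (hs n)
  -- the fourth moment
  have h3 : Tendsto (fun n => Berry.rAvg ρ D fun z => φ n z ^ 4) atTop (𝓝 3) := by
    obtain ⟨ζ, hζc, hζs, hζU, hζ0, -, h5⟩ := exists_test' (K' := ∅) hD hDm hK hρc hρΓ
      isCompact_empty (empty_subset _)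
    set A := (Berry.area ρ D).toReal with hA
    have hA0 : 0 < A := ENNReal.toReal_pos (Berry.area_ne_zero hgeo) (Berry.area_ne_top hgeo)
    have hζA : ∫ z, ζ z = A := by
      have := h5 (fun _ => 1) continuous_const (fun _ => zero_le_one) (fun _ _ _ => rfl)
      simpa [Measure.real] using this
    have h6 := (hl.2.2.2 (fun _ => 0) ζ hζc hζs hζU 0).const_mul A⁻¹
    have e : A⁻¹ * ((Berry.waveK (0 - 0) * Berry.waveK (0 - 0) + Berry.waveK (0 - 0)
        * Berry.waveK (0 - 0) + Berry.waveK (0 - 0) * Berry.waveK (0 - 0)) * ∫ z, ζ z) = 3 := by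
      rw [sub_zero, Berry.waveK_zero, hζA]
      field_simp
      norm_num
    rw [e] at h6
    refine h6.congr fun n => ?_
    rw [rAvg_eq hgeo hK hζc hζs hζU h5 (f := fun z => φ n z ^ 4) ((hpc n).pow 4)
      (fun γ hγ z => by beta_reduce; rw [hφ.invariant _ γ hγ z]), ← hA]
    congr 1
    refine integral_congr_ae (Eventually.of_forall fun z => ?_)
    beta_reduce
    simp only [rWave_origin, Finset.prod_const, Finset.card_univ, Fintype.card_fin]
  obtain ⟨N, W⟩ := ws_gen hDm hD hK hρ hρΓ hφ hs (C := 4)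
    ((h3.eventually_lt_const (by norm_num : (3 : ℝ) < 4)).mono fun n hn => hn.le)
  have hcomp : ∀ {k : ℕ} (x : Fin k → ℂ) (v : ℝ), Berry.LocMoment ρ φ m x v →
      Berry.LocMoment ρ (fun n => φ (n + N)) (fun n => m (n + N)) x v := by
    intro k x v H ζ h1 h2 h3 θ
    exact (H ζ h1 h2 h3 θ).comp (tendsto_add_atTop_nat N)
  have main : ∀ {k : ℕ} (x : Fin k → ℂ) (v : ℝ), k ≤ 4 → Berry.LocMoment ρ φ m x v →
      Tendsto (fun n => ∫ p, ∏ i, Berry.rWave ρ (φ n) (m n) (x i) p ∂(Berry.rFrameProb ρ D)) atTop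
        (𝓝 v) := by
    intro k x v hk H
    rw [← tendsto_add_atTop_iff_nat N]
    exact W.global_of_loc x (prod_le_four hk) (hcomp x v H)
  refine ⟨fun x => ?_, fun x y => ?_, fun x y z => ?_, fun x₁ x₂ x₃ x₄ => ?_⟩
  · have := main ![x] 0 (by norm_num) (hl.1 _)
    simpa [Fin.prod_univ_one] using this
  · have := main ![x, y] _ (by norm_num) (hl.2.1 _)
    simpa [Fin.prod_univ_two] using this
  · have := main ![x, y, z] 0 (by norm_num) (hl.2.2.1 _)
    simpa [Fin.prod_univ_three] using this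
  · have := main ![x₁, x₂, x₃, x₄] _ le_rfl (hl.2.2.2 _)
    simpa [Fin.prod_univ_four] using this

/-- **All sequences of eigenfunctions on closed surfaces.** -/
theorem tfae_local [Countable Γ] (hDm : MeasurableSet D)
    (hD : IsFundamentalDomain Γ D (volume : Measure ℍ))
    (hK : ∃ K : Set ℍ, IsCompact K ∧ ∀ z, ∃ γ ∈ Γ, γ • z ∈ K)
    (hρ : ContDiffOn ℝ ∞ (fun w : ℂ => ρ (ofComplex w)) {w | 0 < w.im})
    (hρΓ : ∀ γ ∈ Γ, ∀ z, ρ (γ • z) = ρ z)
    {φ : ℕ → ℍ → ℝ} {m : ℕ → ℝ} (hφ : Berry.REigenSeq Γ ρ φ m)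
    (hs : ∀ n, ContDiffOn ℝ ∞ (fun w : ℂ => φ n (ofComplex w)) {w | 0 < w.im}) :
    List.TFAE [QuantumErgodic ρ φ m ∧ Tendsto (fun n => Berry.rAvg ρ D fun z => φ n z ^ 4)
        atTop (𝓝 3),
      QuantumErgodic ρ φ m ∧ Berry.RPlanckAt ρ D φ m 0, ∀ a, Berry.RPlanckAt ρ D φ m a,
      Tendsto (fun n => Berry.rAvg ρ D fun z => φ n z ^ 2) atTop (𝓝 1) ∧ Berry.RFourPt ρ D φ m,
      Berry.RGaussUpToFour ρ D φ m, Berry.RLocalGauss ρ φ m] := by
  have H := tfae_all hDm hD hK hρ hρΓ hφ hs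
  tfae_have 1 ↔ 2 := H.out 0 1
  tfae_have 1 ↔ 3 := H.out 0 2
  tfae_have 1 ↔ 4 := H.out 0 3
  tfae_have 1 ↔ 5 := H.out 0 4
  tfae_have 1 → 6 := fun h => local_of_quantum hDm hD hK hρ hρΓ hφ hs h.1 h.2
  tfae_have 6 → 5 := fun h => gauss_of_local hDm hD hK hρ hρΓ hφ hs h
  tfae_finish

end

end QE
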