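import Pool.Agent.LibH11.QEV.Rot
import Pool.Agent.Lib_helper67.QE.JetJ

/-!
The local form of the four-point formula.
-/

open Complex MeasureTheory Filter Topology Set
open scoped ContDiff

namespace QE

noncomputable section

variable {U : Set ℂ} {h : ℕ → ℝ} {a g : ℂ → ℂ} {φ : ℕ → ℂ → ℂ}

/-- the Gaussian correlation -/
def wick (y : Fin 4 → ℂ) : ℝ :=
  Berry.waveK (y 0 - y 1) * Berry.waveK (y 2 - y 3) + Berry.waveK (y 0 - y 2) * Berry.waveK (y 1 - y 3)
    + Berry.waveK (y 0 - y 3) * Berry.waveK (y 1 - y 2)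

/-- the correlation of the defect -/
def defc (y : Fin 4 → ℂ) : ℝ :=
  (1 / 3) * (Berry.waveK (y 0 + y 1 - y 2 - y 3) + Berry.waveK (y 0 + y 2 - y 1 - y 3)
    + Berry.waveK (y 0 + y 3 - y 1 - y 2))

lemma neg_one_zpow_eq (a b : ℤ) : ((-1 : ℂ)) ^ a * (-1) ^ b = if (a - b) % 2 = 0 then 1 else -1 := by
  rw [← zpow_add₀ (by norm_num)]
  split_ifs with h
  · exact Even.neg_one_zpow (by rw [Int.even_iff]; omega)
  · exact Odd.neg_one_zpow (by rw [Int.odd_iff]; omega)

lemma pat_eq {a b c d : ℤ} (hs : a + b + c + d = 0) : pat a b c d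
    = (1 / 3) * ((-1) ^ a * (-1) ^ b + (-1) ^ a * (-1) ^ c + (-1) ^ a * (-1) ^ d) := by
  rw [neg_one_zpow_eq, neg_one_zpow_eq, neg_one_zpow_eq]
  unfold pat
  split_ifs with h1 h2 h3 h4 h5 h6 <;> first | omega | norm_num

/-- model sum with signs, one angle -/
lemma model_one (σ y : Fin 4 → ℂ) (hσ : ∀ i, ‖σ i‖ = 1) :
    Tendsto (fun N : ℕ => ∑ p ∈ Fintype.piFinset (fun _ : Fin 4 => Finset.Icc (-(N : ℤ)) N),
      (∏ i, CN N (p i) (y i)) * ((∏ i, σ i ^ p i) * if ∑ i, p i = 0 then 1 else 0)) atTop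
      (𝓝 (Berry.waveK (∑ i, σ i * y i) : ℂ)) := by
  have h1 := tendsto_model ang (k := 4) (fun _ t => t) (fun _ => continuous_id)
    (fun i => σ i * y i)
  have e1 : ∀ t : ℝ, ∏ i, ee (σ i * y i) (uu t) = ee (∑ i, σ i * y i) (uu t) := by
    intro t
    rw [Fin.prod_univ_four, Fin.sum_univ_four, ee_add, ee_add, ee_add]
  simp only [e1] at h1
  rw [int_ee] at h1
  refine h1.congr fun N => Finset.sum_congr rfl fun p _ => ?_
  have e2 : ∀ t : ℝ, ∏ i, uu t ^ p i = uu t ^ (∑ i, p i) := by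
    intro t
    rw [Fin.prod_univ_four, Fin.sum_univ_four, zpow_add₀ (uu_ne t), zpow_add₀ (uu_ne t),
      zpow_add₀ (uu_ne t)]
  simp only [e2]
  rw [ang_zpow]
  have e3 : ∏ i, CN N (p i) (σ i * y i) = (∏ i, CN N (p i) (y i)) * ∏ i, σ i ^ p i := by
    rw [← Finset.prod_mul_distrib]
    exact Finset.prod_congr rfl fun i _ => by rw [CN_rot N (hσ i)]; ring
  rw [e3, mul_assoc]

/-- model sum with signs, two angles -/
lemma model_two (c : Fin 4 → Bool) (σ y : Fin 4 → ℂ) (hσ : ∀ i, ‖σ i‖ = 1) :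
    Tendsto (fun N : ℕ => ∑ p ∈ Fintype.piFinset (fun _ : Fin 4 => Finset.Icc (-(N : ℤ)) N),
      (∏ i, CN N (p i) (y i)) * ((∏ i, σ i ^ p i) *
        ((if ∑ i, (if c i then p i else 0) = 0 then 1 else 0)
          * (if ∑ i, (if c i then 0 else p i) = 0 then 1 else 0)))) atTop
      (𝓝 ((Berry.waveK (∑ i, if c i then σ i * y i else 0) : ℂ)
        * (Berry.waveK (∑ i, if c i then 0 else σ i * y i) : ℂ))) := by
  have h1 := tendsto_model (ang.prod ang) (k := 4)
    (fun i (o : ℝ × ℝ) => if c i then o.1 else o.2) (fun i => by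
      cases c i with
      | true => simpa using continuous_fst
      | false => simpa using continuous_snd)
    (fun i => σ i * y i)
  have ee0 : ∀ w, ee 0 w = 1 := by intro w; simp [ee]
  have e1 : ∀ o : ℝ × ℝ, ∏ i, ee (σ i * y i) (uu (if c i then o.1 else o.2))
      = ee (∑ i, if c i then σ i * y i else 0) (uu o.1)
        * ee (∑ i, if c i then 0 else σ i * y i) (uu o.2) := by
    intro o
    have e0 : ∀ i, ee (σ i * y i) (uu (if c i then o.1 else o.2))
        = ee (if c i then σ i * y i else 0) (uu o.1) * ee (if c i then 0 else σ i * y i) (uu o.2) := by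
      intro i
      cases c i with
      | true => simp [ee0]
      | false => simp [ee0]
    simp only [e0]
    rw [Finset.prod_mul_distrib, Fin.prod_univ_four, Fin.prod_univ_four, Fin.sum_univ_four,
      Fin.sum_univ_four, ee_add, ee_add, ee_add, ee_add, ee_add, ee_add]
  simp only [e1] at h1
  rw [integral_prod_mul (fun t => ee (∑ i, if c i then σ i * y i else 0) (uu t))
    (fun t => ee (∑ i, if c i then 0 else σ i * y i) (uu t)), int_ee, int_ee] at h1
  refine h1.congr fun N => Finset.sum_congr rfl fun p _ => ?_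
  have e2 : ∀ o : ℝ × ℝ, ∏ i, uu (if c i then o.1 else o.2) ^ p i
      = uu o.1 ^ (∑ i, if c i then p i else 0) * uu o.2 ^ (∑ i, if c i then 0 else p i) := by
    intro o
    have e0 : ∀ i, uu (if c i then o.1 else o.2) ^ p i
        = uu o.1 ^ (if c i then p i else 0) * uu o.2 ^ (if c i then 0 else p i) := by
      intro i
      cases c i with
      | true => simp
      | false => simp
    simp only [e0]
    rw [Finset.prod_mul_distrib, Fin.prod_univ_four, Fin.prod_univ_four, Fin.sum_univ_four,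
      Fin.sum_univ_four, zpow_add₀ (uu_ne _), zpow_add₀ (uu_ne _), zpow_add₀ (uu_ne _),
      zpow_add₀ (uu_ne _), zpow_add₀ (uu_ne _), zpow_add₀ (uu_ne _)]
  simp only [e2]
  rw [integral_prod_mul (fun t => uu t ^ (∑ i, if c i then p i else 0))
    (fun t => uu t ^ (∑ i, if c i then 0 else p i)), ang_zpow, ang_zpow]
  have e3 : ∏ i, CN N (p i) (σ i * y i) = (∏ i, CN N (p i) (y i)) * ∏ i, σ i ^ p i := by
    rw [← Finset.prod_mul_distrib]
    exact Finset.prod_congr rfl fun i _ => by rw [CN_rot N (hσ i)]; ring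
  rw [e3, mul_assoc]

/-- the Gaussian part of the model -/
lemma model_wick (y : Fin 4 → ℂ) :
    Tendsto (fun N : ℕ => ∑ p ∈ Fintype.piFinset (fun _ : Fin 4 => Finset.Icc (-(N : ℤ)) N),
      (∏ i, CN N (p i) (y i)) * ((if ∑ i, p i = 0 then 1 else 0) * G (p 0) (p 1) (p 2) (p 3))) atTop
      (𝓝 (wick y : ℂ)) := by
  have n1 : ∀ i : Fin 4, ‖(![-1, 1, -1, 1] : Fin 4 → ℂ) i‖ = 1 := by intro i; fin_cases i <;> simp
  have n2 : ∀ i : Fin 4, ‖(![-1, -1, 1, 1] : Fin 4 → ℂ) i‖ = 1 := by intro i; fin_cases i <;> simp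
  have m1 := model_two ![true, true, false, false] ![-1, 1, -1, 1] y n1
  have m2 := model_two ![true, false, true, false] ![-1, -1, 1, 1] y n2
  have m3 := model_two ![true, false, false, true] ![-1, -1, 1, 1] y n2
  have m := (m1.add m2).add m3
  have ev : (Berry.waveK (∑ i, if (![true, true, false, false] : Fin 4 → Bool) i then
        (![-1, 1, -1, 1] : Fin 4 → ℂ) i * y i else 0) : ℂ)
      * (Berry.waveK (∑ i, if (![true, true, false, false] : Fin 4 → Bool) i then 0 else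
        (![-1, 1, -1, 1] : Fin 4 → ℂ) i * y i) : ℂ)
      + (Berry.waveK (∑ i, if (![true, false, true, false] : Fin 4 → Bool) i then
        (![-1, -1, 1, 1] : Fin 4 → ℂ) i * y i else 0) : ℂ)
      * (Berry.waveK (∑ i, if (![true, false, true, false] : Fin 4 → Bool) i then 0 else
        (![-1, -1, 1, 1] : Fin 4 → ℂ) i * y i) : ℂ)
      + (Berry.waveK (∑ i, if (![true, false, false, true] : Fin 4 → Bool) i then
        (![-1, -1, 1, 1] : Fin 4 → ℂ) i * y i else 0) : ℂ)
      * (Berry.waveK (∑ i, if (![true, false, false, true] : Fin 4 → Bool) i then 0 else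
        (![-1, -1, 1, 1] : Fin 4 → ℂ) i * y i) : ℂ) = (wick y : ℂ) := by
    have k1 : ∀ u v : ℂ, Berry.waveK (-1 * u + v) = Berry.waveK (u - v) := by
      intro u v
      rw [← Berry.waveK_neg]; congr 1; ring
    simp only [Fin.sum_univ_four]
    simp only [Matrix.cons_val_zero, Matrix.cons_val_one, Matrix.cons_val, if_true,
      Bool.false_eq_true, if_false, add_zero, zero_add, one_mul, k1]
    unfold wick
    push_cast
    ring
  rw [ev] at m
  refine m.congr fun N => ?_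
  rw [← Finset.sum_add_distrib, ← Finset.sum_add_distrib]
  refine Finset.sum_congr rfl fun p _ => ?_
  simp only [Fin.sum_univ_four, Fin.prod_univ_four]
  simp only [Matrix.cons_val_zero, Matrix.cons_val_one, Matrix.cons_val, if_true,
    Bool.false_eq_true, if_false, add_zero, zero_add, one_zpow, mul_one, one_mul]
  unfold G P
  have key : ∀ A B : ℤ, ∀ (x : ℂ), p 0 + p 1 + p 2 + p 3 = A + B →
      x * ((if A = 0 then 1 else 0) * (if B = 0 then 1 else 0))
      = (if p 0 + p 1 + p 2 + p 3 = 0 then 1 else 0)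
        * (x * ((if A = 0 then 1 else 0) * (if B = 0 then 1 else 0))) := by
    intro A B x hAB
    by_cases hA : A = 0
    · by_cases hB : B = 0
      · rw [if_pos (show p 0 + p 1 + p 2 + p 3 = 0 by omega), one_mul]
      · simp [hB]
    · simp [hA]
  have r1 : ∀ (A B C D : ℤ) , p 0 + p 1 + p 2 + p 3 = (A + B) + (C + D) →
      (if p 0 + p 1 + p 2 + p 3 = 0 then 1 else 0)
        * ((if A + B = 0 then (-1 : ℂ) ^ A else 0) * (if C + D = 0 then (-1 : ℂ) ^ C else 0))
      = (-1) ^ A * (-1) ^ C * ((if A + B = 0 then 1 else 0) * (if C + D = 0 then 1 else 0)) := by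
    intro A B C D h
    rw [key (A + B) (C + D) _ h]
    congr 1
    by_cases hA : A + B = 0
    · by_cases hB : C + D = 0
      · simp [hA, hB]
      · simp [hB]
    · simp [hA]
  have a1 := r1 (p 0) (p 1) (p 2) (p 3) (by ring)
  have a2 := r1 (p 0) (p 2) (p 1) (p 3) (by ring)
  have a3 := r1 (p 0) (p 3) (p 1) (p 2) (by ring)
  linear_combination (-(CN N (p 0) (y 0) * CN N (p 1) (y 1) * CN N (p 2) (y 2)
    * CN N (p 3) (y 3))) * (a1 + a2 + a3)

/-- the defect part of the model -/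
lemma model_defc (y : Fin 4 → ℂ) :
    Tendsto (fun N : ℕ => ∑ p ∈ Fintype.piFinset (fun _ : Fin 4 => Finset.Icc (-(N : ℤ)) N),
      (∏ i, CN N (p i) (y i)) * ((if ∑ i, p i = 0 then 1 else 0) * pat (p 0) (p 1) (p 2) (p 3))) atTop
      (𝓝 (defc y : ℂ)) := by
  have n1 : ∀ i : Fin 4, ‖(![-1, -1, 1, 1] : Fin 4 → ℂ) i‖ = 1 := by intro i; fin_cases i <;> simp
  have n2 : ∀ i : Fin 4, ‖(![-1, 1, -1, 1] : Fin 4 → ℂ) i‖ = 1 := by intro i; fin_cases i <;> simp
  have n3 : ∀ i : Fin 4, ‖(![-1, 1, 1, -1] : Fin 4 → ℂ) i‖ = 1 := by intro i; fin_cases i <;> simp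
  have m := (((model_one _ y n1).add (model_one _ y n2)).add (model_one _ y n3)).const_mul (1 / 3)
  have ev : (1 / 3 : ℂ) * ((Berry.waveK (∑ i, (![-1, -1, 1, 1] : Fin 4 → ℂ) i * y i) : ℂ)
      + (Berry.waveK (∑ i, (![-1, 1, -1, 1] : Fin 4 → ℂ) i * y i) : ℂ)
      + (Berry.waveK (∑ i, (![-1, 1, 1, -1] : Fin 4 → ℂ) i * y i) : ℂ)) = (defc y : ℂ) := by
    have k1 : Berry.waveK (-1 * y 0 + -1 * y 1 + y 2 + y 3) = Berry.waveK (y 0 + y 1 - y 2 - y 3) := by
      rw [← Berry.waveK_neg]; congr 1; ring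
    have k2 : Berry.waveK (-1 * y 0 + y 1 + -1 * y 2 + y 3) = Berry.waveK (y 0 + y 2 - y 1 - y 3) := by
      rw [← Berry.waveK_neg]; congr 1; ring
    have k3 : Berry.waveK (-1 * y 0 + y 1 + y 2 + -1 * y 3) = Berry.waveK (y 0 + y 3 - y 1 - y 2) := by
      rw [← Berry.waveK_neg]; congr 1; ring
    simp only [Fin.sum_univ_four]
    simp only [Matrix.cons_val_zero, Matrix.cons_val_one, Matrix.cons_val, one_mul, k1, k2, k3]
    unfold defc
    push_cast
    ring
  rw [ev] at m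
  refine m.congr fun N => ?_
  rw [← Finset.sum_add_distrib, ← Finset.sum_add_distrib, Finset.mul_sum]
  refine Finset.sum_congr rfl fun p _ => ?_
  by_cases hp : ∑ i, p i = 0
  · simp only [if_pos hp, mul_one, one_mul]
    rw [Fin.sum_univ_four] at hp
    rw [pat_eq hp]
    simp only [Fin.prod_univ_four]
    simp only [Matrix.cons_val_zero, Matrix.cons_val_one, Matrix.cons_val, one_zpow, mul_one]
    ring
  · simp only [if_neg hp, mul_zero, zero_mul, add_zero]

namespace Setup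

variable (S : Setup U g a h φ)

include S

/-- **The local four-point formula.** -/
theorem four_local (htwo : ∀ (j m : ℤ) (η : ℂ → ℂ), Test U η →
      Tendsto (fun n => ∫ z, η z * (E h a φ j n z * E h a φ m n z)) atTop
      (𝓝 (P j m * ∫ z, η z))) {K : Set ℂ} (hK : IsCompact K) {δ : ℝ} (hδ : 0 < δ)
    (hδU : Metric.cthickening (2 * δ) K ⊆ U) {q : ℤ} (hq : q ≠ 0) (y : Fin 4 → ℂ)
    (ξ : Fin 4 → ℕ → ℝ → ℂ → ℂ) (hξ : ∀ i, Disp h a K q (y i) (ξ i)) {ζ : ℂ → ℂ}
    (hζ : Test U ζ) (hζK : tsupport ζ ⊆ K) :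
    Tendsto (fun n => (∫ θ, (∫ z, ζ z * (φ n (z + h n * a z * ξ 0 n θ z)
        * φ n (z + h n * a z * ξ 1 n θ z) * φ n (z + h n * a z * ξ 2 n θ z)
        * φ n (z + h n * a z * ξ 3 n θ z))) ∂ang)
      - ((∫ z, ζ z) * (wick y : ℂ)
        + ((∫ z, ζ z * (φ n z * φ n z * (φ n z * φ n z))) - 3 * ∫ z, ζ z) * (defc y : ℂ)))
      atTop (𝓝 0) := by
  have hKU : K ⊆ U := (Metric.self_subset_cthickening K).trans hδU
  have hset : ∀ f : ℂ → ℂ, ∫ z, ζ z * f z = ∫ z in K, ζ z * f z := by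
    intro f
    rw [setIntegral_eq_integral_of_forall_compl_eq_zero]
    intro z hz
    rw [image_eq_zero_of_notMem_tsupport (fun hz' => hz (hζK hz')), zero_mul]
  have hζc : ContinuousOn ζ K := hζ.smooth.continuous.continuousOn
  -- boundedness of the defect
  obtain ⟨C₁, hC₁⟩ := (S.bd2 0 0).test_mul (S.sm2 0 0) (S.bd2 0 0) (S.sm2 0 0) hζ
  have hκ : ∀ᶠ n in atTop, ‖(∫ z, ζ z * (φ n z * φ n z * (φ n z * φ n z))) - 3 * ∫ z, ζ z‖
      ≤ C₁ + ‖(3 : ℂ) * ∫ z, ζ z‖ := by
    filter_upwards [hC₁] with n hn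
    exact (norm_sub_le _ _).trans (add_le_add hn le_rfl)
  refine lim_combine
    (X := fun n => ∫ θ, (∫ z, ζ z * (φ n (z + h n * a z * ξ 0 n θ z)
        * φ n (z + h n * a z * ξ 1 n θ z) * φ n (z + h n * a z * ξ 2 n θ z)
        * φ n (z + h n * a z * ξ 3 n θ z))) ∂ang)
    (T := fun N n => ∑ p ∈ Fintype.piFinset (fun _ : Fin 4 => Finset.Icc (-(N : ℤ)) N),
        (∏ i, CN N (p i) (y i)) * ((if ∑ i, p i = 0 then 1 else 0)
          * ∫ z in K, ζ z * ∏ i, E h a φ (p i) n z))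
    (α := fun _ => ∫ z, ζ z)
    (β := fun n => (∫ z, ζ z * (φ n z * φ n z * (φ n z * φ n z))) - 3 * ∫ z, ζ z)
    (C := max ‖∫ z, ζ z‖ (C₁ + ‖(3 : ℂ) * ∫ z, ζ z‖)) ?_ ?_ (model_wick y) (model_defc y)
    (Eventually.of_forall fun n => le_max_left _ _)
    (hκ.mono fun n hn => hn.trans (le_max_right _ _))
  · intro ε hε
    obtain ⟨N₀, hN₀⟩ := S.rot_close hK hδ hδU q (fun _ => true) y ξ hξ hζc hε
    refine ⟨N₀, fun N hN => ?_⟩
    filter_upwards [hN₀ N hN] with n hn
    simp only [fld, tay, if_true] at hn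
    have e1 := S.rot_expand hK hKU hq y hζc N n
    simp only [Fin.prod_univ_four] at e1
    rw [e1] at hn
    simp only [hset]
    simp only [Fin.prod_univ_four]
    exact hn
  · intro N
    have h1 : ∀ p : Fin 4 → ℤ, Tendsto (fun n => (if ∑ i, p i = 0 then 1 else 0)
        * (∫ z in K, ζ z * ∏ i, E h a φ (p i) n z)
        - ((∫ z, ζ z) * ((if ∑ i, p i = 0 then 1 else 0) * G (p 0) (p 1) (p 2) (p 3))
          + ((∫ z, ζ z * (φ n z * φ n z * (φ n z * φ n z))) - 3 * ∫ z, ζ z)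
            * ((if ∑ i, p i = 0 then 1 else 0) * pat (p 0) (p 1) (p 2) (p 3)))) atTop (𝓝 0) := by
      intro p
      by_cases hp : ∑ i, p i = 0
      · simp only [if_pos hp, one_mul]
        rw [Fin.sum_univ_four] at hp
        refine (S.jets_four htwo hζ (p 0) (p 1) (p 2) (p 3) hp).congr fun n => ?_
        rw [hset (fun z => E h a φ (p 0) n z * E h a φ (p 1) n z
          * (E h a φ (p 2) n z * E h a φ (p 3) n z))]
        have e : ∫ z in K, ζ z * ∏ i, E h a φ (p i) n z = ∫ z in K, ζ z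
            * (E h a φ (p 0) n z * E h a φ (p 1) n z
              * (E h a φ (p 2) n z * E h a φ (p 3) n z)) := by
          congr 1; funext z
          rw [Fin.prod_univ_four]; ring
        rw [e]; ring
      · simp only [if_neg hp, zero_mul, mul_zero, add_zero, sub_zero]
        exact tendsto_const_nhds
    have h2 := tendsto_finset_sum (Fintype.piFinset (fun _ : Fin 4 => Finset.Icc (-(N : ℤ)) N))
      fun p _ => (h1 p).const_mul (∏ i, CN N (p i) (y i))
    simp only [mul_zero, Finset.sum_const_zero] at h2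
    refine h2.congr fun n => ?_
    rw [Finset.mul_sum, Finset.mul_sum, ← Finset.sum_add_distrib, ← Finset.sum_sub_distrib]
    exact Finset.sum_congr rfl fun p _ => by ring

end Setup

end

end QE
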