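import Pool.Agent.LibH11.QEV.Gen

/-!
Gaussian correlations up to order four imply quantum ergodicity: averages of products of values of
the local wave.
-/

open MeasureTheory Filter Topology Set MatrixGroups UpperHalfPlane
open scoped ContDiff

namespace QE

noncomputable section

variable {Γ : Subgroup SL(2, ℝ)} {ρ : ℍ → ℝ} {D : Set ℍ}

/-- the average of the products of two values of the local wave, minus a constant -/
def Bf (ρ : ℍ → ℝ) (φ : ℍ → ℝ) (m : ℝ) {M : ℕ} (x : Fin M → Fin 2 → ℂ) (κ : ℝ) (p : ℍ × ℝ) : ℝ :=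
  (M : ℝ)⁻¹ * ∑ i, Berry.rWave ρ φ m (x i 0) p * Berry.rWave ρ φ m (x i 1) p - κ

/-- four points from two pairs -/
def quad (y w : Fin 2 → ℂ) : Fin 4 → ℂ := ![y 0, y 1, w 0, w 1]

lemma Bf_sq (φ : ℍ → ℝ) (m : ℝ) {M : ℕ} (x : Fin M → Fin 2 → ℂ) (κ : ℝ) (p : ℍ × ℝ) :
    Bf ρ φ m x κ p ^ 2 = (M : ℝ)⁻¹ ^ 2 * ∑ i, ∑ j, ∏ l, Berry.rWave ρ φ m (quad (x i) (x j) l) p
      - 2 * κ * (M : ℝ)⁻¹ * ∑ i, ∏ l, Berry.rWave ρ φ m (x i l) p + κ ^ 2 := by
  have e1 : ∑ i, ∑ j, ∏ l, Berry.rWave ρ φ m (quad (x i) (x j) l) p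
      = (∑ i, Berry.rWave ρ φ m (x i 0) p * Berry.rWave ρ φ m (x i 1) p) ^ 2 := by
    rw [sq, Finset.sum_mul_sum]
    refine Finset.sum_congr rfl fun i _ => Finset.sum_congr rfl fun j _ => ?_
    rw [Fin.prod_univ_four]
    show Berry.rWave ρ φ m (x i 0) p * Berry.rWave ρ φ m (x i 1) p * Berry.rWave ρ φ m (x j 0) p
      * Berry.rWave ρ φ m (x j 1) p = _
    ring
  have e2 : ∑ i, ∏ l, Berry.rWave ρ φ m (x i l) p
      = ∑ i, Berry.rWave ρ φ m (x i 0) p * Berry.rWave ρ φ m (x i 1) p :=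
    Finset.sum_congr rfl fun i _ => Fin.prod_univ_two _
  rw [e1, e2]
  unfold Bf
  ring

/-- the average over the angle of the square -/
def Gf (ρ : ℍ → ℝ) (φ : ℍ → ℝ) (m : ℝ) {M : ℕ} (x : Fin M → Fin 2 → ℂ) (κ : ℝ) (z : ℍ) : ℝ :=
  ∫ θ, Bf ρ φ m x κ (z, θ) ^ 2 ∂ang

variable {φ : ℕ → ℍ → ℝ} {m h : ℕ → ℝ} {g' : ℂ → ℂ}

namespace WS

lemma wcp (W : WS Γ ρ D φ m h g') {M : ℕ} (x : Fin M → Fin 2 → ℂ) :
    ∀ᶠ n in atTop, ∀ i l, Continuous (Berry.rWave ρ (φ n) (m n) (x i l)) :=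
  eventually_all.2 fun i => W.wc (x i)

lemma Bf_cont (W : WS Γ ρ D φ m h g') {M : ℕ} (x : Fin M → Fin 2 → ℂ) (κ : ℝ) :
    ∀ᶠ n in atTop, Continuous (Bf ρ (φ n) (m n) x κ) := by
  filter_upwards [W.wcp x] with n hn
  exact (continuous_const.mul (continuous_finset_sum _ fun i _ => (hn i 0).mul (hn i 1))).sub
    continuous_const

lemma wbdd (W : WS Γ ρ D φ m h g') (n : ℕ) : ∃ C : ℝ, 0 ≤ C ∧ ∀ x p,
    |Berry.rWave ρ (φ n) (m n) x p| ≤ C := by
  obtain ⟨C, hC⟩ := Berry.bdd_of_cocompact (W.pc n) (W.pinv n) W.coc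
  exact ⟨C, (abs_nonneg _).trans (hC UpperHalfPlane.I), fun x p => hC _⟩

lemma Bf_bdd (W : WS Γ ρ D φ m h g') {M : ℕ} (x : Fin M → Fin 2 → ℂ) (κ : ℝ) (n : ℕ) :
    ∃ C : ℝ, 0 ≤ C ∧ ∀ p, |Bf ρ (φ n) (m n) x κ p| ≤ C := by
  obtain ⟨C, hC0, hC⟩ := W.wbdd n
  refine ⟨(M : ℝ)⁻¹ * ∑ _i : Fin M, C * C + |κ|, by positivity, fun p => ?_⟩
  unfold Bf
  refine (abs_sub _ _).trans (add_le_add ?_ le_rfl)
  rw [abs_mul, abs_of_nonneg (by positivity : (0 : ℝ) ≤ (M : ℝ)⁻¹)]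
  refine mul_le_mul_of_nonneg_left ?_ (by positivity)
  refine (Finset.abs_sum_le_sum_abs _ _).trans (Finset.sum_le_sum fun i _ => ?_)
  rw [abs_mul]
  exact mul_le_mul (hC _ _) (hC _ _) (abs_nonneg _) hC0

lemma Gf_cont (W : WS Γ ρ D φ m h g') {M : ℕ} (x : Fin M → Fin 2 → ℂ) (κ : ℝ) :
    ∀ᶠ n in atTop, Continuous (Gf ρ (φ n) (m n) x κ) := by
  filter_upwards [W.Bf_cont x κ] with n hn
  unfold Gf
  simp only [ang_int, smul_eq_mul]
  refine continuous_const.mul ?_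
  refine intervalIntegral.continuous_parametric_intervalIntegral_of_continuous' ?_ _ _
  exact hn.pow 2

lemma Gf_inv (W : WS Γ ρ D φ m h g') {M : ℕ} (x : Fin M → Fin 2 → ℂ) (κ : ℝ) (n : ℕ) :
    ∀ γ ∈ Γ, ∀ z, Gf ρ (φ n) (m n) x κ (γ • z) = Gf ρ (φ n) (m n) x κ z := by
  intro γ hγ z
  unfold Gf
  obtain ⟨α, hα⟩ := Berry.mul_frame γ z
  have hper : Function.Periodic (fun θ => Bf ρ (φ n) (m n) x κ (γ • z, θ) ^ 2)
      (2 * Real.pi) := by
    intro θ
    unfold Bf Berry.rWave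
    simp only [Berry.frame_periodic]
  rw [← ang_shift hper α]
  congr 1; funext θ
  have hw : ∀ y : ℂ, Berry.rWave ρ (φ n) (m n) y (γ • z, α + θ)
      = Berry.rWave ρ (φ n) (m n) y (z, θ) := by
    intro y
    unfold Berry.rWave
    simp only
    rw [← hα θ, mul_smul, W.pinv n γ hγ, W.geo.inv γ hγ]
  unfold Bf
  simp only [hw]

lemma Gf_nonneg (φ : ℍ → ℝ) (m : ℝ) {M : ℕ} (x : Fin M → Fin 2 → ℂ) (κ : ℝ) (z : ℍ) :
    0 ≤ Gf ρ φ m x κ z := integral_nonneg fun _ => sq_nonneg _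

lemma cond_prob [Countable Γ] (W : WS Γ ρ D φ m h g') :
    IsProbabilityMeasure (ProbabilityTheory.cond (Berry.area ρ) D) :=
  ProbabilityTheory.cond_isProbabilityMeasure_of_finite (Berry.area_ne_zero W.geo)
    (Berry.area_ne_top W.geo)

lemma int_frame [Countable Γ] {f : ℍ × ℝ → ℝ} (W : WS Γ ρ D φ m h g') (hf : Continuous f) {C : ℝ}
    (hC : ∀ p, |f p| ≤ C) : Integrable f (Berry.rFrameProb ρ D) := by
  have hcond := W.cond_prob
  unfold Berry.rFrameProb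
  change Integrable f ((ProbabilityTheory.cond (Berry.area ρ) D).prod ang)
  exact Integrable.of_bound hf.aestronglyMeasurable C (Eventually.of_forall fun p => by
    rw [Real.norm_eq_abs]; exact hC p)

lemma Gf_avg [Countable Γ] (W : WS Γ ρ D φ m h g') {M : ℕ} (x : Fin M → Fin 2 → ℂ) (κ : ℝ) :
    ∀ᶠ n in atTop, Berry.rAvg ρ D (Gf ρ (φ n) (m n) x κ)
      = ∫ p, Bf ρ (φ n) (m n) x κ p ^ 2 ∂(Berry.rFrameProb ρ D) := by
  filter_upwards [W.Bf_cont x κ] with n hn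
  have hcond := W.cond_prob
  obtain ⟨C, hC0, hC⟩ := W.Bf_bdd x κ n
  have i1 : Integrable (fun p => Bf ρ (φ n) (m n) x κ p ^ 2) (Berry.rFrameProb ρ D) :=
    W.int_frame (hn.pow 2) (C := C ^ 2) fun p => by
      rw [abs_pow]; exact pow_le_pow_left₀ (abs_nonneg _) (hC p) 2
  unfold Berry.rFrameProb at i1 ⊢
  rw [integral_prod _ i1]
  rfl

/-- **The mean squares.** -/
theorem Bf_lim [Countable Γ] (W : WS Γ ρ D φ m h g')
    (H2 : ∀ y : Fin 2 → ℂ, Tendsto (fun n => ∫ p, ∏ l, Berry.rWave ρ (φ n) (m n) (y l) p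
      ∂(Berry.rFrameProb ρ D)) atTop (𝓝 (Berry.waveK (y 0 - y 1))))
    (H4 : ∀ y : Fin 4 → ℂ, Tendsto (fun n => ∫ p, ∏ l, Berry.rWave ρ (φ n) (m n) (y l) p
      ∂(Berry.rFrameProb ρ D)) atTop (𝓝 (wick y))) {M : ℕ} (x : Fin M → Fin 2 → ℂ) (κ : ℝ) :
    Tendsto (fun n => ∫ p, Bf ρ (φ n) (m n) x κ p ^ 2 ∂(Berry.rFrameProb ρ D)) atTop
      (𝓝 ((M : ℝ)⁻¹ ^ 2 * ∑ i, ∑ j, wick (quad (x i) (x j))
        - 2 * κ * (M : ℝ)⁻¹ * ∑ i, Berry.waveK (x i 0 - x i 1) + κ ^ 2)) := by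
  have h1 := ((tendsto_finset_sum Finset.univ fun i _ => tendsto_finset_sum Finset.univ
    fun j _ => H4 (quad (x i) (x j))).const_mul ((M : ℝ)⁻¹ ^ 2)).sub
    ((tendsto_finset_sum Finset.univ fun i _ => H2 (x i)).const_mul (2 * κ * (M : ℝ)⁻¹))
  have h2 := h1.add_const (κ ^ 2)
  refine h2.congr' ?_
  filter_upwards [W.wcp x] with n hn
  have hcond := W.cond_prob
  have hprob : IsProbabilityMeasure (Berry.rFrameProb ρ D) := by
    change IsProbabilityMeasure ((ProbabilityTheory.cond (Berry.area ρ) D).prod ang)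
    infer_instance
  obtain ⟨C, hC0, hC⟩ := W.wbdd n
  have hw : ∀ {k : ℕ} (y : Fin k → ℂ), (∀ l, Continuous (Berry.rWave ρ (φ n) (m n) (y l))) →
      Integrable (fun p => ∏ l, Berry.rWave ρ (φ n) (m n) (y l) p) (Berry.rFrameProb ρ D) := by
    intro k y hy
    refine W.int_frame (continuous_finset_prod _ fun i _ => hy i) (C := ∏ _i : Fin k, C) fun p => ?_
    rw [Finset.abs_prod]
    exact Finset.prod_le_prod (fun _ _ => abs_nonneg _) fun i _ => hC _ _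
  have i4 : ∀ i j, Integrable (fun p => ∏ l, Berry.rWave ρ (φ n) (m n) (quad (x i) (x j) l) p)
      (Berry.rFrameProb ρ D) := fun i j => hw _ fun l => by
    fin_cases l
    · exact hn i 0
    · exact hn i 1
    · exact hn j 0
    · exact hn j 1
  have i2 : ∀ i, Integrable (fun p => ∏ l, Berry.rWave ρ (φ n) (m n) (x i l) p)
      (Berry.rFrameProb ρ D) := fun i => hw _ fun l => hn i l
  simp only [Bf_sq]
  have j4 : Integrable (fun p => (M : ℝ)⁻¹ ^ 2 * ∑ i, ∑ j,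
      ∏ l, Berry.rWave ρ (φ n) (m n) (quad (x i) (x j) l) p) (Berry.rFrameProb ρ D) :=
    (integrable_finset_sum _ fun i _ => integrable_finset_sum _ fun j _ => i4 i j).const_mul _
  have j2 : Integrable (fun p => 2 * κ * (M : ℝ)⁻¹ * ∑ i,
      ∏ l, Berry.rWave ρ (φ n) (m n) (x i l) p) (Berry.rFrameProb ρ D) :=
    (integrable_finset_sum _ fun i _ => i2 i).const_mul _
  have j3 : Integrable (fun p => (M : ℝ)⁻¹ ^ 2 * ∑ i, ∑ j,
      ∏ l, Berry.rWave ρ (φ n) (m n) (quad (x i) (x j) l) p - 2 * κ * (M : ℝ)⁻¹ * ∑ i,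
      ∏ l, Berry.rWave ρ (φ n) (m n) (x i l) p) (Berry.rFrameProb ρ D) := j4.sub j2
  rw [integral_add j3 (integrable_const _), integral_sub j4 j2, integral_const_mul,
    integral_const_mul, integral_finset_sum _ fun i _ => integrable_finset_sum _ fun j _ => i4 i j,
    integral_finset_sum _ fun i _ => i2 i, integral_const, probReal_univ, one_smul]
  congr 2
  congr 1
  refine Finset.sum_congr rfl fun i _ => ?_
  rw [integral_finset_sum _ fun j _ => i4 i j]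

end WS

/-- the points of the averages -/
def pts (M : ℕ) (T : ℝ) (a : ℂ) : Fin M → Fin 2 → ℂ :=
  fun i => ![((i : ℕ) : ℂ) * T, ((i : ℕ) : ℂ) * T + a]

/-- the mean squares can be made small -/
lemma pts_small (a : ℂ) {ε : ℝ} (hε : 0 < ε) : ∃ (M : ℕ) (T : ℝ), 0 < M ∧
    (M : ℝ)⁻¹ ^ 2 * ∑ i, ∑ j, wick (quad (pts M T a i) (pts M T a j))
        - 2 * Berry.waveK a * (M : ℝ)⁻¹ * ∑ i, Berry.waveK (pts M T a i 0 - pts M T a i 1)
        + Berry.waveK a ^ 2 < ε := by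
  obtain ⟨N, hN⟩ := Berry.waveK_vanishes (min (ε / 4) 1) (by positivity)
  obtain ⟨M, hM⟩ := exists_nat_gt (4 / ε)
  have hM0 : (0 : ℝ) < M := lt_trans (by positivity) hM
  set T : ℝ := |N| + ‖a‖ with hT
  refine ⟨M, T, by exact_mod_cast hM0, ?_⟩
  have hk : ∀ i, Berry.waveK (pts M T a i 0 - pts M T a i 1) = Berry.waveK a := by
    intro i
    have : pts M T a i 0 - pts M T a i 1 = -a := by
      show ((i : ℕ) : ℂ) * T - (((i : ℕ) : ℂ) * T + a) = -a
      ring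
    rw [this, Berry.waveK_neg]
  have hT0 : 0 ≤ T := by positivity
  have hoff : ∀ i j : Fin M, i ≠ j → T ≤ ‖((i : ℕ) : ℂ) * T - ((j : ℕ) : ℂ) * T‖ := by
    intro i j hij
    rw [← sub_mul, norm_mul, Complex.norm_real, Real.norm_of_nonneg hT0]
    have h1 : (1 : ℝ) ≤ ‖((i : ℕ) : ℂ) - ((j : ℕ) : ℂ)‖ := by
      have h2 : ((i : ℕ) : ℂ) - ((j : ℕ) : ℂ) = (((i : ℕ) : ℤ) - ((j : ℕ) : ℤ) : ℤ) := by
        push_cast; ring
      rw [h2, Complex.norm_intCast]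
      have h3 : (((i : ℕ) : ℤ) - ((j : ℕ) : ℤ)) ≠ 0 := by
        intro h0
        exact hij (Fin.ext (by omega))
      exact_mod_cast Int.one_le_abs h3
    nlinarith
  have hw : ∀ i j : Fin M, wick (quad (pts M T a i) (pts M T a j)) ≤ Berry.waveK a ^ 2
      + (if i = j then 2 else ε / 2) := by
    intro i j
    have e1 : wick (quad (pts M T a i) (pts M T a j)) = Berry.waveK a ^ 2
        + (Berry.waveK (((i : ℕ) : ℂ) * T - ((j : ℕ) : ℂ) * T) ^ 2
        + Berry.waveK (((i : ℕ) : ℂ) * T - ((j : ℕ) : ℂ) * T - a)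
          * Berry.waveK (((i : ℕ) : ℂ) * T - ((j : ℕ) : ℂ) * T + a)) := by
      show Berry.waveK (((i : ℕ) : ℂ) * T - (((i : ℕ) : ℂ) * T + a))
          * Berry.waveK (((j : ℕ) : ℂ) * T - (((j : ℕ) : ℂ) * T + a))
        + Berry.waveK (((i : ℕ) : ℂ) * T - ((j : ℕ) : ℂ) * T)
          * Berry.waveK (((i : ℕ) : ℂ) * T + a - (((j : ℕ) : ℂ) * T + a))
        + Berry.waveK (((i : ℕ) : ℂ) * T - (((j : ℕ) : ℂ) * T + a))
          * Berry.waveK (((i : ℕ) : ℂ) * T + a - ((j : ℕ) : ℂ) * T) = _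
      have a1 : ((i : ℕ) : ℂ) * T - (((i : ℕ) : ℂ) * T + a) = -a := by ring
      have a2 : ((j : ℕ) : ℂ) * T - (((j : ℕ) : ℂ) * T + a) = -a := by ring
      have a3 : ((i : ℕ) : ℂ) * T + a - (((j : ℕ) : ℂ) * T + a)
          = ((i : ℕ) : ℂ) * T - ((j : ℕ) : ℂ) * T := by ring
      have a4 : ((i : ℕ) : ℂ) * T - (((j : ℕ) : ℂ) * T + a)
          = ((i : ℕ) : ℂ) * T - ((j : ℕ) : ℂ) * T - a := by ring
      have a5 : ((i : ℕ) : ℂ) * T + a - ((j : ℕ) : ℂ) * T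
          = ((i : ℕ) : ℂ) * T - ((j : ℕ) : ℂ) * T + a := by ring
      rw [a1, a2, a3, a4, a5, Berry.waveK_neg]
      ring
    rw [e1]
    refine add_le_add le_rfl ?_
    split_ifs with hij
    · have k1 := abs_le.1 (Berry.waveK_abs_le (((i : ℕ) : ℂ) * T - ((j : ℕ) : ℂ) * T))
      have k2 := Berry.waveK_abs_le (((i : ℕ) : ℂ) * T - ((j : ℕ) : ℂ) * T - a)
      have k3 := Berry.waveK_abs_le (((i : ℕ) : ℂ) * T - ((j : ℕ) : ℂ) * T + a)
      have k4 : Berry.waveK (((i : ℕ) : ℂ) * T - ((j : ℕ) : ℂ) * T - a)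
          * Berry.waveK (((i : ℕ) : ℂ) * T - ((j : ℕ) : ℂ) * T + a) ≤ 1 := by
        refine (le_abs_self _).trans ?_
        rw [abs_mul]
        exact mul_le_one₀ k2 (abs_nonneg _) k3
      nlinarith
    · have hd := hoff i j hij
      set d := ((i : ℕ) : ℂ) * T - ((j : ℕ) : ℂ) * T with hddef
      have hNT : N ≤ ‖d‖ := by
        have := le_abs_self N
        have := norm_nonneg a
        linarith
      have hNm : N ≤ ‖d - a‖ := by
        have := norm_sub_norm_le d a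
        have := le_abs_self N
        linarith
      have hNp : N ≤ ‖d + a‖ := by
        have := norm_sub_norm_le d (-a)
        rw [norm_neg, sub_neg_eq_add] at this
        have := le_abs_self N
        linarith
      have k1 := hN _ hNT
      have k2 := hN _ hNm
      have k3 := (hN _ hNp).trans (min_le_right _ _)
      have k1' := k1.trans (min_le_left _ _)
      have k1'' := k1.trans (min_le_right _ _)
      have k2' := k2.trans (min_le_left _ _)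
      have s1 : Berry.waveK d ^ 2 ≤ ε / 4 := by
        rw [← sq_abs, sq]
        calc |Berry.waveK d| * |Berry.waveK d| ≤ ε / 4 * 1 :=
              mul_le_mul k1' k1'' (abs_nonneg _) (by positivity)
          _ = ε / 4 := mul_one _
      have s2 : Berry.waveK (d - a) * Berry.waveK (d + a) ≤ ε / 4 := by
        refine (le_abs_self _).trans ?_
        rw [abs_mul]
        calc |Berry.waveK (d - a)| * |Berry.waveK (d + a)| ≤ ε / 4 * 1 :=
              mul_le_mul k2' k3 (abs_nonneg _) (by positivity)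
          _ = ε / 4 := mul_one _
      linarith
  have hsum : ∑ i : Fin M, ∑ j : Fin M, wick (quad (pts M T a i) (pts M T a j))
      ≤ (M : ℝ) ^ 2 * (Berry.waveK a ^ 2 + ε / 2) + 2 * M := by
    have h1 : ∀ i : Fin M, ∑ j : Fin M, wick (quad (pts M T a i) (pts M T a j))
        ≤ M * (Berry.waveK a ^ 2 + ε / 2) + 2 := by
      intro i
      calc ∑ j : Fin M, wick (quad (pts M T a i) (pts M T a j))
          ≤ ∑ j : Fin M, ((Berry.waveK a ^ 2 + ε / 2) + (if i = j then 2 else 0)) := by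
            refine Finset.sum_le_sum fun j _ => (hw i j).trans ?_
            split_ifs
            · linarith
            · linarith
        _ = M * (Berry.waveK a ^ 2 + ε / 2) + 2 := by
            rw [Finset.sum_add_distrib, Finset.sum_const, Finset.sum_ite_eq, Finset.card_univ,
              Fintype.card_fin, nsmul_eq_mul, if_pos (Finset.mem_univ _)]
    calc ∑ i : Fin M, ∑ j : Fin M, wick (quad (pts M T a i) (pts M T a j))
        ≤ ∑ _i : Fin M, (M * (Berry.waveK a ^ 2 + ε / 2) + 2) := Finset.sum_le_sum fun i _ => h1 i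
      _ = _ := by
          rw [Finset.sum_const, Finset.card_univ, Fintype.card_fin, nsmul_eq_mul]
          ring
  simp only [hk, Finset.sum_const, Finset.card_univ, Fintype.card_fin, nsmul_eq_mul]
  have h2 : (M : ℝ)⁻¹ ^ 2 * ∑ i : Fin M, ∑ j : Fin M, wick (quad (pts M T a i) (pts M T a j))
      ≤ (M : ℝ)⁻¹ ^ 2 * ((M : ℝ) ^ 2 * (Berry.waveK a ^ 2 + ε / 2) + 2 * M) :=
    mul_le_mul_of_nonneg_left hsum (by positivity)
  have h3 : (M : ℝ)⁻¹ ^ 2 * ((M : ℝ) ^ 2 * (Berry.waveK a ^ 2 + ε / 2) + 2 * M)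
      = Berry.waveK a ^ 2 + ε / 2 + 2 / M := by
    field_simp
  have h4 : 2 / (M : ℝ) < ε / 2 := by
    rw [div_lt_iff₀ hM0]
    rw [div_lt_iff₀ hε] at hM
    linarith
  have h5 : 2 * Berry.waveK a * (M : ℝ)⁻¹ * (M * Berry.waveK a) = 2 * Berry.waveK a ^ 2 := by
    field_simp
  rw [h5]
  linarith

end

end QE
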