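import Pool.Agent.LibH11.QEV.Mix

/-!
Gaussian correlations up to order four imply the limits of the two-point functions of the jets.
-/

open MeasureTheory Filter Topology Set MatrixGroups UpperHalfPlane
open scoped ContDiff

namespace QE

noncomputable section

variable {Γ : Subgroup SL(2, ℝ)} {ρ : ℍ → ℝ} {D : Set ℍ} {φ : ℕ → ℍ → ℝ} {m h : ℕ → ℝ} {g' : ℂ → ℂ}

/-- the average against a function of the direction and a test function -/
def XB (ρ : ℍ → ℝ) (φ : ℍ → ℝ) (m : ℝ) (K : Set ℂ) (r : ℤ) (ζ : ℂ → ℂ) {M : ℕ}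
    (x : Fin M → Fin 2 → ℂ) (κ : ℝ) : ℂ :=
  ∫ p, (uu p.1 ^ (2 : ℤ)) ^ r * (ζ p.2 * (Bf ρ φ m x κ (ofComplex p.2, p.1) : ℂ))
    ∂(ang.prod (volume.restrict K))

namespace WS

/-- joint continuity in the chart -/
lemma Bf_chart (W : WS Γ ρ D φ m h g') {M : ℕ} (x : Fin M → Fin 2 → ℂ) (κ : ℝ) {K : Set ℂ}
    (hKU : K ⊆ HH) : ∀ᶠ n in atTop, ContinuousOn
      (fun p : ℝ × ℂ => Bf ρ (φ n) (m n) x κ (ofComplex p.2, p.1)) (univ ×ˢ K) := by
  filter_upwards [W.Bf_cont x κ] with n hn p hp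
  have h1 : ContinuousAt (ofComplex : ℂ → ℍ) p.2 :=
    (contMDiffAt_ofComplex (n := 0) (hKU hp.2)).continuousAt
  have h2 : ContinuousAt (fun p : ℝ × ℂ => ((ofComplex p.2, p.1) : ℍ × ℝ)) p :=
    (h1.comp continuousAt_snd).prodMk continuousAt_fst
  exact (hn.continuousAt.comp h2).continuousWithinAt

/-- the bound by the mean square -/
theorem XB_le [Countable Γ] (W : WS Γ ρ D φ m h g') {K : Set ℂ} (hKc : IsCompact K) (hKU : K ⊆ HH)
    {ζ : ℂ → ℂ} (hζ : Continuous ζ) (r : ℤ) : ∃ C : ℝ, 0 ≤ C ∧ ∀ {M : ℕ} (x : Fin M → Fin 2 → ℂ)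
      (κ : ℝ), ∀ᶠ n in atTop, ∀ t : ℝ, 0 < t →
      ‖XB ρ (φ n) (m n) K r ζ x κ‖ ≤ t * C
        + t⁻¹ * (C * ∫ p, Bf ρ (φ n) (m n) x κ p ^ 2 ∂(Berry.rFrameProb ρ D)) := by
  obtain ⟨c, hc0, hc⟩ := loc_le W.geo W.rc W.coc hKc hKU
  set Z : ℝ := ∫ p : ℝ × ℂ, ‖ζ p.2‖ ^ 2 ∂(ang.prod (volume.restrict K)) with hZ
  have hZ0 : 0 ≤ Z := integral_nonneg fun _ => by positivity
  refine ⟨max Z c, le_max_of_le_left hZ0, fun {M} x κ => ?_⟩
  filter_upwards [W.Bf_chart x κ hKU, W.Gf_cont x κ, W.Gf_avg x κ] with n n1 n2 n3 t ht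
  have cζ : ContinuousOn (fun p : ℝ × ℂ => ‖ζ p.2‖ ^ 2) (univ ×ˢ K) :=
    ((hζ.comp continuous_snd).norm.pow 2).continuousOn
  have iζ := real_int_ang hKc cζ
  have iB : Integrable (fun p : ℝ × ℂ => Bf ρ (φ n) (m n) x κ (ofComplex p.2, p.1) ^ 2)
      (ang.prod (volume.restrict K)) := real_int_ang hKc (n1.pow 2)
  have iS : Integrable (fun p : ℝ × ℂ => t * ‖ζ p.2‖ ^ 2
      + t⁻¹ * Bf ρ (φ n) (m n) x κ (ofComplex p.2, p.1) ^ 2) (ang.prod (volume.restrict K)) :=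
    (iζ.const_mul t).add (iB.const_mul t⁻¹)
  have h1 : ‖XB ρ (φ n) (m n) K r ζ x κ‖ ≤ ∫ p : ℝ × ℂ, (t * ‖ζ p.2‖ ^ 2
      + t⁻¹ * Bf ρ (φ n) (m n) x κ (ofComplex p.2, p.1) ^ 2) ∂(ang.prod (volume.restrict K)) := by
    refine norm_integral_le_of_norm_le iS (Eventually.of_forall fun p => ?_)
    rw [norm_mul, norm_zpow, norm_zpow, norm_uu, one_zpow, one_zpow, one_mul, norm_mul,
      Complex.norm_real, Real.norm_eq_abs]
    set u := ‖ζ p.2‖
    set v := |Bf ρ (φ n) (m n) x κ (ofComplex p.2, p.1)| with hv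
    have e : Bf ρ (φ n) (m n) x κ (ofComplex p.2, p.1) ^ 2 = v ^ 2 := (sq_abs _).symm
    rw [e]
    have hu0 : 0 ≤ u := norm_nonneg _
    have hv0 : 0 ≤ v := abs_nonneg _
    have hti : t * t⁻¹ = 1 := mul_inv_cancel₀ ht.ne'
    have h2 : 0 ≤ t⁻¹ * (t * u - v) ^ 2 := by positivity
    have h3 : t⁻¹ * (t * u - v) ^ 2 = t * u ^ 2 + t⁻¹ * v ^ 2 - 2 * (u * v) := by
      field_simp
      ring
    nlinarith [mul_nonneg hu0 hv0]
  have h2 : ∫ p : ℝ × ℂ, Bf ρ (φ n) (m n) x κ (ofComplex p.2, p.1) ^ 2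
      ∂(ang.prod (volume.restrict K)) = ∫ z in K, Gf ρ (φ n) (m n) x κ (ofComplex z) := by
    rw [integral_prod_symm _ iB]
    rfl
  have h3 := hc _ n2 (Gf_nonneg (φ n) (m n) x κ) (W.Gf_inv x κ n)
  rw [n3] at h3
  have h4 : 0 ≤ ∫ p, Bf ρ (φ n) (m n) x κ p ^ 2 ∂(Berry.rFrameProb ρ D) :=
    integral_nonneg fun _ => sq_nonneg _
  rw [integral_add (iζ.const_mul t) (iB.const_mul t⁻¹), integral_const_mul, integral_const_mul,
    h2, ← hZ] at h1
  refine h1.trans (add_le_add ?_ ?_)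
  · exact mul_le_mul_of_nonneg_left (le_max_left _ _) ht.le
  · refine mul_le_mul_of_nonneg_left (h3.trans ?_) (by positivity)
    exact mul_le_mul_of_nonneg_right (le_max_right _ _) h4

/-- the limit for fixed points -/
theorem XB_lim (W : WS Γ ρ D φ m h g') {ζ : ℂ → ℂ} (hζ : Test HH ζ) (r : ℤ) {M : ℕ} (hM : 0 < M)
    (x : Fin M → Fin 2 → ℂ) {a : ℂ} (hx : ∀ i, x i 1 - x i 0 = a) (κ : ℝ) :
    Tendsto (fun n => XB ρ (φ n) (m n) (tsupport ζ) r ζ x κ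
      - ((∫ z, ζ z * (E h (wt (gw ρ)) (fun n z => (φ n (ofComplex z) : ℂ)) 0 n z
          * E h (wt (gw ρ)) (fun n z => (φ n (ofComplex z) : ℂ)) (-r) n z)) * cK r a
        - κ * (∫ z, ζ z) * (if r = 0 then 1 else 0))) atTop (𝓝 0) := by
  set K := tsupport ζ with hKdef
  have hKc : IsCompact K := hζ.supp
  have hKU : K ⊆ HH := hζ.sub
  obtain ⟨δ, hδ, hδU⟩ := hKc.exists_cthickening_subset_open isOpen_HH hKU
  have hδU' : Metric.cthickening (2 * (δ / 2)) K ⊆ HH := by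
    rw [mul_div_cancel₀ _ (two_ne_zero)]; exact hδU
  have hi : ∀ i, Tendsto (fun n => (∫ θ, (uu θ ^ (2 : ℤ)) ^ r * (∫ z in K, ζ z
      * ((φ n (ofComplex (z + h n * wt (gw ρ) z * frXi h (em ρ) (x i 0) n θ z)) : ℂ)
        * (φ n (ofComplex (z + h n * wt (gw ρ) z * frXi h (em ρ) (x i 1) n θ z)) : ℂ))) ∂ang)
      - (∫ z, ζ z * (E h (wt (gw ρ)) (fun n z => (φ n (ofComplex z) : ℂ)) 0 n z
          * E h (wt (gw ρ)) (fun n z => (φ n (ofComplex z) : ℂ)) (-r) n z)) * cK r a) atTop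
      (𝓝 0) := by
    intro i
    have := W.set.two_mode hKc (half_pos hδ) hδU' (q := 2) (by norm_num) r (x i)
      (fun l => frXi h (em ρ) (x i l)) (fun l => W.disp hKc hKU (x i l)) hζ le_rfl
    rwa [hx i] at this
  have hsum := (tendsto_finset_sum Finset.univ fun i _ => hi i).const_mul ((M : ℂ)⁻¹)
  rw [Finset.sum_const_zero, mul_zero] at hsum
  refine hsum.congr' ?_
  have hval : ∀ᶠ n in atTop, ∀ i l, ∀ θ, ∀ z ∈ K,
      Berry.rWave ρ (φ n) (m n) (x i l) (ofComplex z, θ)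
        = φ n (ofComplex (z + h n * wt (gw ρ) z * frXi h (em ρ) (x i l) n θ z)) :=
    eventually_all.2 fun i => W.val (x i) hKU
  have hjc : ∀ᶠ n in atTop, ∀ i l, ContinuousOn
      (fun p : ℝ × ℂ => Berry.rWave ρ (φ n) (m n) (x i l) (ofComplex p.2, p.1)) (univ ×ˢ K) :=
    eventually_all.2 fun i => W.jc (x i) hKU
  filter_upwards [hval, hjc] with n n1 n2
  have hM0 : (M : ℂ) ≠ 0 := by exact_mod_cast hM.ne'
  -- the terms on the product
  have cz : Continuous fun θ : ℝ => (uu θ ^ (2 : ℤ)) ^ r := by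
    have : (fun θ : ℝ => (uu θ ^ (2 : ℤ)) ^ r) = fun θ => uu θ ^ (2 * r) := by
      funext θ; rw [zpow_mul]
    rw [this]
    exact continuous_uu_zpow _
  have cw : ContinuousOn (fun p : ℝ × ℂ => (uu p.1 ^ (2 : ℤ)) ^ r * ζ p.2) (univ ×ˢ K) :=
    ((cz.comp continuous_fst).mul (hζ.smooth.continuous.comp continuous_snd)).continuousOn
  have cH : ∀ i, ContinuousOn (fun p : ℝ × ℂ => (uu p.1 ^ (2 : ℤ)) ^ r * (ζ p.2
      * ((Berry.rWave ρ (φ n) (m n) (x i 0) (ofComplex p.2, p.1) : ℂ)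
        * (Berry.rWave ρ (φ n) (m n) (x i 1) (ofComplex p.2, p.1) : ℂ)))) (univ ×ˢ K) := by
    intro i
    have := cw.mul ((Complex.continuous_ofReal.comp_continuousOn (n2 i 0)).mul
      (Complex.continuous_ofReal.comp_continuousOn (n2 i 1)))
    refine this.congr fun p _ => ?_
    simp only [Pi.mul_apply, Function.comp_apply]
    ring
  have iH := fun i => int_ang hKc (cH i)
  have iw := int_ang hKc cw
  have e1 : ∀ i, ∫ θ, (uu θ ^ (2 : ℤ)) ^ r * (∫ z in K, ζ z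
      * ((φ n (ofComplex (z + h n * wt (gw ρ) z * frXi h (em ρ) (x i 0) n θ z)) : ℂ)
        * (φ n (ofComplex (z + h n * wt (gw ρ) z * frXi h (em ρ) (x i 1) n θ z)) : ℂ))) ∂ang
      = ∫ p : ℝ × ℂ, (uu p.1 ^ (2 : ℤ)) ^ r * (ζ p.2
      * ((Berry.rWave ρ (φ n) (m n) (x i 0) (ofComplex p.2, p.1) : ℂ)
        * (Berry.rWave ρ (φ n) (m n) (x i 1) (ofComplex p.2, p.1) : ℂ)))
        ∂(ang.prod (volume.restrict K)) := by
    intro i
    rw [integral_prod _ (iH i)]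
    refine integral_congr_ae (Eventually.of_forall fun θ => ?_)
    beta_reduce
    rw [← integral_const_mul]
    refine setIntegral_congr_fun hKc.measurableSet fun z hz => ?_
    beta_reduce
    rw [n1 i 0 θ z hz, n1 i 1 θ z hz]
  have e2 : ∫ p : ℝ × ℂ, (uu p.1 ^ (2 : ℤ)) ^ r * ζ p.2 ∂(ang.prod (volume.restrict K))
      = (∫ z, ζ z) * (if r = 0 then 1 else 0) := by
    rw [integral_prod_mul (f := fun θ : ℝ => (uu θ ^ (2 : ℤ)) ^ r) (g := ζ), mul_comm]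
    congr 1
    · rw [setIntegral_eq_integral_of_forall_compl_eq_zero]
      intro z hz
      exact image_eq_zero_of_notMem_tsupport hz
    · exact ang_zpow_mul (by norm_num) r
  have e3 : XB ρ (φ n) (m n) K r ζ x κ = (M : ℂ)⁻¹ * (∑ i, ∫ p : ℝ × ℂ, (uu p.1 ^ (2 : ℤ)) ^ r
      * (ζ p.2 * ((Berry.rWave ρ (φ n) (m n) (x i 0) (ofComplex p.2, p.1) : ℂ)
        * (Berry.rWave ρ (φ n) (m n) (x i 1) (ofComplex p.2, p.1) : ℂ)))
        ∂(ang.prod (volume.restrict K))) - κ * ((∫ z, ζ z) * (if r = 0 then 1 else 0)) := by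
    rw [← e2, ← integral_finset_sum _ fun i _ => iH i, ← integral_const_mul, ← integral_const_mul,
      ← integral_sub ((integrable_finset_sum _ fun i _ => iH i).const_mul _) (iw.const_mul _)]
    unfold XB
    refine integral_congr_ae (Eventually.of_forall fun p => ?_)
    simp only
    unfold Bf
    push_cast
    simp only [Finset.mul_sum, mul_sub]
    congr 1
    · refine Finset.sum_congr rfl fun i _ => ?_
      ring
    · ring
  rw [e3]
  simp only [e1]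
  rw [Finset.sum_sub_distrib, Finset.sum_const, Finset.card_univ, Fintype.card_fin, nsmul_eq_mul,
    mul_sub, ← mul_assoc (M : ℂ)⁻¹ (M : ℂ), inv_mul_cancel₀ hM0, one_mul]
  ring

/-- **The limits of the two-point functions.** -/
theorem mode_lim [Countable Γ] (W : WS Γ ρ D φ m h g')
    (H2 : ∀ y : Fin 2 → ℂ, Tendsto (fun n => ∫ p, ∏ l, Berry.rWave ρ (φ n) (m n) (y l) p
      ∂(Berry.rFrameProb ρ D)) atTop (𝓝 (Berry.waveK (y 0 - y 1))))
    (H4 : ∀ y : Fin 4 → ℂ, Tendsto (fun n => ∫ p, ∏ l, Berry.rWave ρ (φ n) (m n) (y l) p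
      ∂(Berry.rFrameProb ρ D)) atTop (𝓝 (wick y))) {ζ : ℂ → ℂ} (hζ : Test HH ζ) (r : ℤ) (a : ℂ) :
    Tendsto (fun n => (∫ z, ζ z * (E h (wt (gw ρ)) (fun n z => (φ n (ofComplex z) : ℂ)) 0 n z
          * E h (wt (gw ρ)) (fun n z => (φ n (ofComplex z) : ℂ)) (-r) n z)) * cK r a
        - Berry.waveK a * (∫ z, ζ z) * (if r = 0 then 1 else 0)) atTop (𝓝 0) := by
  obtain ⟨C, hC0, hC⟩ := W.XB_le (K := tsupport ζ) hζ.supp hζ.sub hζ.smooth.continuous r
  rw [Metric.tendsto_nhds]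
  intro ε hε
  set t : ℝ := ε / (3 * (C + 1)) with ht
  have ht0 : 0 < t := by positivity
  have htC : t * C < ε / 3 := by
    have : t * (C + 1) = ε / 3 := by rw [ht]; field_simp
    nlinarith
  have hε' : 0 < ε * t / (3 * (C + 1)) := by positivity
  obtain ⟨M, T, hM, hMT⟩ := pts_small a hε'
  have hlim := W.Bf_lim H2 H4 (pts M T a) (Berry.waveK a)
  have hX := W.XB_lim hζ r hM (pts M T a) (a := a) (fun i => by
    show ((i : ℕ) : ℂ) * T + a - ((i : ℕ) : ℂ) * T = a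
    ring) (Berry.waveK a)
  filter_upwards [hC (pts M T a) (Berry.waveK a), hlim.eventually_lt_const hMT,
    Metric.tendsto_nhds.1 hX (ε / 3) (by positivity)] with n n1 n2 n3
  rw [dist_zero_right] at n3 ⊢
  have h1 := n1 t ht0
  have h2 : t⁻¹ * (C * ∫ p, Bf ρ (φ n) (m n) (pts M T a) (Berry.waveK a) p ^ 2
      ∂(Berry.rFrameProb ρ D)) ≤ ε / 3 := by
    calc t⁻¹ * (C * ∫ p, Bf ρ (φ n) (m n) (pts M T a) (Berry.waveK a) p ^ 2
          ∂(Berry.rFrameProb ρ D)) ≤ t⁻¹ * (C * (ε * t / (3 * (C + 1)))) := by gcongr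
      _ = ε / 3 * (C / (C + 1)) := by field_simp
      _ ≤ ε / 3 * 1 := by
          have : C / (C + 1) ≤ 1 := by rw [div_le_one (by positivity)]; linarith
          gcongr
      _ = ε / 3 := mul_one _
  set X := XB ρ (φ n) (m n) (tsupport ζ) r ζ (pts M T a) (Berry.waveK a)
  set Y := (∫ z, ζ z * (E h (wt (gw ρ)) (fun n z => (φ n (ofComplex z) : ℂ)) 0 n z
          * E h (wt (gw ρ)) (fun n z => (φ n (ofComplex z) : ℂ)) (-r) n z)) * cK r a
        - Berry.waveK a * (∫ z, ζ z) * (if r = 0 then 1 else 0)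
  have h3 : ‖Y‖ ≤ ‖X‖ + ‖X - Y‖ := by
    have := norm_sub_le X (X - Y)
    rwa [sub_sub_cancel] at this
  linarith

/-- **Gaussian correlations imply the two-point functions of a quantum ergodic sequence.** -/
theorem two_of_gauss [Countable Γ] (W : WS Γ ρ D φ m h g')
    (H2 : ∀ y : Fin 2 → ℂ, Tendsto (fun n => ∫ p, ∏ l, Berry.rWave ρ (φ n) (m n) (y l) p
      ∂(Berry.rFrameProb ρ D)) atTop (𝓝 (Berry.waveK (y 0 - y 1))))
    (H4 : ∀ y : Fin 4 → ℂ, Tendsto (fun n => ∫ p, ∏ l, Berry.rWave ρ (φ n) (m n) (y l) p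
      ∂(Berry.rFrameProb ρ D)) atTop (𝓝 (wick y))) : TwoPt ρ φ h := by
  intro j k η hη
  have h0 : ∀ ζ : ℂ → ℂ, Test HH ζ → Tendsto (fun n => ∫ z, ζ z
      * (E h (wt (gw ρ)) (fun n z => (φ n (ofComplex z) : ℂ)) 0 n z
      * E h (wt (gw ρ)) (fun n z => (φ n (ofComplex z) : ℂ)) 0 n z)) atTop
      (𝓝 (1 * ∫ z, ζ z)) := by
    intro ζ hζ
    have h1 := W.mode_lim H2 H4 hζ 0 0
    rw [cK_zero, Berry.waveK_zero] at h1
    simp only [neg_zero, mul_one, if_true, Complex.ofReal_one, one_mul] at h1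
    have h2 := h1.add_const (∫ z, ζ z)
    rw [zero_add] at h2
    rw [one_mul]
    refine h2.congr fun n => ?_
    ring
  have h1 : ∀ k : ℕ, 1 ≤ k → ∀ ζ : ℂ → ℂ, Test HH ζ → Tendsto (fun n => ∫ z, ζ z
      * (E h (wt (gw ρ)) (fun n z => (φ n (ofComplex z) : ℂ)) 0 n z
      * E h (wt (gw ρ)) (fun n z => (φ n (ofComplex z) : ℂ)) k n z)) atTop (𝓝 0) := by
    intro k hk ζ hζ
    obtain ⟨a, ha⟩ := cK_ne (-(k : ℤ))
    have h1 := W.mode_lim H2 H4 hζ (-(k : ℤ)) a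
    have hk0 : ¬ (-(k : ℤ) = 0) := by omega
    rw [neg_neg] at h1
    simp only [if_neg hk0, mul_zero, sub_zero] at h1
    have h2 := h1.mul_const (cK (-(k : ℤ)) a)⁻¹
    rw [zero_mul] at h2
    refine h2.congr fun n => ?_
    rw [mul_assoc, mul_inv_cancel₀ ha, mul_one]
  have := W.set.two_c h0 h1 j k hη
  rwa [one_mul] at this

end WS

end

end QE
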