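import Pool.Agent.LibH11.QEV.Local3

/-!
Two-point functions of values tested against functions of the direction, without any hypothesis on
weak limits.
-/

open MeasureTheory Filter Topology Set Complex
open scoped ContDiff

namespace QE

noncomputable section

variable {U : Set ℂ} {h : ℕ → ℝ} {a : ℂ → ℂ} {g : ℂ → ℂ} {φ : ℕ → ℂ → ℂ}

/-- the Fourier coefficients of the plane waves -/
def cK (k : ℤ) (w : ℂ) : ℂ := ∫ t, uu t ^ k * ee w (uu t) ∂ang

lemma cK_zero : cK 0 0 = 1 := by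
  unfold cK ee
  simp

lemma cos_eq_uu (t : ℝ) : ((Real.cos t : ℝ) : ℂ) = (1 / 2) * (uu t + (uu t)⁻¹) := by
  unfold uu
  rw [← Complex.exp_neg, neg_mul, neg_neg, Complex.ofReal_cos, Complex.cos, neg_mul]
  ring

/-- the Fourier coefficients of the powers of the cosine -/
lemma int_uu_cos (k : ℤ) (j : ℕ) (hj : j ≤ k.natAbs) :
    ∫ t, uu t ^ k * ((Real.cos t : ℝ) : ℂ) ^ j ∂ang
      = if j = k.natAbs then (1 / 2) ^ j else 0 := by
  have e1 : ∀ t : ℝ, uu t ^ k * ((Real.cos t : ℝ) : ℂ) ^ j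
      = ∑ l ∈ Finset.range (j + 1), ((1 / 2) ^ j * (j.choose l : ℂ)) * uu t ^ (k + l - (j - l : ℕ)) := by
    intro t
    rw [cos_eq_uu, mul_pow, add_pow, Finset.mul_sum, Finset.mul_sum]
    refine Finset.sum_congr rfl fun l _ => ?_
    rw [zpow_sub₀ (uu_ne t), zpow_add₀ (uu_ne t), zpow_natCast, zpow_natCast, inv_pow]
    field_simp
  simp only [e1]
  rw [integral_finset_sum]
  · simp only [integral_const_mul, ang_zpow]
    have hcond : ∀ l ∈ Finset.range (j + 1), ((k + (l : ℤ) - ((j - l : ℕ) : ℤ) = 0) ↔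
        (j = k.natAbs ∧ l = if 0 ≤ k then 0 else j)) := by
      intro l hl
      rw [Finset.mem_range] at hl
      split_ifs with hk <;> omega
    by_cases hjk : j = k.natAbs
    · rw [if_pos hjk]
      have hmem : (if 0 ≤ k then 0 else j) ∈ Finset.range (j + 1) := by
        rw [Finset.mem_range]; split_ifs <;> omega
      rw [Finset.sum_eq_single_of_mem _ hmem]
      · rw [if_pos ((hcond _ hmem).2 ⟨hjk, rfl⟩), mul_one]
        split_ifs <;> simp
      · intro l hl hne
        rw [if_neg (fun h => hne ((hcond l hl).1 h).2), mul_zero]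
    · rw [if_neg hjk]
      refine Finset.sum_eq_zero fun l hl => ?_
      rw [if_neg (fun h => hjk ((hcond l hl).1 h).1), mul_zero]
  · intro l _
    refine Integrable.of_bound (continuous_const.mul (continuous_uu_zpow _)).aestronglyMeasurable
      (‖((1 / 2) ^ j * (j.choose l : ℂ))‖) (Eventually.of_forall fun t => ?_)
    rw [norm_mul, norm_zpow, norm_uu, one_zpow, mul_one]

/-- the Fourier coefficients of the plane waves do not vanish identically -/
lemma cK_ne (k : ℤ) : ∃ w : ℂ, cK k w ≠ 0 := by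
  set m := k.natAbs with hm
  -- a small radius
  obtain ⟨r, hr0, hr1, hr2⟩ : ∃ r : ℝ, 0 < r ∧ r ≤ 1 ∧ r * (2 ^ m * m.factorial * 2) < 1 := by
    refine ⟨(2 ^ m * m.factorial * 2 + 1)⁻¹, by positivity, ?_, ?_⟩
    · exact inv_le_one_of_one_le₀ (by
        have : (0 : ℝ) ≤ 2 ^ m * m.factorial * 2 := by positivity
        linarith)
    · have : (0 : ℝ) < 2 ^ m * m.factorial * 2 + 1 := by positivity
      rw [inv_mul_lt_iff₀ this]
      linarith
  refine ⟨(r : ℂ), fun h0 => ?_⟩
  have hre : ∀ t : ℝ, (((r : ℂ) * uu t).re : ℂ) = (r : ℂ) * (Real.cos t : ℂ) := by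
    intro t
    rw [Complex.re_ofReal_mul]
    unfold uu
    rw [← Complex.ofReal_neg, Complex.exp_ofReal_mul_I_re, Real.cos_neg]
    push_cast; ring
  -- the Taylor polynomial
  have e1 : ∫ t, uu t ^ k * ∑ j ∈ Finset.range (m + 1), (I * ((r : ℂ) * (Real.cos t : ℂ))) ^ j
      / (j.factorial : ℂ) ∂ang = (I * r / 2) ^ m / (m.factorial : ℂ) := by
    have e2 : ∀ t : ℝ, uu t ^ k * ∑ j ∈ Finset.range (m + 1), (I * ((r : ℂ) * (Real.cos t : ℂ))) ^ j
      / (j.factorial : ℂ) = ∑ j ∈ Finset.range (m + 1), ((I * r) ^ j / (j.factorial : ℂ))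
        * (uu t ^ k * ((Real.cos t : ℝ) : ℂ) ^ j) := by
      intro t
      rw [Finset.mul_sum]
      refine Finset.sum_congr rfl fun j _ => ?_
      rw [mul_pow, mul_pow, mul_pow]; ring
    simp only [e2]
    rw [integral_finset_sum]
    · simp only [integral_const_mul]
      rw [Finset.sum_congr rfl fun j hj => by
        rw [int_uu_cos k j (by rw [Finset.mem_range] at hj; omega)]]
      rw [Finset.sum_eq_single_of_mem m (Finset.mem_range.2 (Nat.lt_succ_self m))]
      · rw [if_pos rfl, one_div, inv_pow, div_pow, mul_pow]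
        field_simp
      · intro j _ hj
        rw [if_neg hj, mul_zero]
    · intro j _
      have hc : Continuous fun t : ℝ => uu t ^ k * ((Real.cos t : ℝ) : ℂ) ^ j :=
        (continuous_uu_zpow k).mul ((Complex.continuous_ofReal.comp Real.continuous_cos).pow j)
      refine (Integrable.of_bound hc.aestronglyMeasurable 1 (Eventually.of_forall fun t => ?_)).const_mul _
      rw [norm_mul, norm_zpow, norm_uu, one_zpow, one_mul, norm_pow, Complex.norm_real]
      exact pow_le_one₀ (norm_nonneg _) (Real.abs_cos_le_one t)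
  -- the remainder
  have hcont : Continuous fun t => uu t ^ k * (ee (r : ℂ) (uu t)
      - ∑ j ∈ Finset.range (m + 1), (I * ((r : ℂ) * (Real.cos t : ℂ))) ^ j / (j.factorial : ℂ)) := by
    refine (continuous_uu_zpow k).mul ((continuous_ee_uu _).sub
      (continuous_finset_sum _ fun j _ => ?_))
    fun_prop
  have e3 : ‖∫ t, uu t ^ k * (ee (r : ℂ) (uu t) - ∑ j ∈ Finset.range (m + 1),
      (I * ((r : ℂ) * (Real.cos t : ℂ))) ^ j / (j.factorial : ℂ)) ∂ang‖
      ≤ r ^ (m + 1) * 2 / (m + 1).factorial := by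
    calc _ ≤ ∫ t : ℝ, r ^ (m + 1) * 2 / (m + 1).factorial ∂ang := by
          refine norm_integral_le_of_norm_le (integrable_const _) (Eventually.of_forall fun t => ?_)
          rw [norm_mul, norm_zpow, norm_uu, one_zpow, one_mul]
          unfold ee
          rw [hre]
          have hx : ‖I * ((r : ℂ) * (Real.cos t : ℂ))‖ ≤ r := by
            rw [norm_mul, Complex.norm_I, one_mul, norm_mul, Complex.norm_real, Complex.norm_real,
              Real.norm_of_nonneg hr0.le]
            exact mul_le_of_le_one_right hr0.le (Real.abs_cos_le_one t)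
          have hb := Complex.exp_bound (hx.trans hr1) (Nat.succ_pos m)
          refine hb.trans ?_
          calc ‖I * ((r : ℂ) * (Real.cos t : ℂ))‖ ^ (m + 1)
                * (((m + 1).succ : ℝ) * (((m + 1).factorial : ℝ) * ((m + 1 : ℕ) : ℝ))⁻¹)
              ≤ r ^ (m + 1) * (2 * ((m + 1).factorial : ℝ)⁻¹) := by
                gcongr ?_ * ?_
                · exact pow_le_pow_left₀ (norm_nonneg _) hx _
                · rw [mul_inv, ← mul_assoc, mul_comm ((m + 1).succ : ℝ), mul_assoc, mul_comm (2 : ℝ)]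
                  gcongr
                  rw [mul_inv_le_iff₀ (by positivity)]
                  push_cast
                  linarith
            _ = _ := by ring
      _ = _ := by simp
  have hint1 : Integrable (fun t => uu t ^ k * ee (r : ℂ) (uu t)) ang := by
    refine Integrable.of_bound ((continuous_uu_zpow k).mul
      (continuous_ee_uu _)).aestronglyMeasurable 1 (Eventually.of_forall fun t => ?_)
    show ‖uu t ^ k * ee (r : ℂ) (uu t)‖ ≤ 1
    rw [norm_mul, norm_zpow, norm_uu, one_zpow, one_mul]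
    unfold ee
    rw [mul_comm I, Complex.norm_exp_ofReal_mul_I]
  have hint2 : Integrable (fun t => uu t ^ k * ∑ j ∈ Finset.range (m + 1),
      (I * ((r : ℂ) * (Real.cos t : ℂ))) ^ j / (j.factorial : ℂ)) ang := by
    have h1 : Integrable (fun t => uu t ^ k * (ee (r : ℂ) (uu t)
      - ∑ j ∈ Finset.range (m + 1), (I * ((r : ℂ) * (Real.cos t : ℂ))) ^ j / (j.factorial : ℂ)))
        ang := by
      refine (hcont.integrableOn_Icc (μ := volume) (a := 0) (b := 2 * Real.pi)).mono_set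
        Ioc_subset_Icc_self |>.smul_measure ?_
      rw [Ne, ENNReal.inv_eq_top, Real.volume_Ioc, ENNReal.ofReal_eq_zero, not_le, sub_zero]
      positivity
    refine (hint1.sub h1).congr (Eventually.of_forall fun t => ?_)
    simp only [Pi.sub_apply]
    ring
  have e4 : ∫ t, uu t ^ k * (ee (r : ℂ) (uu t) - ∑ j ∈ Finset.range (m + 1),
      (I * ((r : ℂ) * (Real.cos t : ℂ))) ^ j / (j.factorial : ℂ)) ∂ang
      = - ((I * r / 2) ^ m / (m.factorial : ℂ)) := by
    rw [← e1]
    simp only [mul_sub]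
    rw [integral_sub hint1 hint2]
    have : ∫ t, uu t ^ k * ee (r : ℂ) (uu t) ∂ang = 0 := h0
    rw [this, zero_sub]
  rw [e4, norm_neg, norm_div, norm_pow, norm_div, norm_mul, Complex.norm_I, one_mul,
    Complex.norm_real, Real.norm_of_nonneg hr0.le, Complex.norm_natCast] at e3
  have e5 : ‖(2 : ℂ)‖ = 2 := by simp
  rw [e5, div_pow] at e3
  have hf : (0 : ℝ) < m.factorial := by exact_mod_cast Nat.factorial_pos m
  have hf1 : (1 : ℝ) ≤ (m + 1).factorial := by exact_mod_cast Nat.factorial_pos (m + 1)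
  have e6 : r ^ (m + 1) * 2 / (m + 1).factorial ≤ r ^ (m + 1) * 2 :=
    div_le_self (by positivity) hf1
  have e7 := e3.trans e6
  rw [div_div, div_le_iff₀ (by positivity)] at e7
  have e8 : r ^ (m + 1) * 2 * (2 ^ m * (m.factorial : ℝ))
      = r ^ m * (r * (2 ^ m * m.factorial * 2)) := by ring
  rw [e8] at e7
  have hrm : 0 < r ^ m := by positivity
  have : r ^ m * (r * (2 ^ m * m.factorial * 2)) < r ^ m * 1 := by gcongr
  linarith

lemma int_ang_w {K : Set ℂ} (hK : IsCompact K) {H : ℝ × ℂ → ℂ} (hH : ContinuousOn H (univ ×ˢ K))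
    (W : ℝ → ℂ) (hW : Continuous W) (hW1 : ∀ θ, ‖W θ‖ ≤ 1) :
    Integrable (fun θ => W θ * ∫ z in K, H (θ, z)) ang := by
  have h1 : Integrable (fun θ => ∫ z in K, H (θ, z)) ang := int_ang_left hK hH
  exact h1.bdd_mul hW.aestronglyMeasurable (Eventually.of_forall hW1)

/-- the model correlations tested against functions of the direction -/
theorem tendsto_model_w {k : ℕ} (r : ℤ) (y : Fin k → ℂ) :
    Tendsto (fun N : ℕ => ∑ p ∈ Fintype.piFinset (fun _ : Fin k => Finset.Icc (-(N : ℤ)) N),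
      (∏ i, CN N (p i) (y i)) * (if r + ∑ i, p i = 0 then 1 else 0)) atTop
      (𝓝 (∫ t, uu t ^ r * ∏ i, ee (y i) (uu t) ∂ang)) := by
  have h1 : ∀ N : ℕ, ∑ p ∈ Fintype.piFinset (fun _ : Fin k => Finset.Icc (-(N : ℤ)) N),
      (∏ i, CN N (p i) (y i)) * (if r + ∑ i, p i = 0 then 1 else 0)
      = ∫ t, uu t ^ r * ∏ i, pp N (y i) (uu t) ∂ang := by
    intro N
    have e2 : ∀ (p : Fin k → ℤ) (t : ℝ), uu t ^ r * ∏ i, uu t ^ p i = uu t ^ (r + ∑ i, p i) := by
      intro p t
      have e4 : ∏ i, (uu t) ^ (p i) = (uu t) ^ (∑ i, p i) := by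
        induction (Finset.univ : Finset (Fin k)) using Finset.induction_on with
        | empty => simp
        | insert i t hi ih =>
          rw [Finset.prod_insert hi, Finset.sum_insert hi, zpow_add₀ (uu_ne _), ih]
      rw [e4, zpow_add₀ (uu_ne t)]
    have hint : ∀ p ∈ Fintype.piFinset (fun _ : Fin k => Finset.Icc (-(N : ℤ)) N),
        Integrable (fun t => (∏ i, CN N (p i) (y i)) * (uu t ^ r * ∏ i, uu t ^ (p i))) ang := by
      intro p _
      simp only [e2]
      have hc : Continuous (fun t => (∏ i, CN N (p i) (y i)) * uu t ^ (r + ∑ i, p i)) :=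
        continuous_const.mul (continuous_uu_zpow _)
      refine Integrable.of_bound hc.aestronglyMeasurable (‖∏ i, CN N (p i) (y i)‖)
        (Eventually.of_forall fun o => ?_)
      rw [norm_mul, norm_zpow, norm_uu, one_zpow, mul_one]
    have e5 : ∀ p : Fin k → ℤ, (∏ i, CN N (p i) (y i)) * (if r + ∑ i, p i = 0 then 1 else 0)
        = ∫ t, (∏ i, CN N (p i) (y i)) * (uu t ^ r * ∏ i, uu t ^ (p i)) ∂ang := by
      intro p
      simp only [e2]
      rw [integral_const_mul, ang_zpow]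
    rw [Finset.sum_congr rfl fun p _ => e5 p, ← integral_finset_sum _ hint]
    refine integral_congr_ae (Eventually.of_forall fun t => ?_)
    unfold pp
    beta_reduce
    rw [Finset.prod_univ_sum, Finset.mul_sum]
    refine Finset.sum_congr rfl fun p _ => ?_
    rw [Finset.prod_mul_distrib]; ring
  simp only [h1]
  refine tendsto_integral_of_dominated_convergence (fun _ => ∏ i, Real.exp ‖y i‖) (fun N => ?_)
    (integrable_const _) (fun N => Eventually.of_forall fun o => ?_)
    (Eventually.of_forall fun o => ?_)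
  · exact ((continuous_uu_zpow r).mul (continuous_finset_prod _ fun i _ => continuous_pp_uu N (y i)
      continuous_id)).aestronglyMeasurable
  · rw [norm_mul, norm_zpow, norm_uu, one_zpow, one_mul, norm_prod]
    exact Finset.prod_le_prod (fun _ _ => norm_nonneg _) fun i _ => norm_pp_le (norm_uu _) N (y i)
  · exact (tendsto_finset_prod _ fun i _ => tendsto_pp (norm_uu _) (y i)).const_mul _

namespace Setup

variable (S : Setup U g a h φ)

include S

/-- weighted rotation averages of products of two values and of their Taylor polynomials -/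
theorem rot_close_w {K : Set ℂ} (hK : IsCompact K) {δ : ℝ} (hδ : 0 < δ)
    (hδU : Metric.cthickening (2 * δ) K ⊆ U) (q : ℤ) (y : Fin 2 → ℂ)
    (ξ : Fin 2 → ℕ → ℝ → ℂ → ℂ) (hξ : ∀ i, Disp h a K q (y i) (ξ i)) {ζ : ℂ → ℂ}
    (hζ : ContinuousOn ζ K) (W : ℝ → ℂ) (hW : Continuous W) (hW1 : ∀ θ, ‖W θ‖ ≤ 1)
    {ε : ℝ} (hε : 0 < ε) :
    ∃ N₀ : ℕ, ∀ N ≥ N₀, ∀ᶠ n in atTop,
      ‖(∫ θ, W θ * (∫ z in K, ζ z * (φ n (z + h n * a z * ξ 0 n θ z)
          * φ n (z + h n * a z * ξ 1 n θ z))) ∂ang)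
        - ∫ θ, W θ * (∫ z in K, ζ z * (Phi h a φ N (uu θ ^ q * y 0) n z
          * Phi h a φ N (uu θ ^ q * y 1) n z)) ∂ang‖ ≤ ε := by
  have hKU : K ⊆ U := (Metric.self_subset_cthickening K).trans hδU
  set K₁ := Metric.cthickening δ K with hK₁def
  have hK₁ : IsCompact K₁ := hK.cthickening
  have hK₁U : K₁ ⊆ U := (Metric.cthickening_mono (by linarith) K).trans hδU
  obtain ⟨M₀, hM₀⟩ := S.tame.bdd4 K₁ hK₁ hK₁U
  obtain ⟨Z₀, hZ₀⟩ := hK.exists_bound_of_continuousOn hζ
  set B : ℝ := max (4 * |M₀|) ((volume K).toReal) with hB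
  have hB0 : 0 ≤ B := le_trans (by positivity) (le_max_left _ _)
  obtain ⟨ε₁, hε₁, hclose⟩ := prod4_close hK (abs_nonneg Z₀) hB0 hε
  have hT : ∀ i, ∃ N₀ : ℕ, ∀ N ≥ N₀, ∀ᶠ n in atTop, ∀ θ : ℝ, ∫ z in K,
      ‖φ n (z + h n * a z * ξ i n θ z) - Phi h a φ N (uu θ ^ q * y i) n z‖ ^ 4 ≤ ε₁ := by
    intro i
    obtain ⟨N₀, hN₀⟩ := S.taylor hK hδ hδU (norm_nonneg (y i)) hε₁
    refine ⟨N₀, fun N hN => hN₀ N hN ℝ (fun θ => uu θ ^ q * y i) (ξ i) (fun θ => ?_) (hξ i).lim ?_
      (hξ i).lip⟩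
    · rw [norm_mul, norm_zpow, norm_uu, one_zpow, one_mul]
    · filter_upwards [(hξ i).cont] with n hn θ
      exact hn.comp (by fun_prop : ContinuousOn (fun z : ℂ => (θ, z)) K)
        fun z hz => ⟨mem_univ _, hz⟩
  choose N₀ hN₀ using hT
  refine ⟨∑ i, N₀ i, fun N hN => ?_⟩
  have hNi : ∀ i, N₀ i ≤ N := fun i =>
    (Finset.single_le_sum (f := N₀) (fun _ _ => Nat.zero_le _) (Finset.mem_univ i)).trans hN
  have e1 : ∀ᶠ n in atTop, ∀ i : Fin 2, ∀ θ : ℝ, ∫ z in K,
      ‖φ n (z + h n * a z * ξ i n θ z) - Phi h a φ N (uu θ ^ q * y i) n z‖ ^ 4 ≤ ε₁ :=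
    eventually_all.2 fun i => hN₀ i N (hNi i)
  have e2 : ∀ᶠ n in atTop, ∀ i : Fin 2, ContinuousOn (fun p : ℝ × ℂ => ξ i n p.1 p.2) (univ ×ˢ K) :=
    eventually_all.2 fun i => (hξ i).cont
  have e3 : ∀ᶠ n in atTop, ∀ i : Fin 2, ∀ θ, ∀ z ∈ K, ∀ t ∈ Icc (0 : ℝ) 1,
      z + t • ((h n : ℂ) * a z * ξ i n θ z) ∈ K₁ :=
    eventually_all.2 fun i => S.seg_mem hK hδ hδU (hξ i)
  have e4 : ∀ᶠ n in atTop, ∀ i : Fin 2, ∀ θ, ∀ z ∈ K, ∀ w ∈ K,
      ‖h n * a z * ξ i n θ z - h n * a w * ξ i n θ w‖ ≤ (1 / 2) * ‖z - w‖ :=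
    eventually_all.2 fun i => (hξ i).lip
  filter_upwards [e1, e2, e3, e4, hM₀] with n n1 n2 n3 n4 n5
  -- joint continuity of the fields
  have hmem : ∀ i θ, ∀ z ∈ K, z + (h n : ℂ) * a z * ξ i n θ z ∈ K₁ := by
    intro i θ z hz
    have := n3 i θ z hz 1 (by simp)
    rwa [one_smul] at this
  have cdisp : ∀ i, ContinuousOn (fun p : ℝ × ℂ => p.2 + (h n : ℂ) * a p.2 * ξ i n p.1 p.2)
      (univ ×ˢ K) := fun i =>
    continuousOn_snd.add ((continuousOn_const.mul ((S.ha.continuousOn.mono hKU).comp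
      continuousOn_snd fun p hp => hp.2)).mul (n2 i))
  have cF : ∀ i, ContinuousOn (fun p : ℝ × ℂ => φ n (p.2 + (h n : ℂ) * a p.2 * ξ i n p.1 p.2))
      (univ ×ˢ K) := fun i =>
    ((S.tame.smooth n).continuousOn.mono hK₁U).comp (cdisp i) fun p hp => hmem i p.1 p.2 hp.2
  have cG : ∀ i, ContinuousOn (fun p : ℝ × ℂ => Phi h a φ N (uu p.1 ^ q * y i) n p.2)
      (univ ×ˢ K) := fun i => S.Phi_cont hKU q (y i) N n
  have cζ : ContinuousOn (fun p : ℝ × ℂ => ζ p.2) (univ ×ˢ K) :=
    hζ.comp continuousOn_snd fun p hp => hp.2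
  have sec : ∀ (H : ℝ × ℂ → ℂ), ContinuousOn H (univ ×ˢ K) → ∀ θ : ℝ,
      ContinuousOn (fun z => H (θ, z)) K := fun H hH θ =>
    hH.comp (by fun_prop : ContinuousOn (fun z : ℂ => (θ, z)) K) fun z hz => ⟨mem_univ _, hz⟩
  have iF : Integrable (fun θ => W θ * ∫ z in K, ζ z * (φ n (z + h n * a z * ξ 0 n θ z)
      * φ n (z + h n * a z * ξ 1 n θ z))) ang :=
    int_ang_w hK (cζ.mul ((cF 0).mul (cF 1))) W hW hW1
  have iG : Integrable (fun θ => W θ * ∫ z in K, ζ z * (Phi h a φ N (uu θ ^ q * y 0) n z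
      * Phi h a φ N (uu θ ^ q * y 1) n z)) ang :=
    int_ang_w hK (cζ.mul ((cG 0).mul (cG 1))) W hW hW1
  have main : ∀ θ : ℝ, ‖(∫ z in K, ζ z * (φ n (z + h n * a z * ξ 0 n θ z)
      * φ n (z + h n * a z * ξ 1 n θ z)))
        - ∫ z in K, ζ z * (Phi h a φ N (uu θ ^ q * y 0) n z
      * Phi h a φ N (uu θ ^ q * y 1) n z)‖ ≤ ε := by
    intro θ
    have bφ : ∀ i, ∫ z in K, ‖φ n (z + (h n : ℂ) * a z * ξ i n θ z)‖ ^ 4 ≤ B := by
      intro i
      refine le_trans ?_ (le_max_left _ _)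
      have hexp := expand_of_lip (v := fun z => (h n : ℂ) * a z * ξ i n θ z) (n4 i θ)
        (t := 1) (by simp)
      simp only [one_smul] at hexp
      have := integral_comp_le hK hK₁ hexp (fun z hz => hmem i θ z hz) (sec _ (cdisp i) θ)
        (f := fun z => ‖φ n z‖ ^ 4)
        (((S.tame.smooth n).continuousOn.mono hK₁U).norm.pow 4) (fun z _ => by positivity)
      refine this.trans ?_
      have := n5.trans (le_abs_self M₀)
      linarith
    have b1 : ∫ z in K, ‖(1 : ℂ)‖ ^ 4 ≤ B := by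
      simp only [norm_one, one_pow]
      rw [integral_const, smul_eq_mul, mul_one, measureReal_restrict_apply_univ]
      exact le_max_right _ _
    have hc := hclose
      (fun i z => if hi : i.val < 2 then φ n (z + (h n : ℂ) * a z * ξ ⟨i.val, hi⟩ n θ z) else 1)
      (fun i z => if hi : i.val < 2 then Phi h a φ N (uu θ ^ q * y ⟨i.val, hi⟩) n z else 1)
      (fun i => by
        by_cases hi : i.val < 2
        · simp only [hi, dif_pos]; exact sec _ (cF ⟨i.val, hi⟩) θ
        · simp only [hi, dif_neg, not_false_eq_true]; exact continuousOn_const)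
      (fun i => by
        by_cases hi : i.val < 2
        · simp only [hi, dif_pos]; exact sec _ (cG ⟨i.val, hi⟩) θ
        · simp only [hi, dif_neg, not_false_eq_true]; exact continuousOn_const)
      (fun i => by
        by_cases hi : i.val < 2
        · simp only [hi, dif_pos]; exact bφ ⟨i.val, hi⟩
        · simp only [hi, dif_neg, not_false_eq_true]; exact b1)
      (fun i => by
        by_cases hi : i.val < 2
        · simp only [hi, dif_pos]; exact n1 ⟨i.val, hi⟩ θ
        · simp only [hi, dif_neg, not_false_eq_true, sub_self, norm_zero]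
          simpa using hε₁.le)
      ζ hζ (fun z hz => (hZ₀ z hz).trans (le_abs_self Z₀))
    simpa using hc
  rw [← integral_sub iF iG]
  calc _ ≤ ∫ θ : ℝ, ε ∂ang := norm_integral_le_of_norm_le (integrable_const _)
        (Eventually.of_forall fun θ => by
          rw [← mul_sub, norm_mul]
          calc _ ≤ 1 * ε := mul_le_mul (hW1 θ) (main θ) (norm_nonneg _) zero_le_one
            _ = ε := one_mul ε)
    _ = ε := by simp

/-- weighted rotation averages of the products of the Taylor polynomials -/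
theorem rot_expand_w {K : Set ℂ} (hK : IsCompact K) (hKU : K ⊆ U) {q : ℤ} (hq : q ≠ 0) {k : ℕ}
    (y : Fin k → ℂ) {ζ : ℂ → ℂ} (hζ : ContinuousOn ζ K) (r : ℤ) (N n : ℕ) :
    ∫ θ, (uu θ ^ q) ^ r * (∫ z in K, ζ z * ∏ i, Phi h a φ N (uu θ ^ q * y i) n z) ∂ang
      = ∑ p ∈ Fintype.piFinset (fun _ : Fin k => Finset.Icc (-(N : ℤ)) N),
        (∏ i, CN N (p i) (y i)) * ((if r + ∑ i, p i = 0 then 1 else 0)
          * ∫ z in K, ζ z * ∏ i, E h a φ (p i) n z) := by
  set s := Fintype.piFinset (fun _ : Fin k => Finset.Icc (-(N : ℤ)) N) with hs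
  have hE : ∀ p : Fin k → ℤ, IntegrableOn (fun z => ζ z * ∏ i, E h a φ (p i) n z) K := by
    intro p
    refine ContinuousOn.integrableOn_compact hK ?_
    exact hζ.mul (continuousOn_finset_prod _ fun i _ =>
      ((S.tame_E (p i)).smooth n).continuousOn.mono hKU)
  have e1 : ∀ θ : ℝ, (uu θ ^ q) ^ r * ∫ z in K, ζ z * ∏ i, Phi h a φ N (uu θ ^ q * y i) n z
      = ∑ p ∈ s, ((uu θ ^ q) ^ (r + ∑ i, p i)) * ((∏ i, CN N (p i) (y i))
          * ∫ z in K, ζ z * ∏ i, E h a φ (p i) n z) := by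
    intro θ
    have hu : ‖uu θ ^ q‖ = 1 := by rw [norm_zpow, norm_uu, one_zpow]
    have hu0 : uu θ ^ q ≠ 0 := zpow_ne_zero _ (uu_ne θ)
    have e2 : ∀ z, ζ z * ∏ i, Phi h a φ N (uu θ ^ q * y i) n z
        = ∑ p ∈ s, ((uu θ ^ q) ^ (∑ i, p i) * ∏ i, CN N (p i) (y i))
          * (ζ z * ∏ i, E h a φ (p i) n z) := by
      intro z
      have e3 : ∏ i, Phi h a φ N (uu θ ^ q * y i) n z = ∑ p ∈ s,
          ∏ i, ((uu θ ^ q) ^ (p i) * CN N (p i) (y i) * E h a φ (p i) n z) := by
        rw [hs, ← Finset.prod_univ_sum (fun _ : Fin k => Finset.Icc (-(N : ℤ)) N)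
          (fun i j => (uu θ ^ q) ^ j * CN N j (y i) * E h a φ j n z)]
        refine Finset.prod_congr rfl fun i _ => ?_
        rw [Phi_eq]
        exact Finset.sum_congr rfl fun j _ => by rw [CN_rot N hu]
      rw [e3, Finset.mul_sum]
      refine Finset.sum_congr rfl fun p _ => ?_
      rw [Finset.prod_mul_distrib, Finset.prod_mul_distrib]
      have e4 : ∏ i, (uu θ ^ q) ^ (p i) = (uu θ ^ q) ^ (∑ i, p i) := by
        induction (Finset.univ : Finset (Fin k)) using Finset.induction_on with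
        | empty => simp
        | insert i t hi ih => rw [Finset.prod_insert hi, Finset.sum_insert hi, zpow_add₀ hu0, ih]
      rw [e4]; ring
    simp only [e2]
    rw [integral_finset_sum _ fun p _ => (hE p).const_mul _, Finset.mul_sum]
    refine Finset.sum_congr rfl fun p _ => ?_
    rw [integral_const_mul, zpow_add₀ hu0]; ring
  simp only [e1]
  rw [integral_finset_sum]
  · refine Finset.sum_congr rfl fun p _ => ?_
    rw [integral_mul_const, ang_zpow_mul hq]
    ring
  · intro p _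
    refine Integrable.mul_const ?_ _
    simp only [← zpow_mul]
    refine Integrable.of_bound (continuous_uu_zpow _).aestronglyMeasurable 1
      (Eventually.of_forall fun θ => ?_)
    rw [norm_zpow, norm_uu, one_zpow]

/-- moving the indices -/
theorem int_move (j m : ℤ) {ζ : ℂ → ℂ} (hζ : Test U ζ) :
    Tendsto (fun n => (∫ z, ζ z * (E h a φ j n z * E h a φ m n z))
      - (-1) ^ j * ∫ z, ζ z * (E h a φ 0 n z * E h a φ (j + m) n z)) atTop (𝓝 0) := by
  have up : ∀ j : ℤ, (∀ m : ℤ, Tendsto (fun n => (∫ z, ζ z * (E h a φ j n z * E h a φ m n z))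
      - (-1) ^ j * ∫ z, ζ z * (E h a φ 0 n z * E h a φ (j + m) n z)) atTop (𝓝 0)) →
      ∀ m : ℤ, Tendsto (fun n => (∫ z, ζ z * (E h a φ (j + 1) n z * E h a φ m n z))
      - (-1) ^ (j + 1) * ∫ z, ζ z * (E h a φ 0 n z * E h a φ (j + 1 + m) n z)) atTop (𝓝 0) := by
    intro j hj m
    have h2 := (S.int_add j m hζ).sub (hj (m + 1))
    rw [sub_zero] at h2
    refine h2.congr fun n => ?_
    have : j + 1 + m = j + (m + 1) := by ring
    rw [this, zpow_add_one₀ (by norm_num)]; ring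
  have down : ∀ j : ℤ, (∀ m : ℤ, Tendsto (fun n => (∫ z, ζ z * (E h a φ j n z * E h a φ m n z))
      - (-1) ^ j * ∫ z, ζ z * (E h a φ 0 n z * E h a φ (j + m) n z)) atTop (𝓝 0)) →
      ∀ m : ℤ, Tendsto (fun n => (∫ z, ζ z * (E h a φ (j - 1) n z * E h a φ m n z))
      - (-1) ^ (j - 1) * ∫ z, ζ z * (E h a φ 0 n z * E h a φ (j - 1 + m) n z)) atTop (𝓝 0) := by
    intro j hj m
    have h2 := (S.int_add (j - 1) (m - 1) hζ).sub (hj (m - 1))
    rw [sub_zero, sub_add_cancel, sub_add_cancel] at h2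
    refine h2.congr fun n => ?_
    have : j - 1 + m = j + (m - 1) := by ring
    rw [this, zpow_sub_one₀ (by norm_num)]
    have : ((-1 : ℂ))⁻¹ = -1 := by norm_num
    rw [this]; ring
  induction j using Int.induction_on generalizing m with
  | zero =>
    refine tendsto_const_nhds.congr fun n => ?_
    rw [zpow_zero, one_mul, zero_add, sub_self]
  | succ j ih => exact up _ ih m
  | pred j ih => exact down _ ih m

/-- **The two-point functions tested against functions of the direction.** -/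
theorem two_mode {K : Set ℂ} (hK : IsCompact K) {δ : ℝ} (hδ : 0 < δ)
    (hδU : Metric.cthickening (2 * δ) K ⊆ U) {q : ℤ} (hq : q ≠ 0) (r : ℤ) (y : Fin 2 → ℂ)
    (ξ : Fin 2 → ℕ → ℝ → ℂ → ℂ) (hξ : ∀ i, Disp h a K q (y i) (ξ i)) {ζ : ℂ → ℂ}
    (hζ : Test U ζ) (hζK : tsupport ζ ⊆ K) :
    Tendsto (fun n => (∫ θ, (uu θ ^ q) ^ r * (∫ z in K, ζ z * (φ n (z + h n * a z * ξ 0 n θ z)
        * φ n (z + h n * a z * ξ 1 n θ z))) ∂ang)
      - (∫ z, ζ z * (E h a φ 0 n z * E h a φ (-r) n z)) * cK r (y 1 - y 0)) atTop (𝓝 0) := by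
  have hKU : K ⊆ U := (Metric.self_subset_cthickening K).trans hδU
  have hset : ∀ f : ℂ → ℂ, ∫ z, ζ z * f z = ∫ z in K, ζ z * f z := by
    intro f
    rw [setIntegral_eq_integral_of_forall_compl_eq_zero]
    intro z hz
    rw [image_eq_zero_of_notMem_tsupport (fun hz' => hz (hζK hz')), zero_mul]
  have hζc : ContinuousOn ζ K := hζ.smooth.continuous.continuousOn
  obtain ⟨C₁, hC₁⟩ := (((S.tame_E 0).bdd4.mul4 (S.tame_E 0).smooth (S.tame_E (-r)).bdd4
    (S.tame_E (-r)).smooth)).test ((S.tame_E 0).smooth.mul (S.tame_E (-r)).smooth) hζ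
  have key := lim_combine
    (X := fun n => ∫ θ, (uu θ ^ q) ^ r * (∫ z in K, ζ z * (φ n (z + h n * a z * ξ 0 n θ z)
        * φ n (z + h n * a z * ξ 1 n θ z))) ∂ang)
    (T := fun N n => ∑ p ∈ Fintype.piFinset (fun _ : Fin 2 => Finset.Icc (-(N : ℤ)) N),
        (∏ i, CN N (p i) (y i)) * ((if r + ∑ i, p i = 0 then 1 else 0)
          * ∫ z in K, ζ z * ∏ i, E h a φ (p i) n z))
    (W₁ := fun N => ∑ p ∈ Fintype.piFinset (fun _ : Fin 2 => Finset.Icc (-(N : ℤ)) N),
        (∏ i, CN N (p i) (y i)) * ((if r + ∑ i, p i = 0 then 1 else 0) * (-1) ^ (p 0)))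
    (W₂ := fun _ => 0)
    (α := fun n => ∫ z, ζ z * (E h a φ 0 n z * E h a φ (-r) n z)) (β := fun _ => 0)
    (V₁ := cK r (y 1 - y 0)) (V₂ := 0) (C := max C₁ 0) ?_ ?_ ?_ tendsto_const_nhds
    (hC₁.mono fun n hn => hn.trans (le_max_left _ _))
    (Eventually.of_forall fun n => by rw [norm_zero]; exact le_max_right _ _)
  · refine key.congr fun n => ?_
    ring
  · intro ε hε
    obtain ⟨N₀, hN₀⟩ := S.rot_close_w hK hδ hδU q y ξ hξ hζc (fun θ => (uu θ ^ q) ^ r)
      (by simp only [← zpow_mul]; exact continuous_uu_zpow _)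
      (fun θ => by rw [norm_zpow, norm_zpow, norm_uu, one_zpow, one_zpow]) hε
    refine ⟨N₀, fun N hN => ?_⟩
    filter_upwards [hN₀ N hN] with n hn
    have e1 := S.rot_expand_w hK hKU hq y hζc r N n
    simp only [Fin.prod_univ_two] at e1
    rw [e1] at hn
    simp only [Fin.prod_univ_two]
    exact hn
  · intro N
    have h1 : ∀ p : Fin 2 → ℤ, Tendsto (fun n => (if r + ∑ i, p i = 0 then 1 else 0)
        * (∫ z in K, ζ z * ∏ i, E h a φ (p i) n z)
        - (∫ z, ζ z * (E h a φ 0 n z * E h a φ (-r) n z))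
          * ((if r + ∑ i, p i = 0 then 1 else 0) * (-1) ^ (p 0))) atTop (𝓝 0) := by
      intro p
      by_cases hp : r + ∑ i, p i = 0
      · simp only [if_pos hp, one_mul]
        rw [Fin.sum_univ_two] at hp
        have hp' : p 0 + p 1 = -r := by linarith
        have h2 := S.int_move (p 0) (p 1) hζ
        rw [hp'] at h2
        refine h2.congr fun n => ?_
        rw [hset (fun z => E h a φ (p 0) n z * E h a φ (p 1) n z)]
        simp only [Fin.prod_univ_two]
        ring
      · simp only [if_neg hp, zero_mul, mul_zero, sub_zero]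
        exact tendsto_const_nhds
    have h2 := tendsto_finset_sum (Fintype.piFinset (fun _ : Fin 2 => Finset.Icc (-(N : ℤ)) N))
      fun p _ => (h1 p).const_mul (∏ i, CN N (p i) (y i))
    simp only [mul_zero, Finset.sum_const_zero] at h2
    refine h2.congr fun n => ?_
    rw [mul_zero, add_zero, Finset.mul_sum, ← Finset.sum_sub_distrib]
    exact Finset.sum_congr rfl fun p _ => by ring
  · -- the model
    have m1 := tendsto_model_w r ![-(y 0), y 1]
    have e1 : ∀ t : ℝ, uu t ^ r * ∏ i, ee ((![-(y 0), y 1] : Fin 2 → ℂ) i) (uu t)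
        = uu t ^ r * ee (y 1 - y 0) (uu t) := by
      intro t
      rw [Fin.prod_univ_two]
      simp only [Matrix.cons_val_zero, Matrix.cons_val_one]
      rw [ee_add]
      congr 2; ring
    simp only [e1] at m1
    refine m1.congr fun N => Finset.sum_congr rfl fun p _ => ?_
    simp only [Fin.prod_univ_two, Matrix.cons_val_zero, Matrix.cons_val_one]
    rw [CN_neg]
    ring

end Setup

end

end QE
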