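import Pool.Agent.LibH11.QEV.Prod4
import Pool.Agent.LibH11.Berry.WaveK
import Pool.Agent.LibH11.Berry.RFin1

/-!
The correlations of the plane waves in terms of the coefficients of the Taylor polynomials.
-/

open Complex MeasureTheory Filter Topology Set
open scoped ContDiff

namespace QE

noncomputable section

/-- the uniform measure on `(0, 2π]` -/
abbrev ang : Measure ℝ := ProbabilityTheory.cond (volume : Measure ℝ) (Set.Ioc 0 (2 * Real.pi))

instance : IsProbabilityMeasure ang := Berry.angle_prob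

lemma ang_int {F : Type*} [NormedAddCommGroup F] [NormedSpace ℝ F] (f : ℝ → F) :
    ∫ t, f t ∂ang = (2 * Real.pi)⁻¹ • ∫ t in (0 : ℝ)..(2 * Real.pi), f t := by
  have hp : (0 : ℝ) < 2 * Real.pi := by positivity
  rw [intervalIntegral.integral_of_le hp.le]
  unfold ang ProbabilityTheory.cond
  rw [integral_smul_measure, Real.volume_Ioc, sub_zero, ENNReal.toReal_inv,
    ENNReal.toReal_ofReal hp.le]

/-- the unimodular function `e^{-it}` -/
def uu (t : ℝ) : ℂ := Complex.exp (-(t : ℂ) * I)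

lemma norm_uu (t : ℝ) : ‖uu t‖ = 1 := by
  unfold uu
  rw [← Complex.ofReal_neg]
  exact Complex.norm_exp_ofReal_mul_I _

lemma uu_ne (t : ℝ) : uu t ≠ 0 := Complex.exp_ne_zero _

lemma continuous_uu : Continuous uu := by unfold uu; fun_prop

lemma uu_zpow (t : ℝ) (k : ℤ) : uu t ^ k = Complex.exp ((-(k : ℂ) * I) * t) := by
  unfold uu
  rw [← Complex.exp_int_mul]
  congr 1; ring

lemma continuous_uu_zpow (k : ℤ) : Continuous fun t => uu t ^ k := by
  simp only [uu_zpow]; fun_prop

lemma ang_zpow (k : ℤ) : ∫ t, uu t ^ k ∂ang = if k = 0 then 1 else 0 := by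
  rw [ang_int]
  by_cases hk : k = 0
  · simp only [hk, zpow_zero, if_true]
    rw [intervalIntegral.integral_const]
    have hp : (Real.pi : ℂ) ≠ 0 := by exact_mod_cast Real.pi_ne_zero
    simp
    field_simp
  · rw [if_neg hk]
    have hc : -(k : ℂ) * I ≠ 0 := by
      simp [hk]
    simp only [uu_zpow]
    rw [integral_exp_mul_complex hc]
    have h1 : Complex.exp ((-(k : ℂ) * I) * ((2 * Real.pi : ℝ) : ℂ)) = 1 := by
      have := Complex.exp_int_mul_two_pi_mul_I (-k)
      rw [← this]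
      congr 1
      push_cast
      ring
    rw [h1]
    simp

lemma ang_zpow_mul {q : ℤ} (hq : q ≠ 0) (k : ℤ) :
    ∫ t, (uu t ^ q) ^ k ∂ang = if k = 0 then 1 else 0 := by
  simp only [← zpow_mul]
  rw [ang_zpow]
  by_cases hk : k = 0
  · simp [hk]
  · simp [hk, hq]

/-- the coefficients of the Taylor polynomial -/
def CN (N : ℕ) (j : ℤ) (y : ℂ) : ℂ := ∑ k ∈ Finset.range (N + 1), ((k.factorial : ℝ)⁻¹ : ℝ) • cc k j y

lemma CN_rot (N : ℕ) {u : ℂ} (hu : ‖u‖ = 1) (j : ℤ) (y : ℂ) : CN N j (u * y) = u ^ j * CN N j y := by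
  unfold CN
  rw [Finset.mul_sum]
  refine Finset.sum_congr rfl fun k _ => ?_
  rw [cc_rot k hu, Complex.real_smul, Complex.real_smul]
  ring

lemma CN_neg (N : ℕ) (j : ℤ) (y : ℂ) : CN N j (-y) = (-1) ^ j * CN N j y := by
  have := CN_rot N (u := -1) (by simp) j y
  rwa [neg_one_mul] at this

lemma Phi_eq {h : ℕ → ℝ} {a : ℂ → ℂ} {φ : ℕ → ℂ → ℂ} (N : ℕ) (x : ℂ) (n : ℕ) (z : ℂ) :
    Phi h a φ N x n z = ∑ j ∈ Finset.Icc (-(N : ℤ)) N, CN N j x * E h a φ j n z := by
  unfold Phi CN
  simp only [Finset.sum_mul]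
  rw [Finset.sum_comm]
  refine Finset.sum_congr rfl fun k hk => ?_
  have hs : Finset.Icc (-(k : ℤ)) k ⊆ Finset.Icc (-(N : ℤ)) N := by
    intro j hj
    rw [Finset.mem_range] at hk
    rw [Finset.mem_Icc] at hj ⊢
    omega
  rw [TT_eq k 0 _ hs, Finset.smul_sum]
  refine Finset.sum_congr rfl fun j _ => ?_
  rw [zero_add, Complex.real_smul, Complex.real_smul]
  ring

lemma conj_of_norm_one {w : ℂ} (hw : ‖w‖ = 1) : (starRingEnd ℂ) w = w⁻¹ := by
  rw [Complex.inv_def, Complex.normSq_eq_norm_sq, hw]; simp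

lemma sum_cc_zpow {w : ℂ} (hw : ‖w‖ = 1) (y : ℂ) (k : ℕ) : ∀ (m : ℤ) (s : Finset ℤ),
    Finset.Icc (-(k : ℤ)) k ⊆ s →
    ∑ j ∈ s, cc k j y * w ^ (m + j) = (I * ((y * w).re : ℂ)) ^ k * w ^ m := by
  have hw0 : w ≠ 0 := by
    intro h0; rw [h0, norm_zero] at hw; exact zero_ne_one hw
  induction k with
  | zero =>
    intro m s hs
    have h0 : (0 : ℤ) ∈ s := hs (by simp)
    rw [Finset.sum_eq_single_of_mem 0 h0 (fun j _ hj => by simp [cc, hj])]
    simp [cc]
  | succ k ih =>
    intro m s hs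
    have m1 : Finset.Icc (-(k : ℤ)) k ⊆ s.map (Equiv.subRight (1 : ℤ)).toEmbedding := by
      intro j hj
      rw [Finset.mem_map]
      rw [Finset.mem_Icc] at hj
      refine ⟨j + 1, hs ?_, by simp⟩
      rw [Finset.mem_Icc]; push_cast; omega
    have m2 : Finset.Icc (-(k : ℤ)) k ⊆ s.map (Equiv.addRight (1 : ℤ)).toEmbedding := by
      intro j hj
      rw [Finset.mem_map]
      rw [Finset.mem_Icc] at hj
      refine ⟨j - 1, hs ?_, by simp⟩
      rw [Finset.mem_Icc]; push_cast; omega
    have e1 := ih (m + 1) _ m1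
    have e2 := ih (m - 1) _ m2
    rw [Finset.sum_map] at e1 e2
    have hre : 2 * ((y * w).re : ℂ) = y * w + (starRingEnd ℂ) y * w⁻¹ := by
      rw [← conj_of_norm_one hw, ← map_mul, add_conj]
      push_cast; ring
    have e3 : (I * ((y * w).re : ℂ)) ^ (k + 1) * w ^ m
        = (I / 2) * (y * ((I * ((y * w).re : ℂ)) ^ k * w ^ (m + 1))
          + (starRingEnd ℂ) y * ((I * ((y * w).re : ℂ)) ^ k * w ^ (m - 1))) := by
      rw [zpow_add_one₀ hw0, zpow_sub_one₀ hw0, pow_succ]
      linear_combination ((I * ((y * w).re : ℂ)) ^ k * w ^ m * I / 2) * hre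
    rw [e3, ← e1, ← e2, Finset.mul_sum, Finset.mul_sum, ← Finset.sum_add_distrib, Finset.mul_sum]
    refine Finset.sum_congr rfl fun j _ => ?_
    have i1 : m + 1 + (Equiv.subRight (1 : ℤ)).toEmbedding j = m + j := by
      show m + 1 + (j - 1) = m + j
      ring
    have i2 : m - 1 + (Equiv.addRight (1 : ℤ)).toEmbedding j = m + j := by
      show m - 1 + (j + 1) = m + j
      ring
    rw [i1, i2, cc_succ]
    show _ = I / 2 * (y * (cc k (j - 1) y * _) + (starRingEnd ℂ) y * (cc k (j + 1) y * _))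
    ring

/-- the plane wave with the frequency `conj w` -/
def ee (y w : ℂ) : ℂ := Complex.exp (I * ((y * w).re : ℂ))

/-- its Taylor polynomial -/
def pp (N : ℕ) (y w : ℂ) : ℂ := ∑ j ∈ Finset.Icc (-(N : ℤ)) N, CN N j y * w ^ j

lemma pp_eq {w : ℂ} (hw : ‖w‖ = 1) (N : ℕ) (y : ℂ) : pp N y w
    = ∑ k ∈ Finset.range (N + 1), (I * ((y * w).re : ℂ)) ^ k / (k.factorial : ℂ) := by
  unfold pp CN
  simp only [Finset.sum_mul]
  rw [Finset.sum_comm]
  refine Finset.sum_congr rfl fun k hk => ?_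
  have hs : Finset.Icc (-(k : ℤ)) k ⊆ Finset.Icc (-(N : ℤ)) N := by
    intro j hj
    rw [Finset.mem_range] at hk
    rw [Finset.mem_Icc] at hj ⊢
    omega
  have h1 := sum_cc_zpow hw y k 0 _ hs
  rw [zpow_zero, mul_one] at h1
  rw [← h1, Finset.sum_div]
  refine Finset.sum_congr rfl fun j _ => ?_
  rw [zero_add, Complex.real_smul]
  push_cast
  field_simp

lemma tendsto_pp {w : ℂ} (hw : ‖w‖ = 1) (y : ℂ) : Tendsto (fun N => pp N y w) atTop (𝓝 (ee y w)) := by
  have h1 := (NormedSpace.expSeries_div_hasSum_exp (I * ((y * w).re : ℂ))).tendsto_sum_nat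
  have h2 := h1.comp (tendsto_add_atTop_nat 1)
  rw [← Complex.exp_eq_exp_ℂ] at h2
  exact h2.congr fun N => (pp_eq hw N y).symm

lemma norm_pp_le {w : ℂ} (hw : ‖w‖ = 1) (N : ℕ) (y : ℂ) : ‖pp N y w‖ ≤ Real.exp ‖y‖ := by
  rw [pp_eq hw]
  refine (norm_sum_le _ _).trans (le_trans ?_ (Real.sum_le_exp_of_nonneg (norm_nonneg y) (N + 1)))
  refine Finset.sum_le_sum fun k _ => ?_
  rw [norm_div, norm_pow, norm_mul, Complex.norm_I, one_mul, Complex.norm_real, Complex.norm_natCast]
  have h1 : ‖(y * w).re‖ ≤ ‖y‖ := by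
    have := Complex.abs_re_le_norm (y * w)
    rwa [norm_mul, hw, mul_one] at this
  gcongr

lemma continuous_pp_uu {X : Type*} [TopologicalSpace X] (N : ℕ) (y : ℂ) {f : X → ℝ}
    (hf : Continuous f) : Continuous fun x => pp N y (uu (f x)) := by
  unfold pp
  exact continuous_finset_sum _ fun j _ => continuous_const.mul ((continuous_uu_zpow j).comp hf)

/-- **Model correlations.** -/
theorem tendsto_model {Ω : Type*} [MeasurableSpace Ω] [TopologicalSpace Ω] [BorelSpace Ω]
    [SecondCountableTopology Ω]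
    (π : Measure Ω) [IsProbabilityMeasure π] {k : ℕ} (l : Fin k → Ω → ℝ) (hl : ∀ i, Continuous (l i))
    (y : Fin k → ℂ) :
    Tendsto (fun N : ℕ => ∑ p ∈ Fintype.piFinset (fun _ : Fin k => Finset.Icc (-(N : ℤ)) N),
      (∏ i, CN N (p i) (y i)) * ∫ o, ∏ i, uu (l i o) ^ (p i) ∂π) atTop
      (𝓝 (∫ o, ∏ i, ee (y i) (uu (l i o)) ∂π)) := by
  have h1 : ∀ N : ℕ, ∑ p ∈ Fintype.piFinset (fun _ : Fin k => Finset.Icc (-(N : ℤ)) N),
      (∏ i, CN N (p i) (y i)) * ∫ o, ∏ i, uu (l i o) ^ (p i) ∂π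
      = ∫ o, ∏ i, pp N (y i) (uu (l i o)) ∂π := by
    intro N
    have hint : ∀ p ∈ Fintype.piFinset (fun _ : Fin k => Finset.Icc (-(N : ℤ)) N),
        Integrable (fun o => (∏ i, CN N (p i) (y i)) * ∏ i, uu (l i o) ^ (p i)) π := by
      intro p _
      have hc : Continuous (fun o => (∏ i, CN N (p i) (y i)) * ∏ i, uu (l i o) ^ (p i)) :=
        continuous_const.mul (continuous_finset_prod _ fun i _ =>
          (continuous_uu_zpow (p i)).comp (hl i))
      refine Integrable.of_bound hc.aestronglyMeasurable (‖∏ i, CN N (p i) (y i)‖)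
        (Eventually.of_forall fun o => ?_)
      rw [norm_mul, norm_prod]
      simp [norm_uu]
    simp only [← integral_const_mul]
    rw [← integral_finset_sum _ hint]
    refine integral_congr_ae (Eventually.of_forall fun o => ?_)
    unfold pp
    beta_reduce
    rw [Finset.prod_univ_sum]
    refine Finset.sum_congr rfl fun p _ => ?_
    rw [Finset.prod_mul_distrib]
  simp only [h1]
  refine tendsto_integral_of_dominated_convergence (fun _ => ∏ i, Real.exp ‖y i‖) (fun N => ?_)
    (integrable_const _) (fun N => Eventually.of_forall fun o => ?_)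
    (Eventually.of_forall fun o => ?_)
  · exact (continuous_finset_prod _ fun i _ => continuous_pp_uu N (y i)
      (hl i)).aestronglyMeasurable
  · rw [norm_prod]
    exact Finset.prod_le_prod (fun _ _ => norm_nonneg _) fun i _ => norm_pp_le (norm_uu _) N (y i)
  · exact tendsto_finset_prod _ fun i _ => tendsto_pp (norm_uu _) (y i)

lemma ee_add (y y' w : ℂ) : ee y w * ee y' w = ee (y + y') w := by
  unfold ee
  rw [← Complex.exp_add, add_mul, Complex.add_re]
  push_cast
  ring_nf

lemma continuous_ee_uu (y : ℂ) : Continuous fun t => ee y (uu t) := by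
  unfold ee
  have := continuous_uu
  fun_prop

/-- the average of the plane waves is the wave `K` -/
lemma int_ee (y : ℂ) : ∫ t, ee y (uu t) ∂ang = (Berry.waveK y : ℂ) := by
  have hre : ∀ t : ℝ, (y * uu t).re = y.re * Real.cos t + y.im * Real.sin t := by
    intro t
    unfold uu
    rw [← Complex.ofReal_neg, Complex.mul_re, Complex.exp_ofReal_mul_I_re,
      Complex.exp_ofReal_mul_I_im, Real.cos_neg, Real.sin_neg]
    ring
  have he : ∀ t : ℝ, ee y (uu t) = ((Real.cos (y.re * Real.cos t + y.im * Real.sin t) : ℝ) : ℂ)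
      + ((Real.sin (y.re * Real.cos t + y.im * Real.sin t) : ℝ) : ℂ) * I := by
    intro t
    unfold ee
    rw [hre, mul_comm I, Complex.exp_mul_I, Complex.ofReal_cos, Complex.ofReal_sin]
  have hs : ∫ t in (0 : ℝ)..(2 * Real.pi), Real.sin (y.re * Real.cos t + y.im * Real.sin t) = 0 := by
    have hper : Function.Periodic (fun t => Real.sin (y.re * Real.cos t + y.im * Real.sin t))
        (2 * Real.pi) := by
      intro t
      simp only [Real.cos_add_two_pi, Real.sin_add_two_pi]
    have h1 : ∫ t in (0 : ℝ)..(2 * Real.pi), Real.sin (y.re * Real.cos (t + Real.pi)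
        + y.im * Real.sin (t + Real.pi))
        = ∫ t in (0 : ℝ)..(2 * Real.pi), Real.sin (y.re * Real.cos t + y.im * Real.sin t) := by
      rw [intervalIntegral.integral_comp_add_right
        (fun t => Real.sin (y.re * Real.cos t + y.im * Real.sin t)) Real.pi]
      have h4 := hper.intervalIntegral_add_eq (0 + Real.pi) 0
      rw [zero_add (2 * Real.pi)] at h4
      rw [← h4]
      congr 1; ring
    have h2 : ∀ t : ℝ, Real.sin (y.re * Real.cos (t + Real.pi) + y.im * Real.sin (t + Real.pi))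
        = - Real.sin (y.re * Real.cos t + y.im * Real.sin t) := by
      intro t
      rw [Real.cos_add_pi, Real.sin_add_pi]
      have e : y.re * -Real.cos t + y.im * -Real.sin t
          = -(y.re * Real.cos t + y.im * Real.sin t) := by ring
      rw [e, Real.sin_neg]
    simp only [h2] at h1
    rw [intervalIntegral.integral_neg] at h1
    linarith
  simp only [he]
  rw [ang_int]
  have c1 : Continuous fun t : ℝ => ((Real.cos (y.re * Real.cos t + y.im * Real.sin t) : ℝ) : ℂ) := by
    fun_prop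
  have c2 : Continuous fun t : ℝ => ((Real.sin (y.re * Real.cos t + y.im * Real.sin t) : ℝ) : ℂ) * I := by
    fun_prop
  rw [intervalIntegral.integral_add (c1.intervalIntegrable _ _) (c2.intervalIntegrable _ _),
    intervalIntegral.integral_mul_const, intervalIntegral.integral_ofReal,
    intervalIntegral.integral_ofReal, hs]
  unfold Berry.waveK
  rw [Complex.real_smul]
  push_cast
  ring

end

end QE
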