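import Pool.Agent.LibH11.QEV.Taylor2

/-!
Products of four functions which are close in `L⁴`.
-/

open Complex MeasureTheory Filter Topology Set
open scoped ContDiff

namespace QE

noncomputable section

/-- the weighted inequality between the arithmetic and the geometric mean -/
lemma amgm4 {a b c d μ : ℝ} (ha : 0 ≤ a) (hb : 0 ≤ b) (hc : 0 ≤ c) (hd : 0 ≤ d) (hμ : 0 < μ) :
    a * b * c * d ≤ (μ⁻¹) ^ 3 * a ^ 4 + μ * (b ^ 4 + c ^ 4 + d ^ 4) := by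
  -- with `λ = √√μ`
  set l := Real.sqrt (Real.sqrt μ) with hl
  have hl0 : 0 < l := Real.sqrt_pos.2 (Real.sqrt_pos.2 hμ)
  have hl4 : l ^ 4 = μ := by
    rw [hl, show (4 : ℕ) = 2 * 2 from rfl, pow_mul, Real.sq_sqrt (Real.sqrt_nonneg _),
      Real.sq_sqrt hμ.le]
  have key : ∀ x y z w : ℝ, x * y * z * w ≤ (x ^ 4 + y ^ 4 + z ^ 4 + w ^ 4) := by
    intro x y z w
    nlinarith [sq_nonneg (x * y - z * w), sq_nonneg (x ^ 2 - y ^ 2), sq_nonneg (z ^ 2 - w ^ 2),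
      sq_nonneg (x ^ 2), sq_nonneg (y ^ 2), sq_nonneg (z ^ 2), sq_nonneg (w ^ 2)]
  have h1 := key (a * (l⁻¹) ^ 3) (b * l) (c * l) (d * l)
  have e1 : a * (l⁻¹) ^ 3 * (b * l) * (c * l) * (d * l) = a * b * c * d := by
    field_simp
  have e2 : (a * (l⁻¹) ^ 3) ^ 4 = (μ⁻¹) ^ 3 * a ^ 4 := by
    rw [← hl4]; field_simp
  have e3 : (b * l) ^ 4 = μ * b ^ 4 := by rw [← hl4]; ring
  have e4 : (c * l) ^ 4 = μ * c ^ 4 := by rw [← hl4]; ring
  have e5 : (d * l) ^ 4 = μ * d ^ 4 := by rw [← hl4]; ring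
  rw [e1, e2, e3, e4, e5] at h1
  linarith

lemma tele4 (F1 F2 F3 F4 G1 G2 G3 G4 : ℂ) {μ : ℝ} (hμ : 0 < μ) :
    ‖F1 * F2 * F3 * F4 - G1 * G2 * G3 * G4‖ ≤
      (μ⁻¹) ^ 3 * (‖F1 - G1‖ ^ 4 + ‖F2 - G2‖ ^ 4 + ‖F3 - G3‖ ^ 4 + ‖F4 - G4‖ ^ 4)
      + 3 * μ * (‖F1‖ ^ 4 + ‖F2‖ ^ 4 + ‖F3‖ ^ 4 + ‖F4‖ ^ 4
        + (‖G1‖ ^ 4 + ‖G2‖ ^ 4 + ‖G3‖ ^ 4 + ‖G4‖ ^ 4)) := by
  have e : F1 * F2 * F3 * F4 - G1 * G2 * G3 * G4
      = (F1 - G1) * F2 * F3 * F4 + (F2 - G2) * G1 * F3 * F4 + (F3 - G3) * G1 * G2 * F4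
        + (F4 - G4) * G1 * G2 * G3 := by ring
  have n : ∀ x y z w : ℂ, ‖x * y * z * w‖ ≤ (μ⁻¹) ^ 3 * ‖x‖ ^ 4
      + μ * (‖y‖ ^ 4 + ‖z‖ ^ 4 + ‖w‖ ^ 4) := by
    intro x y z w
    rw [norm_mul, norm_mul, norm_mul]
    exact amgm4 (norm_nonneg _) (norm_nonneg _) (norm_nonneg _) (norm_nonneg _) hμ
  have t1 := n (F1 - G1) F2 F3 F4
  have t2 := n (F2 - G2) G1 F3 F4
  have t3 := n (F3 - G3) G1 G2 F4
  have t4 := n (F4 - G4) G1 G2 G3
  have t5 := norm_add_le ((F1 - G1) * F2 * F3 * F4 + (F2 - G2) * G1 * F3 * F4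
    + (F3 - G3) * G1 * G2 * F4) ((F4 - G4) * G1 * G2 * G3)
  have t6 := norm_add_le ((F1 - G1) * F2 * F3 * F4 + (F2 - G2) * G1 * F3 * F4)
    ((F3 - G3) * G1 * G2 * F4)
  have t7 := norm_add_le ((F1 - G1) * F2 * F3 * F4) ((F2 - G2) * G1 * F3 * F4)
  rw [e]
  have p : ∀ x : ℂ, 0 ≤ μ * ‖x‖ ^ 4 := fun x => by positivity
  linarith [p F1, p F2, p F3, p F4, p G1, p G2, p G3, p G4]

/-- **Products of four functions which are close in `L⁴`.** -/
theorem prod4_close {K : Set ℂ} (hK : IsCompact K) {M B : ℝ} (hM : 0 ≤ M) (hB : 0 ≤ B) {ε : ℝ}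
    (hε : 0 < ε) : ∃ ε₁ > 0, ∀ (F G : Fin 4 → ℂ → ℂ), (∀ i, ContinuousOn (F i) K) →
      (∀ i, ContinuousOn (G i) K) → (∀ i, ∫ z in K, ‖F i z‖ ^ 4 ≤ B) →
      (∀ i, ∫ z in K, ‖F i z - G i z‖ ^ 4 ≤ ε₁) → ∀ ζ : ℂ → ℂ, ContinuousOn ζ K →
      (∀ z ∈ K, ‖ζ z‖ ≤ M) →
      ‖(∫ z in K, ζ z * (F 0 z * F 1 z * F 2 z * F 3 z))
        - ∫ z in K, ζ z * (G 0 z * G 1 z * G 2 z * G 3 z)‖ ≤ ε := by
  -- the choice of constants
  set B' : ℝ := 8 * (B + 1) with hB'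
  have hB'0 : 0 < B' := by positivity
  set μ : ℝ := ε / (48 * (M + 1) * B') with hμ
  have hμ0 : 0 < μ := by positivity
  set ε₁ : ℝ := min 1 (ε * μ ^ 3 / (8 * (M + 1))) with hε₁
  have hε₁0 : 0 < ε₁ := by positivity
  refine ⟨ε₁, hε₁0, fun F G hF hG hFB hFG ζ hζ hζM => ?_⟩
  have iF : ∀ i, IntegrableOn (fun z => ‖F i z‖ ^ 4) K := fun i =>
    ((hF i).norm.pow 4).integrableOn_compact hK
  have iG : ∀ i, IntegrableOn (fun z => ‖G i z‖ ^ 4) K := fun i =>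
    ((hG i).norm.pow 4).integrableOn_compact hK
  have iFG : ∀ i, IntegrableOn (fun z => ‖F i z - G i z‖ ^ 4) K := fun i =>
    (((hF i).sub (hG i)).norm.pow 4).integrableOn_compact hK
  have hGB : ∀ i, ∫ z in K, ‖G i z‖ ^ 4 ≤ B' := by
    intro i
    calc ∫ z in K, ‖G i z‖ ^ 4 ≤ ∫ z in K, (‖F i z‖ + ‖F i z - G i z‖) ^ 4 := by
          refine integral_mono_of_nonneg (Eventually.of_forall fun z => by positivity)
            (((hF i).norm.add ((hF i).sub (hG i)).norm).pow 4 |>.integrableOn_compact hK)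
            (Eventually.of_forall fun z => ?_)
          have h1 : ‖G i z‖ ≤ ‖F i z‖ + ‖F i z - G i z‖ := by
            have := norm_sub_le (F i z) (F i z - G i z)
            rwa [sub_sub_cancel] at this
          exact pow_le_pow_left₀ (norm_nonneg _) h1 4
      _ ≤ 8 * ((∫ z in K, ‖F i z‖ ^ 4) + ∫ z in K, ‖F i z - G i z‖ ^ 4) :=
          four_add_int (fun z => norm_nonneg _) (fun z => norm_nonneg _) (iF i) (iFG i)
      _ ≤ 8 * (B + 1) := by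
          have := hFB i
          have := (hFG i).trans (min_le_left _ _)
          linarith
  have hFB' : ∀ i, ∫ z in K, ‖F i z‖ ^ 4 ≤ B' := fun i => (hFB i).trans (by rw [hB']; linarith)
  have c1 : ContinuousOn (fun z => ζ z * (F 0 z * F 1 z * F 2 z * F 3 z)) K :=
    hζ.mul ((((hF 0).mul (hF 1)).mul (hF 2)).mul (hF 3))
  have c2 : ContinuousOn (fun z => ζ z * (G 0 z * G 1 z * G 2 z * G 3 z)) K :=
    hζ.mul ((((hG 0).mul (hG 1)).mul (hG 2)).mul (hG 3))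
  rw [← integral_sub (c1.integrableOn_compact hK) (c2.integrableOn_compact hK)]
  have sFG : Integrable (fun z => ∑ i, ‖F i z - G i z‖ ^ 4) (volume.restrict K) :=
    integrable_finset_sum _ fun i _ => iFG i
  have sF : Integrable (fun z => ∑ i, ‖F i z‖ ^ 4) (volume.restrict K) :=
    integrable_finset_sum _ fun i _ => iF i
  have sG : Integrable (fun z => ∑ i, ‖G i z‖ ^ 4) (volume.restrict K) :=
    integrable_finset_sum _ fun i _ => iG i
  have sFG' : Integrable (fun z => (∑ i, ‖F i z‖ ^ 4) + ∑ i, ‖G i z‖ ^ 4) (volume.restrict K) :=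
    sF.add sG
  calc ‖∫ z in K, (ζ z * (F 0 z * F 1 z * F 2 z * F 3 z)
        - ζ z * (G 0 z * G 1 z * G 2 z * G 3 z))‖
      ≤ ∫ z in K, M * ((μ⁻¹) ^ 3 * (∑ i, ‖F i z - G i z‖ ^ 4)
          + 3 * μ * ((∑ i, ‖F i z‖ ^ 4) + ∑ i, ‖G i z‖ ^ 4)) := by
        refine norm_integral_le_of_norm_le (((sFG.const_mul _).add
          (sFG'.const_mul _)).const_mul M) ?_
        refine (ae_restrict_iff' hK.measurableSet).2 (Eventually.of_forall fun z hz => ?_)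
        rw [← mul_sub, norm_mul]
        have h1 := tele4 (F 0 z) (F 1 z) (F 2 z) (F 3 z) (G 0 z) (G 1 z) (G 2 z) (G 3 z) hμ0
        rw [Fin.sum_univ_four, Fin.sum_univ_four, Fin.sum_univ_four]
        exact mul_le_mul (hζM z hz) h1 (norm_nonneg _) hM
    _ = M * ((μ⁻¹) ^ 3 * (∑ i, ∫ z in K, ‖F i z - G i z‖ ^ 4)
          + 3 * μ * ((∑ i, ∫ z in K, ‖F i z‖ ^ 4) + ∑ i, ∫ z in K, ‖G i z‖ ^ 4)) := by
        rw [integral_const_mul, integral_add (sFG.const_mul _) (sFG'.const_mul _),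
          integral_const_mul, integral_const_mul, integral_add sF sG,
          integral_finset_sum _ fun i _ => iFG i, integral_finset_sum _ fun i _ => iF i,
          integral_finset_sum _ fun i _ => iG i]
    _ ≤ M * ((μ⁻¹) ^ 3 * (∑ _i : Fin 4, ε₁) + 3 * μ * ((∑ _i : Fin 4, B') + ∑ _i : Fin 4, B')) := by
        gcongr with i _ i _ i _
        · exact hFG i
        · exact hFB' i
        · exact hGB i
    _ = M * (4 * (μ⁻¹) ^ 3 * ε₁) + M * (24 * μ * B') := by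
        simp only [Finset.sum_const, Finset.card_univ, Fintype.card_fin, nsmul_eq_mul]
        push_cast
        ring
    _ ≤ ε / 2 + ε / 2 := by
        have h1 : ε₁ ≤ ε * μ ^ 3 / (8 * (M + 1)) := min_le_right _ _
        have hM1 : 0 < M + 1 := by linarith
        refine add_le_add ?_ ?_
        · calc M * (4 * (μ⁻¹) ^ 3 * ε₁) ≤ (M + 1) * (4 * (μ⁻¹) ^ 3 * (ε * μ ^ 3 / (8 * (M + 1)))) := by
                gcongr
                linarith
            _ = ε / 2 := by field_simp; ring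
        · calc M * (24 * μ * B') ≤ (M + 1) * (24 * μ * B') := by
                gcongr
                linarith
            _ = ε / 2 := by rw [hμ]; field_simp; ring
    _ = ε := by ring

end

end QE
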