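import Pool.Agent.LibH11.QEV.Coef

/-!
Taylor's formula along a displacement field, and the `L⁴` bound for the remainder.
-/

open Complex MeasureTheory Filter Topology Set
open scoped ContDiff

namespace QE

noncomputable section

variable {U : Set ℂ} {h : ℕ → ℝ} {a g : ℂ → ℂ} {φ : ℕ → ℂ → ℂ}

/-- Jensen's inequality for fourth powers -/
lemma jensen4 {G : ℝ → ℝ} (hG : ContinuousOn G (Icc (0 : ℝ) 1)) (h0 : ∀ t ∈ Icc (0 : ℝ) 1, 0 ≤ G t) :
    (∫ t in (0 : ℝ)..1, G t) ^ 4 ≤ ∫ t in (0 : ℝ)..1, G t ^ 4 := by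
  have hu : uIcc (0 : ℝ) 1 = Icc 0 1 := uIcc_of_le zero_le_one
  have i1 : IntervalIntegrable G volume 0 1 := (hG.mono hu.le).intervalIntegrable
  have i4 : IntervalIntegrable (fun t => G t ^ 4) volume 0 1 :=
    ((hG.pow 4).mono hu.le).intervalIntegrable
  set A := ∫ t in (0 : ℝ)..1, G t with hA
  have hA0 : 0 ≤ A := intervalIntegral.integral_nonneg zero_le_one h0
  have h1 : ∫ t in (0 : ℝ)..1, (A ^ 4 + 4 * A ^ 3 * (G t - A)) ≤ ∫ t in (0 : ℝ)..1, G t ^ 4 := by
    refine intervalIntegral.integral_mono_on zero_le_one ?_ i4 fun t ht => ?_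
    · exact intervalIntegrable_const.add ((i1.sub intervalIntegrable_const).const_mul _)
    · have hg := h0 t ht
      nlinarith [mul_nonneg (sq_nonneg (G t - A)) (add_nonneg (add_nonneg (sq_nonneg (G t))
        (mul_nonneg (mul_nonneg zero_le_two hA0) hg)) (mul_nonneg zero_le_three (sq_nonneg A)))]
  have h2 : ∫ t in (0 : ℝ)..1, (A ^ 4 + 4 * A ^ 3 * (G t - A)) = A ^ 4 := by
    rw [intervalIntegral.integral_add intervalIntegrable_const
      ((i1.sub intervalIntegrable_const).const_mul _), intervalIntegral.integral_const_mul,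
      intervalIntegral.integral_sub i1 intervalIntegrable_const, ← hA]
    simp
  linarith

/-- the `L⁴` bound for the remainder -/
theorem rem_bound {K S : Set ℂ} (hK : IsCompact K) (hS : IsCompact S) {v : ℂ → ℂ}
    (hvc : ContinuousOn v K) (hlip : ∀ z ∈ K, ∀ w ∈ K, ‖v z - v w‖ ≤ (1 / 2) * ‖z - w‖)
    (hseg : ∀ z ∈ K, ∀ t ∈ Icc (0 : ℝ) 1, z + t • v z ∈ S) {G : ℂ → ℝ} (hG : ContinuousOn G S)
    (h0 : ∀ z ∈ S, 0 ≤ G z) :
    IntegrableOn (fun z => (∫ t in (0 : ℝ)..1, G (z + t • v z)) ^ 4) K ∧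
    ∫ z in K, (∫ t in (0 : ℝ)..1, G (z + t • v z)) ^ 4 ≤ 4 * ∫ z in S, G z ^ 4 := by
  have hm : MapsTo (fun p : ℂ × ℝ => p.1 + p.2 • v p.1) (K ×ˢ Icc (0 : ℝ) 1) S :=
    fun p hp => hseg p.1 hp.1 p.2 hp.2
  have hcm : ContinuousOn (fun p : ℂ × ℝ => p.1 + p.2 • v p.1) (K ×ˢ Icc (0 : ℝ) 1) := by
    refine continuousOn_fst.add (continuousOn_snd.smul ?_)
    exact hvc.comp continuousOn_fst fun p hp => hp.1
  have hGc : ContinuousOn (fun p : ℂ × ℝ => G (p.1 + p.2 • v p.1)) (K ×ˢ Icc (0 : ℝ) 1) :=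
    hG.comp hcm hm
  have hKI : IsCompact (K ×ˢ Icc (0 : ℝ) 1) := hK.prod isCompact_Icc
  set μ : Measure ℂ := volume.restrict K with hμ
  set ν : Measure ℝ := volume.restrict (Ioc (0 : ℝ) 1) with hν
  have hprod : μ.prod ν ≤ ((volume : Measure ℂ).prod (volume : Measure ℝ)).restrict
      (K ×ˢ Icc (0 : ℝ) 1) := by
    rw [hμ, hν, Measure.prod_restrict]
    exact Measure.restrict_mono (prod_mono_right Ioc_subset_Icc_self) le_rfl
  have i1 : Integrable (fun p : ℂ × ℝ => G (p.1 + p.2 • v p.1)) (μ.prod ν) :=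
    Integrable.mono_measure (hGc.integrableOn_compact hKI
      (μ := (volume : Measure ℂ).prod (volume : Measure ℝ))).integrable hprod
  have i4 : Integrable (fun p : ℂ × ℝ => G (p.1 + p.2 • v p.1) ^ 4) (μ.prod ν) :=
    Integrable.mono_measure ((hGc.pow 4).integrableOn_compact hKI
      (μ := (volume : Measure ℂ).prod (volume : Measure ℝ))).integrable hprod
  have j1 : Integrable (fun z => ∫ t in (0 : ℝ)..1, G (z + t • v z)) μ := by
    simp only [intervalIntegral.integral_of_le zero_le_one]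
    exact i1.integral_prod_left
  have j4 : Integrable (fun z => ∫ t in (0 : ℝ)..1, G (z + t • v z) ^ 4) μ := by
    simp only [intervalIntegral.integral_of_le zero_le_one]
    exact i4.integral_prod_left
  have hGz : ∀ z ∈ K, ContinuousOn (fun t : ℝ => G (z + t • v z)) (Icc (0 : ℝ) 1) := by
    intro z hz
    refine hG.comp (by fun_prop) fun t ht => hseg z hz t ht
  have hle : ∀ᵐ z ∂μ, (∫ t in (0 : ℝ)..1, G (z + t • v z)) ^ 4
      ≤ ∫ t in (0 : ℝ)..1, G (z + t • v z) ^ 4 := by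
    rw [hμ, ae_restrict_iff' hK.measurableSet]
    exact Eventually.of_forall fun z hz => jensen4 (hGz z hz) fun t ht => h0 _ (hseg z hz t ht)
  refine ⟨?_, ?_⟩
  · refine j4.mono' (j1.aestronglyMeasurable.pow 4) ?_
    filter_upwards [hle] with z hz
    rw [Real.norm_of_nonneg (by positivity)]
    exact hz
  · calc ∫ z in K, (∫ t in (0 : ℝ)..1, G (z + t • v z)) ^ 4
        ≤ ∫ z in K, ∫ t in (0 : ℝ)..1, G (z + t • v z) ^ 4 :=
          integral_mono_of_nonneg (Eventually.of_forall fun z => by positivity) j4 hle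
      _ = ∫ z, ∫ t, G (z + t • v z) ^ 4 ∂ν ∂μ := by
          simp only [intervalIntegral.integral_of_le zero_le_one, hμ, hν]
      _ = ∫ t, ∫ z, G (z + t • v z) ^ 4 ∂μ ∂ν := integral_integral_swap i4
      _ ≤ ∫ t, 4 * (∫ z in S, G z ^ 4) ∂ν := by
          refine integral_mono_of_nonneg (Eventually.of_forall fun t =>
            integral_nonneg fun z => by positivity) (integrable_const _) ?_
          rw [hν]
          refine (ae_restrict_iff' measurableSet_Ioc).2 (Eventually.of_forall fun t ht => ?_)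
          have ht' : t ∈ Icc (0 : ℝ) 1 := Ioc_subset_Icc_self ht
          exact integral_comp_le hK hS (expand_of_lip hlip ht') (fun z hz => hseg z hz t ht')
            (continuousOn_id.add (hvc.const_smul t)) (hG.pow 4)
            (fun z hz => pow_nonneg (h0 z hz) 4)
      _ = 4 * ∫ z in S, G z ^ 4 := by
          rw [integral_const, hν]
          simp

/-- Taylor's formula along a segment, for the iterated directional derivatives -/
theorem taylor_dir (hU : IsOpen U) {f : ℂ → ℂ} (hf : ContDiffOn ℝ ∞ f U) {z v : ℂ}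
    (hseg : ∀ t ∈ Icc (0 : ℝ) 1, z + t • v ∈ U) (N : ℕ) :
    f (z + v) = ∑ k ∈ Finset.range (N + 1), ((k.factorial : ℝ)⁻¹ : ℝ) • dirK k v f z
      + ((N.factorial : ℝ)⁻¹ : ℝ) • ∫ t in (0 : ℝ)..1, (1 - t) ^ N • dirK (N + 1) v f (z + t • v) := by
  have h1 := map_add_eq_sum_add_integral_iteratedFDeriv (f := f) (x := z) (y := v) (n := N)
    (fun t ht => ((hf.contDiffAt (hU.mem_nhds (hseg t ht))).of_le (by
      exact_mod_cast le_top)))
  have hz : z ∈ U := by
    have := hseg 0 (by simp)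
    simpa using this
  rw [h1]
  congr 1
  · refine Finset.sum_congr rfl fun k _ => ?_
    rw [iteratedFDeriv_eq_dirK hU v hf k z hz]
  · congr 1
    refine intervalIntegral.integral_congr fun t ht => ?_
    rw [uIcc_of_le zero_le_one] at ht
    beta_reduce
    rw [iteratedFDeriv_eq_dirK hU v hf (N + 1) _ (hseg t ht)]

end

end QE
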