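import Pool.Agent.LibH11.QEV.Model

/-!
Rotation averages of products of the values of an eigenfunction at nearby points.
-/

open Complex MeasureTheory Filter Topology Set
open scoped ContDiff

namespace QE

noncomputable section

variable {U : Set ℂ} {h : ℕ → ℝ} {a g : ℂ → ℂ} {φ : ℕ → ℂ → ℂ}

/-- displacements which are asymptotic to the rotations of `y` -/
structure Disp (h : ℕ → ℝ) (a : ℂ → ℂ) (K : Set ℂ) (q : ℤ) (y : ℂ) (ξ : ℕ → ℝ → ℂ → ℂ) : Prop where
  lim : ∀ ε > 0, ∀ᶠ n in atTop, ∀ θ, ∀ z ∈ K, ‖ξ n θ z - uu θ ^ q * y‖ ≤ ε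
  cont : ∀ᶠ n in atTop, ContinuousOn (fun p : ℝ × ℂ => ξ n p.1 p.2) (univ ×ˢ K)
  lip : ∀ᶠ n in atTop, ∀ θ, ∀ z ∈ K, ∀ w ∈ K,
    ‖h n * a z * ξ n θ z - h n * a w * ξ n θ w‖ ≤ (1 / 2) * ‖z - w‖

lemma int_ang {K : Set ℂ} (hK : IsCompact K) {H : ℝ × ℂ → ℂ} (hH : ContinuousOn H (univ ×ˢ K)) :
    Integrable H (ang.prod (volume.restrict K)) := by
  have h1 : ang = (volume (Ioc (0 : ℝ) (2 * Real.pi)))⁻¹ • volume.restrict (Ioc (0 : ℝ) (2 * Real.pi)) :=
    rfl
  rw [h1, Measure.prod_smul_left]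
  have h2 : volume (Ioc (0 : ℝ) (2 * Real.pi)) ≠ 0 := by
    rw [Real.volume_Ioc, Ne, ENNReal.ofReal_eq_zero, not_le, sub_zero]; positivity
  refine Integrable.smul_measure ?_ (ENNReal.inv_ne_top.2 h2)
  rw [Measure.prod_restrict]
  have h3 : IntegrableOn H (Icc (0 : ℝ) (2 * Real.pi) ×ˢ K)
      ((volume : Measure ℝ).prod (volume : Measure ℂ)) :=
    (hH.mono (prod_mono_left (subset_univ _))).integrableOn_compact (isCompact_Icc.prod hK)
  exact h3.mono_set (prod_mono_left Ioc_subset_Icc_self)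

lemma int_ang_left {K : Set ℂ} (hK : IsCompact K) {H : ℝ × ℂ → ℂ}
    (hH : ContinuousOn H (univ ×ˢ K)) : Integrable (fun θ => ∫ z in K, H (θ, z)) ang :=
  (int_ang hK hH).integral_prod_left

lemma continuous_CN (N : ℕ) (j : ℤ) : Continuous (CN N j) := by
  unfold CN
  exact continuous_finset_sum _ fun k _ => (continuous_cc k j).const_smul ((k.factorial : ℝ)⁻¹ : ℝ)

namespace Setup

variable (S : Setup U g a h φ)

include S

lemma Phi_cont {K : Set ℂ} (hKU : K ⊆ U) (q : ℤ) (y : ℂ) (N n : ℕ) :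
    ContinuousOn (fun p : ℝ × ℂ => Phi h a φ N (uu p.1 ^ q * y) n p.2) (univ ×ˢ K) := by
  simp only [Phi_eq]
  refine continuousOn_finset_sum _ fun j _ => ContinuousOn.mul ?_ ?_
  · exact ((continuous_CN N j).comp (((continuous_uu_zpow q).comp continuous_fst).mul
      continuous_const)).continuousOn
  · exact (((S.tame_E j).smooth n).continuousOn.mono hKU).comp continuousOn_snd fun p hp => hp.2

/-- the displaced points stay close -/
lemma seg_mem {K : Set ℂ} (hK : IsCompact K) {δ : ℝ} (hδ : 0 < δ)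
    (hδU : Metric.cthickening (2 * δ) K ⊆ U) {q : ℤ} {y : ℂ} {ξ : ℕ → ℝ → ℂ → ℂ}
    (hξ : Disp h a K q y ξ) : ∀ᶠ n in atTop, ∀ θ, ∀ z ∈ K, ∀ t ∈ Icc (0 : ℝ) 1,
      z + t • ((h n : ℂ) * a z * ξ n θ z) ∈ Metric.cthickening δ K := by
  have hKU : K ⊆ U := (Metric.self_subset_cthickening K).trans hδU
  obtain ⟨A₀, hA₀⟩ := hK.exists_bound_of_continuousOn (S.ha.continuousOn.mono hKU)
  have hl : Tendsto (fun n => h n * (|A₀| * (‖y‖ + 1))) atTop (𝓝 0) := by
    have := S.hlim.mul_const (|A₀| * (‖y‖ + 1))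
    simpa using this
  filter_upwards [hξ.lim 1 one_pos, hl.eventually_lt_const hδ] with n hn1 hn2 s z hz t ht
  refine Metric.mem_cthickening_of_dist_le _ z δ K hz ?_
  rw [dist_eq_norm, add_sub_cancel_left, norm_smul, norm_mul, norm_mul, Complex.norm_real,
    Real.norm_of_nonneg (S.hpos n).le, Real.norm_of_nonneg ht.1]
  have h3 : ‖ξ n s z‖ ≤ ‖y‖ + 1 := by
    have h4 := norm_add_le (ξ n s z - uu s ^ q * y) (uu s ^ q * y)
    rw [sub_add_cancel, norm_mul, norm_zpow, norm_uu, one_zpow, one_mul] at h4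
    have := hn1 s z hz
    linarith
  have hh := (S.hpos n).le
  calc t * (h n * ‖a z‖ * ‖ξ n s z‖) ≤ 1 * (h n * |A₀| * (‖y‖ + 1)) := by
        have := (hA₀ z hz).trans (le_abs_self A₀)
        have := ht.2
        gcongr
    _ ≤ δ := by rw [one_mul, mul_assoc]; exact hn2.le

/-- the value of the wave at the displaced point, or `1` -/
def fld (h : ℕ → ℝ) (a : ℂ → ℂ) (φ : ℕ → ℂ → ℂ) (b : Bool) (ξ : ℕ → ℝ → ℂ → ℂ) (n : ℕ) (θ : ℝ)
    (z : ℂ) : ℂ := if b then φ n (z + h n * a z * ξ n θ z) else 1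

/-- its Taylor polynomial, or `1` -/
def tay (h : ℕ → ℝ) (a : ℂ → ℂ) (φ : ℕ → ℂ → ℂ) (b : Bool) (q : ℤ) (y : ℂ) (N n : ℕ) (θ : ℝ)
    (z : ℂ) : ℂ := if b then Phi h a φ N (uu θ ^ q * y) n z else 1

/-- **Rotation averages of products and of their Taylor polynomials.** -/
theorem rot_close {K : Set ℂ} (hK : IsCompact K) {δ : ℝ} (hδ : 0 < δ)
    (hδU : Metric.cthickening (2 * δ) K ⊆ U) (q : ℤ) (b : Fin 4 → Bool) (y : Fin 4 → ℂ)
    (ξ : Fin 4 → ℕ → ℝ → ℂ → ℂ) (hξ : ∀ i, Disp h a K q (y i) (ξ i)) {ζ : ℂ → ℂ}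
    (hζ : ContinuousOn ζ K) {ε : ℝ} (hε : 0 < ε) :
    ∃ N₀ : ℕ, ∀ N ≥ N₀, ∀ᶠ n in atTop,
      ‖(∫ θ, (∫ z in K, ζ z * (fld h a φ (b 0) (ξ 0) n θ z * fld h a φ (b 1) (ξ 1) n θ z
          * fld h a φ (b 2) (ξ 2) n θ z * fld h a φ (b 3) (ξ 3) n θ z)) ∂ang)
        - ∫ θ, (∫ z in K, ζ z * (tay h a φ (b 0) q (y 0) N n θ z * tay h a φ (b 1) q (y 1) N n θ z
          * tay h a φ (b 2) q (y 2) N n θ z * tay h a φ (b 3) q (y 3) N n θ z)) ∂ang‖ ≤ ε := by
  have hKU : K ⊆ U := (Metric.self_subset_cthickening K).trans hδU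
  set K₁ := Metric.cthickening δ K with hK₁def
  have hK₁ : IsCompact K₁ := hK.cthickening
  have hK₁U : K₁ ⊆ U := (Metric.cthickening_mono (by linarith) K).trans hδU
  obtain ⟨M₀, hM₀⟩ := S.tame.bdd4 K₁ hK₁ hK₁U
  obtain ⟨Z₀, hZ₀⟩ := hK.exists_bound_of_continuousOn hζ
  set B : ℝ := max (4 * |M₀|) ((volume K).toReal) with hB
  have hB0 : 0 ≤ B := le_trans (by positivity) (le_max_left _ _)
  obtain ⟨ε₁, hε₁, hclose⟩ := prod4_close hK (abs_nonneg Z₀) hB0 hε
  have hT : ∀ i, ∃ N₀ : ℕ, ∀ N ≥ N₀, ∀ᶠ n in atTop, ∀ θ : ℝ, ∫ z in K,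
      ‖φ n (z + h n * a z * ξ i n θ z) - Phi h a φ N (uu θ ^ q * y i) n z‖ ^ 4 ≤ ε₁ := by
    intro i
    obtain ⟨N₀, hN₀⟩ := S.taylor hK hδ hδU (norm_nonneg (y i)) hε₁
    refine ⟨N₀, fun N hN => hN₀ N hN ℝ (fun θ => uu θ ^ q * y i) (ξ i) (fun θ => ?_) (hξ i).lim ?_
      (hξ i).lip⟩
    · rw [norm_mul, norm_zpow, norm_uu, one_zpow, one_mul]
    · filter_upwards [(hξ i).cont] with n hn θ
      exact hn.comp (by fun_prop : ContinuousOn (fun z : ℂ => (θ, z)) K)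
        fun z hz => ⟨mem_univ _, hz⟩
  choose N₀ hN₀ using hT
  refine ⟨∑ i, N₀ i, fun N hN => ?_⟩
  have hNi : ∀ i, N₀ i ≤ N := fun i =>
    (Finset.single_le_sum (f := N₀) (fun _ _ => Nat.zero_le _) (Finset.mem_univ i)).trans hN
  have e1 : ∀ᶠ n in atTop, ∀ i : Fin 4, ∀ θ : ℝ, ∫ z in K,
      ‖φ n (z + h n * a z * ξ i n θ z) - Phi h a φ N (uu θ ^ q * y i) n z‖ ^ 4 ≤ ε₁ :=
    eventually_all.2 fun i => hN₀ i N (hNi i)
  have e2 : ∀ᶠ n in atTop, ∀ i : Fin 4, ContinuousOn (fun p : ℝ × ℂ => ξ i n p.1 p.2) (univ ×ˢ K) :=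
    eventually_all.2 fun i => (hξ i).cont
  have e3 : ∀ᶠ n in atTop, ∀ i : Fin 4, ∀ θ, ∀ z ∈ K, ∀ t ∈ Icc (0 : ℝ) 1,
      z + t • ((h n : ℂ) * a z * ξ i n θ z) ∈ K₁ :=
    eventually_all.2 fun i => S.seg_mem hK hδ hδU (hξ i)
  have e4 : ∀ᶠ n in atTop, ∀ i : Fin 4, ∀ θ, ∀ z ∈ K, ∀ w ∈ K,
      ‖h n * a z * ξ i n θ z - h n * a w * ξ i n θ w‖ ≤ (1 / 2) * ‖z - w‖ :=
    eventually_all.2 fun i => (hξ i).lip
  filter_upwards [e1, e2, e3, e4, hM₀] with n n1 n2 n3 n4 n5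
  -- joint continuity of the fields
  have hmem : ∀ i θ, ∀ z ∈ K, z + (h n : ℂ) * a z * ξ i n θ z ∈ K₁ := by
    intro i θ z hz
    have := n3 i θ z hz 1 (by simp)
    rwa [one_smul] at this
  have cdisp : ∀ i, ContinuousOn (fun p : ℝ × ℂ => p.2 + (h n : ℂ) * a p.2 * ξ i n p.1 p.2)
      (univ ×ˢ K) := fun i =>
    continuousOn_snd.add ((continuousOn_const.mul ((S.ha.continuousOn.mono hKU).comp
      continuousOn_snd fun p hp => hp.2)).mul (n2 i))
  have cF : ∀ i, ContinuousOn (fun p : ℝ × ℂ => fld h a φ (b i) (ξ i) n p.1 p.2) (univ ×ˢ K) := by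
    intro i
    unfold fld
    cases b i with
    | false => simpa using continuousOn_const
    | true =>
      simp only [if_true]
      exact ((S.tame.smooth n).continuousOn.mono hK₁U).comp (cdisp i)
        fun p hp => hmem i p.1 p.2 hp.2
  have cG : ∀ i, ContinuousOn (fun p : ℝ × ℂ => tay h a φ (b i) q (y i) N n p.1 p.2)
      (univ ×ˢ K) := by
    intro i
    unfold tay
    cases b i with
    | false => simpa using continuousOn_const
    | true =>
      simp only [if_true]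
      exact S.Phi_cont hKU q (y i) N n
  have cζ : ContinuousOn (fun p : ℝ × ℂ => ζ p.2) (univ ×ˢ K) :=
    hζ.comp continuousOn_snd fun p hp => hp.2
  have sec : ∀ (H : ℝ × ℂ → ℂ), ContinuousOn H (univ ×ˢ K) → ∀ θ : ℝ,
      ContinuousOn (fun z => H (θ, z)) K := fun H hH θ =>
    hH.comp (by fun_prop : ContinuousOn (fun z : ℂ => (θ, z)) K) fun z hz => ⟨mem_univ _, hz⟩
  have iF : Integrable (fun θ => ∫ z in K, ζ z * (fld h a φ (b 0) (ξ 0) n θ z
      * fld h a φ (b 1) (ξ 1) n θ z * fld h a φ (b 2) (ξ 2) n θ z * fld h a φ (b 3) (ξ 3) n θ z))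
      ang := int_ang_left hK (cζ.mul ((((cF 0).mul (cF 1)).mul (cF 2)).mul (cF 3)))
  have iG : Integrable (fun θ => ∫ z in K, ζ z * (tay h a φ (b 0) q (y 0) N n θ z
      * tay h a φ (b 1) q (y 1) N n θ z * tay h a φ (b 2) q (y 2) N n θ z
      * tay h a φ (b 3) q (y 3) N n θ z))
      ang := int_ang_left hK (cζ.mul ((((cG 0).mul (cG 1)).mul (cG 2)).mul (cG 3)))
  have main : ∀ θ : ℝ, ‖(∫ z in K, ζ z * (fld h a φ (b 0) (ξ 0) n θ z * fld h a φ (b 1) (ξ 1) n θ z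
          * fld h a φ (b 2) (ξ 2) n θ z * fld h a φ (b 3) (ξ 3) n θ z))
        - ∫ z in K, ζ z * (tay h a φ (b 0) q (y 0) N n θ z * tay h a φ (b 1) q (y 1) N n θ z
          * tay h a φ (b 2) q (y 2) N n θ z * tay h a φ (b 3) q (y 3) N n θ z)‖ ≤ ε := by
    intro θ
    refine hclose (fun i z => fld h a φ (b i) (ξ i) n θ z)
      (fun i z => tay h a φ (b i) q (y i) N n θ z) (fun i => sec _ (cF i) θ)
      (fun i => sec _ (cG i) θ) (fun i => ?_) (fun i => ?_) ζ hζ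
      (fun z hz => (hZ₀ z hz).trans (le_abs_self Z₀))
    · unfold fld
      cases b i with
      | false =>
        simp only [Bool.false_eq_true, if_false, norm_one, one_pow]
        rw [integral_const, smul_eq_mul, mul_one, measureReal_restrict_apply_univ]
        exact le_max_right _ _
      | true =>
        simp only [if_true]
        refine le_trans ?_ (le_max_left _ _)
        have hexp := expand_of_lip (v := fun z => (h n : ℂ) * a z * ξ i n θ z) (n4 i θ)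
          (t := 1) (by simp)
        simp only [one_smul] at hexp
        have := integral_comp_le hK hK₁ hexp (fun z hz => hmem i θ z hz) (sec _ (cdisp i) θ)
          (f := fun z => ‖φ n z‖ ^ 4)
          (((S.tame.smooth n).continuousOn.mono hK₁U).norm.pow 4) (fun z _ => by positivity)
        refine this.trans ?_
        have := n5.trans (le_abs_self M₀)
        linarith
    · unfold fld tay
      cases b i with
      | false =>
        simp only [Bool.false_eq_true, if_false, sub_self, norm_zero]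
        simpa using hε₁.le
      | true =>
        simp only [if_true]
        exact n1 i θ
  rw [← integral_sub iF iG]
  calc _ ≤ ∫ θ : ℝ, ε ∂ang := norm_integral_le_of_norm_le (integrable_const _)
        (Eventually.of_forall fun θ => main θ)
    _ = ε := by simp

/-- **The rotation average of the products of the Taylor polynomials.** -/
theorem rot_expand {K : Set ℂ} (hK : IsCompact K) (hKU : K ⊆ U) {q : ℤ} (hq : q ≠ 0) {k : ℕ}
    (y : Fin k → ℂ) {ζ : ℂ → ℂ} (hζ : ContinuousOn ζ K) (N n : ℕ) :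
    ∫ θ, (∫ z in K, ζ z * ∏ i, Phi h a φ N (uu θ ^ q * y i) n z) ∂ang
      = ∑ p ∈ Fintype.piFinset (fun _ : Fin k => Finset.Icc (-(N : ℤ)) N),
        (∏ i, CN N (p i) (y i)) * ((if ∑ i, p i = 0 then 1 else 0)
          * ∫ z in K, ζ z * ∏ i, E h a φ (p i) n z) := by
  set s := Fintype.piFinset (fun _ : Fin k => Finset.Icc (-(N : ℤ)) N) with hs
  have hE : ∀ p : Fin k → ℤ, IntegrableOn (fun z => ζ z * ∏ i, E h a φ (p i) n z) K := by
    intro p
    refine ContinuousOn.integrableOn_compact hK ?_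
    exact hζ.mul (continuousOn_finset_prod _ fun i _ =>
      ((S.tame_E (p i)).smooth n).continuousOn.mono hKU)
  have e1 : ∀ θ : ℝ, ∫ z in K, ζ z * ∏ i, Phi h a φ N (uu θ ^ q * y i) n z
      = ∑ p ∈ s, ((uu θ ^ q) ^ (∑ i, p i)) * ((∏ i, CN N (p i) (y i))
          * ∫ z in K, ζ z * ∏ i, E h a φ (p i) n z) := by
    intro θ
    have hu : ‖uu θ ^ q‖ = 1 := by rw [norm_zpow, norm_uu, one_zpow]
    have hu0 : uu θ ^ q ≠ 0 := zpow_ne_zero _ (uu_ne θ)
    have e2 : ∀ z, ζ z * ∏ i, Phi h a φ N (uu θ ^ q * y i) n z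
        = ∑ p ∈ s, ((uu θ ^ q) ^ (∑ i, p i) * ∏ i, CN N (p i) (y i))
          * (ζ z * ∏ i, E h a φ (p i) n z) := by
      intro z
      have e3 : ∏ i, Phi h a φ N (uu θ ^ q * y i) n z = ∑ p ∈ s,
          ∏ i, ((uu θ ^ q) ^ (p i) * CN N (p i) (y i) * E h a φ (p i) n z) := by
        rw [hs, ← Finset.prod_univ_sum (fun _ : Fin k => Finset.Icc (-(N : ℤ)) N)
          (fun i j => (uu θ ^ q) ^ j * CN N j (y i) * E h a φ j n z)]
        refine Finset.prod_congr rfl fun i _ => ?_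
        rw [Phi_eq]
        exact Finset.sum_congr rfl fun j _ => by rw [CN_rot N hu]
      rw [e3, Finset.mul_sum]
      refine Finset.sum_congr rfl fun p _ => ?_
      rw [Finset.prod_mul_distrib, Finset.prod_mul_distrib]
      have e4 : ∏ i, (uu θ ^ q) ^ (p i) = (uu θ ^ q) ^ (∑ i, p i) := by
        induction (Finset.univ : Finset (Fin k)) using Finset.induction_on with
        | empty => simp
        | insert i t hi ih => rw [Finset.prod_insert hi, Finset.sum_insert hi, zpow_add₀ hu0, ih]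
      rw [e4]; ring
    simp only [e2]
    rw [integral_finset_sum _ fun p _ => (hE p).const_mul _]
    refine Finset.sum_congr rfl fun p _ => ?_
    rw [integral_const_mul]; ring
  simp only [e1]
  rw [integral_finset_sum]
  · refine Finset.sum_congr rfl fun p _ => ?_
    rw [integral_mul_const, ang_zpow_mul hq]
    ring
  · intro p _
    refine Integrable.mul_const ?_ _
    simp only [← zpow_mul]
    refine Integrable.of_bound (continuous_uu_zpow _).aestronglyMeasurable 1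
      (Eventually.of_forall fun θ => ?_)
    rw [norm_zpow, norm_uu, one_zpow]

end Setup

/-- the passage to the limit -/
theorem lim_combine {X : ℕ → ℂ} {T : ℕ → ℕ → ℂ} {W₁ W₂ : ℕ → ℂ} {α β : ℕ → ℂ} {V₁ V₂ : ℂ} {C : ℝ}
    (h1 : ∀ ε > 0, ∃ N₀ : ℕ, ∀ N ≥ N₀, ∀ᶠ n in atTop, ‖X n - T N n‖ ≤ ε)
    (h2 : ∀ N, Tendsto (fun n => T N n - (α n * W₁ N + β n * W₂ N)) atTop (𝓝 0))
    (hW₁ : Tendsto W₁ atTop (𝓝 V₁)) (hW₂ : Tendsto W₂ atTop (𝓝 V₂))
    (hα : ∀ᶠ n in atTop, ‖α n‖ ≤ C) (hβ : ∀ᶠ n in atTop, ‖β n‖ ≤ C) :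
    Tendsto (fun n => X n - (α n * V₁ + β n * V₂)) atTop (𝓝 0) := by
  rw [Metric.tendsto_nhds]
  intro ε hε
  obtain ⟨N₀, hN₀⟩ := h1 (ε / 4) (by positivity)
  set C' : ℝ := |C| + 1 with hC'
  have hC'0 : 0 < C' := by positivity
  have t1 : ∀ᶠ N in atTop, ‖W₁ N - V₁‖ < ε / (8 * C') := by
    have := (tendsto_iff_norm_sub_tendsto_zero.1 hW₁).eventually_lt_const
      (show 0 < ε / (8 * C') by positivity)
    exact this
  have t2 : ∀ᶠ N in atTop, ‖W₂ N - V₂‖ < ε / (8 * C') := by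
    have := (tendsto_iff_norm_sub_tendsto_zero.1 hW₂).eventually_lt_const
      (show 0 < ε / (8 * C') by positivity)
    exact this
  obtain ⟨N, hN1, hN2, hN3⟩ := ((eventually_ge_atTop N₀).and (t1.and t2)).exists
  have t3 := (tendsto_iff_norm_sub_tendsto_zero.1 (h2 N)).eventually_lt_const
    (show 0 < ε / 4 by positivity)
  filter_upwards [hN₀ N hN1, t3, hα, hβ] with n n1 n2 n3 n4
  rw [dist_zero_right]
  rw [sub_zero] at n2
  have e : X n - (α n * V₁ + β n * V₂) = (X n - T N n) + (T N n - (α n * W₁ N + β n * W₂ N))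
      + (α n * (W₁ N - V₁) + β n * (W₂ N - V₂)) := by ring
  rw [e]
  have hc : ∀ x : ℂ, ‖x‖ ≤ C → ‖x‖ ≤ C' := fun x hx => by
    have := le_abs_self C
    linarith
  have b1 : ‖α n * (W₁ N - V₁)‖ ≤ C' * (ε / (8 * C')) := by
    rw [norm_mul]
    exact mul_le_mul (hc _ n3) hN2.le (norm_nonneg _) hC'0.le
  have b2 : ‖β n * (W₂ N - V₂)‖ ≤ C' * (ε / (8 * C')) := by
    rw [norm_mul]
    exact mul_le_mul (hc _ n4) hN3.le (norm_nonneg _) hC'0.le
  have b3 : C' * (ε / (8 * C')) = ε / 8 := by field_simp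
  rw [b3] at b1 b2
  calc _ ≤ ‖X n - T N n‖ + ‖T N n - (α n * W₁ N + β n * W₂ N)‖
        + (‖α n * (W₁ N - V₁)‖ + ‖β n * (W₂ N - V₂)‖) :=
        (norm_add_le _ _).trans (add_le_add (norm_add_le _ _) (norm_add_le _ _))
    _ < ε := by linarith

end

end QE
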