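import Pool.Agent.LibH11.QEV.Unb

/-!
The four-point functions of quantum ergodic sequences: the Gaussian ones plus a nonnegative multiple
of a universal function.
-/

open MeasureTheory Filter Topology Set MatrixGroups UpperHalfPlane
open scoped ContDiff

namespace QE

noncomputable section

variable {Γ : Subgroup SL(2, ℝ)} {ρ : ℍ → ℝ} {D : Set ℍ}

/-- **The four-point functions of quantum ergodic sequences.** -/
theorem struct_surface [Countable Γ] (hDm : MeasurableSet D)
    (hD : IsFundamentalDomain Γ D (volume : Measure ℍ))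
    (hK : ∃ K : Set ℍ, IsCompact K ∧ ∀ z, ∃ γ ∈ Γ, γ • z ∈ K)
    (hρ : ContDiffOn ℝ ∞ (fun w : ℂ => ρ (ofComplex w)) {w | 0 < w.im})
    (hρΓ : ∀ γ ∈ Γ, ∀ z, ρ (γ • z) = ρ z)
    {φ : ℕ → ℍ → ℝ} {m : ℕ → ℝ} (hφ : Berry.REigenSeq Γ ρ φ m)
    (hs : ∀ n, ContDiffOn ℝ ∞ (fun w : ℂ => φ n (ofComplex w)) {w | 0 < w.im})
    (hq : QuantumErgodic ρ φ m) :
    ∃ c : ℕ → ℝ, (∀ n, 0 ≤ c n) ∧
      Tendsto (fun n => Berry.rAvg ρ D (fun z => φ n z ^ 4) - (3 + c n)) atTop (𝓝 0) ∧
      ∀ x : Fin 4 → ℂ, Tendsto (fun n =>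
        ((∫ p, ∏ i, Berry.rWave ρ (φ n) (m n) (x i) p ∂(Berry.rFrameProb ρ D))
          - (wick x + c n * defc x)) / (1 + c n)) atTop (𝓝 0) := by
  set κ : ℕ → ℝ := fun n => Berry.rAvg ρ D (fun z => φ n z ^ 4) with hκ
  have hlow : ∀ ε > 0, ∀ᶠ n in atTop, 3 - ε ≤ κ n := fun ε hε =>
    lower_surface hDm hD hK hρ hρΓ hφ hs hq hε
  have hd : Tendsto (fun n => κ n - (3 + max (κ n - 3) 0)) atTop (𝓝 0) := by
    rw [Metric.tendsto_nhds]
    intro ε hε
    filter_upwards [hlow (ε / 2) (by positivity)] with n hn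
    rw [dist_zero_right, Real.norm_eq_abs, abs_lt]
    rcases le_total (κ n - 3) 0 with h | h
    · rw [max_eq_right h]
      constructor <;> linarith
    · rw [max_eq_left h]
      constructor <;> linarith
  refine ⟨fun n => max (κ n - 3) 0, fun n => le_max_right _ _, hd, fun x => ?_⟩
  have h1 := four_surface hDm hD hK hρ hρΓ hφ hs hq x
  -- the two terms
  have hb : ∀ᶠ n in atTop, 0 < κ n ∧ |κ n / (1 + max (κ n - 3) 0)| ≤ 3 := by
    filter_upwards [hlow 1 one_pos] with n hn
    have h0 : 0 < 1 + max (κ n - 3) 0 := by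
      have := le_max_right (κ n - 3) 0
      linarith
    refine ⟨by linarith, ?_⟩
    rw [abs_of_nonneg (div_nonneg (by linarith) h0.le), div_le_iff₀ h0]
    have := le_max_left (κ n - 3) 0
    have := le_max_right (κ n - 3) 0
    linarith
  have h2 : Tendsto (fun n => (κ n / (1 + max (κ n - 3) 0)) * (((∫ p, ∏ i,
      Berry.rWave ρ (φ n) (m n) (x i) p ∂(Berry.rFrameProb ρ D))
        - (wick x + (κ n - 3) * defc x)) / κ n)) atTop (𝓝 0) := by
    rw [tendsto_zero_iff_norm_tendsto_zero]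
    have h3 : Tendsto (fun n => 3 * ‖(((∫ p, ∏ i,
      Berry.rWave ρ (φ n) (m n) (x i) p ∂(Berry.rFrameProb ρ D))
        - (wick x + (κ n - 3) * defc x)) / κ n)‖) atTop (𝓝 0) := by
      have := (tendsto_zero_iff_norm_tendsto_zero.1 h1).const_mul 3
      rwa [mul_zero] at this
    refine squeeze_zero' (Eventually.of_forall fun n => norm_nonneg _) (hb.mono fun n hn => ?_) h3
    rw [norm_mul]
    exact mul_le_mul_of_nonneg_right (by rw [Real.norm_eq_abs]; exact hn.2) (norm_nonneg _)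
  have h4 : Tendsto (fun n => ((κ n - (3 + max (κ n - 3) 0)) * defc x)
      / (1 + max (κ n - 3) 0)) atTop (𝓝 0) := by
    rw [tendsto_zero_iff_norm_tendsto_zero]
    have h5 : Tendsto (fun n => ‖(κ n - (3 + max (κ n - 3) 0)) * defc x‖) atTop (𝓝 0) := by
      have := (hd.mul_const (defc x))
      rw [zero_mul] at this
      exact tendsto_zero_iff_norm_tendsto_zero.1 this
    refine squeeze_zero (fun n => norm_nonneg _) (fun n => ?_) h5
    rw [norm_div]
    refine div_le_self (norm_nonneg _) ?_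
    rw [Real.norm_eq_abs]
    have := le_max_right (κ n - 3) 0
    rw [abs_of_nonneg (by linarith)]
    linarith
  have h5 := h2.add h4
  rw [add_zero] at h5
  refine h5.congr' ?_
  filter_upwards [hb] with n hn
  have h0 : (1 + max (κ n - 3) 0) ≠ 0 := by
    have := le_max_right (κ n - 3) 0
    linarith
  have hκ0 : κ n ≠ 0 := hn.1.ne'
  field_simp
  ring

end

end QE
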