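import Pool.Agent.LibH11.QEV.Rem

/-!
The Taylor expansion of an eigenfunction at the scale of the wavelength, in terms of the jets.
-/

open Complex MeasureTheory Filter Topology Set
open scoped ContDiff

namespace QE

noncomputable section

variable {U : Set ℂ} {h : ℕ → ℝ} {a g : ℂ → ℂ} {φ : ℕ → ℂ → ℂ}

/-- the Taylor polynomial in terms of the jets -/
def Phi (h : ℕ → ℝ) (a : ℂ → ℂ) (φ : ℕ → ℂ → ℂ) (N : ℕ) (x : ℂ) (n : ℕ) (z : ℂ) : ℂ :=
  ∑ k ∈ Finset.range (N + 1), ((k.factorial : ℝ)⁻¹ : ℝ) • Setup.TT h a φ k 0 x n z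

lemma norm_TT_le (k : ℕ) (ξ : ℂ) (n : ℕ) (z : ℂ) : ‖Setup.TT h a φ k 0 ξ n z‖
    ≤ ‖ξ‖ ^ k * ∑ j ∈ Finset.Icc (-(k : ℤ)) k, ‖E h a φ j n z‖ := by
  rw [TT_eq k 0 _ (Finset.Subset.refl _), Finset.mul_sum]
  refine (norm_sum_le _ _).trans (Finset.sum_le_sum fun j hj => ?_)
  rw [norm_mul, zero_add]
  refine mul_le_mul_of_nonneg_right ?_ (norm_nonneg _)
  refine le_trans ?_ (sum_norm_cc k (Finset.Icc (-(k : ℤ)) k) ξ)
  exact Finset.single_le_sum (f := fun j => ‖cc k j ξ‖) (fun _ _ => norm_nonneg _) hj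

lemma norm_TT_sub_le {k N : ℕ} (hk : k ≤ N) {ξ x : ℂ} {η : ℝ}
    (hη : ∀ j ∈ Finset.Icc (-(N : ℤ)) N, ‖cc k j ξ - cc k j x‖ ≤ η) (n : ℕ) (z : ℂ) :
    ‖Setup.TT h a φ k 0 ξ n z - Setup.TT h a φ k 0 x n z‖
      ≤ η * ∑ j ∈ Finset.Icc (-(N : ℤ)) N, ‖E h a φ j n z‖ := by
  have hs : Finset.Icc (-(k : ℤ)) k ⊆ Finset.Icc (-(N : ℤ)) N := by
    intro j hj
    rw [Finset.mem_Icc] at hj ⊢
    omega
  rw [TT_eq k 0 _ hs, TT_eq k 0 _ hs, ← Finset.sum_sub_distrib, Finset.mul_sum]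
  refine (norm_sum_le _ _).trans (Finset.sum_le_sum fun j hj => ?_)
  rw [← sub_mul, norm_mul, zero_add]
  exact mul_le_mul_of_nonneg_right (hη j hj) (norm_nonneg _)

/-- the function dominating the remainder -/
def GG (h : ℕ → ℝ) (a : ℂ → ℂ) (φ : ℕ → ℂ → ℂ) (D A : ℝ) (w : ℕ → ℂ → ℝ) (N n : ℕ) (z : ℂ) : ℝ :=
  D ^ (N + 1) * (∑ j ∈ Finset.Icc (-((N + 1 : ℕ) : ℤ)) (N + 1 : ℕ), ‖E h a φ j n z‖)
    + h n * (A ^ (N + 1) * w n z)

namespace Setup

variable (S : Setup U g a h φ)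

include S

lemma a_re {z : ℂ} (hz : z ∈ U) : a z = ((a z).re : ℂ) := by
  have := S.areal z hz
  exact (Complex.conj_eq_iff_real.1 this).elim fun r hr => by rw [hr]; simp

/-- the pointwise form of Taylor's formula -/
theorem point {K K₁ : Set ℂ} (hK₁ : K₁ ⊆ U) (hKK₁ : K ⊆ K₁) {A B r : ℝ} (hA1 : 1 ≤ A) (hB1 : 1 ≤ B)
    (hr : 0 ≤ r)
    (hA : ∀ z ∈ K₁, ‖a z‖ ≤ A) (hB : ∀ z ∈ K₁, ‖a z * g z‖ ≤ B) (N : ℕ) :
    ∃ P : ℕ → ℂ → ℝ, RB U P ∧ ∃ w : ℕ → ℂ → ℝ, RB U w ∧ ∀ η > 0, ∀ (Θ : Type) (x : Θ → ℂ)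
      (ξ : ℕ → Θ → ℂ → ℂ), (∀ s, ‖x s‖ ≤ r) →
      (∀ ε > 0, ∀ᶠ n in atTop, ∀ s, ∀ z ∈ K, ‖ξ n s z - x s‖ ≤ ε) →
      (∀ᶠ n in atTop, ∀ s, ∀ z ∈ K, ∀ t ∈ Icc (0 : ℝ) 1, z + t • (h n * a z * ξ n s z) ∈ K₁) →
      ∀ᶠ n in atTop, ∀ s, ∀ z ∈ K,
        ‖φ n (z + h n * a z * ξ n s z) - Phi h a φ N (x s) n z‖
          ≤ η * P n z + ((N.factorial : ℝ)⁻¹ : ℝ) * ∫ t in (0 : ℝ)..1,
            GG h a φ (A * B * (r + 1)) A w N n (z + t • (h n * a z * ξ n s z)) := by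
  choose W hW hWeq using fun k => S.dirK_near k
  choose w hw hwle using fun k => (hW k).bound (r + 1)
  refine ⟨fun n z => (∑ j ∈ Finset.Icc (-(N : ℤ)) N, ‖E h a φ j n z‖)
    + ∑ k ∈ Finset.range (N + 1), A ^ k * w k n z, ?_, w (N + 1), hw (N + 1), ?_⟩
  · exact (RB.sum _ fun j _ => RB.of_tame (S.tame_E j)).add
      (RB.sum _ fun k _ => (hw k).const_mul (by positivity))
  intro η hη Θ x ξ hx hξ hseg
  -- uniform continuity of the coefficients
  set η₁ : ℝ := η / (N + 1) with hη₁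
  have hη₁0 : 0 < η₁ := by positivity
  have hcc : ∀ᶠ n in atTop, ∀ k ∈ Finset.range (N + 1), ∀ j ∈ Finset.Icc (-(N : ℤ)) N, ∀ s,
      ∀ z ∈ K, ‖cc k j (ξ n s z) - cc k j (x s)‖ ≤ η₁ := by
    rw [Filter.eventually_all_finset]
    intro k _
    rw [Filter.eventually_all_finset]
    intro j _
    have huc := (isCompact_closedBall (0 : ℂ) (r + 1)).uniformContinuousOn_of_continuous
      (continuous_cc k j).continuousOn
    rw [Metric.uniformContinuousOn_iff] at huc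
    obtain ⟨δ, hδ, hδ'⟩ := huc η₁ hη₁0
    filter_upwards [hξ (min (δ / 2) 1) (by positivity)] with n hn s z hz
    have h1 := hn s z hz
    have h2 : ‖ξ n s z‖ ≤ r + 1 := by
      have h3 := norm_add_le (ξ n s z - x s) (x s)
      rw [sub_add_cancel] at h3
      have := hx s
      have := h1.trans (min_le_right _ _)
      linarith
    have h4 := hδ' (ξ n s z) (by simpa using h2) (x s) (by
      have := hx s
      simp only [mem_closedBall_zero_iff]; linarith) (by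
      rw [dist_eq_norm]
      have := h1.trans (min_le_left _ _)
      linarith)
    rw [dist_eq_norm] at h4
    exact h4.le
  have hhη : ∀ᶠ n in atTop, h n < η := S.hlim.eventually_lt_const hη
  filter_upwards [hcc, hhη, hξ 1 one_pos, hseg] with n hn1 hn2 hn3 hn4 s z hz
  have hzU : z ∈ U := hK₁ (hKK₁ hz)
  have hh := S.hpos n
  set X := ξ n s z with hX
  have hXr : ‖X‖ ≤ r + 1 := by
    have h3 := norm_add_le (X - x s) (x s)
    rw [sub_add_cancel] at h3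
    have := hx s
    have := hn3 s z hz
    linarith
  set v := (h n : ℂ) * a z * X with hv
  set c : ℝ := h n * (a z).re with hc
  have hcv : v = (c : ℂ) * X := by
    rw [hv, hc, Complex.ofReal_mul, ← S.a_re hzU]
  have hca : (c : ℂ) = (h n : ℂ) * a z := by
    rw [hc, Complex.ofReal_mul, ← S.a_re hzU]
  have hsegz := fun t ht => hK₁ (hn4 s z hz t ht)
  have hT := taylor_dir S.op (S.tame.smooth n) hsegz N
  have hdir : ∀ k, ∀ y ∈ U, dirK k v (φ n) y = (a z) ^ k * ((a y * g y) ^ k * Setup.TT h a φ k 0 X n y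
      + (h n : ℂ) * W k X n y) := by
    intro k y hy
    rw [hcv, dirK_smul S.op c X (S.tame.smooth n) k hy, hca, mul_pow, ← hWeq k X n y hy]
    ring
  -- the terms of the Taylor polynomial
  have hterm : ∀ k ∈ Finset.range (N + 1), ‖dirK k v (φ n) z - Setup.TT h a φ k 0 (x s) n z‖
      ≤ η₁ * (∑ j ∈ Finset.Icc (-(N : ℤ)) N, ‖E h a φ j n z‖) + h n * (A ^ k * w k n z) := by
    intro k hk
    have hkN : k ≤ N := by rw [Finset.mem_range] at hk; omega
    have e1 : dirK k v (φ n) z - Setup.TT h a φ k 0 (x s) n z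
        = (Setup.TT h a φ k 0 X n z - Setup.TT h a φ k 0 (x s) n z)
          + (h n : ℂ) * ((a z) ^ k * W k X n z) := by
      rw [hdir k z hzU]
      have e2 : (a z) ^ k * (a z * g z) ^ k = 1 := by
        rw [← mul_pow, show a z * (a z * g z) = a z ^ 2 * g z by ring, S.ag z hzU, one_pow]
      linear_combination (Setup.TT h a φ k 0 X n z) * e2
    rw [e1]
    refine (norm_add_le _ _).trans (add_le_add ?_ ?_)
    · exact norm_TT_sub_le hkN (fun j hj => hn1 k hk j hj s z hz) n z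
    · rw [norm_mul, norm_mul, norm_pow, Complex.norm_real, Real.norm_of_nonneg hh.le]
      have h5 : ‖a z‖ ^ k ≤ A ^ k := pow_le_pow_left₀ (norm_nonneg _) (hA z (hKK₁ hz)) k
      have h6 := hwle k X hXr n z hzU
      gcongr
  -- the remainder
  have hGG : ∀ t ∈ Icc (0 : ℝ) 1, ‖(1 - t) ^ N • dirK (N + 1) v (φ n) (z + t • v)‖
      ≤ GG h a φ (A * B * (r + 1)) A (w (N + 1)) N n (z + t • v) := by
    intro t ht
    set y := z + t • v with hy
    have hyK : y ∈ K₁ := hn4 s z hz t ht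
    have hyU : y ∈ U := hK₁ hyK
    rw [norm_smul, hdir (N + 1) y hyU, norm_mul, norm_pow (a z)]
    have h1 : ‖(1 - t) ^ N‖ ≤ 1 := by
      rw [norm_pow, Real.norm_of_nonneg (by linarith [ht.2])]
      exact pow_le_one₀ (by linarith [ht.2]) (by linarith [ht.1])
    have h2 : ‖(a y * g y) ^ (N + 1) * Setup.TT h a φ (N + 1) 0 X n y + (h n : ℂ) * W (N + 1) X n y‖
        ≤ B ^ (N + 1) * ((r + 1) ^ (N + 1) * ∑ j ∈ Finset.Icc (-((N + 1 : ℕ) : ℤ)) (N + 1 : ℕ),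
          ‖E h a φ j n y‖) + h n * w (N + 1) n y := by
      refine (norm_add_le _ _).trans (add_le_add ?_ ?_)
      · rw [norm_mul, norm_pow]
        have h3 : ‖a y * g y‖ ^ (N + 1) ≤ B ^ (N + 1) :=
          pow_le_pow_left₀ (norm_nonneg _) (hB y hyK) _
        have h4 := norm_TT_le (h := h) (a := a) (φ := φ) (N + 1) X n y
        have h5 : ‖X‖ ^ (N + 1) ≤ (r + 1) ^ (N + 1) := pow_le_pow_left₀ (norm_nonneg _) hXr _
        have h6 : 0 ≤ ∑ j ∈ Finset.Icc (-((N + 1 : ℕ) : ℤ)) (N + 1 : ℕ), ‖E h a φ j n y‖ :=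
          Finset.sum_nonneg fun _ _ => norm_nonneg _
        exact mul_le_mul h3 (h4.trans (mul_le_mul_of_nonneg_right h5 h6)) (norm_nonneg _)
          (by positivity)
      · rw [norm_mul, Complex.norm_real, Real.norm_of_nonneg hh.le]
        exact mul_le_mul_of_nonneg_left (hwle (N + 1) X hXr n y hyU) hh.le
    have h7 : ‖a z‖ ^ (N + 1) ≤ A ^ (N + 1) :=
      pow_le_pow_left₀ (norm_nonneg _) (hA z (hKK₁ hz)) _
    have h8 : 0 ≤ w (N + 1) n y := (hw (N + 1)).nonneg n y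
    have h9 : 0 ≤ ∑ j ∈ Finset.Icc (-((N + 1 : ℕ) : ℤ)) (N + 1 : ℕ), ‖E h a φ j n y‖ :=
      Finset.sum_nonneg fun _ _ => norm_nonneg _
    calc ‖(1 - t) ^ N‖ * (‖a z‖ ^ (N + 1) * ‖(a y * g y) ^ (N + 1)
          * Setup.TT h a φ (N + 1) 0 X n y + (h n : ℂ) * W (N + 1) X n y‖)
        ≤ 1 * (A ^ (N + 1) * (B ^ (N + 1) * ((r + 1) ^ (N + 1)
          * ∑ j ∈ Finset.Icc (-((N + 1 : ℕ) : ℤ)) (N + 1 : ℕ), ‖E h a φ j n y‖)
            + h n * w (N + 1) n y)) :=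
          mul_le_mul h1 (mul_le_mul h7 h2 (norm_nonneg _) (by positivity)) (by positivity)
            zero_le_one
      _ = GG h a φ (A * B * (r + 1)) A (w (N + 1)) N n y := by
          unfold GG; rw [mul_pow, mul_pow]; ring
  have hGc : ContinuousOn (fun t : ℝ => GG h a φ (A * B * (r + 1)) A (w (N + 1)) N n (z + t • v))
      (Icc (0 : ℝ) 1) := by
    have hG1 : ContinuousOn (GG h a φ (A * B * (r + 1)) A (w (N + 1)) N n) U := by
      unfold GG
      refine (continuousOn_const.mul (continuousOn_finset_sum _ fun j _ =>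
        ((S.tame_E j).smooth n).continuousOn.norm)).add
        (continuousOn_const.mul (continuousOn_const.mul ((hw (N + 1)).cont n)))
    exact hG1.comp (by fun_prop) fun t ht => hsegz t ht
  have hrem : ‖∫ t in (0 : ℝ)..1, (1 - t) ^ N • dirK (N + 1) v (φ n) (z + t • v)‖
      ≤ ∫ t in (0 : ℝ)..1, GG h a φ (A * B * (r + 1)) A (w (N + 1)) N n (z + t • v) := by
    refine intervalIntegral.norm_integral_le_of_norm_le zero_le_one
      (Eventually.of_forall fun t ht => hGG t (Ioc_subset_Icc_self ht)) ?_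
    rw [← uIcc_of_le zero_le_one] at hGc
    exact hGc.intervalIntegrable
  have e3 : φ n (z + v) - Phi h a φ N (x s) n z = (∑ k ∈ Finset.range (N + 1),
      ((k.factorial : ℝ)⁻¹ : ℝ) • (dirK k v (φ n) z - Setup.TT h a φ k 0 (x s) n z))
      + ((N.factorial : ℝ)⁻¹ : ℝ) • ∫ t in (0 : ℝ)..1, (1 - t) ^ N
        • dirK (N + 1) v (φ n) (z + t • v) := by
    rw [hT]
    unfold Phi
    simp only [smul_sub, Finset.sum_sub_distrib]
    ring
  rw [e3]
  refine (norm_add_le _ _).trans (add_le_add ?_ ?_)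
  · have hE0 : 0 ≤ ∑ j ∈ Finset.Icc (-(N : ℤ)) N, ‖E h a φ j n z‖ :=
      Finset.sum_nonneg fun _ _ => norm_nonneg _
    calc ‖∑ k ∈ Finset.range (N + 1), ((k.factorial : ℝ)⁻¹ : ℝ)
          • (dirK k v (φ n) z - Setup.TT h a φ k 0 (x s) n z)‖
        ≤ ∑ k ∈ Finset.range (N + 1), (η₁ * (∑ j ∈ Finset.Icc (-(N : ℤ)) N, ‖E h a φ j n z‖)
          + h n * (A ^ k * w k n z)) := by
          refine (norm_sum_le _ _).trans (Finset.sum_le_sum fun k hk => ?_)
          rw [norm_smul, Real.norm_of_nonneg (by positivity)]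
          have h1 : ((k.factorial : ℝ)⁻¹ : ℝ) ≤ 1 :=
            inv_le_one_of_one_le₀ (by exact_mod_cast k.factorial_pos)
          calc ((k.factorial : ℝ)⁻¹ : ℝ) * ‖dirK k v (φ n) z - Setup.TT h a φ k 0 (x s) n z‖
              ≤ 1 * ‖dirK k v (φ n) z - Setup.TT h a φ k 0 (x s) n z‖ := by gcongr
            _ ≤ _ := by rw [one_mul]; exact hterm k hk
      _ = η * (∑ j ∈ Finset.Icc (-(N : ℤ)) N, ‖E h a φ j n z‖)
          + h n * ∑ k ∈ Finset.range (N + 1), A ^ k * w k n z := by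
          rw [Finset.sum_add_distrib, Finset.sum_const, Finset.card_range, ← Finset.mul_sum,
            nsmul_eq_mul, hη₁]
          push_cast
          field_simp
      _ ≤ η * ((∑ j ∈ Finset.Icc (-(N : ℤ)) N, ‖E h a φ j n z‖)
          + ∑ k ∈ Finset.range (N + 1), A ^ k * w k n z) := by
          have hw0 : 0 ≤ ∑ k ∈ Finset.range (N + 1), A ^ k * w k n z :=
            Finset.sum_nonneg fun k _ => mul_nonneg (by positivity) ((hw k).nonneg n z)
          rw [mul_add]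
          gcongr
  · rw [norm_smul, Real.norm_of_nonneg (by positivity)]
    gcongr

end Setup

end

end QE
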