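import Pool.Agent.LibH11.QEV.Taylor

/-!
The Taylor expansion of an eigenfunction at the scale of the wavelength, in `L⁴`.
-/

open Complex MeasureTheory Filter Topology Set
open scoped ContDiff

namespace QE

noncomputable section

variable {U : Set ℂ} {h : ℕ → ℝ} {a g : ℂ → ℂ} {φ : ℕ → ℂ → ℂ}

/-- the bound for the `L⁴` norm of the remainder -/
def remC (D C : ℝ) (N : ℕ) : ℝ := 8 * (D ^ (4 * (N + 1)) * ((2 * N + 3 : ℝ) ^ 4 * C ^ (N + 2))) + 1

lemma remC_nonneg {D C : ℝ} (hD : 0 ≤ D) (hC : 0 ≤ C) (N : ℕ) : 0 ≤ remC D C N := by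
  unfold remC; positivity

lemma tendsto_remC {D C : ℝ} (hD : 0 ≤ D) (hC : 0 ≤ C) :
    Tendsto (fun N : ℕ => ((N.factorial : ℝ)⁻¹) ^ 4 * remC D C N) atTop (𝓝 0) := by
  have h1 : Tendsto (fun N : ℕ => (8 * 81 * D ^ 4 * C ^ 2) * ((16 * D ^ 4 * C) ^ N / N.factorial)
      + 1 ^ N / (N.factorial : ℝ)) atTop (𝓝 0) := by
    have := ((FloorSemiring.tendsto_pow_div_factorial_atTop (16 * D ^ 4 * C)).const_mul
      (8 * 81 * D ^ 4 * C ^ 2)).add (FloorSemiring.tendsto_pow_div_factorial_atTop (1 : ℝ))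
    simpa using this
  refine squeeze_zero (fun N => mul_nonneg (by positivity) (remC_nonneg hD hC N)) (fun N => ?_) h1
  have hN : (0 : ℝ) < N.factorial := by exact_mod_cast N.factorial_pos
  have hN1 : ((N.factorial : ℝ)⁻¹) ≤ 1 :=
    inv_le_one_of_one_le₀ (by exact_mod_cast N.factorial_pos)
  have hN0 : 0 ≤ ((N.factorial : ℝ)⁻¹) := by positivity
  have h2 : ((N.factorial : ℝ)⁻¹) ^ 4 ≤ ((N.factorial : ℝ)⁻¹) := by
    calc ((N.factorial : ℝ)⁻¹) ^ 4 = ((N.factorial : ℝ)⁻¹) ^ 3 * ((N.factorial : ℝ)⁻¹) := by ring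
      _ ≤ 1 ^ 3 * ((N.factorial : ℝ)⁻¹) := by gcongr
      _ = _ := by ring
  have h3 : (2 * N + 3 : ℝ) ≤ 3 * 2 ^ N := by
    have : 2 * N + 3 ≤ 3 * 2 ^ N := by
      induction N with
      | zero => norm_num
      | succ N ih =>
        have ih' := ih (by exact_mod_cast N.factorial_pos)
          (inv_le_one_of_one_le₀ (by exact_mod_cast N.factorial_pos)) (by positivity) (by
            have hM1 : ((N.factorial : ℝ)⁻¹) ≤ 1 :=
              inv_le_one_of_one_le₀ (by exact_mod_cast N.factorial_pos)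
            calc ((N.factorial : ℝ)⁻¹) ^ 4 = ((N.factorial : ℝ)⁻¹) ^ 3 * ((N.factorial : ℝ)⁻¹) := by
                  ring
              _ ≤ 1 ^ 3 * ((N.factorial : ℝ)⁻¹) := by gcongr
              _ = _ := by ring)
        rw [pow_succ]
        have : 1 ≤ 2 ^ N := Nat.one_le_two_pow
        omega
    exact_mod_cast this
  have h4 : (2 * N + 3 : ℝ) ^ 4 ≤ 81 * 16 ^ N := by
    calc (2 * N + 3 : ℝ) ^ 4 ≤ (3 * 2 ^ N) ^ 4 := by gcongr
      _ = 81 * (2 ^ N) ^ 4 := by ring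
      _ = 81 * 16 ^ N := by rw [← pow_mul, mul_comm N 4, pow_mul]; norm_num
  calc ((N.factorial : ℝ)⁻¹) ^ 4 * remC D C N ≤ ((N.factorial : ℝ)⁻¹) * remC D C N := by
        have := remC_nonneg hD hC N
        gcongr
    _ ≤ ((N.factorial : ℝ)⁻¹) * (8 * (D ^ (4 * (N + 1)) * ((81 * 16 ^ N) * C ^ (N + 2))) + 1) := by
        unfold remC; gcongr
    _ = _ := by
        rw [one_pow]
        have e1 : D ^ (4 * (N + 1)) = D ^ 4 * (D ^ 4) ^ N := by rw [← pow_mul, ← pow_add]; ring_nf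
        rw [e1]
        field_simp
        ring

namespace Setup

variable (S : Setup U g a h φ)

include S

lemma GG_cont {w : ℕ → ℂ → ℝ} (hw : RB U w) (D A : ℝ) (N n : ℕ) :
    ContinuousOn (GG h a φ D A w N n) U := by
  unfold GG
  exact (continuousOn_const.mul (continuousOn_finset_sum _ fun j _ =>
    ((S.tame_E j).smooth n).continuousOn.norm)).add
    (continuousOn_const.mul (continuousOn_const.mul (hw.cont n)))

lemma GG_nonneg {w : ℕ → ℂ → ℝ} (hw : RB U w) {D A : ℝ} (hD : 0 ≤ D) (hA : 0 ≤ A) (N n : ℕ)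
    (z : ℂ) : 0 ≤ GG h a φ D A w N n z := by
  unfold GG
  have h1 := (S.hpos n).le
  have h2 := hw.nonneg n z
  have h3 : 0 ≤ ∑ j ∈ Finset.Icc (-((N + 1 : ℕ) : ℤ)) (N + 1 : ℕ), ‖E h a φ j n z‖ :=
    Finset.sum_nonneg fun _ _ => norm_nonneg _
  positivity

lemma GG_bdd {w : ℕ → ℂ → ℝ} (hw : RB U w) {D A C : ℝ} (hD : 0 ≤ D) (hA : 0 ≤ A) (hC : 1 ≤ C)
    {K₁ : Set ℂ} (hK₁ : IsCompact K₁) (hK₁U : K₁ ⊆ U)
    (hgr : ∀ m : ℤ, ∀ᶠ n in atTop, ∫ z in K₁, ‖E h a φ m n z‖ ^ 4 ≤ C ^ (m.natAbs + 1)) (N : ℕ) :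
    ∀ᶠ n in atTop, ∫ z in K₁, GG h a φ D A w N n z ^ 4 ≤ remC D C N := by
  obtain ⟨M, hM⟩ := hw.bdd K₁ hK₁ hK₁U
  have h1 : ∀ᶠ n in atTop, ∀ j ∈ Finset.Icc (-((N + 1 : ℕ) : ℤ)) (N + 1 : ℕ),
      ∫ z in K₁, ‖E h a φ j n z‖ ^ 4 ≤ C ^ (N + 2) := by
    rw [Filter.eventually_all_finset]
    intro j hj
    filter_upwards [hgr j] with n hn
    refine hn.trans (pow_le_pow_right₀ hC ?_)
    rw [Finset.mem_Icc] at hj
    omega
  have h2 : Tendsto (fun n => 8 * (h n ^ 4 * ((A ^ (N + 1)) ^ 4 * |M|))) atTop (𝓝 0) := by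
    have := ((S.hlim.pow 4).mul_const ((A ^ (N + 1)) ^ 4 * |M|)).const_mul 8
    simpa using this
  filter_upwards [h1, hM, h2.eventually_lt_const one_pos] with n n1 n2 n3
  have hh := (S.hpos n).le
  set s := Finset.Icc (-((N + 1 : ℕ) : ℤ)) (N + 1 : ℕ) with hs
  have hcard : (s.card : ℝ) = 2 * N + 3 := by
    rw [hs, Int.card_Icc]
    have : (((N + 1 : ℕ) : ℤ) + 1 - -((N + 1 : ℕ) : ℤ)).toNat = 2 * N + 3 := by omega
    rw [this]; push_cast; ring
  have iE : ∀ j, IntegrableOn (fun z => ‖E h a φ j n z‖ ^ 4) K₁ := fun j =>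
    (S.tame_E j).smooth.intOn hK₁ hK₁U 4 n
  have hp0 : ∀ z, 0 ≤ D ^ (N + 1) * ∑ j ∈ s, ‖E h a φ j n z‖ := fun z =>
    mul_nonneg (by positivity) (Finset.sum_nonneg fun _ _ => norm_nonneg _)
  have hq0 : ∀ z, 0 ≤ h n * (A ^ (N + 1) * w n z) := fun z =>
    mul_nonneg hh (mul_nonneg (by positivity) (hw.nonneg n z))
  have cp : ContinuousOn (fun z => D ^ (N + 1) * ∑ j ∈ s, ‖E h a φ j n z‖) K₁ :=
    (continuousOn_const.mul (continuousOn_finset_sum _ fun j _ =>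
      ((S.tame_E j).smooth n).continuousOn.norm)).mono hK₁U
  have cq : ContinuousOn (fun z => h n * (A ^ (N + 1) * w n z)) K₁ :=
    (continuousOn_const.mul (continuousOn_const.mul (hw.cont n))).mono hK₁U
  have e1 := four_add_int (K := K₁) hp0 hq0 ((cp.pow 4).integrableOn_compact hK₁)
    ((cq.pow 4).integrableOn_compact hK₁)
  have e2 : ∫ z in K₁, (D ^ (N + 1) * ∑ j ∈ s, ‖E h a φ j n z‖) ^ 4
      ≤ D ^ (4 * (N + 1)) * ((2 * N + 3 : ℝ) ^ 4 * C ^ (N + 2)) := by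
    calc ∫ z in K₁, (D ^ (N + 1) * ∑ j ∈ s, ‖E h a φ j n z‖) ^ 4
        ≤ ∫ z in K₁, D ^ (4 * (N + 1)) * ((s.card : ℝ) ^ 3 * ∑ j ∈ s, ‖E h a φ j n z‖ ^ 4) := by
          refine integral_mono_of_nonneg (Eventually.of_forall fun z =>
            pow_nonneg (hp0 z) 4) (((integrable_finset_sum s fun j _ => iE j).const_mul
              _).const_mul _) (Eventually.of_forall fun z => ?_)
          beta_reduce
          rw [mul_pow, ← pow_mul, mul_comm (N + 1) 4]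
          gcongr
          exact sum_pow4 s fun _ _ => norm_nonneg _
      _ = D ^ (4 * (N + 1)) * ((s.card : ℝ) ^ 3 * ∑ j ∈ s, ∫ z in K₁, ‖E h a φ j n z‖ ^ 4) := by
          rw [integral_const_mul, integral_const_mul, integral_finset_sum s fun j _ => iE j]
      _ ≤ D ^ (4 * (N + 1)) * ((s.card : ℝ) ^ 3 * ∑ j ∈ s, C ^ (N + 2)) := by
          gcongr with j hj
          exact n1 j hj
      _ = _ := by
          rw [Finset.sum_const, nsmul_eq_mul, hcard]; ring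
  have e3 : 8 * ∫ z in K₁, (h n * (A ^ (N + 1) * w n z)) ^ 4 ≤ 1 := by
    have e4 : ∫ z in K₁, (h n * (A ^ (N + 1) * w n z)) ^ 4
        = h n ^ 4 * ((A ^ (N + 1)) ^ 4 * ∫ z in K₁, w n z ^ 4) := by
      rw [← integral_const_mul, ← integral_const_mul]
      congr 1; funext z; ring
    rw [e4]
    refine le_trans ?_ n3.le
    have := n2.trans (le_abs_self M)
    gcongr
  unfold GG remC
  calc _ ≤ _ := e1
    _ ≤ _ := by linarith

/-- **Taylor's formula at the scale of the wavelength, in `L⁴`.** -/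
theorem taylor {K : Set ℂ} (hK : IsCompact K) {δ : ℝ} (hδ : 0 < δ)
    (hδU : Metric.cthickening (2 * δ) K ⊆ U) {r : ℝ} (hr : 0 ≤ r) {ε : ℝ} (hε : 0 < ε) :
    ∃ N₀ : ℕ, ∀ N ≥ N₀, ∀ (Θ : Type) (x : Θ → ℂ) (ξ : ℕ → Θ → ℂ → ℂ), (∀ s, ‖x s‖ ≤ r) →
      (∀ ε > 0, ∀ᶠ n in atTop, ∀ s, ∀ z ∈ K, ‖ξ n s z - x s‖ ≤ ε) →
      (∀ᶠ n in atTop, ∀ s, ContinuousOn (ξ n s) K) →
      (∀ᶠ n in atTop, ∀ s, ∀ z ∈ K, ∀ w ∈ K,
        ‖h n * a z * ξ n s z - h n * a w * ξ n s w‖ ≤ (1 / 2) * ‖z - w‖) →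
      ∀ᶠ n in atTop, ∀ s, ∫ z in K, ‖φ n (z + h n * a z * ξ n s z) - Phi h a φ N (x s) n z‖ ^ 4
        ≤ ε := by
  set K₁ := Metric.cthickening δ K with hK₁def
  have hK₁ : IsCompact K₁ := hK.cthickening
  have hKK₁ : K ⊆ K₁ := Metric.self_subset_cthickening K
  have hK₁2 : Metric.cthickening δ K₁ ⊆ U := by
    refine (Metric.cthickening_cthickening_subset hδ.le hδ.le K).trans ?_
    rw [← two_mul]; exact hδU
  have hK₁U : K₁ ⊆ U := (Metric.self_subset_cthickening K₁).trans hK₁2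
  obtain ⟨C, hC1, hgr⟩ := S.growth hK₁ hδ hK₁2
  obtain ⟨A₀, hA₀⟩ := hK₁.exists_bound_of_continuousOn (S.ha.continuousOn.mono hK₁U)
  obtain ⟨B₀, hB₀⟩ := hK₁.exists_bound_of_continuousOn ((S.ha.mul S.hg).continuousOn.mono hK₁U)
  set A := max A₀ 1 with hAdef
  set B := max B₀ 1 with hBdef
  have hA1 : 1 ≤ A := le_max_right _ _
  have hB1 : 1 ≤ B := le_max_right _ _
  have hA : ∀ z ∈ K₁, ‖a z‖ ≤ A := fun z hz => (hA₀ z hz).trans (le_max_left _ _)
  have hB : ∀ z ∈ K₁, ‖a z * g z‖ ≤ B := fun z hz => (hB₀ z hz).trans (le_max_left _ _)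
  set D := A * B * (r + 1) with hD
  have hD0 : 0 ≤ D := by positivity
  have hC0 : 0 ≤ C := by linarith
  obtain ⟨N₀, hN₀⟩ := eventually_atTop.1 ((tendsto_remC hD0 hC0).eventually_lt_const
    (show (0 : ℝ) < ε / 64 by positivity))
  refine ⟨N₀, fun N hN Θ x ξ hx hξ hξc hlip => ?_⟩
  obtain ⟨P, hP, w, hw, hpt⟩ := S.point hK₁U hKK₁ hA1 hB1 hr hA hB N
  obtain ⟨M, hM⟩ := hP.bdd K hK (hKK₁.trans hK₁U)
  -- the choice of `η`
  set η : ℝ := min 1 (ε / (16 * (|M| + 1))) with hη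
  have hη0 : 0 < η := by positivity
  have hη1 : η ≤ 1 := min_le_left _ _
  have hη4 : 8 * (η ^ 4 * |M|) ≤ ε / 2 := by
    have h1 : η ^ 4 ≤ η := by
      calc η ^ 4 = η ^ 3 * η := by ring
        _ ≤ 1 ^ 3 * η := by gcongr
        _ = η := by ring
    have h2 : η ≤ ε / (16 * (|M| + 1)) := min_le_right _ _
    have h3 : 0 ≤ |M| := abs_nonneg M
    calc 8 * (η ^ 4 * |M|) ≤ 8 * (ε / (16 * (|M| + 1)) * (|M| + 1)) := by
          gcongr
          · exact h1.trans h2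
          · linarith
      _ = ε / 2 := by field_simp; ring
  -- the displacements stay in `K₁`
  have hseg : ∀ᶠ n in atTop, ∀ s, ∀ z ∈ K, ∀ t ∈ Icc (0 : ℝ) 1,
      z + t • ((h n : ℂ) * a z * ξ n s z) ∈ K₁ := by
    have hl : Tendsto (fun n => h n * (A * (r + 1))) atTop (𝓝 0) := by
      have := S.hlim.mul_const (A * (r + 1))
      simpa using this
    filter_upwards [hξ 1 one_pos, hl.eventually_lt_const hδ] with n hn1 hn2 s z hz t ht
    refine Metric.mem_cthickening_of_dist_le _ z δ K hz ?_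
    rw [dist_eq_norm, add_sub_cancel_left, norm_smul, norm_mul, norm_mul, Complex.norm_real,
      Real.norm_of_nonneg (S.hpos n).le, Real.norm_of_nonneg ht.1]
    have h3 : ‖ξ n s z‖ ≤ r + 1 := by
      have h4 := norm_add_le (ξ n s z - x s) (x s)
      rw [sub_add_cancel] at h4
      have := hx s
      have := hn1 s z hz
      linarith
    have hh := (S.hpos n).le
    calc t * (h n * ‖a z‖ * ‖ξ n s z‖) ≤ 1 * (h n * A * (r + 1)) := by
          have := hA z (hKK₁ hz)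
          have := ht.2
          gcongr
      _ ≤ δ := by rw [one_mul, mul_assoc]; exact hn2.le
  have hpt' := hpt η hη0 Θ x ξ hx hξ hseg
  have hG := S.GG_bdd hw hD0 (zero_le_one.trans hA1) hC1 hK₁ hK₁U hgr N
  filter_upwards [hpt', hG, hseg, hξc, hlip, hM] with n n1 n2 n3 n4 n5 n6 s
  set v : ℂ → ℂ := fun z => (h n : ℂ) * a z * ξ n s z with hv
  have hvc : ContinuousOn v K := (continuousOn_const.mul (S.ha.continuousOn.mono
    (hKK₁.trans hK₁U))).mul (n4 s)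
  obtain ⟨j1, j2⟩ := rem_bound hK hK₁ hvc (n5 s) (n3 s)
    (G := GG h a φ D A w N n) ((S.GG_cont hw D A N n).mono hK₁U)
    (fun z _ => S.GG_nonneg hw hD0 (zero_le_one.trans hA1) N n z)
  set R : ℂ → ℝ := fun z => ∫ t in (0 : ℝ)..1, GG h a φ D A w N n (z + t • v z) with hR
  have hR0 : ∀ z, 0 ≤ R z := fun z => intervalIntegral.integral_nonneg zero_le_one fun t _ =>
    S.GG_nonneg hw hD0 (zero_le_one.trans hA1) N n _
  set c : ℝ := ((N.factorial : ℝ)⁻¹ : ℝ) with hc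
  have hc0 : 0 ≤ c := by positivity
  have hPi := (hP.int hK (hKK₁.trans hK₁U) n)
  have i1 : IntegrableOn (fun z => (η * P n z) ^ 4) K := by
    simp only [mul_pow]; exact hPi.const_mul _
  have i2 : IntegrableOn (fun z => (c * R z) ^ 4) K := by
    simp only [mul_pow]; exact j1.const_mul _
  have hP0 := hP.nonneg n
  calc ∫ z in K, ‖φ n (z + h n * a z * ξ n s z) - Phi h a φ N (x s) n z‖ ^ 4
      ≤ ∫ z in K, 8 * ((η * P n z) ^ 4 + (c * R z) ^ 4) := by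
        refine integral_mono_of_nonneg (Eventually.of_forall fun z => by positivity)
          ((i1.add i2).const_mul 8) ?_
        refine (ae_restrict_iff' hK.measurableSet).2 (Eventually.of_forall fun z hz => ?_)
        have h0 := n1 s z hz
        calc ‖φ n (z + h n * a z * ξ n s z) - Phi h a φ N (x s) n z‖ ^ 4
            ≤ (η * P n z + c * R z) ^ 4 := pow_le_pow_left₀ (norm_nonneg _) h0 4
          _ ≤ _ := four_add _ _ (mul_nonneg hη0.le (hP0 z)) (mul_nonneg hc0 (hR0 z))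
    _ = 8 * (η ^ 4 * (∫ z in K, P n z ^ 4) + c ^ 4 * ∫ z in K, R z ^ 4) := by
        rw [integral_const_mul, integral_add i1 i2]
        simp only [mul_pow]
        rw [integral_const_mul, integral_const_mul]
    _ ≤ 8 * (η ^ 4 * |M| + c ^ 4 * (4 * remC D C N)) := by
        gcongr
        · exact n6.trans (le_abs_self M)
        · exact j2.trans (by gcongr)
    _ = 8 * (η ^ 4 * |M|) + 32 * (c ^ 4 * remC D C N) := by ring
    _ ≤ ε / 2 + 32 * (ε / 64) := by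
        have := (hN₀ N hN).le
        gcongr
    _ = ε := by ring

end Setup

end

end QE
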