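import Pool.Agent.LibH11.QEV.Fin

/-!
The mean square deviation of the local masses at the Planck scale of quantum ergodic sequences.
-/

open MeasureTheory Filter Topology Set MatrixGroups UpperHalfPlane Metric
open scoped ContDiff

namespace QE

noncomputable section

variable {Γ : Subgroup SL(2, ℝ)} {ρ : ℍ → ℝ} {D : Set ℍ}

/-- the error function -/
def erf (a : ℂ) (L : ℝ) (w : ℂ) : ℂ :=
  ((|Berry.waveK w| + |Berry.waveK (w + a)| + L * |Berry.waveK (2 * w)| : ℝ) : ℂ)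

lemma erf_continuous (a : ℂ) (L : ℝ) : Continuous (erf a L) := by
  unfold erf
  refine Complex.continuous_ofReal.comp ((Berry.waveK_continuous.abs.add ?_).add
    (continuous_const.mul ?_))
  · exact (Berry.waveK_continuous.comp (continuous_id.add continuous_const)).abs
  · exact (Berry.waveK_continuous.comp (continuous_const.mul continuous_id)).abs

lemma erf_norm (a : ℂ) {L : ℝ} (hL : 0 ≤ L) (w : ℂ) : ‖erf a L w‖
    = |Berry.waveK w| + |Berry.waveK (w + a)| + L * |Berry.waveK (2 * w)| := by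
  unfold erf
  rw [Complex.norm_real, Real.norm_of_nonneg (by positivity)]

lemma erf_le (a : ℂ) {L : ℝ} (hL : 0 ≤ L) (w : ℂ) : ‖erf a L w‖ ≤ 2 + L := by
  rw [erf_norm a hL]
  have h1 := Berry.waveK_abs_le w
  have h2 := Berry.waveK_abs_le (w + a)
  have h3 := mul_le_mul_of_nonneg_left (Berry.waveK_abs_le (2 * w)) hL
  linarith

lemma erf_van (a : ℂ) {L : ℝ} (hL : 0 ≤ L) : Berry.VanInf (erf a L) := by
  intro ε hε
  obtain ⟨N₁, h1⟩ := Berry.Kc_van (ε / 3) (by positivity)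
  obtain ⟨N₂, h2⟩ := Berry.Kc_lin_van (κ := 1) one_ne_zero a (ε / 3) (by positivity)
  obtain ⟨N₃, h3⟩ := Berry.Kc_lin_van (κ := 2) two_ne_zero 0 (ε / (3 * (L + 1))) (by positivity)
  refine ⟨max N₁ (max N₂ N₃), fun s hs => ?_⟩
  have a1 := h1 s ((le_max_left _ _).trans hs)
  have a2 := h2 s ((le_max_left _ _).trans ((le_max_right _ _).trans hs))
  have a3 := h3 s ((le_max_right _ _).trans ((le_max_right _ _).trans hs))
  rw [Berry.Kc_norm] at a1 a2 a3
  rw [one_mul, add_comm a s] at a2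
  rw [zero_add] at a3
  rw [erf_norm a hL]
  have a4 : L * |Berry.waveK (2 * s)| ≤ ε / 3 := by
    calc L * |Berry.waveK (2 * s)| ≤ (L + 1) * (ε / (3 * (L + 1))) := by gcongr; linarith
      _ = ε / 3 := by field_simp
  linarith

section hilb

variable {H : Type*} [NormedAddCommGroup H] [InnerProductSpace ℝ H] [CompleteSpace H]
  {u : ℂ → ℂ → H}

lemma avg_dev {F : ℂ → ℂ → ℝ} (hF1 : ∀ s, Continuous (F s))
    (hF2 : ∀ R : ℝ, Continuous fun s => ⨍ s' in ball (0:ℂ) R, F s s') {c ε' R : ℝ} (hR : 0 < R)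
    {g : ℂ → ℂ} (hgc : Continuous g) (hg : ∀ p, ⨍ s in ball (0:ℂ) R, ‖g (p + s)‖ ≤ ε')
    (hd : ∀ s s', |F s s' - c| ≤ ‖g (-s + s')‖) :
    |(⨍ s in ball (0:ℂ) R, ⨍ s' in ball (0:ℂ) R, F s s') - c| ≤ ε' := by
  have h1 : ∀ s, |(⨍ s' in ball (0:ℂ) R, F s s') - c| ≤ ε' := by
    intro s
    have e1 : (⨍ s' in ball (0:ℂ) R, F s s') - c = ⨍ s' in ball (0:ℂ) R, (F s s' + (-c)) := by
      rw [Berry.avg_addR (hF1 s) continuous_const, Berry.avg_const hR]; ring
    rw [e1, ← Real.norm_eq_abs]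
    refine (Berry.avg_norm_le _ _).trans (le_trans ?_ (hg (-s)))
    rw [setAverage_eq, setAverage_eq, smul_eq_mul, smul_eq_mul]
    refine mul_le_mul_of_nonneg_left ?_ (by positivity)
    refine integral_mono (Berry.intOn ((hF1 s).add continuous_const).norm 0 R)
      (Berry.intOn (hgc.comp (continuous_const.add continuous_id)).norm 0 R) fun s' => ?_
    simp only [Real.norm_eq_abs]
    exact hd s s'
  have e2 : (⨍ s in ball (0:ℂ) R, ⨍ s' in ball (0:ℂ) R, F s s') - c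
      = ⨍ s in ball (0:ℂ) R, ((⨍ s' in ball (0:ℂ) R, F s s') + (-c)) := by
    rw [Berry.avg_addR (hF2 R) continuous_const, Berry.avg_const hR]; ring
  rw [e2, ← Real.norm_eq_abs]
  refine (Berry.avg_norm_le _ _).trans ?_
  refine Berry.avg_le_of_le ((hF2 R).add continuous_const).norm (fun s => ?_) hR
  rw [Real.norm_eq_abs]
  exact h1 s

theorem hilb_var (hu : Berry.PairP u) {one : H} (hone : inner ℝ one one = (1:ℝ)) (a : ℂ) {κ L : ℝ}
    (hL : |κ - 3| / 3 ≤ L)
    (h4 : ∀ x₁ x₂ x₃ x₄, inner ℝ (u x₁ x₂) (u x₃ x₄) = wick ![x₁, x₂, x₃, x₄]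
      + (κ - 3) * defc ![x₁, x₂, x₃, x₄])
    (h2 : ∀ x y, inner ℝ (u x y) one = Berry.waveK (x - y)) {R ε' : ℝ} (hR : 0 < R)
    (hg : ∀ p, ⨍ s in ball (0:ℂ) R, ‖erf a L (p + s)‖ ≤ ε') :
    |‖(⨍ s in ball (0:ℂ) R, u s (a + s)) - Berry.waveK a • one‖ ^ 2
      - (κ - 3) * ((1 + Berry.waveK (2 * a)) / 3)| ≤ ε' := by
  have hL0 : 0 ≤ L := le_trans (by positivity) hL
  have hcu : Continuous fun s => u s (a + s) :=
    hu.cont₂ continuous_id (continuous_const.add continuous_id)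
  have e0 : ‖(⨍ s in ball (0:ℂ) R, u s (a + s)) - Berry.waveK a • one‖ ^ 2
      = (⨍ s in ball (0:ℂ) R, ⨍ s' in ball (0:ℂ) R, inner ℝ (u s (a + s)) (u s' (a + s')))
        - 2 * Berry.waveK a * (⨍ s in ball (0:ℂ) R, inner ℝ (u s (a + s)) one)
        + Berry.waveK a ^ 2 := by
    rw [← Berry.inner_avg_avg hcu hcu, ← Berry.PairP.inner_avg hcu one,
      ← real_inner_self_eq_norm_sq, real_inner_sub_sub_self, inner_smul_right, inner_smul_left,
      inner_smul_right, hone]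
    simp only [conj_trivial]
    ring
  have e1 : ∀ s, inner ℝ (u s (a + s)) one = Berry.waveK a := by
    intro s
    rw [h2, ← Berry.waveK_neg]
    congr 1; ring
  have e2 : (⨍ s in ball (0:ℂ) R, inner ℝ (u s (a + s)) one) = Berry.waveK a := by
    simp only [e1]
    exact Berry.avg_const hR _
  rw [e0, e2]
  have key := avg_dev (F := fun s s' => inner ℝ (u s (a + s)) (u s' (a + s')))
    (c := Berry.waveK a ^ 2 + (κ - 3) * ((1 + Berry.waveK (2 * a)) / 3)) (ε' := ε') (R := R)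
    (g := erf a L) (fun s => continuous_const.inner hcu) (fun R => by
      have : (fun s => ⨍ s' in ball (0:ℂ) R, inner ℝ (u s (a + s)) (u s' (a + s')))
          = fun s => inner ℝ (u s (a + s)) (⨍ s' in ball (0:ℂ) R, u s' (a + s')) := by
        funext s
        rw [real_inner_comm, Berry.PairP.inner_avg hcu]
        congr 1; funext s'
        rw [real_inner_comm]
      rw [this]
      exact hcu.inner continuous_const) hR (erf_continuous a L) hg (fun s s' => by
      rw [h4, erf_norm a hL0]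
      unfold wick defc
      simp only [Matrix.cons_val_zero, Matrix.cons_val_one, Matrix.cons_val]
      have k1 : Berry.waveK (s - (a + s)) = Berry.waveK a := by
        rw [← Berry.waveK_neg]; congr 1; ring
      have k2 : Berry.waveK (s' - (a + s')) = Berry.waveK a := by
        rw [← Berry.waveK_neg]; congr 1; ring
      have k3 : Berry.waveK (s - s') = Berry.waveK (-s + s') := by
        rw [← Berry.waveK_neg]; congr 1; ring
      have k4 : Berry.waveK (a + s - (a + s')) = Berry.waveK (-s + s') := by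
        rw [← Berry.waveK_neg]; congr 1; ring
      have k5 : Berry.waveK (s - (a + s')) = Berry.waveK (-s + s' + a) := by
        rw [← Berry.waveK_neg]; congr 1; ring
      have k6 : Berry.waveK (s + (a + s) - s' - (a + s')) = Berry.waveK (2 * (-s + s')) := by
        rw [← Berry.waveK_neg]; congr 1; ring
      have k7 : Berry.waveK (s + s' - (a + s) - (a + s')) = Berry.waveK (2 * a) := by
        rw [← Berry.waveK_neg]; congr 1; ring
      have k8 : Berry.waveK (s + (a + s') - (a + s) - s') = 1 := by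
        rw [← Berry.waveK_zero]; congr 1; ring
      rw [k1, k2, k3, k4, k5, k6, k7, k8]
      have e3 : Berry.waveK a * Berry.waveK a
          + Berry.waveK (-s + s') * Berry.waveK (-s + s')
          + Berry.waveK (-s + s' + a) * Berry.waveK (a + s - s')
          + (κ - 3) * (1 / 3 * (Berry.waveK (2 * (-s + s')) + Berry.waveK (2 * a) + 1))
          - (Berry.waveK a ^ 2 + (κ - 3) * ((1 + Berry.waveK (2 * a)) / 3))
          = Berry.waveK (-s + s') * Berry.waveK (-s + s')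
            + Berry.waveK (-s + s' + a) * Berry.waveK (a + s - s')
            + (κ - 3) / 3 * Berry.waveK (2 * (-s + s')) := by ring
      rw [e3]
      refine (abs_add_le _ _).trans (add_le_add ((abs_add_le _ _).trans (add_le_add ?_ ?_)) ?_)
      · rw [abs_mul]
        exact mul_le_of_le_one_right (abs_nonneg _) (Berry.waveK_abs_le _)
      · rw [abs_mul]
        exact mul_le_of_le_one_right (abs_nonneg _) (Berry.waveK_abs_le _)
      · rw [abs_mul, abs_div, abs_of_pos (by norm_num : (0:ℝ) < 3)]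
        gcongr)
  convert key using 2
  ring

end hilb

/-- **The Planck scale variances of quantum ergodic sequences bounded in `L⁴`.** -/
theorem planck_variance [Countable Γ] (hDm : MeasurableSet D)
    (hD : IsFundamentalDomain Γ D (volume : Measure ℍ))
    (hK : ∃ K : Set ℍ, IsCompact K ∧ ∀ z, ∃ γ ∈ Γ, γ • z ∈ K)
    (hρ : ContDiffOn ℝ ∞ (fun w : ℂ => ρ (ofComplex w)) {w | 0 < w.im})
    (hρΓ : ∀ γ ∈ Γ, ∀ z, ρ (γ • z) = ρ z)
    {φ : ℕ → ℍ → ℝ} {m : ℕ → ℝ} (hφ : Berry.REigenSeq Γ ρ φ m)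
    (hs : ∀ n, ContDiffOn ℝ ∞ (fun w : ℂ => φ n (ofComplex w)) {w | 0 < w.im})
    (hq : QuantumErgodic ρ φ m) {C : ℝ}
    (hb : ∀ᶠ n in atTop, Berry.rAvg ρ D (fun z => φ n z ^ 4) ≤ C) (a : ℂ) {ε : ℝ} (hε : 0 < ε) :
    ∃ R₀ : ℝ, ∀ R ≥ R₀, ∀ᶠ n in atTop,
      |(∫ p, (Berry.spatialAvg (Berry.rWave ρ (φ n) (m n)) a R p - Berry.waveK a) ^ 2
          ∂(Berry.rFrameProb ρ D))
        - (Berry.rAvg ρ D (fun z => φ n z ^ 4) - 3) * ((1 + Berry.waveK (2 * a)) / 3)| ≤ ε := by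
  have S := Berry.surf_of_cocompact hD hDm hK (continuous_of_smooth hρ) hρΓ hφ
  have hP := Berry.rFrameProb_isProb S.geo
  obtain ⟨c4f, -, c2f, -⟩ := corr_surface hDm hD hK hρ hρΓ hφ hs hq hb
  have hb' : IsBoundedUnder (· ≤ ·) atTop fun n => (Berry.rAvg ρ D fun z => φ n z ^ 4) :=
    ⟨C, by simpa using hb⟩
  obtain ⟨B₁, hB₁⟩ := hb'.bddAbove_range
  have hB' : ∀ n, (Berry.rAvg ρ D fun z => φ n z ^ 4) ≤ B₁ := fun n => hB₁ ⟨n, rfl⟩
  have hκ0 : ∀ n, 0 ≤ Berry.rAvg ρ D fun z => φ n z ^ 4 := fun n =>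
    integral_nonneg fun z => by positivity
  obtain ⟨B₂, hdat⟩ := S.dat hB'
  obtain ⟨R', B', hR', hA⟩ := hdat.aWave hB'
  set L : ℝ := (|B₁| + 3) / 3 with hLdef
  have hL0 : 0 ≤ L := by positivity
  obtain ⟨R₀, hR₀, hR₀'⟩ := Berry.unif_avg (erf_continuous a L) (erf_van a hL0) (erf_le a hL0)
    (ε / 2) (by positivity)
  refine ⟨R₀, fun R hR => ?_⟩
  have hR0 : 0 < R := hR₀.trans_le hR
  by_contra hcon
  rw [Filter.not_eventually] at hcon
  set bad : Set ℕ := {n | ¬ |(∫ p, (Berry.spatialAvg (Berry.rWave ρ (φ n) (m n)) a R p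
      - Berry.waveK a) ^ 2 ∂(Berry.rFrameProb ρ D))
      - (Berry.rAvg ρ D (fun z => φ n z ^ 4) - 3) * ((1 + Berry.waveK (2 * a)) / 3)| ≤ ε}
    with hbaddef
  have hne : (atTop ⊓ 𝓟 bad).NeBot := Filter.frequently_mem_iff_neBot.1 hcon
  set U := Ultrafilter.of (atTop ⊓ 𝓟 bad) with hUdef
  have hU' : (U : Filter ℕ) ≤ atTop ⊓ 𝓟 bad := Ultrafilter.of_le _
  have hU : (U : Filter ℕ) ≤ atTop := hU'.trans inf_le_left
  have hbad : ∀ᶠ n in (U : Filter ℕ), n ∈ bad := (hU'.trans inf_le_right) (mem_principal_self _)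
  obtain ⟨κ, hκ⟩ : ∃ κ, Tendsto (fun n => Berry.rAvg ρ D fun z => φ n z ^ 4) (U : Filter ℕ)
      (𝓝 κ) := Berry.ultra_lim (C := |B₁|) (Eventually.of_forall fun n => by
    rw [abs_of_nonneg (hκ0 n)]
    exact (hB' n).trans (le_abs_self _))
  have hκ1 : 0 ≤ κ := ge_of_tendsto' hκ hκ0
  have hκ2 : κ ≤ |B₁| := le_of_tendsto' hκ fun n => (hB' n).trans (le_abs_self _)
  have hκL : |κ - 3| / 3 ≤ L := by
    rw [hLdef]
    gcongr
    rw [abs_le]
    constructor <;> linarith [abs_nonneg B₁]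
  obtain ⟨H, i1, i2, i3, u, one, hu, hone, h4, h2⟩ := hA.limit U hU
  have h4' : ∀ x₁ x₂ x₃ x₄, inner ℝ (u x₁ x₂) (u x₃ x₄) = wick ![x₁, x₂, x₃, x₄]
      + (κ - 3) * defc ![x₁, x₂, x₃, x₄] := by
    intro x₁ x₂ x₃ x₄
    refine tendsto_nhds_unique (h4 x₁ x₂ x₃ x₄) ?_
    have a1 := (c4f ![x₁, x₂, x₃, x₄]).mono_left hU
    have a2 := a1.add (((hκ.sub_const 3).mul_const (defc ![x₁, x₂, x₃, x₄])).const_add
      (wick ![x₁, x₂, x₃, x₄]))
    rw [zero_add] at a2
    refine a2.congr' ?_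
    filter_upwards [hU (S.c4_ev hR' x₁ x₂ x₃ x₄)] with n hn
    rw [hn]
    simp only [Fin.prod_univ_four, Matrix.cons_val_zero, Matrix.cons_val_one, Matrix.cons_val]
    ring
  have h2' : ∀ x y, inner ℝ (u x y) one = Berry.waveK (x - y) := by
    intro x y
    refine tendsto_nhds_unique (h2 x y) ?_
    have a1 := (c2f ![x, y]).mono_left hU
    simp only [Matrix.cons_val_zero, Matrix.cons_val_one] at a1
    refine a1.congr' ?_
    filter_upwards [hU (S.c2_ev hR' x y)] with n hn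
    rw [hn]
    simp only [Fin.prod_univ_two, Matrix.cons_val_zero, Matrix.cons_val_one]
  have h3 := hA.norm_limit hU hu hone h4 h2 a (Berry.waveK a) hR0
  have h5 := hilb_var hu hone a hκL h4' h2' hR0 (hR₀' R hR)
  have h6 : Tendsto (fun n => (∫ p, (Berry.spatialAvg (Berry.rWave ρ (φ n) (m n)) a R p
      - Berry.waveK a) ^ 2 ∂(Berry.rFrameProb ρ D))
      - (Berry.rAvg ρ D (fun z => φ n z ^ 4) - 3) * ((1 + Berry.waveK (2 * a)) / 3))
      (U : Filter ℕ) (𝓝 (‖(⨍ s in ball (0:ℂ) R, u s (a + s)) - Berry.waveK a • one‖ ^ 2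
        - (κ - 3) * ((1 + Berry.waveK (2 * a)) / 3))) := by
    refine Tendsto.sub (h3.congr' ?_) ((hκ.sub_const 3).mul_const _)
    filter_upwards [hU hA.ev, hU (S.spatial_ev hR' a R)] with n hn hn2
    rw [← hn.1.planck_eq]
    simp only [hn2]
  have h7 := h6.abs.eventually (gt_mem_nhds (lt_of_le_of_lt h5 (half_lt_self hε)))
  obtain ⟨n, hn1, hn2⟩ := (h7.and hbad).exists
  exact hn2 hn1.le

end

end QE
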